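import Pool.Agent.MP_5d9b3c_ag.H48N.BasicO

/-!
Shifted cones are Cohen-Macaulay.
-/

namespace Pool.Agent.MP_5d9b3c_ag.H48N

open Finset Pool.Agent.MP_5d9b3c_ag.H22

namespace CMAux

/-- Normalised facets. -/
lemma facet_norm (hF : FacetStmt) {ι α : Type} [Fintype ι] [Fintype α] (v : α → ι → ℚ)
    (T : Finset α) {j0 : α} (h0 : j0 ∈ T) :
    ∃ G : Finset (ι → ℚ), (∀ g ∈ G, (∀ j ∈ T, 0 ≤ g ⬝ᵥ v j) ∧ (g ⬝ᵥ v j0 = 0 ∨ g ⬝ᵥ v j0 = 1) ∧
        rk v T ≤ rk v (T.filter (fun j => g ⬝ᵥ v j = 0)) + 1) ∧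
      ∀ x ∈ Submodule.span ℚ (v '' (T : Set α)), (∀ g ∈ G, 0 ≤ g ⬝ᵥ x) → Cone v T x := by
  classical
  obtain ⟨G, h1, h2⟩ := hF ι α v T
  have h3 : ∀ g : ι → ℚ, ∃ r : ℚ, g ∈ G → 0 < r ∧ (r * (g ⬝ᵥ v j0) = 0 ∨ r * (g ⬝ᵥ v j0) = 1) := by
    intro g
    by_cases h : g ⬝ᵥ v j0 = 0
    · exact ⟨1, fun _ => ⟨one_pos, Or.inl (by rw [h, mul_zero])⟩⟩
    · exact ⟨(g ⬝ᵥ v j0)⁻¹, fun hg => ⟨inv_pos.2 (lt_of_le_of_ne ((h1 g hg).1 j0 h0) (Ne.symm h)),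
        Or.inr (inv_mul_cancel₀ h)⟩⟩
  choose r hr using h3
  refine ⟨G.image (fun g => r g • g), fun g' hg' => ?_, fun x hx h => h2 x hx (fun g hg => ?_)⟩
  · obtain ⟨g, hg, rfl⟩ := mem_image.1 hg'
    simp only [smul_dotProduct, smul_eq_mul]
    refine ⟨fun j hj => mul_nonneg (hr g hg).1.le ((h1 g hg).1 j hj), (hr g hg).2, ?_⟩
    rw [filter_congr (q := fun j => g ⬝ᵥ v j = 0) (fun j _ => by simp [(hr g hg).1.ne'])]
    exact (h1 g hg).2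
  · have := h _ (mem_image_of_mem _ hg)
    rw [smul_dotProduct, smul_eq_mul] at this
    exact nonneg_of_mul_nonneg_right this (hr g hg).1

variable {ι κ : Type} [Fintype ι] [Fintype κ] {B : κ → Pt ι} {c : κ → ℂ} {A : Finset ι}
  {T : Finset κ}

omit [Fintype κ] in
/-- Faces of faces are faces. -/
lemma faceND_face (h : FaceND B c A T) {g : Vq ι} (hg : ∀ b ∈ T, 0 ≤ g ⬝ᵥ Bq B b) :
    FaceND B c A (T.filter (fun b => g ⬝ᵥ Bq B b = 0)) := by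
  intro n h1 h2
  obtain ⟨ε, hε, h3⟩ := H48.small (T.filter (fun b => g ⬝ᵥ Bq B b ≠ 0)) (fun b => g ⬝ᵥ Bq B b)
    (fun b => n ⬝ᵥ Bq B b) (fun b hb =>
      lt_of_le_of_ne (hg b (mem_filter.1 hb).1) (mem_filter.1 hb).2.symm)
  have e : ∀ b, (g + ε • n) ⬝ᵥ Bq B b = g ⬝ᵥ Bq B b + ε * (n ⬝ᵥ Bq B b) := fun b => by
    rw [add_dotProduct, smul_dotProduct, smul_eq_mul]
  have e2 : T.filter (fun b => (g + ε • n) ⬝ᵥ Bq B b = 0) =
      (T.filter (fun b => g ⬝ᵥ Bq B b = 0)).filter (fun b => n ⬝ᵥ Bq B b = 0) := by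
    ext b
    simp only [mem_filter, e]
    constructor
    · rintro ⟨h4, h5⟩
      by_cases h6 : g ⬝ᵥ Bq B b = 0
      · rw [h6, zero_add] at h5
        exact ⟨⟨h4, h6⟩, (mul_eq_zero.1 h5).resolve_left hε.ne'⟩
      · exact absurd h5 (h3 b (mem_filter.2 ⟨h4, h6⟩)).ne'
    · rintro ⟨⟨h4, h5⟩, h6⟩
      exact ⟨h4, by rw [h5, h6, mul_zero, add_zero]⟩
  rw [← e2] at h2 ⊢
  refine h _ (fun b hb => ?_) h2
  rw [e]
  by_cases h6 : g ⬝ᵥ Bq B b = 0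
  · rw [h6, zero_add]
    exact mul_nonneg hε.le (h1 b (mem_filter.2 ⟨hb, h6⟩))
  · exact (h3 b (mem_filter.2 ⟨hb, h6⟩)).le

lemma int_zero {z : ℤ} (h1 : (-1 : ℚ) < z) (h2 : (z : ℚ) < 1) : (z : ℚ) = 0 := by
  have h3 : -1 < z := by exact_mod_cast h1
  have h4 : z < 1 := by exact_mod_cast h2
  exact_mod_cast (by omega : z = 0)

/-- The apex can be moved to a generic position. -/
lemma generic (hG : GenStmt) (G : Finset (Vq ι)) (h1 : ∀ g ∈ G, ∀ b ∈ T, 0 ≤ g ⬝ᵥ Bq B b)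
    (h2 : ∀ x ∈ Submodule.span ℚ (Bq B '' (T : Set κ)), (∀ g ∈ G, 0 ≤ g ⬝ᵥ x) → Cone (Bq B) T x)
    (q y : Vq ι) : ∃ y' : Vq ι, CY B q T y' = CY B q T y ∧
      ∀ g ∈ G, ∀ g' ∈ G, ∀ u u' : Pt ι, g ⬝ᵥ (hat q u - y') = g' ⬝ᵥ (hat q u' - y') →
        ∀ b ∈ T, g ⬝ᵥ Bq B b = g' ⬝ᵥ Bq B b := by
  obtain ⟨m, hm, hd⟩ := disc_hat (fun g : G => g.1) q y
  have hm' : (0 : ℚ) < m := by exact_mod_cast hm
  obtain ⟨o, ho1, ho2, ho3⟩ := hG κ (G × G) T (fun p b => (p.1.1 - p.2.1) ⬝ᵥ Bq B b) 0 1 one_pos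
  obtain ⟨z, hz⟩ : ∃ z : Vq ι, z = ∑ b ∈ T, o b • Bq B b := ⟨_, rfl⟩
  have hc : Cone (Bq B) T z := hz ▸ Cone.of_sum (fun b hb => (ho1 b hb).1.le)
  have hdot : ∀ n : Vq ι, (fun b => n ⬝ᵥ Bq B b) ⬝ᵥ o = n ⬝ᵥ z := fun n => by
    rw [hz, dotProduct_sum, dotProduct,
      ← sum_subset (subset_univ T) (fun b _ hb => by rw [ho2 b hb, mul_zero])]
    exact sum_congr rfl (fun b _ => by rw [dotProduct_smul, smul_eq_mul, mul_comm])
  obtain ⟨ε, hε, h3⟩ := H48.small G (fun _ => 1) (fun g => -(m * (g ⬝ᵥ z))) (fun _ _ => one_pos)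
  have e : ∀ u, hat q u - (y - ε • z) = (hat q u - y) + ε • z := fun u => by abel
  have h4 : ∀ g ∈ G, 0 ≤ ε * (m * (g ⬝ᵥ z)) := fun g hg =>
    mul_nonneg hε.le (mul_nonneg hm'.le (hc.dot_nonneg (h1 g hg)))
  refine ⟨y - ε • z, ?_, fun g hg g' hg' u u' h b hb => ?_⟩
  · ext u
    change Cone _ _ _ ↔ Cone _ _ _
    rw [e]
    refine ⟨fun h => h2 _ ?_ (fun g hg => ?_), fun h => h.add (hc.smul hε.le)⟩
    · simpa using sub_mem h.mem_span (hc.smul hε.le).mem_span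
    · have h5 := h.dot_nonneg (h1 g hg)
      rw [dotProduct_add, dotProduct_smul, smul_eq_mul] at h5
      obtain ⟨t, ht⟩ := hd ⟨g, hg⟩ u
      have h6 := mul_nonneg hm'.le h5
      have h7 := h3 g hg
      have h8 : (-1 : ℚ) < t := by
        rw [← ht]
        nlinarith
      have h9 : 0 ≤ t := by
        have : -1 < t := by exact_mod_cast h8
        omega
      have h10 : (0 : ℚ) ≤ t := by exact_mod_cast h9
      rw [← ht] at h10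
      exact nonneg_of_mul_nonneg_right h10 hm'
  · by_contra hne
    have h5 := ho3 (⟨g, hg⟩, ⟨g', hg'⟩) ⟨b, hb, by rwa [sub_dotProduct, sub_ne_zero]⟩
    rw [hdot, sub_dotProduct] at h5
    simp only [e, dotProduct_add, dotProduct_smul, smul_eq_mul] at h
    obtain ⟨t, ht⟩ := hd ⟨g, hg⟩ u
    obtain ⟨t', ht'⟩ := hd ⟨g', hg'⟩ u'
    have h6 : ((t - t' : ℤ) : ℚ) = ε * (m * (g' ⬝ᵥ z)) - ε * (m * (g ⬝ᵥ z)) := by
      push_cast
      rw [← ht, ← ht']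
      linear_combination (m : ℚ) * h
    have h7 := h3 g hg
    have h8 := h3 g' hg'
    have h9 := h4 g hg
    have h10 := h4 g' hg'
    rw [int_zero (by rw [h6]; linarith) (by rw [h6]; linarith)] at h6
    have h11 : ε * (m * (g ⬝ᵥ z - g' ⬝ᵥ z)) = 0 := by linear_combination h6
    rw [mul_eq_zero, mul_eq_zero] at h11
    apply h5
    rw [(h11.resolve_left hε.ne').resolve_left hm'.ne']
    simp

variable [LinearOrder ι] [DecidableEq κ]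

omit [Fintype ι] in
lemma stab_CY (q y : Vq ι) : Stab (FT B c T) (res A (CY B q T y)) :=
  Stab.res A (fun i _ _ hu => FT_mem i (fun _ hb => CY_add hu hb))

/-- One layer of the filtration. -/
lemma layer {G : Finset (Vq ι)} {v : κ} (hv : v ∈ T) {q y : Vq ι} {k : ℕ} {δ : ℚ} (hδ : 0 < δ)
    (h1 : ∀ g ∈ G, (∀ b ∈ T, 0 ≤ g ⬝ᵥ Bq B b) ∧ (g ⬝ᵥ Bq B v = 0 ∨ g ⬝ᵥ Bq B v = 1))
    (h2 : ∀ x ∈ Submodule.span ℚ (Bq B '' (T : Set κ)), (∀ g ∈ G, 0 ≤ g ⬝ᵥ x) → Cone (Bq B) T x)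
    (h3 : ∀ g ∈ G, ∀ g' ∈ G, g ⬝ᵥ Bq B v = 1 → g' ⬝ᵥ Bq B v = 1 → ∀ u u' : Pt ι,
      g ⬝ᵥ (hat q u - y) = g' ⬝ᵥ (hat q u' - y) → ∀ b ∈ T, g ⬝ᵥ Bq B b = g' ⬝ᵥ Bq B b)
    (h4 : ∀ g ∈ G, g ⬝ᵥ Bq B v = 1 → ∀ u : Pt ι, 0 ≤ g ⬝ᵥ (hat q u - y) →
      g ⬝ᵥ (hat q u - y) < δ → g ⬝ᵥ (hat q u - y) = 0)
    (h5 : ∀ g ∈ G, g ⬝ᵥ Bq B v = 1 → Ex (FT B c (T.filter (fun b => g ⬝ᵥ Bq B b = 0))) k
      (res A (CY B q (T.filter (fun b => g ⬝ᵥ Bq B b = 0)) y)) (emp _ _)) :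
    Ex (FT B c T) k (res A (CY B q T y)) (res A (CY B q T (y + δ • Bq B v))) := by
  have e : ∀ u, hat q u - (y + δ • Bq B v) = (hat q u - y) - δ • Bq B v := fun u => by abel
  have key : ∀ u ∈ CY B q T y, u ∉ CY B q T (y + δ • Bq B v) →
      ∃ g ∈ G, g ⬝ᵥ Bq B v = 1 ∧ g ⬝ᵥ (hat q u - y) = 0 := by
    intro u hu hu'
    have hu1 : Cone (Bq B) T (hat q u - y) := hu
    by_contra hne
    apply hu'
    change Cone _ _ _
    rw [e]
    refine h2 _ (sub_mem hu1.mem_span ((Cone.single hv).smul hδ.le).mem_span) (fun g hg => ?_)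
    have h6 := hu1.dot_nonneg (h1 g hg).1
    rw [dotProduct_sub, dotProduct_smul, smul_eq_mul]
    rcases (h1 g hg).2 with h7 | h7
    · rw [h7]
      linarith
    · rw [h7]
      by_contra h8
      exact hne ⟨g, hg, h7, h4 g hg h7 u h6 (by linarith)⟩
  by_cases hne : ∃ u0 ∈ CY B q T y, u0 ∉ CY B q T (y + δ • Bq B v)
  swap
  · refine Ex.of_subset (fun J _ u hu => ⟨hu.1, ?_⟩)
    by_contra h
    exact hne ⟨u, hu.2, h⟩
  obtain ⟨u0, h6, h7⟩ := hne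
  obtain ⟨g0, hg0, h8, h9⟩ := key u0 h6 h7
  have k1 : ∀ u ∈ CY B q T y, u ∉ CY B q T (y + δ • Bq B v) →
      u ∈ CY B q (T.filter (fun b => g0 ⬝ᵥ Bq B b = 0)) y := by
    intro u hu hu'
    obtain ⟨g, hg, h10, h11⟩ := key u hu hu'
    have h12 := h3 g hg g0 hg0 h10 h8 u u0 (h11.trans h9.symm)
    rw [← filter_congr (p := fun b => g ⬝ᵥ Bq B b = 0) (fun b hb => by rw [h12 b hb])]
    exact Cone.face hu (h1 g hg).1 h11.le
  have k2 : ∀ u ∈ CY B q (T.filter (fun b => g0 ⬝ᵥ Bq B b = 0)) y, g0 ⬝ᵥ (hat q u - y) = 0 :=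
    fun u hu => Cone.dot_zero hu (fun b hb => (mem_filter.1 hb).2)
  have k3 : ∀ u ∈ CY B q (T.filter (fun b => g0 ⬝ᵥ Bq B b = 0)) y, u ∈ CY B q T y :=
    fun u hu => Cone.mono hu (filter_subset _ _)
  refine Ex.chg (h5 g0 hg0 h8) (stab_CY q _) (stab_CY q _) (fun J u hu => ?_)
    (fun J u hu => ⟨hu.1, k3 u hu.2⟩) (fun J u hu hu' => ?_) (fun J i _ u hu => ?_)
  · by_cases h : u ∈ CY B q T (y + δ • Bq B v)
    · exact Or.inr ⟨hu.1, h⟩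
    · exact Or.inl ⟨hu.1, k1 u hu.2 h⟩
  · have h10 := Cone.dot_nonneg hu'.2 (h1 g0 hg0).1
    rw [e, dotProduct_sub, dotProduct_smul, smul_eq_mul, k2 u hu.2, h8] at h10
    linarith
  · refine op_sub_mem (fun h => absurd rfl h) (fun b hb => ⟨(subset_insert _ _).trans hu.1, ?_⟩)
    have hbT : b ∈ T := by
      by_contra h
      exact hb (by rw [if_neg h, if_neg (fun h' => h (mem_filter.1 h').1)])
    by_contra h
    have h10 := k2 _ (k1 _ (CY_add (k3 u hu.2) hbT) h)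
    rw [hat_add_sub, dotProduct_add, k2 u hu.2, zero_add] at h10
    exact hb (by rw [if_pos hbT, if_pos (mem_filter.2 ⟨hbT, h10⟩)])

end CMAux

open CMAux in
theorem cm (hN : NSStmt) (hF : FacetStmt) (hG : GenStmt) : CMStmt := by
  intro ι κ _ _ _ _ B c A T
  induction T using Finset.strongInduction with
  | H T ih =>
  intro hT q y k hk
  rcases T.eq_empty_or_nonempty with rfl | ⟨v, hv⟩
  · refine Ex.of_subset (fun J hJ u hu => ?_)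
    have h1 := card_le_card hu.1
    have h2 : rk (Bq B) ∅ = 0 := by simp [rk]
    omega
  obtain ⟨G, h1, h2⟩ := facet_norm hF (Bq B) T hv
  obtain ⟨y', e, h3⟩ := generic hG G (fun g hg => (h1 g hg).1) h2 q y
  rw [← e]
  obtain ⟨m, hm, hd⟩ := disc_hat (fun g : G => g.1) q y'
  have hm' : (0 : ℚ) < m := by exact_mod_cast hm
  obtain ⟨Y, hY⟩ : ∃ Y : ℕ → Vq ι, Y = fun n : ℕ => y' - ((n : ℚ) / m) • Bq B v := ⟨_, rfl⟩
  have e0 : Y 0 = y' := by simp [hY]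
  have e1 : ∀ n, Y n = Y (n + 1) + (1 / m : ℚ) • Bq B v := fun n => by
    simp only [hY, Nat.cast_succ, add_div, add_smul]
    abel
  have e2 : ∀ n u, hat q (u - B v) - Y (n + m) = hat q u - Y n := fun n u => by
    simp only [hY, hat_sub, Nat.cast_add, add_div, div_self hm'.ne', add_smul, one_smul]
    abel
  have e3 : ∀ n u, ∀ g : Vq ι, g ⬝ᵥ Bq B v = 1 →
      g ⬝ᵥ (hat q u - Y n) = g ⬝ᵥ (hat q u - y') + n / m := fun n u g hg => by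
    simp only [hY, dotProduct_sub, dotProduct_smul, smul_eq_mul, hg]
    ring
  obtain ⟨H, k1, k2, k3, k4⟩ := hN ι κ B c A T hT v hv
  have k5 : Ex (FT B c T) k (res A {u | ∃ n, u ∈ CY B q T (Y n)}) (emp _ _) :=
    Ex.of_htpy H k1 k2 k3 (k4 _ (fun u hu b hb => hu.imp (fun n hn => CY_add hn hb))
      (fun u ⟨n, hn⟩ => ⟨n + m, by
        change Cone _ _ _
        rw [e2]
        exact hn⟩))
  have k6 : Ex (FT B c T) (k + 1) (res A {u | ∃ n, u ∈ CY B q T (Y n)})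
      (res A (CY B q T (Y 0))) := by
    refine Ex.chain comm_FT (fun n => res A (CY B q T (Y n))) (fun n => ?_)
      (fun n J u hu => ⟨hu.1, ?_⟩) (fun n J u hu => ⟨hu.1, n, hu.2⟩)
      (fun J u hu => hu.2.imp (fun n hn => ⟨hu.1, hn⟩))
    · rw [e1 n]
      refine layer hv (by positivity) (fun g hg => ⟨(h1 g hg).1, (h1 g hg).2.1⟩) h2
        (fun g hg g' hg' h4 h5 u u' h6 => h3 g hg g' hg' u u' ?_) (fun g hg h4 u h5 h6 => ?_)
        (fun g hg h4 => ?_)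
      · rw [e3 _ _ _ h4, e3 _ _ _ h5] at h6
        exact add_right_cancel h6
      · obtain ⟨t, ht⟩ := hd ⟨g, hg⟩ u
        have h7 : ((t + (n + 1 : ℕ) : ℤ) : ℚ) = m * (g ⬝ᵥ (hat q u - Y (n + 1))) := by
          rw [e3 _ _ _ h4, mul_add, mul_div_cancel₀ _ hm'.ne', ht]
          push_cast
          ring
        rw [lt_div_iff₀ hm'] at h6
        have h8 := mul_nonneg hm'.le h5
        rw [int_zero (by rw [h7]; linarith) (by rw [h7]; linarith)] at h7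
        exact (mul_eq_zero.1 h7.symm).resolve_left hm'.ne'
      · refine ih _ (filter_ssubset.2 ⟨v, hv, by rw [h4]; exact one_ne_zero⟩)
          (faceND_face hT (h1 g hg).1) q _ _ ?_
        have := (h1 g hg).2.2
        omega
    · have h4 : Cone (Bq B) T (hat q u - Y n) := hu.2
      have h5 := h4.add ((Cone.single hv).smul (r := 1 / m) (by positivity))
      change Cone _ _ _
      rwa [e1 n, ← sub_sub, sub_add_cancel] at h5
  rw [e0] at k6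
  exact Ex.two_of_three comm_FT k6 k5 (fun J u hu => ⟨hu.1, 0, by rw [e0]; exact hu.2⟩)
    (fun J u hu => hu.elim)

end Pool.Agent.MP_5d9b3c_ag.H48N
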