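import Pool.Agent.MP_5d9b3c_ag.H48N.Spec

/-!
Generic coefficients: derivations of the complex numbers over a countable subfield.
-/

namespace Pool.Agent.MP_5d9b3c_ag.H48N

open Finset

namespace GammaAux

open scoped IntermediateField.algebraAdjoinAdjoin in
lemma exists_der {K σ : Type} [Field K] [CharZero K] [Algebra K ℂ] [DecidableEq σ] {v : σ → ℂ}
    (hv : IsTranscendenceBasis K v) (j : σ) :
    ∃ D : Derivation K ℂ ℂ, ∀ i, D (v i) = if i = j then 1 else 0 := by
  have h1 : Algebra.FormallyEtale (Algebra.adjoin K (Set.range v))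
      (IntermediateField.adjoin K (Set.range v)) := .of_isLocalization (nonZeroDivisors _)
  have h2 := hv.isAlgebraic_field
  have h3 : Algebra.FormallyEtale (IntermediateField.adjoin K (Set.range v)) ℂ :=
    Algebra.FormallyEtale.of_isSeparable _ ℂ
  have h4 : Algebra.FormallyEtale (Algebra.adjoin K (Set.range v)) ℂ :=
    .comp _ (IntermediateField.adjoin K (Set.range v)) _
  have he : ∀ a : Algebra.adjoin K (Set.range v),
      MvPolynomial.aeval v (hv.1.aevalEquiv.symm a) = (a : ℂ) := by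
    intro a
    rw [← hv.1.algebraMap_aevalEquiv, AlgEquiv.apply_symm_apply]; rfl
  let δ : Derivation K (Algebra.adjoin K (Set.range v)) ℂ := Derivation.mk'
    ((MvPolynomial.aeval v).toLinearMap ∘ₗ (MvPolynomial.pderiv j).toLinearMap ∘ₗ
      hv.1.aevalEquiv.symm.toLinearMap) (fun a b => by
      simp [Derivation.leibniz, he, Algebra.smul_def])
  refine ⟨((δ.liftKaehlerDifferential.liftBaseChange ℂ) ∘ₗ
    (KaehlerDifferential.tensorKaehlerEquivOfFormallyEtale K (Algebra.adjoin K (Set.range v))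
      ℂ).symm.toLinearMap).compDer (KaehlerDifferential.D K ℂ), fun i => ?_⟩
  have e : v i = algebraMap (Algebra.adjoin K (Set.range v)) ℂ
      (hv.1.aevalEquiv (MvPolynomial.X i)) := by
    rw [hv.1.algebraMap_aevalEquiv, MvPolynomial.aeval_X]
  have := KaehlerDifferential.tensorKaehlerEquivOfFormallyEtale_symm_D_algebraMap K
    (Algebra.adjoin K (Set.range v)) ℂ (hv.1.aevalEquiv (MvPolynomial.X i))
  rw [← e] at this
  change (δ.liftKaehlerDifferential.liftBaseChange ℂ)
    ((KaehlerDifferential.tensorKaehlerEquivOfFormallyEtale K (Algebra.adjoin K (Set.range v))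
      ℂ).symm (KaehlerDifferential.D K ℂ (v i))) = _
  rw [this, LinearMap.liftBaseChange_tmul, one_smul, Derivation.liftKaehlerDifferential_comp_D]
  change MvPolynomial.aeval v (MvPolynomial.pderiv j
    (hv.1.aevalEquiv.symm (hv.1.aevalEquiv (MvPolynomial.X i)))) = _
  rw [AlgEquiv.symm_apply_apply, MvPolynomial.pderiv_X, Pi.single_apply]
  split_ifs <;> simp

lemma der_prod {K ι : Type} [Field K] [Algebra K ℂ] (D : Derivation K ℂ ℂ) (x : ι → ℂ)
    (hx : ∀ i, x i ≠ 0) (e : ι → ℤ) (s : Finset ι) :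
    D (∏ k ∈ s, x k ^ e k) = (∏ k ∈ s, x k ^ e k) * ∑ k ∈ s, e k * (D (x k) / x k) := by
  classical
  induction s using Finset.induction_on with
  | empty => simp
  | insert k s hk ih =>
    rw [prod_insert hk, sum_insert hk, Derivation.leibniz, ih, Derivation.leibniz_zpow,
      zpow_sub_one₀ (hx k)]
    simp only [smul_eq_mul, zsmul_eq_mul]
    ring

lemma exists_gen (α κ : Type) [Fintype α] [Fintype κ] [DecidableEq α] (c : κ → ℂ) :
    ∃ (K : Subfield ℂ) (γ : α → ℂ), (∀ k, c k ∈ K) ∧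
      ∀ j, ∃ D : Derivation K ℂ ℂ, ∀ i, D (γ i) = if i = j then 1 else 0 := by
  classical
  obtain ⟨s, hs⟩ := exists_isTranscendenceBasis (Subfield.closure (Set.range c)) ℂ
  have hK : Cardinal.mk (Subfield.closure (Set.range c)) ≤ Cardinal.aleph0 :=
    (Subfield.cardinalMk_closure_le_max _).trans
      (max_le (Set.finite_range c).lt_aleph0.le le_rfl)
  have hC : Cardinal.aleph0 < Cardinal.mk ℂ := by
    rw [Cardinal.mk_complex]; exact Cardinal.aleph0_lt_continuum
  have h := IsAlgClosed.cardinal_eq_cardinal_transcendence_basis_of_aleph0_lt' _ hs hK hC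
  have : Infinite s := Cardinal.infinite_iff.2 (h ▸ hC.le)
  let f : α ↪ s := (Fintype.equivFin α).toEmbedding.trans
    (Fin.valEmbedding.trans (Infinite.natEmbedding s))
  refine ⟨Subfield.closure (Set.range c), fun i => f i,
    fun k => Subfield.subset_closure ⟨k, rfl⟩, fun j => ?_⟩
  obtain ⟨D, hD⟩ := exists_der hs (f j)
  exact ⟨D, fun i => by rw [hD (f i)]; simp⟩

end GammaAux

open GammaAux

theorem gamma : GammaStmt := by
  classical
  intro α κ _ _ c
  obtain ⟨K, γ, hc, hγ⟩ := exists_gen α κ c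
  refine ⟨γ, fun ι _ a e S S' x τ ⟨j0, hj0⟩ hx h1 h2 => ?_⟩
  by_contra hn
  push Not at hn
  obtain ⟨D, hD⟩ := hγ j0
  have d1 := congrArg D h1
  have d2 := congrArg D h2
  rw [map_zero, map_sum] at d1 d2
  have e1 : ∑ j ∈ S, D (c j * ∏ k, x k ^ a j k) =
      ∑ i, (∑ j ∈ S, c j * a j i * ∏ k, x k ^ a j k) * (D (x i) / x i) := by
    simp only [sum_mul]
    rw [sum_comm]
    refine sum_congr rfl fun j _ => ?_
    have u := der_prod D x hx (fun k => (a j k : ℤ)) univ
    simp only [zpow_natCast, Int.cast_natCast] at u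
    have w : D (c j) = 0 := D.map_algebraMap ⟨c j, hc j⟩
    rw [Derivation.leibniz, u, w, smul_zero, add_zero, smul_eq_mul, mul_sum, mul_sum]
    exact sum_congr rfl fun i _ => by ring
  have e2 : ∑ j ∈ S', D (γ j * ∏ k, x k ^ e j k) =
      ∑ i, (∑ j ∈ S', γ j * e j i * ∏ k, x k ^ e j k) * (D (x i) / x i) + ∏ k, x k ^ e j0 k := by
    have : ∏ k, x k ^ e j0 k = ∑ j ∈ S', (∏ k, x k ^ e j k) * if j = j0 then 1 else 0 := by
      simp [hj0]
    simp only [sum_mul]
    rw [sum_comm, this, ← sum_add_distrib]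
    refine sum_congr rfl fun j _ => ?_
    rw [Derivation.leibniz, der_prod D x hx (e j) univ, hD, smul_eq_mul, smul_eq_mul, mul_sum,
      mul_sum]
    congr 1
    exact sum_congr rfl fun i _ => by ring
  rw [e1] at d1
  rw [e2] at d2
  have e3 : ∑ i, (∑ j ∈ S', γ j * e j i * ∏ k, x k ^ e j k) * (D (x i) / x i) =
      -τ * ∑ i, (∑ j ∈ S, c j * a j i * ∏ k, x k ^ a j k) * (D (x i) / x i) := by
    rw [mul_sum]
    refine sum_congr rfl fun i _ => ?_
    rw [eq_neg_of_add_eq_zero_right (hn i)]; ring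
  rw [e3, d1, mul_zero, zero_add] at d2
  exact prod_ne_zero_iff.2 (fun k _ => zpow_ne_zero _ (hx k)) d2

end Pool.Agent.MP_5d9b3c_ag.H48N
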