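import Pool.Agent.MP_5d9b3c_ag.H48N.BasicO

/-!
Assembly of the differential side.
-/

namespace Pool.Agent.MP_5d9b3c_ag.H48N

open Finset Pool.Agent.MP_5d9b3c_ag.H22

namespace DsideAux

variable {ι κ : Type} [LinearOrder ι] {a : κ → ι →₀ ℕ} {K : Finset ι}

lemma bx_inl (j : κ) : bx (BB a K) (Sum.inl j) = Aq a j := by
  ext k
  simp [bx, BB, Aof, Aq]

lemma lev_inl (j : κ) : lev (BB a K) (Sum.inl j) = 1 := by simp [lev, BB, Aof]

lemma lev_inr (t : ι ⊕ K) : lev (BB a K) (Sum.inr t) = 0 := by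
  rcases t with k | k <;> simp [lev, BB]

lemma bx_pos (k : ι) : bx (BB a K) (Sum.inr (Sum.inl k)) = Pi.single k 1 := by
  ext i
  simp only [bx, BB, Sum.elim_inr, Sum.elim_inl, Pi.single_apply, Option.some.injEq]
  split_ifs <;> simp

lemma bx_neg (k : K) : bx (BB a K) (Sum.inr (Sum.inr k)) = -Pi.single k.1 1 := by
  ext i
  simp only [bx, BB, Sum.elim_inr, Pi.single_apply, Option.some.injEq, Pi.neg_apply]
  split_ifs <;> simp

variable [Fintype ι]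

lemma feas_lev {w : ι → ℚ} (h : Feas (bx (BB a K)) (lev (BB a K)) w) :
    InG a w ∧ ∀ k ∈ K, w k = 0 := by
  have h1 : ∀ k, 0 ≤ w k := fun k => by
    simpa [lev_inr, bx_pos] using h (Sum.inr (Sum.inl k))
  refine ⟨inG_iff.2 ⟨fun j => by simpa [lev_inl, bx_inl] using h (Sum.inl j), h1⟩,
    fun k hk => le_antisymm ?_ (h1 k)⟩
  simpa [lev_inr, bx_neg] using h (Sum.inr (Sum.inr ⟨k, hk⟩))

end DsideAux

open DsideAux in
theorem dside (hF : FanStmt) (hL : LayerStmt) (hK : LinkStmt) (hP : ProjStmt) (hI : KillStmt)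
    (hS : SVStmt) : DStmt := by
  intro ι κ _ _ _ _ a c b l hnd hb hl w hw τ μ hc
  obtain ⟨K, hKe⟩ : ∃ K : Finset ι, K = univ.filter (fun k => w k = 0) := ⟨_, rfl⟩
  obtain ⟨hw1, hw2⟩ := inG_iff.1 hw.1
  have mK : ∀ k, k ∈ K ↔ w k = 0 := fun k => by simp [hKe]
  have mF : ∀ k, k ∉ K ↔ k ∈ Fw w := fun k => by
    rw [mK, mem_Fw]
    exact ⟨fun h => lt_of_le_of_ne (hw2 k) (Ne.symm h), fun h => h.ne'⟩
  obtain ⟨γ, η, W, wc, hfan⟩ := hF ι κ a c K hnd ⟨w, hw.1, fun k hk => (mK k).1 hk⟩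
  obtain ⟨lq, hlq⟩ : ∃ lq : ℚ, lq = ∑ k, w k := ⟨_, rfl⟩
  have hll : (lq : ℝ) = l := by rw [hlq]; exact hw.sum
  obtain ⟨q, hq⟩ : ∃ q : Vq ι, q = qq lq (fun _ => 1) := ⟨_, rfl⟩
  obtain ⟨T, hT⟩ : ∃ T : Finset (κ ⊕ ι ⊕ K), T = (Tw a w).map Function.Embedding.inl := ⟨_, rfl⟩
  have sT : ∀ {M : Type} [AddCommMonoid M] (f : κ ⊕ ι ⊕ K → M),
      ∑ b ∈ T, f b = ∑ j ∈ Tw a w, f (Sum.inl j) := fun f => by rw [hT, sum_map]; rfl
  have aT : ∀ {P : κ ⊕ ι ⊕ K → Prop}, (∀ j ∈ Tw a w, P (Sum.inl j)) → ∀ b ∈ T, P b := by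
    intro P h b hb
    rw [hT] at hb
    obtain ⟨j, hj, rfl⟩ := mem_map.1 hb
    exact h j hj
  obtain ⟨τ', hτ⟩ : ∃ τ' : κ ⊕ ι ⊕ K → ℚ, τ' = Sum.elim τ 0 := ⟨_, rfl⟩
  obtain ⟨y, hy⟩ : ∃ y : Vq ι, y = q - ∑ b ∈ T, τ' b • Bq (BB a K) b := ⟨_, rfl⟩
  have hwf : Feas (bx (BB a K)) (val (BB a K) η) w := by
    rintro (j | k | k)
    · simpa [val, lev_inl, bx_inl] using hw1 j
    · simp only [val, lev_inr, bx_pos, dotProduct_single]
      linarith [hfan.pos, hw2 k]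
    · simp only [val, lev_inr, bx_neg, dotProduct_neg, dotProduct_single, (mK k).1 k.2]
      linarith [hfan.pos]
  have hTt : T = Tt (bx (BB a K)) (val (BB a K) η) w := by
    ext (j | k | k)
    · simp [hT, mem_Tt, mem_Tw, val, lev_inl, bx_inl]
    · simp only [hT, mem_Tt, val, lev_inr, bx_pos, dotProduct_single]
      refine iff_of_false (by simp) ?_
      linarith [hfan.pos, hw2 k]
    · simp only [hT, mem_Tt, val, lev_inr, bx_neg, dotProduct_neg, dotProduct_single,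
        (mK k).1 k.2]
      refine iff_of_false (by simp) (fun h => ?_)
      linarith [hfan.pos]
  have hdot : ∀ (w' : ι → ℚ) (u : Pt ι), H48N.hw w' ⬝ᵥ (hat q u - y) =
      H48N.hw w' ⬝ᵥ (fun o => (u o : ℚ)) + ∑ j ∈ Tw a w, τ j * (w' ⬝ᵥ Aq a j - 1) := by
    intro w' u
    rw [dot_hat_sub, hy, sub_sub_cancel, dotProduct_sum, sT]
    simp only [dotProduct_smul, hw_Bq, bx_inl, lev_inl, hτ, Sum.elim_inl, smul_eq_mul]
  have hterm : ∀ ψ ∈ W, ∀ j ∈ Tw a w, 0 ≤ τ j * (wc ψ ⬝ᵥ Aq a j - 1) := fun ψ hψ j hj =>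
    mul_nonneg (hc.pos j hj).le
      (sub_nonneg.2 ((inG_iff.1 (feas_lev (hfan.cfeas ψ hψ)).1).1 j))
  have hpp : ∀ k, pp q y 0 k = ∑ j ∈ Tw a w, τ j * a j k := fun k => by
    rw [pp, hat_zero, hy, Pi.sub_apply, sub_sub_cancel, Finset.sum_apply, sT]
    simp [hτ, bx_inl, Aq]
  have hst := fun u hu => Ypos_add (B := BB a K) (q := q) (y := y) (u := u) hfan.cfeas hu
  have h1 := hS ι κ a c b hb K γ lq (N0 (BB a K) (Sum.elim c γ) q (Ypos W wc q y))
    (hq ▸ Dx_mem_N0 _) (hq ▸ fun e he => D0_mem_N0 (hq ▸ hst) he) (fun u hu hu' =>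
      Su_le_N0 (single_mem_Su (fun ψ hψ => by
        obtain ⟨h2, h3⟩ := feas_lev (hfan.cfeas ψ hψ)
        have h4 : 0 ≤ wc ψ ⬝ᵥ fun k => (u (some k) : ℚ) := sum_nonneg (fun k _ => by
          by_cases hk : k ∈ K
          · simp [h3 k hk]
          · exact mul_nonneg ((inG_iff.1 h2).2 k) (Int.cast_nonneg (hu' k hk)))
        rw [hdot, hw_dot, hu]
        have := sum_nonneg (hterm ψ hψ)
        push_cast
        linarith) 1))
  rw [← hq] at h1
  obtain ⟨π, ⟨r, rfl⟩, h2⟩ := hI ι _ (BB a K) (Sum.elim c γ) W wc q y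
    (Submonoid.powers Polynomial.X) {u | ∀ ψ ∈ W, 0 ≤ H48N.hw (wc ψ) ⬝ᵥ fun o => (u o : ℚ)}
    hfan.cfeas (fun u hu b ψ hψ => by
      have e : (fun o => ((u + BB a K b) o : ℚ)) = (fun o => (u o : ℚ)) + Bq (BB a K) b := by
        ext o
        simp [Bq]
      rw [e, dotProduct_add, hw_Bq]
      linarith [hu ψ hψ, hfan.cfeas ψ hψ b]) (fun u hu ψ hψ _ h3 => by
      rw [hdot] at h3
      have h4 := sum_nonneg (hterm ψ hψ)
      have h5 := hu ψ hψ
      have h6 := (sum_eq_zero_iff_of_nonneg (hterm ψ hψ)).1 (by linarith)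
      obtain ⟨h7, h8⟩ := feas_lev (hfan.cfeas ψ hψ)
      have h9 := hw.2 _ h7 (by
        rintro (j | k) hj
        · rw [inl_mem_tg] at hj ⊢
          have := (mul_eq_zero.1 (h6 j hj)).resolve_left (hc.pos j hj).ne'
          exact mem_Tw.2 (sub_eq_zero.1 this)
        · rw [inr_mem_tg] at hj ⊢
          exact h8 k ((mK k).2 hj))
      rw [← hll, Rat.cast_inj] at h9
      have e : H48N.hw (wc ψ) ⬝ᵥ hat q u = 0 := by
        have := dot_hat_sub (q := q) (y := 0) (H48N.hw (wc ψ)) u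
        rw [sub_zero, sub_zero] at this
        rw [this, hw_dot _ q, hq]
        simp only [qq_some, qq_none, dotProduct, mul_one, h9] at h5 h4 h3 ⊢
        linarith
      rw [e]
      exact ⟨1, by simp⟩) 0 (fun ψ _ => by simp [dotProduct])
  have h3 : Finsupp.single 0 1 ∈ N0 (BB a K) (Sum.elim c γ) q (Ypos W wc q y) := by
    have hco : IsCoprime (Polynomial.X ^ r)
        (b.comp (Polynomial.X - Polynomial.C (lq : ℂ))) := by
      refine IsCoprime.pow_left ((Polynomial.irreducible_X.coprime_iff_not_dvd).2 ?_)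
      rw [Polynomial.X_dvd_iff, Polynomial.coeff_zero_eq_eval_zero, Polynomial.eval_comp]
      simpa [← hll] using hl
    obtain ⟨s, t, hst'⟩ := hco
    have h4 := add_mem (aeval_mem_N0 hst s h2) (aeval_mem_N0 hst t h1)
    have e : D0 (BB a K) (Sum.elim c γ) q - (lq : ℂ) • 1 = Polynomial.aeval
        (D0 (BB a K) (Sum.elim c γ) q) (Polynomial.X - Polynomial.C (lq : ℂ)) := by
      simp [Algebra.algebraMap_eq_smul_one]
    rw [e, ← Polynomial.aeval_comp, ← Module.End.mul_apply, ← Module.End.mul_apply, ← map_mul,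
      ← map_mul, ← LinearMap.add_apply, ← map_add, hst'] at h4
    simpa using h4
  have hcone : Cone (Bq (BB a K)) T (hat q 0 - y) := by
    rw [hat_zero, hy, sub_sub_cancel]
    exact Cone.of_sum (aT (fun j hj => by rw [hτ]; exact (hc.pos j hj).le))
  have h0 : (0 : Pt ι) ∈ GG K W wc q y := by
    obtain ⟨ψ, h4, h5⟩ := hfan.exists_min (p := pp q y 0) (fun k _ => by
      rw [hpp]
      exact sum_nonneg (fun j hj => mul_nonneg (hc.pos j hj).le (Nat.cast_nonneg _)))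
    refine hfan.mem_GG h4 (hcone.mono (aT (fun j hj => ?_)))
    have e : ∀ v : ι → ℚ, v ⬝ᵥ pp q y 0 = ∑ j ∈ Tw a w, τ j * (v ⬝ᵥ Aq a j) := fun v => by
      simp only [dotProduct, hpp, mul_sum, Aq]
      rw [sum_comm]
      exact sum_congr rfl (fun _ _ => sum_congr rfl (fun _ _ => by ring))
    have h6 := h5 w hwf
    have h7 : ∀ j ∈ Tw a w, 0 ≤ τ j * (ψ ⬝ᵥ Aq a j) - τ j * (w ⬝ᵥ Aq a j) := fun j hj => by
      have := hfan.feas ψ h4 (Sum.inl j)
      simp only [val, lev_inl, bx_inl, sub_self, mul_zero, sub_zero] at this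
      rw [mem_Tw.1 hj, ← mul_sub]
      exact mul_nonneg (hc.pos j hj).le (sub_nonneg.2 this)
    rw [e, e, ← sub_nonpos, ← sum_sub_distrib] at h6
    have h8 := (sum_eq_zero_iff_of_nonneg h7).1 (le_antisymm h6 (sum_nonneg h7)) j hj
    rw [mem_Tw.1 hj, ← mul_sub, mul_eq_zero, or_iff_right (hc.pos j hj).ne', sub_eq_zero] at h8
    simpa [mem_Tt, val, lev_inl, bx_inl] using h8
  obtain ⟨e, d1, i1, k1⟩ := hL ι _ _ _ K η W wc hfan q y (fun k hk => by
    have h4 := hc.one k ((mF k).1 hk)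
    rw [← hpp, pp, hat_zero, hq] at h4
    simp only [qq_some] at h4
    linarith) 0 h0 h3
  obtain ⟨S, hSe⟩ : ∃ S : Finset ι, S = univ.filter (fun k => 0 < μ k) := ⟨_, rfl⟩
  have mS : ∀ k, k ∈ S ↔ 0 < μ k := fun k => by simp [hSe]
  have hSF : ∀ k ∈ S, k ∈ Fw w := fun k hk => by
    by_contra h
    exact ((mS k).1 hk).ne' (hc.off k h)
  have hSK : Disjoint S K := disjoint_left.2 (fun k hk => (mF k).2 (hSF k hk))
  have hS1 : ∀ k ∈ S, ∑ j ∈ Tw a w, τ j * a j k = 1 := fun k hk =>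
    (hc.comp k (hSF k hk)).1 ((mS k).1 hk)
  obtain ⟨e', d2, _, i2⟩ := hK ι _ _ _ K η W wc hfan q y S hSK e d1 i1 (d1.kd.in_zero (by
    rw [k1]
    refine single_mem_Su ?_ 1
    refine ⟨h0, fun k hk => ?_⟩
    rw [hpp, hS1 k (mem_sdiff.1 hk).1]
    exact one_pos))
  rintro ⟨x, hx1, hx2⟩
  obtain ⟨i, h4, h5⟩ := hP ι _ _ _ K η W wc hfan w T τ' μ
    (∑ j ∈ Tw a w, τ j * (1 - μ ⬝ᵥ Aq a j)) S q y hwf hTt (aT (fun j _ => rfl))
    (aT (fun j hj => by rw [hτ]; exact (hc.pos j hj).le)) hy hSK hc.nonneg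
    (fun k hk => le_antisymm (not_lt.1 (fun h => hk ((mS k).2 h))) (hc.nonneg k))
    (fun k hk => by
      rw [sT, ← hS1 k hk]
      simp [hτ, bx_inl, Aq]) (aT (fun j hj => by rw [bx_inl]; exact hc.le j hj))
    (by rw [sT]; simp [hτ, bx_inl]) (by linarith [hc.half]) _ (d1.sub d2.kd) i2
    (by rw [kd_sub_kd (comm_Ftr hfan.feas), k1]) (fun o => o.elim 1 x) (by
      rintro (_ | k)
      · exact one_ne_zero
      · exact hx1 k)
  refine h5 ?_
  rw [sT, ← hx2 i (mem_LinSet.2 h4)]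
  simp [BB, Aof, Fintype.prod_option]

end Pool.Agent.MP_5d9b3c_ag.H48N
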