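import Pool.Agent.MP_5d9b3c_ag.H48N.BasicP

/-!
The fan of the twisted polynomial exists.
-/

namespace Pool.Agent.MP_5d9b3c_ag.H48N

open Finset Pool.Agent.MP_5d9b3c_ag.H22

namespace FanAux

variable {ι κ : Type} [Fintype ι] [LinearOrder ι] [Fintype κ] [DecidableEq κ]
  (a : κ → ι →₀ ℕ) (K : Finset ι)

omit [Fintype ι] [Fintype κ] [DecidableEq κ] in
lemma lev_inl (j : κ) : lev (BB a K) (Sum.inl j) = 1 := by simp [lev, BB, Aof]

omit [Fintype ι] [Fintype κ] [DecidableEq κ] in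
lemma BB_inr_none (t : ι ⊕ K) : BB a K (Sum.inr t) none = 0 := by
  rcases t with t | t <;> simp [BB]

omit [Fintype ι] [Fintype κ] [DecidableEq κ] in
lemma lev_inr (t : ι ⊕ K) : lev (BB a K) (Sum.inr t) = 0 := by
  simp [lev, BB_inr_none]

omit [Fintype ι] [Fintype κ] [DecidableEq κ] in
lemma val_inl (η : ℚ) (j : κ) : val (BB a K) η (Sum.inl j) = 1 := by simp [val, lev_inl]

omit [Fintype ι] [Fintype κ] [DecidableEq κ] in
lemma val_inr (η : ℚ) (t : ι ⊕ K) : val (BB a K) η (Sum.inr t) = -η := by simp [val, lev_inr]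

omit [Fintype ι] [Fintype κ] [DecidableEq κ] in
lemma bx_inl (j : κ) : bx (BB a K) (Sum.inl j) = Aq a j := by
  funext k
  simp [bx, BB, Aof, Aq]

omit [Fintype ι] [Fintype κ] [DecidableEq κ] in
lemma bx_pos (k : ι) : bx (BB a K) (Sum.inr (Sum.inl k)) = Pi.single k 1 := by
  funext i
  by_cases h : i = k
  · subst h
    simp [bx, BB]
  · simp [bx, BB, h]

omit [Fintype ι] [Fintype κ] [DecidableEq κ] in
lemma bx_neg (k : K) : bx (BB a K) (Sum.inr (Sum.inr k)) = Pi.single k.1 (-1) := by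
  funext i
  by_cases h : i = k.1
  · subst h
    simp [bx, BB]
  · simp [bx, BB, h]

omit [Fintype ι] [Fintype κ] [DecidableEq κ] in
lemma nonneg (b : κ ⊕ ι ⊕ K) (k : ι) (hk : k ∉ K) : 0 ≤ BB a K b (some k) := by
  rcases b with j | i | i
  · simp [BB]
  · by_cases h : k = i
    · subst h
      simp [BB]
    · simp [BB, h]
  · have h : k ≠ i.1 := fun h => hk (h ▸ i.2)
    simp [BB, h]

omit [DecidableEq κ] in
lemma cone_univ (p : ι → ℚ) (hp : ∀ k ∉ K, 0 ≤ p k) : Cone (bx (BB a K)) univ p := by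
  have h : ∀ k, Cone (bx (BB a K)) univ (Pi.single k (p k)) := fun k => by
    rcases le_or_gt 0 (p k) with h | h
    · have := (Cone.single (v := bx (BB a K)) (mem_univ (Sum.inr (Sum.inl k)))).smul h
      rw [bx_pos, ← Pi.single_smul', smul_eq_mul, mul_one] at this
      exact this
    · have hk : k ∈ K := by
        by_contra hk
        exact absurd (hp k hk) (not_le.2 h)
      have := (Cone.single (v := bx (BB a K)) (mem_univ (Sum.inr (Sum.inr ⟨k, hk⟩)))).smul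
        (neg_pos.2 h).le
      rw [bx_neg, ← Pi.single_smul', smul_eq_mul, mul_neg, mul_one, neg_neg] at this
      exact this
  rw [← Finset.univ_sum_single p]
  exact Finset.sum_induction _ (Cone (bx (BB a K)) univ) (fun _ _ => Cone.add) Cone.zero
    (fun k _ => h k)

omit [Fintype κ] [DecidableEq κ] in
lemma feas_of_inG {w : ι → ℚ} (hw : InG a w) (h0 : ∀ k ∈ K, w k = 0) {η : ℚ} (hη : 0 < η) :
    Feas (bx (BB a K)) (val (BB a K) η) w := by
  obtain ⟨h1, h2⟩ := inG_iff.1 hw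
  rintro (j | k | k)
  · rw [val_inl, bx_inl]
    exact h1 j
  · rw [val_inr, bx_pos, dotProduct_single, mul_one]
    linarith [h2 k]
  · rw [val_inr, bx_neg, dotProduct_single, h0 k.1 k.2, zero_mul]
    linarith

omit [Fintype κ] [DecidableEq κ] in
lemma inG_of_feas {w : ι → ℚ} (hw : Feas (bx (BB a K)) (lev (BB a K)) w) : InG a w := by
  refine inG_iff.2 ⟨fun j => ?_, fun k => ?_⟩
  · have := hw (Sum.inl j)
    rwa [lev_inl, bx_inl] at this
  · have := hw (Sum.inr (Sum.inl k))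
    rwa [lev_inr, bx_pos, dotProduct_single, mul_one] at this

omit [LinearOrder ι] [Fintype κ] [DecidableEq κ] in
/-- Pairing the logarithmic derivatives with a weight. -/
lemma pair {β : Type} (B : β → Pt ι) (T : Finset β) (c M : β → ℂ)
    (h : ∀ i, ∑ b ∈ T, c b * (B b (some i) : ℂ) * M b = 0) (w : ι → ℚ) (r : β → ℚ)
    (hr : ∀ b ∈ T, w ⬝ᵥ bx B b = r b) : ∑ b ∈ T, (r b : ℂ) * (c b * M b) = 0 := by
  have e : ∑ b ∈ T, (r b : ℂ) * (c b * M b) =
      ∑ i, (w i : ℂ) * ∑ b ∈ T, c b * (B b (some i) : ℂ) * M b := by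
    simp_rw [mul_sum]
    rw [sum_comm]
    refine sum_congr rfl (fun b hb => ?_)
    rw [← hr b hb, dotProduct]
    push_cast
    rw [sum_mul]
    refine sum_congr rfl (fun i _ => ?_)
    simp only [bx]
    push_cast
    ring
  rw [e]
  simp [h]

omit [Fintype κ] [DecidableEq κ] in
lemma prod_inl (x : Option ι → ℂ) (j : κ) :
    ∏ o, x o ^ BB a K (Sum.inl j) o = x none * ∏ k, x (some k) ^ a j k := by
  rw [Fintype.prod_option]
  simp [BB, Aof]

omit [Fintype κ] [DecidableEq κ] in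
lemma prod_inr (x : Option ι → ℂ) (t : ι ⊕ K) :
    ∏ o, x o ^ BB a K (Sum.inr t) o = ∏ k, x (some k) ^ BB a K (Sum.inr t) (some k) := by
  rw [Fintype.prod_option, BB_inr_none, zpow_zero, one_mul]

omit [LinearOrder ι] [Fintype κ] [DecidableEq κ] in
lemma prod_Aof (x : Option ι → ℂ) (j : κ) :
    ∏ o, x o ^ Aof a j o = x none * ∏ k, x (some k) ^ a j k := by
  rw [Fintype.prod_option]
  simp [Aof]

omit [DecidableEq κ] in
lemma nd (c : κ → ℂ) (hN : NDP a c) (γ : ι ⊕ K → ℂ)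
    (hγ : ∀ (e : ι ⊕ K → ι → ℤ) (S : Finset κ) (S' : Finset (ι ⊕ K)) (x : ι → ℂ) (τ : ℂ),
      S'.Nonempty → (∀ i, x i ≠ 0) →
      ∑ j ∈ S, c j * ∏ k, x k ^ a j k = 0 → ∑ j ∈ S', γ j * ∏ k, x k ^ e j k = 0 →
      ∃ i, τ * ∑ j ∈ S, c j * a j i * ∏ k, x k ^ a j k +
        ∑ j ∈ S', γ j * e j i * ∏ k, x k ^ e j k ≠ 0)
    {η : ℚ} (hη : 0 < η) {ψ w : ι → ℚ} (hψ : Feas (bx (BB a K)) (val (BB a K) η) ψ)
    (hw : Feas (bx (BB a K)) (lev (BB a K)) w)
    (hs : Tt (bx (BB a K)) (val (BB a K) η) ψ ⊆ Tt (bx (BB a K)) (lev (BB a K)) w)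
    (hne : (Tt (bx (BB a K)) (val (BB a K) η) ψ).Nonempty) :
    NDx (BB a K) (Sum.elim c γ) univ (Tt (bx (BB a K)) (val (BB a K) η) ψ) := by
  intro x hx
  by_contra hall
  push Not at hall
  replace hall := fun i => hall i (mem_univ i)
  have h1 := pair (BB a K) _ _ _ hall w (lev (BB a K)) (fun b hb => mem_Tt.1 (hs hb))
  have h2 := pair (BB a K) _ _ _ hall ψ (val (BB a K) η) (fun b hb => mem_Tt.1 hb)
  set T := Tt (bx (BB a K)) (val (BB a K) η) ψ with hT
  have eT : T = T.toLeft.disjSum T.toRight := toLeft_disjSum_toRight.symm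
  rw [eT, sum_disjSum] at h1 h2
  simp only [lev_inl, lev_inr, val_inl, val_inr, Sum.elim_inl, Sum.elim_inr, prod_inl, prod_inr,
    Rat.cast_one, Rat.cast_zero, one_mul, zero_mul, sum_const_zero, add_zero] at h1 h2
  rw [h1, zero_add, ← mul_sum] at h2
  have h3 : ∑ j ∈ T.toRight, γ j * ∏ k, x (some k) ^ BB a K (Sum.inr j) (some k) = 0 :=
    (mul_eq_zero.1 h2).resolve_left (by exact_mod_cast (neg_neg_of_pos hη).ne)
  have h4 : ∑ j ∈ T.toLeft, c j * ∏ k, x (some k) ^ a j k = 0 := by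
    refine (mul_eq_zero.1 ?_).resolve_left (hx none)
    rw [mul_sum, ← h1]
    exact sum_congr rfl (fun j _ => by ring)
  have h5 : ∀ i, x none * ∑ j ∈ T.toLeft, c j * a j i * ∏ k, x (some k) ^ a j k +
      ∑ j ∈ T.toRight, γ j * (BB a K (Sum.inr j) (some i) : ℂ) *
        ∏ k, x (some k) ^ BB a K (Sum.inr j) (some k) = 0 := fun i => by
    have h6 := hall i
    rw [eT, sum_disjSum] at h6
    simp only [Sum.elim_inl, Sum.elim_inr, prod_inl, prod_inr] at h6
    rw [← h6, mul_sum]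
    congr 1
    refine sum_congr rfl (fun j _ => ?_)
    have : (BB a K (Sum.inl j) (some i) : ℂ) = a j i := by simp [BB, Aof]
    rw [this]
    ring
  rcases T.toRight.eq_empty_or_nonempty with h7 | h7
  · have h8 : (Tw a w).filter (fun j => ψ ⬝ᵥ Aq a j = 1) = T.toLeft := by
      ext j
      rw [mem_filter, mem_toLeft, mem_Tw]
      constructor
      · rintro ⟨_, h9⟩
        rw [hT, mem_Tt, val_inl, bx_inl]
        exact h9
      · intro h9
        have h10 := mem_Tt.1 (hs h9)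
        rw [hT, mem_Tt, val_inl, bx_inl] at h9
        rw [lev_inl, bx_inl] at h10
        exact ⟨h10, h9⟩
    have h11 : T.toLeft.Nonempty := by
      obtain ⟨j | t, hb⟩ := hne
      · exact ⟨j, mem_toLeft.2 hb⟩
      · have : t ∈ T.toRight := mem_toRight.2 hb
        rw [h7] at this
        exact absurd this (notMem_empty _)
    have h12 := hN w (inG_of_feas a K hw) ψ 1 (fun k hk => absurd (mem_univ k) hk) (fun j _ => by
      have := hψ (Sum.inl j)
      rwa [val_inl, bx_inl] at this) (by rw [h8]; exact h11)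
    rw [h8] at h12
    obtain ⟨o, ho⟩ := h12 x hx
    apply ho
    simp only [prod_Aof]
    rcases o with _ | i
    · rw [← h1]
      exact sum_congr rfl (fun j _ => by simp [Aof])
    · have h13 := h5 i
      rw [h7, sum_empty, add_zero, mul_sum] at h13
      rw [← h13]
      refine sum_congr rfl (fun j _ => ?_)
      have : ((Aof a j (some i) : ℕ) : ℂ) = a j i := rfl
      rw [this]
      ring
  · obtain ⟨i, hi⟩ := hγ (fun t k => BB a K (Sum.inr t) (some k)) T.toLeft T.toRight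
      (fun k => x (some k)) (x none) h7 (fun k => hx _) h4 h3
    exact hi (h5 i)

end FanAux

open FanAux in
theorem fan (hl : LPStmt) (hs : StabStmt) (hg : GammaStmt) : FanStmt := by
  classical
  intro ι κ _ _ _ _ a c K hN hw0
  obtain ⟨w0, hw0, hK⟩ := hw0
  obtain ⟨γ, hγ⟩ := hg (ι ⊕ K) κ c
  obtain ⟨η, hη, hst⟩ := hs ι (κ ⊕ ι ⊕ K) (bx (BB a K)) (lev (BB a K))
  have hv : ∀ b, lev (BB a K) b - η ≤ val (BB a K) η b ∧ val (BB a K) η b ≤ lev (BB a K) b + η := by
    rintro (j | t)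
    · rw [lev_inl, val_inl]
      constructor <;> linarith
    · rw [lev_inr, val_inr]
      constructor <;> linarith
  have hc : ∀ ψ : ι → ℚ, ∃ w : ι → ℚ, Feas (bx (BB a K)) (val (BB a K) η) ψ →
      Feas (bx (BB a K)) (lev (BB a K)) w ∧
        Tt (bx (BB a K)) (val (BB a K) η) ψ ⊆ Tt (bx (BB a K)) (lev (BB a K)) w := fun ψ => by
    by_cases hψ : Feas (bx (BB a K)) (val (BB a K) η) ψ
    · obtain ⟨w, h⟩ := hst ψ (Tt (bx (BB a K)) (val (BB a K) η) ψ)
        (fun b => (hv b).1.trans (hψ b)) (fun b hb => (mem_Tt.1 hb).le.trans (hv b).2)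
      exact ⟨w, fun _ => h⟩
    · exact ⟨0, fun h => absurd h hψ⟩
  choose wc hwc using hc
  have hr : ∀ S : Finset (κ ⊕ ι ⊕ K), ∃ ψ : ι → ℚ, Feas (bx (BB a K)) (val (BB a K) η) ψ ∧
      ∀ x, Feas (bx (BB a K)) (val (BB a K) η) x → Tt (bx (BB a K)) (val (BB a K) η) x = S →
        Tt (bx (BB a K)) (val (BB a K) η) ψ = S := fun S => by
    by_cases h : ∃ x, Feas (bx (BB a K)) (val (BB a K) η) x ∧
        Tt (bx (BB a K)) (val (BB a K) η) x = S
    · obtain ⟨x, h1, h2⟩ := h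
      exact ⟨x, h1, fun _ _ _ => h2⟩
    · exact ⟨w0, feas_of_inG a K hw0 hK hη, fun x h1 h2 => absurd ⟨x, h1, h2⟩ h⟩
  choose rep hrep using hr
  have hW : ∀ ψ ∈ univ.image rep, Feas (bx (BB a K)) (val (BB a K) η) ψ := fun ψ hψ => by
    obtain ⟨S, _, rfl⟩ := mem_image.1 hψ
    exact (hrep S).1
  refine ⟨γ, η, univ.image rep, wc, hη, nonneg a K, hW, fun p hp => ?_,
    fun ψ hψ => (hwc ψ (hW ψ hψ)).1, fun ψ hψ => (hwc ψ (hW ψ hψ)).2, fun ψ hψ hne =>
      nd a K c hN γ (hγ ι a) hη hψ (hwc ψ hψ).1 (hwc ψ hψ).2 hne⟩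
  obtain ⟨x, h1, _, h3⟩ := hl ι (κ ⊕ ι ⊕ K) (bx (BB a K)) (val (BB a K) η)
    ⟨w0, feas_of_inG a K hw0 hK hη⟩ p (cone_univ a K p hp)
  refine ⟨rep _, mem_image_of_mem _ (mem_univ (Tt (bx (BB a K)) (val (BB a K) η) x)), ?_⟩
  rw [(hrep _).2 x h1 rfl]
  exact h3

end Pool.Agent.MP_5d9b3c_ag.H48N
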