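import Pool.Agent.MP_5d9b3c_ag.H48N.BasicO

/-!
Classes killed by a polynomial in the level operator.
-/

namespace Pool.Agent.MP_5d9b3c_ag.H48N

open Finset

namespace KillAux

variable {ι κ : Type} [Fintype ι] [LinearOrder ι] [Fintype κ]

/-- The classes killed by an element of `S`. -/
noncomputable def KM (B : κ → Pt ι) (c : κ → ℂ) (q : Vq ι) (Y : Set (Pt ι))
    (hY : ∀ u ∈ Y, ∀ b, u + B b ∈ Y) (S : Submonoid (Polynomial ℂ)) :
    Submodule ℂ (Pt ι →₀ ℂ) where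
  carrier := {e | ∃ π ∈ S, Polynomial.aeval (D0 B c q) π e ∈ N0 B c q Y}
  zero_mem' := ⟨1, S.one_mem, by simp⟩
  add_mem' := by
    rintro e e' ⟨π, h1, h2⟩ ⟨π', h3, h4⟩
    refine ⟨π * π', S.mul_mem h1 h3, ?_⟩
    rw [map_add]
    refine add_mem ?_ ?_
    · rw [mul_comm, map_mul, Module.End.mul_apply]
      exact aeval_mem_N0 hY _ h2
    · rw [map_mul, Module.End.mul_apply]
      exact aeval_mem_N0 hY _ h4
  smul_mem' := by
    rintro r e ⟨π, h1, h2⟩
    exact ⟨π, h1, by rw [map_smul]; exact Submodule.smul_mem _ _ h2⟩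

end KillAux

open KillAux in
theorem kill : KillStmt := by
  classical
  intro ι κ _ _ _ _ B c W wc q y S Z hW hZ hS
  have hY : ∀ u ∈ Ypos W wc q y, ∀ b, u + B b ∈ Ypos W wc q y := fun u hu b => Ypos_add hW hu b
  obtain ⟨m, hm, hz⟩ := disc_hat (fun ψ : W => hw (wc ψ)) q y
  choose z hz using hz
  have hm' : (0 : ℚ) < m := by exact_mod_cast hm
  have hN : ∀ e ∈ N0 B c q (Ypos W wc q y), e ∈ KM B c q _ hY S := fun e he =>
    ⟨1, S.one_mem, by simpa using he⟩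
  have hB : ∀ ψ ∈ W, ∀ b, 0 ≤ hw (wc ψ) ⬝ᵥ Bq B b := fun ψ hψ b => by
    rw [hw_Bq]
    linarith [hW ψ hψ b]
  have hstep : ∀ (ψ : W) u b, (z ψ (u + B b) : ℚ) = z ψ u + m * (hw (wc ψ) ⬝ᵥ Bq B b) := by
    intro ψ u b
    rw [← hz, ← hz, hat_add_sub, dotProduct_add, mul_add]
  have key : ∀ n : ℕ, ∀ u ∈ Z, ∑ ψ : W, (1 - z ψ u).toNat = n →
      Finsupp.single u (1 : ℂ) ∈ KM B c q _ hY S := by
    intro n
    induction n using Nat.strong_induction_on with
    | _ n ih =>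
      intro u hu hn
      by_cases h0 : u ∈ Ypos W wc q y
      · exact hN _ (Su_le_N0 (single_mem_Su h0 1))
      obtain ⟨ψ1, h1, h2⟩ : ∃ ψ ∈ W, hw (wc ψ) ⬝ᵥ (hat q u - y) ≤ 0 := by
        by_contra h3
        push Not at h3
        exact h0 h3
      obtain ⟨ψ, hψ, hmin⟩ := exists_min_image W (fun ψ => hw (wc ψ) ⬝ᵥ (hat q u - y)) ⟨ψ1, h1⟩
      have hle : hw (wc ψ) ⬝ᵥ (hat q u - y) ≤ 0 := (hmin ψ1 h1).trans h2
      have hπ := hS u hu ψ hψ hmin hle
      have e1 : Polynomial.aeval (D0 B c q)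
          (Polynomial.X + Polynomial.C ((hw (wc ψ) ⬝ᵥ hat q u : ℚ) : ℂ)) (Finsupp.single u 1) =
          ∑ i, (wc ψ i : ℂ) • Dx B c q i (Finsupp.single u 1) -
            ∑ b, (c b * ((hw (wc ψ) ⬝ᵥ Bq B b : ℚ) : ℂ)) • Finsupp.single (u + B b) 1 := by
        have h3 := Dn_single (B := B) (c := c) (q := q) (hw (wc ψ)) u
        rw [Dn_hw, LinearMap.sub_apply, LinearMap.sum_apply] at h3
        simp only [LinearMap.smul_apply] at h3
        rw [map_add, Polynomial.aeval_X, Polynomial.aeval_C, LinearMap.add_apply,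
          Module.algebraMap_end_apply, eq_sub_iff_add_eq, add_assoc, ← h3]
        abel
      have e2 : ∑ i, (wc ψ i : ℂ) • Dx B c q i (Finsupp.single u 1) -
          ∑ b, (c b * ((hw (wc ψ) ⬝ᵥ Bq B b : ℚ) : ℂ)) • Finsupp.single (u + B b) (1 : ℂ) ∈
          KM B c q _ hY S := by
        refine sub_mem (Submodule.sum_mem _ fun i _ =>
          Submodule.smul_mem _ _ (hN _ (Dx_mem_N0 _ i _))) (Submodule.sum_mem _ fun b _ => ?_)
        rcases (hB ψ hψ b).eq_or_lt with h3 | h3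
        · rw [← h3]
          simp
        refine Submodule.smul_mem _ _ (ih _ ?_ _ (hZ u hu b) rfl)
        rw [← hn]
        refine sum_lt_sum (fun ψ' _ => ?_) ⟨⟨ψ, hψ⟩, mem_univ _, ?_⟩
        · have h4 : (z ψ' u : ℚ) ≤ z ψ' (u + B b) := by
            rw [hstep]
            linarith [mul_nonneg hm'.le (hB ψ' ψ'.2 b)]
          have h5 : z ψ' u ≤ z ψ' (u + B b) := by exact_mod_cast h4
          omega
        · have h4 : (z ⟨ψ, hψ⟩ u : ℚ) < z ⟨ψ, hψ⟩ (u + B b) := by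
            rw [hstep]
            linarith [mul_pos hm' h3]
          have h5 : z ⟨ψ, hψ⟩ u < z ⟨ψ, hψ⟩ (u + B b) := by exact_mod_cast h4
          have h6 : (z ⟨ψ, hψ⟩ u : ℚ) ≤ 0 := by
            rw [← hz]
            exact mul_nonpos_of_nonneg_of_nonpos hm'.le hle
          have h7 : z ⟨ψ, hψ⟩ u ≤ 0 := by exact_mod_cast h6
          omega
      obtain ⟨π, h3, h4⟩ := e2
      refine ⟨π * _, S.mul_mem h3 hπ, ?_⟩
      rw [map_mul, Module.End.mul_apply, e1]
      exact h4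
  exact fun u hu => key _ u hu rfl

end Pool.Agent.MP_5d9b3c_ag.H48N
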