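import Pool.Agent.MP_5d9b3c_ag.H48N.BasicO

/-!
The consequence of the functional equation for the twisted system.
-/

namespace Pool.Agent.MP_5d9b3c_ag.H48N

open Finset Pool.Agent.MP_5d9b3c_ag.H22

namespace SVAux

variable {ι : Type}

/-- The shifted embeddings. -/
noncomputable def La (w : ι → ℤ) : PP ι →ₗ[ℂ] (Pt ι →₀ ℂ) :=
  Polynomial.lsum (fun k => (MvPolynomial.basisMonomials ι ℂ).constr ℂ
    (fun n => Finsupp.single (ex k n w) 1))

lemma La_mo (w : ι → ℤ) (k : ℕ) (n : ι →₀ ℕ) (r : ℂ) :
    La w (mo k (MvPolynomial.monomial n r)) = r • Finsupp.single (ex k n w) 1 := by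
  have : (MvPolynomial.monomial n r : MvPolynomial ι ℂ) =
      r • MvPolynomial.basisMonomials ι ℂ n := by
    rw [MvPolynomial.coe_basisMonomials, MvPolynomial.smul_monomial, smul_eq_mul, mul_one]
  rw [La, lsum_mo, this, map_smul, Module.Basis.constr_basis]

lemma ker_d0 {f : MvPolynomial ι ℂ} {z : PP ι} (h : d0 f z = 0) : ∃ g, z = mo 0 g := by
  have hcoef : ∀ (z : PP ι) (k : ℕ),
      (d0 f z).coeff (k + 1) = ((k + 1 : ℕ) : ℂ) • z.coeff (k + 1) + z.coeff k * f := by
    intro z k
    clear h
    induction z using Polynomial.induction_on' with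
    | add p q hp hq => simp only [map_add, Polynomial.coeff_add, hp, hq, smul_add, add_mul]; abel
    | monomial j g =>
      change (d0 f (mo j g)).coeff (k + 1) = _
      rw [d0, lsum_mo]
      simp only [mo, LinearMap.add_apply, LinearMap.smul_apply, LinearMap.comp_apply,
        LinearMap.restrictScalars_apply, LinearMap.mulRight_apply, Polynomial.coeff_add,
        Polynomial.coeff_smul, Polynomial.coeff_monomial, Nat.add_right_cancel_iff]
      split_ifs with h1 h2 h2
      · omega
      · rw [h1, zero_mul]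
      · rw [smul_zero, smul_zero]
      · rw [smul_zero, smul_zero, zero_mul]
  by_cases hf : f = 0
  · refine ⟨z.coeff 0, ?_⟩
    ext1 k
    rw [mo, LinearMap.restrictScalars_apply, Polynomial.coeff_monomial]
    cases k with
    | zero => simp
    | succ k =>
      have h1 := hcoef z k
      rw [h, hf, mul_zero, add_zero, Polynomial.coeff_zero, eq_comm, smul_eq_zero] at h1
      rw [if_neg (by omega)]
      exact h1.resolve_left (by exact_mod_cast Nat.succ_ne_zero k)
  · have h1 := hcoef z z.natDegree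
    rw [h, Polynomial.coeff_eq_zero_of_natDegree_lt (Nat.lt_succ_self _), smul_zero, zero_add,
      Polynomial.coeff_zero, eq_comm, mul_eq_zero, or_iff_left hf] at h1
    exact ⟨0, by rw [map_zero]; exact Polynomial.leadingCoeff_eq_zero.1 h1⟩

lemma aeval_comm {M W : Type} [AddCommGroup M] [Module ℂ M] [AddCommGroup W] [Module ℂ W]
    (Λ : M →ₗ[ℂ] W) (T : Module.End ℂ M) (S : Module.End ℂ W) (h : ∀ e, Λ (T e) = S (Λ e))
    (b : Polynomial ℂ) (e : M) : Λ (Polynomial.aeval T b e) = Polynomial.aeval S b (Λ e) := by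
  have hp : ∀ (n : ℕ) e, Λ ((T ^ n) e) = (S ^ n) (Λ e) := by
    intro n
    induction n with
    | zero => simp
    | succ n ih => intro e; rw [pow_succ, Module.End.mul_apply, ih, h, pow_succ]; rfl
  induction b using Polynomial.induction_on' with
  | add p q hp hq => rw [map_add, map_add, LinearMap.add_apply, map_add, hp, hq]; rfl
  | monomial n r =>
    rw [Polynomial.aeval_monomial, Polynomial.aeval_monomial, ← Algebra.smul_def,
      ← Algebra.smul_def, LinearMap.smul_apply, map_smul, hp, LinearMap.smul_apply]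

variable [DecidableEq ι]

lemma ex_add (k : ℕ) (n : ι →₀ ℕ) (w : ι → ℤ) (i : ι) (r : ℤ) :
    ex k n w + Pi.single (some i) r = ex k n (w + Pi.single i r) := by
  ext (_ | i')
  · simp [ex]
  · simp [ex, Pi.single_apply, add_assoc]

end SVAux

open SVAux in
theorem sv : SVStmt := by
  intro ι κ _ _ _ _ a c b ⟨d, P, hP, heq⟩ K γ l N h1 h2 h3
  obtain ⟨f, hf⟩ : ∃ f, f = ∑ j, MvPolynomial.monomial (a j) (c j) := ⟨_, rfl⟩
  rw [← hf] at heq
  have e1 : ∀ k n w j, ex (k + 1) (n + a j) w = ex k n w + BB a K (Sum.inl j) := by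
    intro k n w j
    ext (_ | i')
    · simp [ex, Aof, BB]
    · simp only [ex, Aof, BB, Option.elim_some, Finsupp.add_apply, Pi.add_apply, Sum.elim_inl]
      push_cast
      ring
  have hX : ∀ (w : ι → ℤ) (i : ι), La w ∘ₗ dX i = La (w + Pi.single i 1) := by
    intro w i
    refine PP_ext' (fun k n => ?_)
    rw [LinearMap.comp_apply, dX, lsum_mo, LinearMap.comp_apply, LinearMap.mulLeft_apply,
      MvPolynomial.X, MvPolynomial.monomial_mul, La_mo, La_mo, one_mul]
    congr 2
    ext (_ | i')
    · rfl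
    · simp only [ex, Option.elim_some, Finsupp.add_apply, Pi.add_apply, Finsupp.single_apply,
        Pi.single_apply, eq_comm (a := i)]
      split_ifs <;> push_cast <;> ring
  have hD : ∀ (w : ι → ℤ) (i : ι), N.mkQ ∘ₗ La w ∘ₗ dP f i =
      -(w i : ℂ) • N.mkQ ∘ₗ La (w - Pi.single i 1) -
      γ (Sum.inl i) • N.mkQ ∘ₗ La w + ∑ t : K, (if i = t.1 then γ (Sum.inr t) else 0) •
        N.mkQ ∘ₗ La (w - Pi.single i 1 + Pi.single t.1 (-1)) := by
    intro w i
    refine PP_ext' (fun k n => ?_)
    have key : ∀ (k : ℕ) (n : ι →₀ ℕ) (s : ι →₀ ℕ) (x : ℂ),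
        La w (mo k (MvPolynomial.monomial s 1 * MvPolynomial.pderiv i
          (MvPolynomial.monomial n x))) =
          (x * n i) • Finsupp.single (ex k (s + n) (w - Pi.single i 1)) 1 := by
      intro k n s x
      rw [MvPolynomial.pderiv_monomial, MvPolynomial.monomial_mul, La_mo, one_mul]
      by_cases hn : n i = 0
      · simp [hn]
      · congr 2
        ext (_ | i')
        · rfl
        · simp only [ex, Option.elim_some, Finsupp.add_apply, Pi.sub_apply, Finsupp.tsub_apply,
            Finsupp.single_apply, Pi.single_apply, eq_comm (a := i)]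
          split_ifs with h
          · subst h
            omega
          · simp
    have k1 := key k n 0 1
    rw [MvPolynomial.monomial_zero', map_one, one_mul, zero_add, one_mul] at k1
    have h4 := (Submodule.Quotient.mk_eq_zero N).2
      (h1 i (Finsupp.single (ex k n (w - Pi.single i 1)) 1))
    rw [← Submodule.mkQ_apply, Dx_single, Fintype.sum_sum_type, Fintype.sum_sum_type,
      sum_eq_single (f := fun x : ι => _) i (fun x _ hx => by simp [BB, hx.symm]) (by simp)] at h4
    rw [LinearMap.comp_apply, LinearMap.comp_apply, dP, lsum_mo, LinearMap.add_apply, map_add,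
      LinearMap.comp_apply, LinearMap.comp_apply, LinearMap.mulRight_apply, Derivation.coeFn_coe,
      k1, hf, map_sum, mul_sum, map_sum, map_sum]
    simp only [key, e1, LinearMap.add_apply, LinearMap.sub_apply, LinearMap.smul_apply,
      LinearMap.sum_apply, LinearMap.comp_apply, La_mo, one_smul]
    have e2 : ((hat (qq l fun _ => 1) (ex k n (w - Pi.single i 1)) (some i) : ℚ) : ℂ) =
        n i + w i := by simp [hat, ex, add_assoc]
    have e3 : ∀ t : K, Sum.elim c γ (Sum.inr (Sum.inr t)) *
        ((BB a K (Sum.inr (Sum.inr t)) (some i) : ℤ) : ℂ) =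
        -(if i = t.1 then γ (Sum.inr t) else 0) := fun t => by
      simp only [BB, Sum.elim_inr, Pi.single_apply, Option.some.injEq]
      split_ifs <;> simp
    simp only [e2, e3] at h4
    simp only [BB, Sum.elim_inl, Sum.elim_inr, ex_add, sub_add_cancel, Pi.single_eq_same,
      Int.cast_one, mul_one, Aof, Option.elim_some, Int.cast_natCast, map_add, map_smul, map_sum,
      neg_smul, map_neg, sum_neg_distrib, add_smul] at h4 ⊢
    rw [← sub_eq_zero, ← h4]
    abel
  have h0 : ∀ e, La 0 ((d0 f - 1) e) =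
      (D0 (BB a K) (Sum.elim c γ) (qq l (fun _ => 1)) - (l : ℂ) • 1) (La 0 e) := by
    have : La 0 ∘ₗ (d0 f - 1) =
        (D0 (BB a K) (Sum.elim c γ) (qq l (fun _ => 1)) - (l : ℂ) • 1) ∘ₗ La 0 := by
      refine PP_ext' (fun k n => ?_)
      simp only [LinearMap.comp_apply, LinearMap.sub_apply, d0, lsum_mo, LinearMap.add_apply,
        LinearMap.smul_apply, LinearMap.mulRight_apply, Module.End.one_apply, map_sub, map_add,
        map_smul, hf, mul_sum, map_sum, MvPolynomial.monomial_mul, La_mo, one_smul, one_mul,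
        e1, D0_single, Fintype.sum_sum_type]
      have e2 : ((hat (qq l fun _ => 1) (ex k n 0) none : ℚ) : ℂ) = k - 1 + l := by simp [hat, ex]
      rw [e2, add_smul, sub_smul, one_smul]
      simp [BB, Aof]
      abel
    exact fun e => LinearMap.congr_fun this e
  have hlow : ∀ w : ι → ℤ, (∀ k ∉ K, 0 ≤ w k) → ∀ g, La w (mo 0 g) ∈ N := by
    intro w hw g
    induction g using MvPolynomial.induction_on' with
    | monomial n r =>
      rw [La_mo]
      refine N.smul_mem r (h3 _ (by simp [ex]) (fun k hk => ?_))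
      exact add_nonneg (Int.natCast_nonneg _) (hw k hk)
    | add p q hp hq =>
      rw [map_add, map_add]
      exact add_mem hp hq
  obtain ⟨G, hG⟩ : ∃ G : Set (PP ι →ₗ[ℂ] (Pt ι →₀ ℂ) ⧸ N),
    G = {Λ | ∃ w : ι → ℤ, (∀ k ∉ K, 0 ≤ w k) ∧ Λ = N.mkQ ∘ₗ La w} := ⟨_, rfl⟩
  have hm : ∀ w : ι → ℤ, (∀ k ∉ K, 0 ≤ w k) → N.mkQ ∘ₗ La w ∈ Submodule.span ℂ G :=
    fun w hw => Submodule.subset_span (hG ▸ ⟨w, hw, rfl⟩)
  have ind : ∀ T : Module.End ℂ (PP ι), (∀ w : ι → ℤ, (∀ k ∉ K, 0 ≤ w k) →
      N.mkQ ∘ₗ La w ∘ₗ T ∈ Submodule.span ℂ G) →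
      ∀ Λ ∈ Submodule.span ℂ G, Λ ∘ₗ T ∈ Submodule.span ℂ G := by
    intro T hT Λ hΛ
    induction hΛ using Submodule.span_induction with
    | mem Λ h =>
      obtain ⟨w, h4, rfl⟩ := (hG ▸ h : Λ ∈ {Λ | _})
      exact hT w h4
    | zero => simp
    | add x y _ _ hx hy => rw [LinearMap.add_comp]; exact Submodule.add_mem _ hx hy
    | smul c x _ hx => rw [LinearMap.smul_comp]; exact Submodule.smul_mem _ c hx
  obtain ⟨y, hy1, hy2⟩ := formal (f := f) (Submodule.span ℂ G) (fun Λ hΛ i => ind _ (fun w hw => by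
      rw [hX]
      refine hm _ (fun k hk => add_nonneg (hw k hk) ?_)
      rw [Pi.single_apply]
      split_ifs <;> omega) Λ hΛ) (fun Λ hΛ i => ind _ (fun w hw => by
      rw [hD]
      refine add_mem (sub_mem ?_ (Submodule.smul_mem _ _ (hm w hw)))
        (Submodule.sum_mem _ (fun t _ => ?_))
      · by_cases h4 : w i = 0
        · simp [h4]
        · refine Submodule.smul_mem _ _ (hm _ (fun k hk => ?_))
          have := hw k hk
          rw [Pi.sub_apply, Pi.single_apply]
          split_ifs with h5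
          · subst h5
            omega
          · omega
      · split_ifs with h4
        · refine Submodule.smul_mem _ _ (hm _ (fun k hk => ?_))
          have h5 : k ≠ t.1 := fun h => hk (h ▸ t.2)
          simpa [h4, h5] using hw k hk
        · simp) Λ hΛ) (fun Λ hΛ => by
      induction hΛ using Submodule.span_induction with
      | mem Λ h =>
        obtain ⟨w, h4, rfl⟩ := (hG ▸ h : Λ ∈ {Λ | _})
        exact (Submodule.Quotient.mk_eq_zero N).2 (hlow w h4 1)
      | zero => simp
      | add x y _ _ hx hy => rw [LinearMap.add_apply, hx, hy, add_zero]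
      | smul c x _ hx => rw [LinearMap.smul_apply, hx, smul_zero]) hP heq
  have e0 : d0 f - 1 + 1 = d0 f := by abel
  rw [map_mul, map_add, Polynomial.aeval_X, map_one, e0, Module.End.mul_apply, ← sub_eq_zero,
    ← map_sub] at hy2
  obtain ⟨g, hg⟩ := ker_d0 hy2
  have h4 : ∀ t : ℕ, ∀ e, La 0 e ∈ N → La 0 (((d0 f - 1) ^ t) e) ∈ N := by
    intro t e he
    induction t with
    | zero => simpa using he
    | succ t ih =>
      rw [pow_succ', Module.End.mul_apply, h0]
      exact sub_mem (h2 _ ih) (N.smul_mem _ ih)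
  have h5 : La 0 (∑ t ∈ range d, ((d0 f - 1) ^ t) (y t)) ∈ N := by
    rw [map_sum]
    exact Submodule.sum_mem _ (fun t _ => h4 t _ ((Submodule.Quotient.mk_eq_zero N).1
      (hy1 t _ (hm 0 (fun _ _ => le_rfl)))))
  have h6 := sub_mem h5 (hlow 0 (fun _ _ => le_rfl) g)
  rw [← hg, map_sub, sub_sub_cancel, aeval_comm _ _ _ h0, ← MvPolynomial.C_1,
    ← MvPolynomial.monomial_zero', La_mo, one_smul] at h6
  have e : ex 1 (0 : ι →₀ ℕ) 0 = 0 := by
    ext (_ | i) <;> simp [ex]
  rwa [e] at h6

end Pool.Agent.MP_5d9b3c_ag.H48N
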