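import Pool.Agent.MP_5d9b3c_ag.H48N.BasicO

/-!
One layer: the degree function on the boundary layer.
-/

namespace Pool.Agent.MP_5d9b3c_ag.H48N

open Finset Pool.Agent.MP_5d9b3c_ag.H22

namespace OneAux

variable {ι κ : Type} [Fintype ι] {B : κ → Pt ι} {η : ℚ}

/-- The degree functional of a vertex. -/
def nn (η : ℚ) (ψ : ι → ℚ) : Vq ι := qq (1 + η⁻¹) (-η⁻¹ • ψ)

lemma nn_hat (ψ : ι → ℚ) (q y : Vq ι) (u : Pt ι) :
    nn η ψ ⬝ᵥ (hat q u - y) = (1 + η⁻¹) * (hat q u - y) none - η⁻¹ * (ψ ⬝ᵥ pp q y u) := by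
  rw [nn, qq_dot, pp_eq, smul_dotProduct, smul_eq_mul]
  ring

lemma nn_Bq (hη : 0 < η) (ψ : ι → ℚ) (b : κ) :
    nn η ψ ⬝ᵥ Bq B b = 1 - η⁻¹ * (ψ ⬝ᵥ bx B b - val B η b) := by
  have e : (fun i => Bq B b (some i)) = bx B b := rfl
  rw [nn, qq_dot, e, smul_dotProduct, smul_eq_mul, Bq_none, val]
  field_simp
  ring

end OneAux

open OneAux in
theorem one (hr : RedStmt) (hs : ShellStmt) : OneStmt := by
  intro ι κ _ _ _ _ B c K η W wc h q y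
  classical
  have hη : 0 < η⁻¹ := inv_pos.2 h.pos
  have hW : W.Nonempty := let ⟨ψ, h1, _⟩ := h.cover 0 (fun _ _ => le_rfl); ⟨ψ, h1⟩
  choose ψ m1 m2 using fun u : Pt ι => exists_min_image W (fun ψ => ψ ⬝ᵥ pp q y u) hW
  have dmin : ∀ u, ∀ φ ∈ W, (∀ φ' ∈ W, φ ⬝ᵥ pp q y u ≤ φ' ⬝ᵥ pp q y u) →
      nn η (ψ u) ⬝ᵥ (hat q u - y) = nn η φ ⬝ᵥ (hat q u - y) := fun u φ h1 h2 => by
    rw [nn_hat, nn_hat, le_antisymm (m2 u φ h1) (h2 _ (m1 u))]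
  obtain ⟨m, hm, hz⟩ := disc_hat (fun φ : W => nn η φ.1) q y
  have e : Ynn K W wc q y \ (Ynn K W wc q y ∩ Ypos W wc q y) = GG K W wc q y :=
    Set.sdiff_self_inter
  have key := hr (Pt ι) ι (Dx B c q) (Ftr B c η W q y) (Ynn K W wc q y)
    (Ynn K W wc q y ∩ Ypos W wc q y) (fun u => nn η (ψ u) ⬝ᵥ (hat q u - y)) m comm_Dx
    Set.inter_subset_left (stab_Dx fun u hu b => h.Ynn_add hu b)
    (stab_Dx fun u hu b => ⟨h.Ynn_add hu.1 b, Ypos_add h.cfeas hu.2 b⟩) hm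
  rw [e] at key
  refine key (fun u hu => ?_) (fun i u hu => ⟨?_, ?_⟩) ?_
  · obtain ⟨z, h1⟩ := hz ⟨ψ u, m1 u⟩ u
    have h2 : 0 ≤ nn η (ψ u) ⬝ᵥ (hat q u - y) :=
      (h.cone_GG hu (m1 u) (m2 u)).dot_nonneg fun b hb => by
        rw [nn_Bq h.pos, mem_Tt.1 hb]
        simp
    have h3 : (0 : ℚ) ≤ z := h1 ▸ mul_nonneg (Nat.cast_nonneg m) h2
    obtain ⟨n, rfl⟩ := Int.eq_ofNat_of_zero_le (show 0 ≤ z by exact_mod_cast h3)
    exact ⟨n, by simpa using h1⟩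
  · refine Ftr_mem i fun b hb _ => ⟨h.sim_add hu hb, ?_⟩
    obtain ⟨φ, h1, h2, h3⟩ := id hb
    rw [dmin u φ h1 h2, dmin (u + B b) φ h1 (by
      rw [pp_add]; exact (hb.min_iff h.feas h1).2 ⟨h2, h3⟩), hat_add_sub, dotProduct_add,
      nn_Bq h.pos, h3]
    simp
  · rw [Dx_eq, Ftr]
    refine op_sub_mem (fun _ => Or.inr ⟨hu, lt_add_one _⟩) fun b hb => ?_
    have hb' : ¬ Sim B η W (pp q y u) b := fun h1 => hb (by rw [if_pos h1])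
    have h1 := h.Ynn_add hu.1 b
    by_cases h2 : u + B b ∈ Ypos W wc q y
    · exact Or.inl ⟨h1, h2⟩
    refine Or.inr ⟨⟨h1, h2⟩, lt_of_not_ge fun h3 => hb' ?_⟩
    rw [hat_add_sub, dotProduct_add, nn_Bq h.pos, nn_hat, nn_hat] at h3
    have h4 := m2 u _ (m1 (u + B b))
    have h5 := h.feas _ (m1 (u + B b)) b
    have h6 : ψ (u + B b) ⬝ᵥ pp q y u - ψ u ⬝ᵥ pp q y u +
        (ψ (u + B b) ⬝ᵥ bx B b - val B η b) ≤ 0 := by
      by_contra h7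
      have := mul_pos hη (not_le.1 h7)
      linarith
    exact ⟨_, m1 (u + B b), fun φ hφ => by linarith [m2 u φ hφ], by linarith⟩
  · have := hs ι κ B c K η W wc h q y univ (subset_univ _) 1 le_rfl
    rw [res_univ, res_univ] at this
    convert this using 1
    funext J
    ext u
    simp [emp]

end Pool.Agent.MP_5d9b3c_ag.H48N
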