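import Pool.Agent.MP_5d9b3c_ag.H48N.Spec

/-!
The Nullstellensatz for shifted cones, as a contracting homotopy.
-/

namespace Pool.Agent.MP_5d9b3c_ag.H48N

open Finset Pool.Agent.MP_5d9b3c_ag.H22

namespace NullAux

open MvPolynomial

/-- A character of a finitely generated subgroup extends to the lattice. -/
lemma extend {κ ι : Type} [Fintype ι] [DecidableEq ι] (S : Finset κ) (A : κ → ι → ℤ) (y : κ → ℂ)
    (hy : ∀ j ∈ S, y j ≠ 0)
    (h : ∀ k k' : κ → ℕ, ∑ j ∈ S, k j • A j = ∑ j ∈ S, k' j • A j →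
      ∏ j ∈ S, y j ^ k j = ∏ j ∈ S, y j ^ k' j) :
    ∃ x : ι → ℂ, (∀ i, x i ≠ 0) ∧ ∀ j ∈ S, ∏ i, x i ^ A j i = y j := by
  classical
  let : DivisibleBy (Additive ℂˣ) ℕ := divisibleByOfSMulRightSurj _ _ (fun {n} hn z => by
    obtain ⟨w, hw⟩ := IsAlgClosed.exists_pow_nat_eq ((Additive.toMul z : ℂˣ) : ℂ)
      (Nat.pos_of_ne_zero hn)
    have w0 : w ≠ 0 := by
      rintro rfl
      exact (Additive.toMul z).ne_zero (by rw [← hw, zero_pow hn])
    exact ⟨Additive.ofMul (Units.mk0 w w0), Additive.toMul.injective (Units.ext (by simpa using hw))⟩)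
  let : DivisibleBy (Additive ℂˣ) ℤ := AddGroup.divisibleByIntOfDivisibleByNat _
  obtain ⟨η, hη⟩ : ∃ η : κ → ℂˣ, ∀ j ∈ S, (η j : ℂ) = y j :=
    ⟨fun j => if hj : j ∈ S then Units.mk0 (y j) (hy j hj) else 1, fun j hj => by simp [hj]⟩
  let φ : (κ → ℤ) →ₗ[ℤ] (ι → ℤ) := ∑ j ∈ S, (LinearMap.proj j).smulRight (A j)
  let ψ : (κ → ℤ) →ₗ[ℤ] Additive ℂˣ :=
    ∑ j ∈ S, (LinearMap.proj j).smulRight (Additive.ofMul (η j))
  have hφ : ∀ r, φ r = ∑ j ∈ S, r j • A j := fun r => by
    simp [φ, LinearMap.sum_apply]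
  have hψ : ∀ r, ψ r = ∑ j ∈ S, r j • Additive.ofMul (η j) := fun r => by
    simp [ψ, LinearMap.sum_apply]
  have hn : ∀ k : κ → ℕ, ((Additive.toMul (ψ fun j => k j) : ℂˣ) : ℂ) = ∏ j ∈ S, y j ^ k j := by
    intro k
    rw [hψ, toMul_sum, Units.coe_prod]
    exact prod_congr rfl (fun j hj => by simp [hη j hj])
  have hk : LinearMap.ker φ ≤ LinearMap.ker ψ := by
    intro r hr
    have e : r = (fun j => ((r j).toNat : ℤ)) - fun j => ((-r j).toNat : ℤ) := by
      ext j
      simp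
    rw [LinearMap.mem_ker, e, map_sub, sub_eq_zero] at hr ⊢
    refine Additive.toMul.injective (Units.ext ?_)
    rw [hn, hn]
    refine h _ _ ?_
    rw [hφ, hφ] at hr
    simpa only [natCast_zsmul] using hr
  obtain ⟨g, hg⟩ := (Module.Baer.of_divisible (Additive ℂˣ)).extension_property
    ((LinearMap.ker φ).liftQ φ le_rfl)
    (LinearMap.ker_eq_bot.1 (Submodule.ker_liftQ_eq_bot _ _ _ le_rfl))
    ((LinearMap.ker φ).liftQ ψ hk)
  have hg' : ∀ r, g (φ r) = ψ r := fun r => LinearMap.congr_fun hg (Submodule.Quotient.mk r)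
  refine ⟨fun i => ((Additive.toMul (g (Pi.single i 1)) : ℂˣ) : ℂ), fun i => Units.ne_zero _,
    fun j hj => ?_⟩
  have e1 : φ (fun l => ((Pi.single j 1 : κ → ℕ) l : ℤ)) = ∑ i, A j i • Pi.single i 1 := by
    rw [hφ, sum_eq_single j (fun l _ hl => by simp [hl]) (fun h => absurd hj h)]
    ext i
    simp [Finset.sum_apply, Pi.single_apply]
  have e2 := hn (Pi.single j 1)
  rw [← hg', e1, map_sum, toMul_sum, Units.coe_prod,
    prod_eq_single j (fun l _ hl => by simp [hl]) (fun h => absurd hj h)] at e2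
  simp only [map_zsmul, toMul_zsmul, Units.val_zpow_eq_zpow_val] at e2
  simpa using e2

variable {ι κ : Type} [Fintype ι] [LinearOrder ι] [Fintype κ] [DecidableEq κ]
  (B : κ → Pt ι) (T : Finset κ)

/-- The support of a point of the toric variety is a face. -/
lemma face (y : κ → ℂ) (h : ∀ k k' : κ → ℕ, ∑ j ∈ T, k j • B j = ∑ j ∈ T, k' j • B j →
      ∏ j ∈ T, y j ^ k j = ∏ j ∈ T, y j ^ k' j) :
    ∃ n : Vq ι, (∀ j ∈ T, 0 ≤ n ⬝ᵥ Bq B j) ∧
      T.filter (fun j => n ⬝ᵥ Bq B j = 0) = T.filter (fun j => y j ≠ 0) := by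
  classical
  set S := T.filter (fun j => y j ≠ 0) with hS
  have key : ∀ k ∈ T \ S, ∃ n : Vq ι, (∀ j ∈ T, 0 ≤ n ⬝ᵥ Bq B j) ∧ (∀ j ∈ S, n ⬝ᵥ Bq B j = 0) ∧
      0 < n ⬝ᵥ Bq B k := by
    intro k hk
    obtain ⟨hk1, hk2⟩ := mem_sdiff.1 hk
    have y0 : y k = 0 := by
      by_contra h0
      exact hk2 (mem_filter.2 ⟨hk1, h0⟩)
    rcases farkas (T.disjSum S) (Sum.elim (fun j => -B j) B) (B k) with
      ⟨n, h1, h2⟩ | ⟨N, hN, n, hn⟩
    · have e : ∀ j, (fun i => (n i : ℚ)) ⬝ᵥ Bq B j = ((n ⬝ᵥ B j : ℤ) : ℚ) := fun j => by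
        simp [dotProduct, Bq]
      have h3 : ∀ j ∈ T, 0 ≤ n ⬝ᵥ B j := fun j hj => by
        simpa using h2 (Sum.inl j) (inl_mem_disjSum.2 hj)
      refine ⟨fun i => (n i : ℚ), fun j hj => ?_, fun j hj => ?_, ?_⟩
      · rw [e]
        exact_mod_cast h3 j hj
      · rw [e]
        exact_mod_cast le_antisymm (h2 (Sum.inr j) (inr_mem_disjSum.2 hj))
          (h3 j (mem_filter.1 hj).1)
      · rw [e]
        exact_mod_cast h1
    · exfalso
      rw [sum_disjSum] at hn
      simp only [Sum.elim_inl, Sum.elim_inr, smul_neg, sum_neg_distrib] at hn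
      have e := h (fun j => n (Sum.inl j) + if j = k then N else 0)
        (fun j => if y j ≠ 0 then n (Sum.inr j) else 0) (by
          simp only [add_smul, sum_add_distrib, ite_smul, zero_smul, sum_ite_eq', if_pos hk1]
          rw [hn, ← sum_filter]
          abel)
      rw [prod_eq_zero hk1 (by simp [y0, hN.ne'])] at e
      refine prod_ne_zero_iff.2 (fun j _ => ?_) e.symm
      by_cases hj : y j = 0 <;> simp [hj]
  choose! n h1 h2 h3 using key
  have h4 : ∀ j ∈ T, 0 ≤ (∑ k ∈ T \ S, n k) ⬝ᵥ Bq B j := fun j hj => by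
    rw [sum_dotProduct]
    exact sum_nonneg (fun k hk => h1 k hk j hj)
  refine ⟨∑ k ∈ T \ S, n k, h4, ?_⟩
  ext j
  rw [mem_filter, sum_dotProduct]
  refine ⟨fun ⟨hj, h0⟩ => ?_, fun hj =>
    ⟨(mem_filter.1 hj).1, sum_eq_zero (fun k hk => h2 k hk j hj)⟩⟩
  by_contra hj'
  have hm := mem_sdiff.2 ⟨hj, hj'⟩
  exact (h3 j hm).ne' ((sum_eq_zero_iff_of_nonneg (fun k hk => h1 k hk j hj)).1 h0 j hm)

/-- The shift operators. -/
noncomputable def sh (ι : Type) : Multiplicative (Pt ι) →* Op (Pt ι) where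
  toFun w := Finsupp.lmapDomain ℂ ℂ (fun u => u + Multiplicative.toAdd w)
  map_one' := by
    refine Finsupp.lhom_ext fun u r => ?_
    simp
  map_mul' w w' := by
    refine Finsupp.lhom_ext fun u r => ?_
    simp only [Finsupp.lmapDomain_apply, Finsupp.mapDomain_single, Module.End.mul_apply,
      toAdd_mul]
    rw [add_assoc, add_comm (Multiplicative.toAdd w')]

/-- The action of the group algebra. -/
noncomputable def ac (ι : Type) : RR (Option ι) →ₐ[ℂ] Op (Pt ι) :=
  AddMonoidAlgebra.lift ℂ (Op (Pt ι)) (Pt ι) (sh ι)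

omit [Fintype ι] [LinearOrder ι] in
lemma ac_U (w u : Pt ι) (r : ℂ) : ac ι (U w) (Finsupp.single u r) = Finsupp.single (u + w) r := by
  rw [ac, U, AddMonoidAlgebra.lift_single, one_smul]
  exact Finsupp.mapDomain_single

omit [Fintype ι] [LinearOrder ι] in
lemma ac_U_mem (w : Pt ι) (Y : Set (Pt ι)) (h : ∀ u ∈ Y, u + w ∈ Y) :
    ∀ e ∈ Su Y, ac ι (U w) e ∈ Su Y := by
  intro e he
  rw [Su, Finsupp.supported_eq_span_single] at he
  induction he using Submodule.span_induction with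
  | mem x hx =>
    obtain ⟨u, hu, rfl⟩ := hx
    rw [ac_U]
    exact Finsupp.single_mem_supported ℂ _ (h u hu)
  | zero => simp
  | add x y _ _ hx hy =>
    rw [map_add]
    exact add_mem hx hy
  | smul r x _ hx =>
    rw [map_smul]
    exact Submodule.smul_mem _ r hx

/-- The map from polynomials to the group algebra. -/
noncomputable def pr : MvPolynomial κ ℂ →ₐ[ℂ] RR (Option ι) :=
  aeval (fun j => if j ∈ T then U (B j) else 0)

omit [Fintype κ] [Fintype ι] [LinearOrder ι] in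
lemma pr_X {j : κ} (hj : j ∈ T) : pr B T (X j) = U (B j) := by
  simp [pr, hj]

omit [Fintype κ] [Fintype ι] [LinearOrder ι] in
lemma pr_prod (k : κ → ℕ) : pr B T (∏ j ∈ T, X j ^ k j) = U (∑ j ∈ T, k j • B j) := by
  rw [map_prod, U_sum]
  exact prod_congr rfl (fun j hj => by rw [map_pow, pr_X B T hj, U_nsmul])

omit [Fintype κ] [Fintype ι] [LinearOrder ι] in
lemma pr_mem (Y : Set (Pt ι)) (h : ∀ u ∈ Y, ∀ b ∈ T, u + B b ∈ Y) (g : MvPolynomial κ ℂ) :
    ∀ e ∈ Su Y, ac ι (pr B T g) e ∈ Su Y := by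
  induction g using MvPolynomial.induction_on with
  | C r =>
    intro e he
    rw [← algebraMap_eq, AlgHom.commutes, AlgHom.commutes, Module.algebraMap_end_apply]
    exact Submodule.smul_mem _ r he
  | add p q hp hq =>
    intro e he
    rw [map_add, map_add, LinearMap.add_apply]
    exact add_mem (hp e he) (hq e he)
  | mul_X p j hp =>
    intro e he
    rw [map_mul, map_mul, Module.End.mul_apply]
    refine hp _ ?_
    by_cases hj : j ∈ T
    · rw [pr_X B T hj]
      exact ac_U_mem _ Y (fun u hu => h u hu j hj) e he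
    · simp [pr, hj]

omit [Fintype ι] [LinearOrder ι] in
lemma ft_eq (c : κ → ℂ) (i : ι) :
    FT B c T i = ac ι (pr B T (∑ j ∈ T, (c j * (B j (some i) : ℂ)) • X j)) := by
  refine Finsupp.lhom_ext' fun u => LinearMap.ext_ring ?_
  simp only [LinearMap.comp_apply, Finsupp.lsingle_apply, FT, op, Finsupp.linearCombination_single,
    one_smul, Pi.zero_apply, zero_smul, zero_add, map_sum, map_smul, LinearMap.sum_apply,
    LinearMap.smul_apply, ite_smul, sum_ite_mem, univ_inter]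
  exact sum_congr rfl fun j hj => by rw [pr_X B T hj, ac_U]

end NullAux

open NullAux MvPolynomial in
theorem ns : NSStmt := by
  intro ι κ _ _ _ _ B c A T hT v hv
  classical
  let F : ι → MvPolynomial κ ℂ := fun i => ∑ j ∈ T, (c j * (B j (some i) : ℂ)) • X j
  have hrad : (X v : MvPolynomial κ ℂ) ∈
      (Ideal.span (Set.range fun i : A => F i) ⊔ RingHom.ker (pr B T)).radical := by
    rw [← vanishingIdeal_zeroLocus_eq_radical (K := ℂ), mem_vanishingIdeal_iff]
    intro y hy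
    rw [mem_zeroLocus_iff] at hy
    rw [aeval_X]
    by_contra h0
    have hb : ∀ k k' : κ → ℕ, ∑ j ∈ T, k j • B j = ∑ j ∈ T, k' j • B j →
        ∏ j ∈ T, y j ^ k j = ∏ j ∈ T, y j ^ k' j := by
      intro k k' e
      have := hy (∏ j ∈ T, X j ^ k j - ∏ j ∈ T, X j ^ k' j) (Ideal.mem_sup_right (by
        rw [RingHom.mem_ker, map_sub, pr_prod, pr_prod, e, sub_self]))
      simpa [sub_eq_zero] using this
    obtain ⟨n, h1, h2⟩ := face B T y hb
    obtain ⟨x, x0, hx⟩ := extend (T.filter (fun j => y j ≠ 0)) B y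
      (fun j hj => (mem_filter.1 hj).2) (fun k k' e => by
        have := hb (fun j => if y j ≠ 0 then k j else 0) (fun j => if y j ≠ 0 then k' j else 0) (by
          simp only [ite_smul, zero_smul]
          rw [← sum_filter, ← sum_filter]
          exact e)
        simp only [pow_ite, pow_zero] at this
        rwa [← prod_filter, ← prod_filter] at this)
    obtain ⟨i, hiA, hi⟩ := hT n h1 (h2 ▸ ⟨v, mem_filter.2 ⟨hv, h0⟩⟩) x x0
    refine hi ?_
    have := hy (F i) (Ideal.mem_sup_left (Ideal.subset_span ⟨⟨i, hiA⟩, rfl⟩))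
    rw [h2, sum_congr rfl (fun j hj => by rw [hx j hj]), sum_filter_of_ne
      (fun j _ hj => right_ne_zero_of_mul hj)]
    simpa [F] using this
  obtain ⟨K, hK⟩ := hrad
  obtain ⟨p, hp, q, hq, e⟩ := Submodule.mem_sup.1 hK
  obtain ⟨G, rfl⟩ := Ideal.mem_span_range_iff_exists_fun.1 hp
  have e1 := congrArg (pr B T) e
  rw [map_add, RingHom.mem_ker.1 hq, add_zero, map_pow, pr_X B T hv, map_sum] at e1
  have hF : ∀ i, FT B c T i = ac ι (pr B T (F i)) := ft_eq B T c
  obtain ⟨G', g1, g0⟩ : ∃ G' : ι → Op (Pt ι),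
      (∀ i (hi : i ∈ A), G' i = ac ι (pr B T (G ⟨i, hi⟩) * U (-B v) ^ K)) ∧ ∀ i ∉ A, G' i = 0 :=
    ⟨fun i => if hi : i ∈ A then ac ι (pr B T (G ⟨i, hi⟩) * U (-B v) ^ K) else 0,
      fun i hi => dif_pos hi, fun i hi => dif_neg hi⟩
  refine ⟨G', g0, fun i k => ?_, ?_, fun Y h1 h2 i w hw => ?_⟩
  · by_cases hi : i ∈ A
    · rw [g1 i hi, hF]
      exact (Commute.all _ _).map _
    · rw [g0 i hi]
      exact Commute.zero_left _
  · rw [← sum_subset (subset_univ A) (fun i _ hi => by rw [g0 i hi, mul_zero]), ← sum_coe_sort]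
    have e2 : ∀ i : A, FT B c T i * G' i = ac ι (pr B T (G i * F i) * U (-B v) ^ K) := fun i => by
      rw [g1 i i.2, hF, ← map_mul, map_mul (pr B T)]
      congr 1
      ring
    rw [sum_congr rfl fun i _ => e2 i, ← map_sum, ← sum_mul, e1, ← mul_pow, U_mul_neg, one_pow,
      map_one]
  · by_cases hi : i ∈ A
    · rw [g1 i hi, map_mul, Module.End.mul_apply, map_pow]
      refine pr_mem B T Y h1 _ _ ?_
      generalize K = L
      induction L with
      | zero => simpa using hw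
      | succ L ih =>
        rw [pow_succ', Module.End.mul_apply]
        exact ac_U_mem _ Y (fun u hu => by rw [← sub_eq_add_neg]; exact h2 u hu) _ ih
    · rw [g0 i hi]
      simp

end Pool.Agent.MP_5d9b3c_ag.H48N
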