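import Pool.Agent.MP_5d9b3c_ag.H48N.BasicO

/-!
A relation in the whole lattice gives a relation in the face ring.
-/

namespace Pool.Agent.MP_5d9b3c_ag.H48N

open Finset Pool.Agent.MP_5d9b3c_ag.H22

namespace LayerAux

variable {ι κ : Type} [Fintype ι] [LinearOrder ι] [Fintype κ] {B : κ → Pt ι} {c : κ → ℂ}
  {K : Finset ι} {η : ℚ} {W : Finset (ι → ℚ)} {wc : (ι → ℚ) → ι → ℚ} {q y : Vq ι}

/-- The points with nonnegative coordinates in `S`. -/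
def CS (S : Finset ι) (q y : Vq ι) : Set (Pt ι) := {u | ∀ k ∈ S, 0 ≤ pp q y u k}

omit [LinearOrder ι] in
lemma CS_add (h : IsFan B c K η W wc) {S : Finset ι} (hS : ∀ k ∈ S, k ∉ K) {u : Pt ι}
    (hu : u ∈ CS S q y) (b : κ) : u + B b ∈ CS S q y := fun k hk => by
  rw [pp_add]
  exact add_nonneg (hu k hk) (h.bx_nonneg b (hS k hk))

/-- Removing the points with a negative `k`-th coordinate. -/
lemma step (h : IsFan B c K η W wc) {S : Finset ι} (hS : ∀ k ∈ S, k ∉ K) {k : ι} (hk : k ∉ K)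
    (hy : y (some k) ≤ 0) {P : Set (Pt ι)} (hP : ∀ u ∈ P, ∀ b, u + B b ∈ P) (d : ℕ) :
    Ex (Dx B c q) d (fun _ => CS S q y ∪ P) (fun _ => CS (insert k S) q y ∪ P) := by
  obtain ⟨z0, hz0⟩ : ∃ z0 : ℤ, z0 = ⌈y (some k) - q (some k)⌉ := ⟨_, rfl⟩
  have hz : ∀ u : Pt ι, 0 ≤ pp q y u k ↔ z0 ≤ u (some k) := by
    intro u
    rw [hz0, Int.ceil_le, pp, hat]
    constructor <;> intro h1 <;> linarith
  have hlt : (z0 : ℚ) < y (some k) - q (some k) + 1 := hz0 ▸ Int.ceil_lt_add_one _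
  obtain ⟨C, hC⟩ : ∃ C : ℕ → Set (Pt ι),
      ∀ n u, u ∈ C n ↔ (u ∈ CS S q y ∧ z0 - n ≤ u (some k)) ∨ u ∈ P :=
    ⟨fun n => {u | (u ∈ CS S q y ∧ z0 - n ≤ u (some k)) ∨ u ∈ P}, fun _ _ => Iff.rfl⟩
  have e0 : CS (insert k S) q y ∪ P = C 0 := by
    ext u
    rw [hC, Set.mem_union, Nat.cast_zero, sub_zero, ← hz]
    simp only [CS, Set.mem_ofPred_eq, forall_mem_insert]
    tauto
  have hadd : ∀ n, ∀ u ∈ C n, ∀ b, u + B b ∈ C n := by
    intro n u hu b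
    rw [hC] at hu ⊢
    rcases hu with ⟨h1, h2⟩ | h1
    · refine Or.inl ⟨CS_add h hS h1 b, ?_⟩
      have := h.nonneg b k hk
      rw [Pi.add_apply]
      linarith
    · exact Or.inr (hP u h1 b)
  rw [e0]
  refine Ex.chain comm_Dx (fun n _ => C n) (fun n => ?_) (fun n _ u hu => ?_)
    (fun n _ u hu => ?_) (fun _ u hu => ?_)
  · refine Ex.of_scalar k (s := (((z0 - n - 1 : ℤ) + q (some k) : ℚ) : ℂ)) ?_
      (fun u hu => Dn_mem (hadd n) (single_mem_Su hu 1)) (fun u hu hu' => ?_)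
    · have h1 : ((z0 - n - 1 : ℤ) + q (some k) : ℚ) < 0 := by
        have : (0 : ℚ) ≤ n := Nat.cast_nonneg n
        push_cast
        linarith
      exact_mod_cast h1.ne
    · rw [hC] at hu hu'
      rw [not_or] at hu'
      obtain ⟨h1, h2⟩ := hu.resolve_right hu'.2
      have h3 : u (some k) = z0 - n - 1 := by
        have : ¬ z0 - n ≤ u (some k) := fun h4 => hu'.1 ⟨h1, h4⟩
        push_cast at h2
        omega
      rw [Dx_single, hat, h3, add_sub_cancel_left]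
      refine Submodule.sum_mem _ (fun b _ => ?_)
      by_cases h4 : B b (some k) = 0
      · rw [h4, Int.cast_zero, mul_zero, zero_smul]
        exact Submodule.zero_mem _
      · refine Submodule.smul_mem _ _ (single_mem_Su ((hC _ _).2 (Or.inl
          ⟨CS_add h hS h1 b, ?_⟩)) 1)
        have := h.nonneg b k hk
        rw [Pi.add_apply]
        omega
  · rw [hC] at hu ⊢
    refine hu.imp_left (fun h1 => ⟨h1.1, ?_⟩)
    have := h1.2
    push_cast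
    omega
  · rw [hC] at hu
    exact hu.imp_left (fun h1 => h1.1)
  · refine ⟨(z0 - u (some k)).toNat, (hC _ _).2 (hu.imp_left (fun h1 => ⟨h1, ?_⟩))⟩
    omega

/-- Removing all the points with a negative coordinate outside `K`. -/
lemma first (h : IsFan B c K η W wc) (hy : ∀ k ∉ K, y (some k) ≤ 0) {P : Set (Pt ι)}
    (hP : ∀ u ∈ P, ∀ b, u + B b ∈ P) (d : ℕ) (S : Finset ι) (hS : ∀ k ∈ S, k ∉ K) :
    Ex (Dx B c q) d (fun _ => Set.univ) (fun _ => CS S q y ∪ P) := by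
  induction S using Finset.induction_on with
  | empty => exact Ex.of_subset (fun _ _ u _ => Or.inl (fun k hk => absurd hk (notMem_empty k)))
  | insert k S _ ih =>
    have h1 : ∀ j ∈ S, j ∉ K := fun j hj => hS j (mem_insert_of_mem hj)
    have h2 := hS k (mem_insert_self _ _)
    exact (ih h1).trans comm_Dx (step h h1 h2 (hy k h2) hP d) (fun _ => Set.subset_univ _)
      (fun _ => Set.union_subset_union_left _ (fun u hu j hj => hu j (mem_insert_of_mem hj)))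

omit [Fintype ι] in
lemma pp_shift (r : ℚ) (u : Pt ι) : pp q (y + Pi.single none r) u = pp q y u := by
  ext k
  simp [pp]

lemma hw_shift (w : ι → ℚ) (r : ℚ) (u : Pt ι) :
    hw w ⬝ᵥ (hat q u - (y + Pi.single none r)) = hw w ⬝ᵥ (hat q u - y) + r := by
  rw [hw_hat, hw_hat, pp_shift]
  simp only [Pi.sub_apply, Pi.add_apply, Pi.single_eq_same]
  ring

lemma mem_Ynn_shift (r : ℚ) (u : Pt ι) : u ∈ Ynn K W wc q (y + Pi.single none r) ↔
    (∀ k ∉ K, 0 ≤ pp q y u k) ∧ ∀ ψ ∈ W, 0 ≤ hw (wc ψ) ⬝ᵥ (hat q u - y) + r := by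
  simp only [Ynn, Set.mem_ofPred_eq, pp_shift, hw_shift]

lemma mem_Ypos_shift (r : ℚ) (u : Pt ι) : u ∈ Ypos W wc q (y + Pi.single none r) ↔
    ∀ ψ ∈ W, 0 < hw (wc ψ) ⬝ᵥ (hat q u - y) + r := by
  simp only [Ypos, Set.mem_ofPred_eq, hw_shift]

lemma disc_step {m : ℕ} (hm : 0 < m) {x : ℚ} (hx : ∃ z : ℤ, m * x = z) (n : ℕ) :
    0 < x + ((n + 1 : ℕ) : ℚ) / m ↔ 0 ≤ x + (n : ℚ) / m := by
  have hm' : (0 : ℚ) < m := by exact_mod_cast hm
  obtain ⟨z, hz⟩ := hx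
  have h2 : x = z / m := by
    rw [eq_div_iff hm'.ne', mul_comm]
    exact hz
  rw [h2, ← add_div, ← add_div, div_pos_iff_of_pos_right hm', le_div_iff₀ hm', zero_mul]
  constructor
  · intro h3
    have h4 : (0 : ℤ) < z + ((n + 1 : ℕ) : ℤ) := by exact_mod_cast h3
    have h5 : (0 : ℤ) ≤ z + (n : ℤ) := by
      push_cast at h4
      omega
    exact_mod_cast h5
  · intro h3
    push_cast
    linarith

/-- Removing the points outside the walls. -/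
lemma second [DecidableEq κ] (ho : OneStmt) (h : IsFan B c K η W wc) :
    Ex (Dx B c q) 1 (fun _ => CS Kᶜ q y) (fun _ => Ynn K W wc q y) := by
  obtain ⟨m, hm, hd⟩ := disc_hat (fun ψ : W => hw (wc ψ)) q y
  have hm' : (0 : ℚ) < m := by exact_mod_cast hm
  obtain ⟨C, hC⟩ : ∃ C : ℕ → Set (Pt ι), ∀ n u, u ∈ C n ↔
      (∀ k ∉ K, 0 ≤ pp q y u k) ∧ ∀ ψ ∈ W, 0 ≤ hw (wc ψ) ⬝ᵥ (hat q u - y) + (n : ℚ) / m :=
    ⟨fun n => {u | (∀ k ∉ K, 0 ≤ pp q y u k) ∧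
      ∀ ψ ∈ W, 0 ≤ hw (wc ψ) ⬝ᵥ (hat q u - y) + (n : ℚ) / m}, fun _ _ => Iff.rfl⟩
  have e0 : Ynn K W wc q y = C 0 := by
    ext u
    rw [hC, Nat.cast_zero, zero_div]
    simp only [Ynn, Set.mem_ofPred_eq, add_zero]
  rw [e0]
  refine Ex.chain comm_Dx (fun n _ => C n)
    (fun n => ?_) (fun n _ u hu => ?_) (fun n _ u hu => ?_) (fun _ u hu => ?_)
  · have h1 := (ho ι κ B c K η W wc h q (y + Pi.single none (((n + 1 : ℕ) : ℚ) / m))).1
    have key : ∀ ψ ∈ W, ∀ u : Pt ι,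
        0 < hw (wc ψ) ⬝ᵥ (hat q u - y) + ((n + 1 : ℕ) : ℚ) / m ↔
        0 ≤ hw (wc ψ) ⬝ᵥ (hat q u - y) + (n : ℚ) / m :=
      fun ψ hψ u => disc_step hm (hd ⟨ψ, hψ⟩ u) n
    have e1 : Ynn K W wc q (y + Pi.single none (((n + 1 : ℕ) : ℚ) / m)) = C (n + 1) :=
      Set.ext (fun u => (mem_Ynn_shift _ u).trans (hC _ u).symm)
    have e2 : C (n + 1) ∩ Ypos W wc q (y + Pi.single none (((n + 1 : ℕ) : ℚ) / m)) = C n := by
      ext u
      rw [Set.mem_inter_iff, hC, hC, mem_Ypos_shift]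
      exact ⟨fun h2 => ⟨h2.1.1, fun ψ hψ => (key ψ hψ u).1 (h2.2 ψ hψ)⟩,
        fun h2 => ⟨⟨h2.1, fun ψ hψ => ((key ψ hψ u).2 (h2.2 ψ hψ)).le⟩,
          fun ψ hψ => (key ψ hψ u).2 (h2.2 ψ hψ)⟩⟩
    rw [e1, e2] at h1
    exact h1
  · rw [hC] at hu ⊢
    refine ⟨hu.1, fun ψ hψ => (hu.2 ψ hψ).trans (add_le_add le_rfl ?_)⟩
    exact div_le_div_of_nonneg_right (by exact_mod_cast Nat.le_succ n) hm'.le
  · exact fun k hk => ((hC _ _).1 hu).1 k (mem_compl.1 hk)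
  · obtain ⟨n, hn⟩ := exists_nat_ge (m * ∑ ψ ∈ W, |hw (wc ψ) ⬝ᵥ (hat q u - y)|)
    refine ⟨n, (hC _ _).2 ⟨fun k hk => hu k (mem_compl.2 hk), fun ψ hψ => ?_⟩⟩
    have h1 := single_le_sum (f := fun ψ => |hw (wc ψ) ⬝ᵥ (hat q u - y)|)
      (fun _ _ => abs_nonneg _) hψ
    have h2 : ∑ ψ ∈ W, |hw (wc ψ) ⬝ᵥ (hat q u - y)| ≤ (n : ℚ) / m := by
      rw [le_div_iff₀ hm', mul_comm]
      exact hn
    have h3 := neg_abs_le (hw (wc ψ) ⬝ᵥ (hat q u - y))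
    linarith

end LayerAux

open LayerAux in
theorem layer (h : OneStmt) : LayerStmt := by
  intro ι κ _ _ _ _ B c K η W wc hF q y hy u0 hu0 hN
  obtain ⟨e, d1, h1⟩ := mem_N0.1 hN
  have hP : ∀ u ∈ Ypos W wc q y, ∀ b, u + B b ∈ Ypos W wc q y :=
    fun u hu b => Ypos_add hF.cfeas hu b
  have hK : ∀ k ∈ Kᶜ, k ∉ K := fun k hk => mem_compl.1 hk
  have hC : u0 ∈ CS Kᶜ q y := fun k hk => hu0.1.1 k (hK k hk)
  have sC : Stab (Dx B c q) (fun _ => CS Kᶜ q y) := stab_Dx (fun u hu b => CS_add hF hK hu b)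
  obtain ⟨e1, d2, -, h2⟩ := first hF hy hP 1 Kᶜ hK e d1
    (fun _ => mem_Su.2 (fun _ hu => absurd trivial hu)) (d1.kd.in_zero (by
      have := sub_mem (single_mem_Su (Y := CS Kᶜ q y ∪ Ypos W wc q y) (Or.inl hC) 1)
        (Su_mono Set.subset_union_right h1)
      rwa [sub_sub_cancel] at this))
  obtain ⟨e2, d3, h3, -, h4⟩ := h2.split (Y := fun _ => CS Kᶜ q y)
    (Z := fun _ => Ypos W wc q y) (d1.sub d2.kd) (fun _ => subset_rfl)
  have h5 : kd (Dx B c q) e2 ∅ - Finsupp.single u0 1 ∈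
      Su (Ynn K W wc q y ∩ Ypos W wc q y) := by
    have h6 := h4.kd (D := Dx B c q) (stab_Dx hP) ∅
    rw [kd_sub, kd_sub_kd comm_Dx, Pi.sub_apply] at h6
    have h7 : kd (Dx B c q) e2 ∅ - Finsupp.single u0 1 ∈ Su (Ypos W wc q y) := by
      have := neg_mem (add_mem h1 h6)
      rwa [sub_add_sub_cancel, neg_sub] at this
    refine Su_mono (fun u hu => ⟨⟨fun k hk => hu.1 k (mem_compl.2 hk),
      fun ψ hψ => (hu.2 ψ hψ).le⟩, hu.2⟩)
      (Su_inter (sub_mem (h3.kd sC ∅) (single_mem_Su hC 1)) h7)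
  obtain ⟨e3, d4, -, h6⟩ := second h hF e2 d3 h3 (d3.kd.in_zero (by
    have := add_mem (Su_mono Set.inter_subset_left h5) (single_mem_Su hu0.1 1)
    rwa [sub_add_cancel] at this))
  exact (h ι κ B c K η W wc hF q y).2 u0 hu0 _ (d3.sub d4.kd) h6 (by rwa [kd_sub_kd comm_Dx])

end Pool.Agent.MP_5d9b3c_ag.H48N
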