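import Pool.Agent.MP_5d9b3c_ag.H48N.BasicO

/-!
From forms with logarithmic poles to forms without poles.
-/

namespace Pool.Agent.MP_5d9b3c_ag.H48N

open Finset Pool.Agent.MP_5d9b3c_ag.H22

namespace LinkAux

variable {X ι : Type} [LinearOrder ι]

/-- Forms in the coordinates of `A` without poles along `S`. -/
def YY (G : Set X) (P : ι → X → Prop) (A S : Finset ι) : Finset ι → Set X :=
  fun J => {u | J ⊆ A ∧ u ∈ G ∧ ∀ k ∈ S \ J, P k u}

/-- The part that lies outside the coordinate face of `A`. -/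
def ZZ (G : Set X) (P : ι → X → Prop) (A S : Finset ι) : Finset ι → Set X :=
  fun J => {u | u ∈ YY G P A S J ∧ ∃ i ∉ A, P i u}

/-- The operators respect positivity. -/
def Resp (D : ι → Op X) (G : Set X) (P : ι → X → Prop) (K : Finset ι) : Prop :=
  ∀ i, ∀ u ∈ G, D i (Finsupp.single u 1) ∈
    Su {v | v ∈ G ∧ (∀ k ∉ K, P k u → P k v) ∧ (i ∉ K → P i v)}

variable {D : ι → Op X} {G : Set X} {P : ι → X → Prop} {K A S : Finset ι} {s : ι} {k : ℕ}

lemma stab_YY (h : Resp D G P K) (hS : Disjoint S K) : Stab D (YY G P A S) :=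
  fun J i _ u hu => Su_mono (fun v hv => ⟨(subset_insert _ _).trans hu.1, hv.1, fun k hk => by
    obtain ⟨h1, h2⟩ := mem_sdiff.1 hk
    by_cases h3 : k = i
    · subst h3
      exact hv.2.2 (disjoint_left.1 hS h1)
    · exact hv.2.1 k (disjoint_left.1 hS h1)
        (hu.2.2 k (mem_sdiff.2 ⟨h1, fun h4 => (mem_insert.1 h4).elim h3 h2⟩))⟩) (h i u hu.2.1)

lemma stab_ZZ (h : Resp D G P K) (hS : Disjoint S K) (hA : K ⊆ A) : Stab D (ZZ G P A S) :=
  fun J i hi u hu => Su_inter (stab_YY h hS J i hi u hu.1) (Su_mono (fun v hv => by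
    obtain ⟨j, h1, h2⟩ := hu.2
    exact ⟨j, h1, hv.2.1 j (fun h3 => h1 (hA h3)) h2⟩) (h i u hu.1.2.1))

lemma YY_anti (J : Finset ι) : YY G P A (insert s S) J ⊆ YY G P A S J := fun _ hu =>
  ⟨hu.1, hu.2.1, fun k hk =>
    hu.2.2 k (mem_sdiff.2 ⟨mem_insert_of_mem (mem_sdiff.1 hk).1, (mem_sdiff.1 hk).2⟩)⟩

lemma YY_ins {J : Finset ι} {u : X} (hu : u ∈ YY G P A S J) (hs : s ∉ J → P s u) :
    u ∈ YY G P A (insert s S) J :=
  ⟨hu.1, hu.2.1, fun k hk => by
    obtain ⟨h1, h2⟩ := mem_sdiff.1 hk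
    rcases mem_insert.1 h1 with rfl | h3
    · exact hs h2
    · exact hu.2.2 k (mem_sdiff.2 ⟨h3, h2⟩)⟩

lemma YY_erase (J : Finset ι) : YY G P (A.erase s) S J ⊆ YY G P A S J := fun _ hu =>
  ⟨hu.1.trans (erase_subset _ _), hu.2⟩

variable [Fintype ι]

/-- The residue along one coordinate. -/
lemma step (h : Resp D G P K) (hS : Disjoint (insert s S) K) (hA : K ⊆ A)
    (h1 : Ex D k (YY G P (A.erase s) S) (ZZ G P (A.erase s) S)) :
    Ex D k (YY G P A S) (fun J => YY G P A (insert s S) J ∪ ZZ G P A S J) := by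
  have hS' : Disjoint S K := hS.mono_left (subset_insert _ _)
  refine h1.union (stab_YY h hS') ((stab_YY h hS).union (stab_ZZ h hS' hA)) (fun J u hu => ?_)
    (fun J u hu => ?_) (fun J u hu => ?_) YY_erase
  · refine ⟨hu.1, ?_⟩
    rcases hu.2 with h2 | ⟨_, i, h2, h3⟩
    · exact ⟨s, notMem_erase _ _, h2.2.2 s
        (mem_sdiff.2 ⟨mem_insert_self _ _, fun h3 => notMem_erase _ _ (hu.1.1 h3)⟩)⟩
    · exact ⟨i, fun h4 => h2 (mem_of_mem_erase h4), h3⟩
  · obtain ⟨h2, i, h3, h4⟩ := hu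
    by_cases h5 : i = s
    · exact Or.inl (YY_ins (YY_erase J h2) (fun _ => h5 ▸ h4))
    · exact Or.inr ⟨YY_erase J h2, i, fun h6 => h3 (mem_erase.2 ⟨h5, h6⟩), h4⟩
  · by_cases h2 : s ∈ J
    · exact Or.inr (Or.inl (YY_ins hu (fun h3 => absurd h2 h3)))
    · exact Or.inl ⟨subset_erase.2 ⟨hu.1, h2⟩, hu.2⟩

lemma claim (hD : Comm D) (h : Resp D G P K)
    (h0 : ∀ A, K ⊆ A → ∀ k, 1 ≤ k → Ex D k (res A G) (res A {u | u ∈ G ∧ ∃ i ∉ A, P i u}))
    (S : Finset ι) : Disjoint S K → ∀ A, K ⊆ A → ∀ k, 1 ≤ k →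
      Ex D k (YY G P A S) (ZZ G P A S) := by
  induction S using Finset.induction_on with
  | empty =>
    intro _ A hA k hk
    have e1 : YY G P A ∅ = res A G := by
      funext J
      simp [YY, res]
    have e2 : ZZ G P A ∅ = res A {u | u ∈ G ∧ ∃ i ∉ A, P i u} := by
      funext J
      simp [ZZ, e1, res, and_assoc]
    rw [e1, e2]
    exact h0 A hA k hk
  | insert s S _ ih =>
    intro hS A hA k hk
    have hS' : Disjoint S K := hS.mono_left (subset_insert _ _)
    have hA' : K ⊆ A.erase s :=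
      subset_erase.2 ⟨hA, disjoint_left.1 hS (mem_insert_self _ _)⟩
    have h1 := (step h hS hA (ih hS' _ hA' (k + 1) (by omega))).two_of_three hD (ih hS' A hA k hk)
      (fun J => Set.union_subset (YY_anti J) (fun _ hu => hu.1)) (fun _ => Set.subset_union_right)
    exact h1.inter (stab_YY h hS) (stab_ZZ h hS' hA) (fun _ _ hu => ⟨hu.1, hu.2.2⟩)
      (fun J _ hu => ⟨YY_anti J hu.1, hu.2⟩) (fun _ => subset_rfl)
      (fun _ => Set.subset_union_left)

lemma final (hD : Comm D) (h : Resp D G P K)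
    (h0 : ∀ A, K ⊆ A → ∀ k, 1 ≤ k → Ex D k (res A G) (res A {u | u ∈ G ∧ ∃ i ∉ A, P i u}))
    (S : Finset ι) : Disjoint S K → Ex D 1 (fun _ => G) (YY G P univ S) := by
  induction S using Finset.induction_on with
  | empty => exact fun _ => Ex.of_subset (fun J _ u hu => ⟨subset_univ _, hu, by simp⟩)
  | insert s S _ ih =>
    intro hS
    have hS' : Disjoint S K := hS.mono_left (subset_insert _ _)
    have hA' : K ⊆ univ.erase s :=
      subset_erase.2 ⟨subset_univ _, disjoint_left.1 hS (mem_insert_self _ _)⟩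
    have h1 := step h hS (subset_univ _) (claim hD h h0 S hS' _ hA' 1 le_rfl)
    have e1 : (fun J => YY G P univ (insert s S) J ∪ ZZ G P univ S J) =
        YY G P univ (insert s S) := by
      funext J
      simp [ZZ]
    rw [e1] at h1
    exact (ih hS').trans hD h1 (fun _ _ hu => hu.2.1) YY_anti

end LinkAux

open LinkAux in
theorem link (h : ShellStmt) : LinkStmt := by
  intro ι κ _ _ _ _ B c K η W wc hF q y S hS
  have e1 : NonLog K W wc q y S = YY (GG K W wc q y) (fun k u => 0 < pp q y u k) univ S := by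
    funext J
    simp [NonLog, YY]
  rw [e1]
  refine final (K := K) (comm_Ftr hF.feas) (fun i u hu => Ftr_mem i (fun b h1 h2 => ?_))
    (h ι κ B c K η W wc hF q y) S hS
  refine ⟨hF.sim_add hu h1, fun k hk h3 => ?_, fun hi => ?_⟩
  · rw [pp_add]
    exact add_pos_of_pos_of_nonneg h3 (hF.bx_nonneg b hk)
  · rw [pp_add]
    refine add_pos_of_nonneg_of_pos (hu.1.1 i hi) (lt_of_le_of_ne (hF.bx_nonneg b hi) ?_)
    unfold bx
    exact_mod_cast Ne.symm h2

end Pool.Agent.MP_5d9b3c_ag.H48N
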