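import Pool.Agent.MP_5d9b3c_ag.H48N.BasicO

/-!
Projection to the closed cone of a face, followed by a character.
-/

namespace Pool.Agent.MP_5d9b3c_ag.H48N

open Finset Pool.Agent.MP_5d9b3c_ag.H22

namespace ProjAux

variable {ι κ : Type} [Fintype ι] [Fintype κ] {B : κ → Pt ι} {c : κ → ℂ} {K : Finset ι} {η : ℚ}
  {W : Finset (ι → ℚ)} {wc : (ι → ℚ) → ι → ℚ} {q y : Vq ι} {w p : ι → ℚ} {u : Pt ι} {b : κ}

/-- The functional `w` is minimal at `p`. -/
def Mn (W : Finset (ι → ℚ)) (w p : ι → ℚ) : Prop := ∀ ψ ∈ W, w ⬝ᵥ p ≤ ψ ⬝ᵥ p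

/-- A shift inside a cone ends in the face of `w` exactly if it takes place in that face. -/
lemma sim_iff (h : IsFan B c K η W wc) (hw1 : Feas (bx B) (val B η) w)
    (hp : ∀ k ∉ K, 0 ≤ p k) (b : κ) :
    (Sim B η W p b ∧ Mn W w (p + bx B b)) ↔ (Mn W w p ∧ b ∈ Tt (bx B) (val B η) w) := by
  rw [mem_Tt]
  constructor
  · rintro ⟨⟨ψ, h1, h2, h3⟩, h4⟩
    obtain ⟨ψ1, h5, h6⟩ := h.exists_min hp
    have h7 := h4 ψ h1
    have h8 := h6 w hw1
    have h9 := h2 ψ1 h5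
    have h10 := hw1 b
    rw [dotProduct_add, dotProduct_add] at h7
    exact ⟨fun ψ' h11 => by linarith [h2 ψ' h11], by linarith⟩
  · rintro ⟨h1, h2⟩
    obtain ⟨ψ, h3, h4⟩ := h.exists_min (p := p + bx B b)
      (fun k hk => add_nonneg (hp k hk) (h.bx_nonneg b hk))
    have h5 := h4 w hw1
    have h6 := h1 ψ h3
    have h7 := h.feas ψ h3 b
    rw [dotProduct_add, dotProduct_add] at h5
    refine ⟨⟨ψ, h3, fun ψ' h8 => by linarith [h1 ψ' h8], by linarith⟩, fun ψ' h8 => ?_⟩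
    rw [dotProduct_add, dotProduct_add]
    linarith [h1 ψ' h8, h.feas ψ' h8 b]

open Classical in
/-- The character, restricted to the points of level zero in the face of `w`. -/
noncomputable def chr (W : Finset (ι → ℚ)) (w : ι → ℚ) (q y : Vq ι) (x : Option ι → ℂ) :
    (Pt ι →₀ ℂ) →ₗ[ℂ] ℂ :=
  Finsupp.linearCombination ℂ (fun u =>
    if Mn W w (pp q y u) ∧ u none = 0 then ∏ o, x o ^ u o else 0)

open Classical in
lemma chr_single (x : Option ι → ℂ) (u : Pt ι) : chr W w q y x (Finsupp.single u 1) =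
    if Mn W w (pp q y u) ∧ u none = 0 then ∏ o, x o ^ u o else 0 := by
  rw [chr, Finsupp.linearCombination_single, one_smul]

open Classical in
lemma chr_Ftr (h : IsFan B c K η W wc) (hw1 : Feas (bx B) (val B η) w)
    (hT : ∀ b ∈ Tt (bx B) (val B η) w, B b none = 1) (hu : ∀ k ∉ K, 0 ≤ pp q y u k)
    {x : Option ι → ℂ} (hx : ∀ o, x o ≠ 0) (i : ι) :
    chr W w q y x (Ftr B c η W q y i (Finsupp.single u 1)) =
      (if Mn W w (pp q y u) ∧ u none = -1 then ∏ o, x o ^ u o else 0) *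
        ∑ b ∈ Tt (bx B) (val B η) w, c b * (B b (some i) : ℂ) * ∏ o, x o ^ B b o := by
  rw [Ftr_single, map_sum, mul_sum, ← univ_inter (Tt (bx B) (val B η) w), ← sum_ite_mem]
  refine sum_congr rfl (fun b _ => ?_)
  rw [map_smul, chr_single, pp_add, smul_eq_mul]
  have key := sim_iff h hw1 hu b
  by_cases h1 : Mn W w (pp q y u) ∧ b ∈ Tt (bx B) (val B η) w
  · obtain ⟨h2, h3⟩ := key.2 h1
    have h4 : (u + B b) none = 0 ↔ u none = -1 := by
      rw [Pi.add_apply, hT b h1.2]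
      omega
    rw [if_pos h2, if_pos h1.2]
    by_cases h5 : u none = -1
    · rw [if_pos ⟨h3, h4.2 h5⟩, if_pos ⟨h1.1, h5⟩]
      simp only [Pi.add_apply, zpow_add₀ (hx _), prod_mul_distrib]
      ring
    · rw [if_neg (fun h6 => h5 (h4.1 h6.2)), if_neg (fun h6 => h5 h6.2), mul_zero, zero_mul]
  · have h2 : (if Sim B η W (pp q y u) b then c b * (B b (some i) : ℂ) else 0) *
        (if Mn W w (pp q y u + bx B b) ∧ (u + B b) none = 0 then ∏ o, x o ^ (u + B b) o
          else 0) = 0 := by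
      by_cases h3 : Sim B η W (pp q y u) b
      · rw [if_neg (fun h4 : _ ∧ _ => h1 (key.1 ⟨h3, h4.1⟩)), mul_zero]
      · rw [if_neg h3, zero_mul]
    rw [h2]
    by_cases h3 : b ∈ Tt (bx B) (val B η) w
    · rw [if_pos h3, if_neg (fun h4 : _ ∧ _ => h1 ⟨h4.1, h3⟩), zero_mul]
    · rw [if_neg h3]

omit [Fintype κ] in
/-- The weight of a point of level `-1` in the cone. -/
lemma bound {T : Finset κ} {τ : κ → ℚ} {μ : ι → ℚ} (hT : ∀ b ∈ T, B b none = 1)
    (hy : y = q - ∑ b ∈ T, τ b • Bq B b) (hle : ∀ b ∈ T, μ ⬝ᵥ bx B b ≤ 1)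
    (hc : Cone (Bq B) T (hat q u - y)) (hu : u none = -1) :
    μ ⬝ᵥ (fun k => (u (some k) : ℚ)) ≤ ∑ b ∈ T, τ b * (1 - μ ⬝ᵥ bx B b) - 1 := by
  have h1 : ∀ b ∈ T, qq 1 (-μ) ⬝ᵥ Bq B b = 1 - μ ⬝ᵥ bx B b := fun b hb => by
    rw [qq_dot, neg_dotProduct, Bq_none, lev, hT b hb, Int.cast_one, one_mul,
      sub_eq_add_neg]
    rfl
  have h2 := hc.dot_nonneg (n := qq 1 (-μ)) (fun b hb => by
    rw [h1 b hb]
    linarith [hle b hb])
  rw [dot_hat_sub, hy, sub_sub_cancel, dotProduct_sum, qq_dot, neg_dotProduct, hu,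
    sum_congr rfl (fun b hb => by rw [dotProduct_smul, h1 b hb, smul_eq_mul])] at h2
  push_cast at h2
  linarith

end ProjAux

open ProjAux in
theorem proj : ProjStmt := by
  intro ι κ _ _ _ _ B c K η W wc h w T τ μ ν S q y hw1 hT h1 hτ hy hS hμ hμ0 hS1 hle hν _ e _ he
    hk x hx
  subst hT
  by_contra hcon
  have hp : ∀ u : Pt ι, ∀ k ∈ S, pp q y u k = u (some k) + 1 := fun u k hk => by
    rw [← hS1 k hk, pp, hy, hat, Pi.sub_apply, Finset.sum_apply]
    simp only [Pi.smul_apply, Bq_some, smul_eq_mul]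
    ring
  have h0 : Mn W w (pp q y 0) := fun ψ hψ => by
    refine Cone.le_of_feas ?_ (h.feas ψ hψ)
    rw [← pp_eq, hat_zero, hy, sub_sub_cancel]
    exact (Cone.of_sum hτ).proj
  have h2 := congrArg (chr W w q y x) hk
  rw [kd_empty, map_sum, chr_single, if_pos ⟨h0, rfl⟩, sum_eq_zero] at h2
  · simp at h2
  intro i _
  refine map_Su (chr W w q y x ∘ₗ Ftr B c η W q y i) ⊥ (fun u hu => ?_) (he {i})
  rw [LinearMap.comp_apply, chr_Ftr h hw1 h1 hu.1.1.1 hx, Submodule.mem_bot, mul_eq_zero]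
  by_cases h3 : Mn W w (pp q y u) ∧ u none = -1
  · right
    by_contra h4
    refine hcon ⟨i, ?_, h4⟩
    have h5 := bound h1 hy hle (h.cone_GG' hu.1 hw1 h3.1) h3.2
    have h6 : μ ⬝ᵥ (-Pi.single i 1) ≤ μ ⬝ᵥ (fun k => (u (some k) : ℚ)) := by
      refine sum_le_sum (fun k _ => ?_)
      by_cases h7 : k ∈ S
      · refine mul_le_mul_of_nonneg_left ?_ (hμ k)
        by_cases h8 : k = i
        · have h9 := hu.1.1.1 k (disjoint_left.1 hS h7)
          rw [hp u k h7] at h9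
          rw [h8, Pi.neg_apply, Pi.single_eq_same, ← h8]
          linarith
        · have h9 := hu.2 k (mem_sdiff.2 ⟨h7, fun h9 => h8 (mem_singleton.1 h9)⟩)
          rw [hp u k h7] at h9
          rw [Pi.neg_apply, Pi.single_eq_of_ne h8, neg_zero]
          have h10 : 0 < u (some k) + 1 := by exact_mod_cast h9
          have h11 : 0 ≤ u (some k) := by omega
          exact Int.cast_nonneg h11
      · rw [hμ0 k h7, zero_mul, zero_mul]
    rw [dotProduct_neg, dotProduct_single, mul_one] at h6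
    linarith
  · exact Or.inl (if_neg h3)

end Pool.Agent.MP_5d9b3c_ag.H48N
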