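import Pool.Agent.MP_5d9b3c_ag.H48N.BasicP

/-!
From the blocks to the point counts.
-/

namespace Pool.Agent.MP_5d9b3c_ag.H48N

open Finset Pool.Agent.MP_5d9b3c_ag.H22

namespace GlobAux

variable {ι κ : Type} [Fintype ι] [LinearOrder ι] [Fintype κ] [DecidableEq κ]
  {a : κ → ι →₀ ℕ} {c : κ → ℂ}

omit [LinearOrder ι] [Fintype κ] [DecidableEq κ] in
lemma wgt_rat {w : ι → ℚ} {N : ℕ} {n : ι → ℤ} (hn : ∀ i, (n i : ℚ) = N * w i) (j : κ) :
    ((wgt n (a j) : ℤ) : ℚ) = N * (w ⬝ᵥ Aq a j) := by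
  simp only [wgt, dotProduct, Aq, mul_sum]
  push_cast
  exact sum_congr rfl (fun i _ => by rw [hn, mul_assoc])

omit [Fintype κ] in
lemma fac_rat (ha : Function.Injective a) (hc : ∀ j, c j ≠ 0) {w : ι → ℚ} {N : ℕ} (hN : 0 < N)
    {n : ι → ℤ} (hn : ∀ i, (n i : ℚ) = N * w i) {J J' : Finset κ} {m : ℚ}
    (h1 : ∀ j ∈ J, m ≤ w ⬝ᵥ Aq a j) (h2 : ∀ j, j ∈ J' ↔ j ∈ J ∧ w ⬝ᵥ Aq a j = m)
    (h3 : J'.Nonempty) :
    fac n (∑ j ∈ J, MvPolynomial.monomial (a j) (c j)) =
      ∑ j ∈ J', MvPolynomial.monomial (a j) (c j) := by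
  obtain ⟨j0, hj0⟩ := h3
  have hN' : (0 : ℚ) < N := by exact_mod_cast hN
  have e0 := ((h2 j0).1 hj0).2
  refine fac_poly ha hc n (N := wgt n (a j0)) (fun j hj => ?_) (fun j => ?_) ⟨j0, hj0⟩
  · have : ((wgt n (a j0) : ℤ) : ℚ) ≤ ((wgt n (a j) : ℤ) : ℚ) := by
      rw [wgt_rat hn, wgt_rat hn, e0]
      exact mul_le_mul_of_nonneg_left (h1 j hj) hN'.le
    exact_mod_cast this
  · rw [h2, ← Int.cast_inj (α := ℚ), wgt_rat hn, wgt_rat hn, e0]
    simp [hN'.ne']

omit [LinearOrder ι] in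
lemma clear_nat {w : ι → ℚ} (hw : ∀ i, 0 ≤ w i) :
    ∃ N : ℕ, 0 < N ∧ ∃ n : ι → ℕ, ∀ i, (((n i : ℕ) : ℤ) : ℚ) = N * w i := by
  obtain ⟨N, hN, n, hn⟩ := clear_den w
  refine ⟨N, hN, fun i => (n i).toNat, fun i => ?_⟩
  have h1 : (0 : ℚ) ≤ n i := by
    rw [hn]
    exact mul_nonneg (Nat.cast_nonneg _) (hw i)
  rw [Int.toNat_of_nonneg (by exact_mod_cast h1), hn]

lemma ndp (ha : Function.Injective a) (hc : ∀ j, c j ≠ 0)
    (H1 : ∀ w : ι → ℕ, Nond (fac (fun i => w i) (∑ j, MvPolynomial.monomial (a j) (c j))))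
    (H3 : ∀ w : ι → ℕ, (∀ n ∈ (∑ j, MvPolynomial.monomial (a j) (c j)).support,
      0 < wgt (fun i => w i) n) → (∃ i, w i = 0) → ∀ w' : ι → ℤ,
      Nond (fac w' (fac (fun i => w i) (∑ j, MvPolynomial.monomial (a j) (c j))))) :
    NDP a c := by
  intro w hw d m _ h2 h3
  obtain ⟨hw1, hw2⟩ := inG_iff.1 hw
  by_cases hpos : ∀ i, 0 < w i
  · obtain ⟨ε, h0, h4⟩ := H48.small (α := κ ⊕ ι)
      ((univ.filter (fun j => j ∉ Tw a w)).disjSum univ)
      (Sum.elim (fun j => w ⬝ᵥ Aq a j - 1) w) (Sum.elim (fun j => d ⬝ᵥ Aq a j - m) d) (by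
        rintro (j | i) hx
        · have h4 := (mem_filter.1 (inl_mem_disjSum.1 hx)).2
          rw [mem_Tw] at h4
          exact sub_pos.2 (lt_of_le_of_ne (hw1 j) (Ne.symm h4))
        · exact hpos i)
    obtain ⟨N, hN, n, hn⟩ := clear_nat (w := w + ε • d) (fun i =>
      (h4 (Sum.inr i) (inr_mem_disjSum.2 (mem_univ _))).le)
    have e : ∀ j, (w + ε • d) ⬝ᵥ Aq a j = w ⬝ᵥ Aq a j + ε * (d ⬝ᵥ Aq a j) := fun j => by
      rw [add_dotProduct, smul_dotProduct, smul_eq_mul]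
    have h5 : ∀ j, j ∉ Tw a w → 1 + ε * m < w ⬝ᵥ Aq a j + ε * (d ⬝ᵥ Aq a j) := fun j hj => by
      have := h4 (Sum.inl j) (inl_mem_disjSum.2 (mem_filter.2 ⟨mem_univ _, hj⟩))
      simp only [Sum.elim_inl] at this
      linarith
    have := H1 n
    rw [fac_rat ha hc hN hn (m := 1 + ε * m) (fun j _ => by
      rw [e]
      by_cases hj : j ∈ Tw a w
      · rw [mem_Tw.1 hj]
        have := mul_le_mul_of_nonneg_left (h2 j hj) h0.le
        linarith
      · exact (h5 j hj).le) (fun j => by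
      rw [mem_filter, e]
      simp only [mem_univ, true_and]
      constructor
      · rintro ⟨h6, h7⟩
        rw [mem_Tw.1 h6, h7]
      · intro h6
        by_cases hj : j ∈ Tw a w
        · rw [mem_Tw.1 hj] at h6
          exact ⟨hj, mul_left_cancel₀ h0.ne' (by linarith)⟩
        · exact absurd h6 (h5 j hj).ne') h3] at this
    exact this.nd
  · push Not at hpos
    obtain ⟨i, hi⟩ := hpos
    obtain ⟨N, hN, n, hn⟩ := clear_nat hw2
    obtain ⟨N', hN', n', hn'⟩ := clear_den d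
    have hN0 : (0 : ℚ) < N := by exact_mod_cast hN
    have := H3 n (fun k hk => by
      rw [support_poly ha hc] at hk
      obtain ⟨j, _, rfl⟩ := mem_image.1 hk
      have h6 : (0 : ℚ) < ((wgt (fun i => ((n i : ℕ) : ℤ)) (a j) : ℤ) : ℚ) := by
        rw [wgt_rat hn]
        exact mul_pos hN0 (lt_of_lt_of_le one_pos (hw1 j))
      exact_mod_cast h6) ⟨i, by
      have h6 := hn i
      rw [le_antisymm hi (hw2 i), mul_zero] at h6
      exact_mod_cast h6⟩ n'
    rw [fac_rat ha hc hN hn (m := 1) (J' := Tw a w) (fun j _ => hw1 j)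
      (fun j => by simp [mem_Tw]) (h3.mono (filter_subset _ _)),
      fac_rat ha hc hN' hn' h2 (fun j => mem_filter) h3] at this
    exact this.nd

end GlobAux

open GlobAux in
theorem glob (hD : DStmt) (hC : CertStmt) (hF : FreeStmt) (hG : GridStmt) : GlobStmt := by
  intro ι κ _ _ _ _ a c b p g hp ha hc hg H1 H3 hdeg hbe l hl
  have : Fact p.Prime := ⟨hp⟩
  subst hg
  have hb1 : b.eval (-1) = 0 := by
    obtain ⟨d, P, hP, heq⟩ := hbe
    exact root_neg_one hdeg hP heq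
  have hc' : ∀ j, (c j : ℂ) ≠ 0 := fun j => by exact_mod_cast hc j
  have hndp := ndp ha hc' H1 H3
  have hcast : ∀ (w : Option ι → ℕ) j, ((∑ i, w i * Aof a j i : ℕ) : ℤ) =
      w none + wgt (fun i => w (some i)) (a j) := fun w j => by
    rw [← sum_Aof (fun i => w i)]
    push_cast
    rfl
  have hnd : ∀ w J, J.Nonempty → IsFace (Aof a) w J → ND (Aof a) (fun j => (c j : ℂ)) J := by
    rintro w J hJ ⟨N, h1, h2⟩
    have := H1 (fun i => w (some i))
    rw [fac_poly ha hc' _ (J' := J) (N := N - w none) (fun j _ => by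
      have := hcast w j
      have := h1 j
      omega) (fun j => by
      have := hcast w j
      rw [h2]
      simp only [mem_univ, true_and]
      omega) hJ] at this
    exact this.nd
  obtain ⟨M, hM⟩ := phase (p := p) hnd
  obtain ⟨b', hb'⟩ : ∃ b', b = (Polynomial.X + 1) * b' := by
    have h1 : Polynomial.X - Polynomial.C (-1 : ℂ) ∣ b := Polynomial.dvd_iff_isRoot.2 hb1
    have h2 : Polynomial.X + 1 ∣ b := by simpa using h1
    exact h2
  have hgood := hG ι κ p a c l hndp ⟨M, fun θ L j hj => by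
    have e : ∀ j, ∑ o, (((fun o : Option ι => o.elim 0 L) o : ℕ) : ℤ) * Aof a j o =
        ∑ i, (L i : ℤ) * a j i := fun j => by
      simp [Fintype.sum_option, Aof]
    have h1 := hM θ (fun o => o.elim 0 L) j (by rw [e]; exact hj)
    simp only [e] at h1
    rw [EB, map_empty, sdiff_empty]
    exact h1⟩ (fun w hw => by
    obtain ⟨τ, μ, hcert⟩ := hC ι κ a _ _ hw.occ
    refine hF ι κ a _ _ _ τ μ ((hndp w hw.1).mono (subset_univ _)) hw.occ hcert
      (hD ι κ a _ b' l hndp (hb' ▸ hbe) (fun h => hl ?_) w hw τ μ hcert)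
    rw [hb', Polynomial.eval_mul, h, mul_zero])
  have hp1 : (1 : ℝ) < p := by exact_mod_cast hp.one_lt
  have hp0 : (p : ℂ) ≠ 0 := by exact_mod_cast hp.ne_zero
  refine Good.of_shift (p : ℂ)⁻¹ 1 (fun T hT h => hl ?_) (hgood.eventually 1 (fun n hn => ?_))
  · have h1 : T = p := by
      rw [pow_one, inv_mul_eq_one₀ hp0] at h
      exact h.symm
    rw [h1, Complex.norm_natCast] at hT
    have h2 : l = 1 := by
      have h3 : (p : ℝ) ^ (1 : ℝ) = (p : ℝ) ^ l := by rw [Real.rpow_one]; exact hT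
      exact ((Real.rpow_right_inj (by linarith) hp1.ne').1 h3).symm
    rw [h2]
    simpa using hb1
  · have e1 : (univ \ (univ : Finset ι).map Function.Embedding.some : Finset (Option ι)) =
        insert none ∅ := by
      ext o
      cases o <;> simp
    have e2 : zz a n 0 = n • z0 κ := by
      ext j
      simp [zz, z0]
    have e3 : n • z0 κ - yv (Aof a) none = (n - 1) • z0 κ := by
      ext j
      simp [z0, yv, Aof, Nat.cast_sub hn]
    rw [if_pos hn, EB, e1, ← EE_rec (fun _ => ker_chi) _ (notMem_empty _), act_uu, e2, e3,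
      EE_ray, EE_ray, mean_DD, mean_DD]

end Pool.Agent.MP_5d9b3c_ag.H48N
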