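import Pool.Agent.MP_5d9b3c_ag.H48N.BasicP

/-!
The assembly of the `p`-adic side.
-/

namespace Pool.Agent.MP_5d9b3c_ag.H48N

open Finset Pool.Agent.MP_5d9b3c_ag.H22

namespace GridAux

/-- One coordinate of a cell. -/
def Cell1 (g : ℕ → ℚ) (J : ℕ) (i : ℕ) (t : ℚ) : Prop :=
  (i = 0 ∨ g (i - 1) ≤ t) ∧ (i = J + 1 ∨ t < g i)

lemma cell1_exists (g : ℕ → ℚ) (J : ℕ) (t : ℚ) : ∃ i : Fin (J + 2), Cell1 g J i t := by
  classical
  by_cases h : ∃ j, j ≤ J ∧ t < g j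
  · have h1 := Nat.find_spec h
    refine ⟨⟨Nat.find h, by omega⟩, ?_, Or.inr h1.2⟩
    rcases Nat.eq_zero_or_pos (Nat.find h) with h0 | h0
    · exact Or.inl h0
    · refine Or.inr (not_lt.1 (fun h2 => ?_))
      exact Nat.find_min h (m := Nat.find h - 1) (by omega) ⟨by omega, h2⟩
  · push Not at h
    exact ⟨⟨J + 1, by omega⟩, Or.inr (h J le_rfl), Or.inl rfl⟩

lemma cell1_le {g : ℕ → ℚ} (hg : Monotone g) {J : ℕ} {t : ℚ} {i i' : Fin (J + 2)}
    (h : Cell1 g J i t) (h' : Cell1 g J i' t) : (i' : ℕ) ≤ i := by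
  by_contra hlt
  have h1 := i'.2
  have h2 := h.2.resolve_left (by omega)
  have h3 := h'.1.resolve_left (by omega)
  have h4 := hg (show (i : ℕ) ≤ i' - 1 by omega)
  linarith

lemma cell1_uniq {g : ℕ → ℚ} (hg : Monotone g) {J : ℕ} {t : ℚ} {i i' : Fin (J + 2)}
    (h : Cell1 g J i t) (h' : Cell1 g J i' t) : i = i' :=
  Fin.ext (le_antisymm (cell1_le hg h' h) (cell1_le hg h h'))

variable {ι κ : Type} [Fintype ι] [LinearOrder ι] [Fintype κ] [DecidableEq κ]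

omit [Fintype ι] [LinearOrder ι] in
lemma gl_mono {h : ℚ} (hh : 0 < h) (o : ι → ℚ) (k : ι) (θ : ℕ) :
    Monotone (fun j => gl h o k j * θ) := fun j j' hj => by
  have h1 : (j : ℚ) ≤ j' := by exact_mod_cast hj
  refine mul_le_mul_of_nonneg_right ?_ (Nat.cast_nonneg _)
  unfold gl
  nlinarith

omit [Fintype ι] [LinearOrder ι] in
lemma inCell_iff {h : ℚ} {o : ι → ℚ} {J : ℕ} {idx : ι → Fin (J + 2)} {θ : ℕ} {L : ι → ℕ} :
    InCell h o idx θ L ↔ ∀ k, Cell1 (fun j => gl h o k j * θ) J (idx k) (L k) := Iff.rfl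

omit [Fintype ι] [LinearOrder ι] in
lemma exists_cell (h : ℚ) (o : ι → ℚ) (J : ℕ) (θ : ℕ) (L : ι → ℕ) :
    ∃ idx : ι → Fin (J + 2), InCell h o idx θ L := by
  choose idx hidx using fun k => cell1_exists (fun j => gl h o k j * θ) J (L k)
  exact ⟨idx, inCell_iff.2 hidx⟩

omit [Fintype ι] [LinearOrder ι] in
lemma cell_eq {h : ℚ} (hh : 0 < h) {o : ι → ℚ} {J : ℕ} {idx idx' : ι → Fin (J + 2)} {θ : ℕ}
    {L L' : ι → ℕ} (h1 : InCell h o idx θ L) (h2 : InCell h o idx' θ L') {k : ι}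
    (hk : L k = L' k) : idx k = idx' k := by
  have h3 := inCell_iff.1 h2 k
  rw [← hk] at h3
  exact cell1_uniq (gl_mono hh o k θ) (inCell_iff.1 h1 k) h3

omit [Fintype ι] [LinearOrder ι] in
lemma inBox_of_cell {h : ℚ} {o : ι → ℚ} {J : ℕ} {idx : ι → Fin (J + 2)} {θ : ℕ} (hθ : 0 < θ)
    {L : ι → ℕ} (h1 : InCell h o idx θ L) : InBox h o idx (fun k => (L k : ℚ) / θ) := by
  have h0 : (0 : ℚ) < θ := by exact_mod_cast hθ
  intro k
  refine ⟨by positivity, (h1 k).1.imp id (fun h2 => ?_), (h1 k).2.imp id (fun h2 => ?_)⟩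
  · exact (le_div_iff₀ h0).2 h2
  · exact (div_le_iff₀ h0).2 h2.le

omit [LinearOrder ι] [Fintype κ] [DecidableEq κ] in
lemma zz_cast (a : κ → ι →₀ ℕ) (θ : ℕ) (L : ι → ℕ) (j : κ) :
    ((zz a θ L j : ℤ) : ℚ) = θ - ∑ i, (L i : ℚ) * a j i := by
  simp [zz]

omit [DecidableEq κ] in
/-- The starting point of a column. -/
lemma column {a : κ → ι →₀ ℕ} {c : κ → ℂ} {l : ℝ} {ν ρ : ℚ} {V : (ι → ℚ) → Finset ι}
    {σ : (ι → ℚ) → ι → ℚ} (hs : Sel a c l ν ρ V σ) {C ρ' r : ℚ} (hC : ∀ j, ∑ i, (a j i : ℚ) ≤ C)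
    (hr : 0 ≤ r) (hρ : 0 ≤ ρ') (h1 : ρ' ≤ ν) (h2 : C * (r + ρ') ≤ ν) {x : ι → ℚ}
    (hx : InP a l x) {B : Finset ι} (hB : B ⊆ Fw (σ x)) (hl : Lin a (Tw a (σ x)) B) (θ : ℕ)
    (L : ι → ℕ) (hL : ∀ k ∉ B, |(L k : ℚ) - x k * θ| ≤ r * θ) :
    ∃ L0 : ι → ℕ, (∀ k ∉ B, L0 k = L k) ∧ (∀ j ∉ Tw a (σ x), zz a θ L0 j ≤ 0) ∧
      ∀ i ∈ B, ∃ j ∈ Tw a (σ x), a j i ≠ 0 ∧ ∀ L' : ι → ℕ, (∀ k ∉ B, L' k = L k) →
        L' i ≤ L0 i → θ * (ρ' - C * r) - 1 ≤ ((zz a θ L' j : ℤ) : ℚ) := by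
  have hθ : (0 : ℚ) ≤ θ := Nat.cast_nonneg _
  have hν := hs.nupos
  have hsub : tg a x ⊆ tg a (σ x) := fun j hj => hs.tight x hx j (by
    rw [mem_Tt.1 hj]
    linarith)
  refine ⟨fun k => if k ∈ B then ⌈(x k - ρ') * θ⌉₊ else L k, fun k hk => if_neg hk,
    fun j hj => ?_, fun i hi => ?_⟩
  · have h3 : 1 + ν < x ⬝ᵥ Aq a j := by
      by_contra h4
      exact hj (inl_mem_tg.1 (hs.tight x hx (Sum.inl j) (by simpa [vG, bG] using not_lt.1 h4)))
    have h4 : ∑ i, (x i - (r + ρ')) * θ * (a j i : ℚ) ≤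
        ∑ i, (((if i ∈ B then ⌈(x i - ρ') * θ⌉₊ else L i : ℕ)) : ℚ) * a j i := by
      refine sum_le_sum (fun i _ => mul_le_mul_of_nonneg_right ?_ (Nat.cast_nonneg _))
      split_ifs with h5
      · refine le_trans ?_ (Nat.le_ceil _)
        nlinarith
      · have := (abs_le.1 (hL i h5)).1
        nlinarith
    have h5 : ∑ i, (x i - (r + ρ')) * θ * (a j i : ℚ) =
        θ * (x ⬝ᵥ Aq a j - (r + ρ') * ∑ i, (a j i : ℚ)) := by
      rw [dotProduct, mul_sum, ← sum_sub_distrib, mul_sum]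
      exact sum_congr rfl (fun i _ => by unfold Aq; ring)
    have h6 : (r + ρ') * ∑ i, (a j i : ℚ) ≤ ν :=
      (mul_le_mul_of_nonneg_left (hC j) (add_nonneg hr hρ)).trans (by linarith)
    have h7 := zz_cast a θ (fun k => if k ∈ B then ⌈(x k - ρ') * θ⌉₊ else L k) j
    have h8 : ((zz a θ (fun k => if k ∈ B then ⌈(x k - ρ') * θ⌉₊ else L k) j : ℤ) : ℚ) ≤ 0 := by
      rw [h7]
      nlinarith
    exact_mod_cast h8
  · obtain ⟨j, hj, h0⟩ := hx.occ i (Fw_anti hx.1 hsub (hB hi))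
    have hjT := Tw_mono hsub hj
    refine ⟨j, hjT, h0, fun L' hL' hle => ?_⟩
    have h3 : ν < x i := by
      by_contra h4
      have h5 := inr_mem_tg.1 (hs.tight x hx (Sum.inr i) (by simpa [vG, bG] using not_lt.1 h4))
      exact (mem_Fw.1 (hB hi)).ne' h5
    have h4 : (L' i : ℚ) ≤ (x i - ρ') * θ + 1 := by
      have h5 : (L' i : ℚ) ≤ (⌈(x i - ρ') * θ⌉₊ : ℕ) := by
        simp only [if_pos hi] at hle
        exact_mod_cast hle
      exact h5.trans (Nat.ceil_lt_add_one (mul_nonneg (by linarith) hθ)).le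
    have h5 : ∑ k, (L' k : ℚ) * a j k ≤
        ∑ k, ((x k + r) * θ * (a j k : ℚ) + if k = i then 1 - ρ' * θ else 0) := by
      refine sum_le_sum (fun k _ => ?_)
      by_cases hk : k = i
      · rw [if_pos hk, hk, hl.eq_one hjT hi h0]
        push_cast
        nlinarith
      · rw [if_neg hk, add_zero]
        by_cases hkB : k ∈ B
        · simp [hl.eq_zero hjT hi hkB hk h0]
        · refine mul_le_mul_of_nonneg_right ?_ (Nat.cast_nonneg _)
          have := (abs_le.1 (hL k hkB)).2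
          rw [hL' k hkB]
          nlinarith
    have h6 : ∑ k, (x k + r) * θ * (a j k : ℚ) =
        θ * (x ⬝ᵥ Aq a j + r * ∑ i, (a j i : ℚ)) := by
      rw [dotProduct, mul_sum, ← sum_add_distrib, mul_sum]
      exact sum_congr rfl (fun i _ => by unfold Aq; ring)
    rw [sum_add_distrib, h6, mem_Tw.1 hj, sum_ite_eq' univ i, if_pos (mem_univ _)] at h5
    have h7 : θ * (r * ∑ i, (a j i : ℚ)) ≤ θ * (r * C) :=
      mul_le_mul_of_nonneg_left (mul_le_mul_of_nonneg_left (hC j) hr) hθ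
    rw [zz_cast]
    nlinarith

open Classical in
/-- Summation over a family of cells. -/
lemma hasSum_cells {h : ℚ} (hh : 0 < h) (o : ι → ℚ) (J θ : ℕ) {f : (ι → ℕ) → ℂ}
    (hf : Summable f) (S : Set (ι → Fin (J + 2))) :
    HasSum ({L | ∃ idx ∈ S, InCell h o idx θ L}.indicator f)
      (∑ idx : ι → Fin (J + 2), if idx ∈ S then
        ∑' L : ι → ℕ, if InCell h o idx θ L then f L else 0 else 0) := by
  have h1 : ∀ idx ∈ (univ : Finset (ι → Fin (J + 2))),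
      HasSum (fun L => if idx ∈ S then if InCell h o idx θ L then f L else 0 else 0)
        (if idx ∈ S then ∑' L : ι → ℕ, if InCell h o idx θ L then f L else 0 else 0) := by
    intro idx _
    by_cases h2 : idx ∈ S
    · simp only [if_pos h2]
      exact ((hf.indicator {L | InCell h o idx θ L}).congr (fun L => by
        simp [Set.indicator_apply])).hasSum
    · simp only [if_neg h2]
      exact hasSum_zero
  convert hasSum_sum h1 using 1
  ext L
  obtain ⟨idx, h2⟩ := exists_cell h o J θ L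
  have h3 : ∀ idx' : ι → Fin (J + 2), InCell h o idx' θ L → idx' = idx :=
    fun idx' h4 => funext (fun k => cell_eq hh h4 h2 rfl)
  rw [sum_eq_single idx (fun idx' _ hne => by
    rw [if_neg (fun h4 => hne (h3 idx' h4)), ite_self]) (fun h => absurd (mem_univ _) h),
    if_pos h2, Set.indicator_apply]
  refine if_congr ⟨?_, fun h4 => ⟨idx, h4, h2⟩⟩ rfl rfl
  rintro ⟨idx', h4, h5⟩
  rwa [← h3 idx' h5]

end GridAux

open GridAux in
theorem grid (hSel : SelStmt) (hCols : ColsStmt) (hGeo : GeoStmt) (hBox : BoxStmt)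
    (hSum : SumStmt) (hCol : ColStmt) : GridStmt := by
  classical
  intro ι κ _ _ _ _ p _ a c l hN hM hB
  obtain ⟨M1, hM1⟩ := hM
  obtain ⟨ν, ρ, V, σ, hs⟩ := hSel ι κ a _ l hN hB
  obtain ⟨M2, hM2⟩ := hCol ι κ p a c
  have hν := hs.nupos
  obtain ⟨C, hC1, hC⟩ : ∃ C : ℚ, 1 ≤ C ∧ ∀ j, ∑ i, (a j i : ℚ) ≤ C := by
    have h0 : ∀ j, (0 : ℚ) ≤ ∑ i, (a j i : ℚ) := fun j => sum_nonneg (fun _ _ => Nat.cast_nonneg _)
    refine ⟨1 + ∑ j, ∑ i, (a j i : ℚ), le_add_of_nonneg_right (sum_nonneg (fun j _ => h0 j)),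
      fun j => ?_⟩
    have := single_le_sum (f := fun j => ∑ i, (a j i : ℚ)) (fun j _ => h0 j) (mem_univ j)
    linarith
  obtain ⟨r, hr, hr1⟩ : ∃ r : ℚ, 0 < r ∧ 3 * C * C * r = ν :=
    ⟨ν / (3 * C * C), by positivity, by field_simp⟩
  have hCr : 0 < C * r := by positivity
  have hCr1 : C * r ≤ C * C * r := by nlinarith
  obtain ⟨h, hh, hU⟩ := hCols ι κ a _ l ν ρ V σ hs r hr
  obtain ⟨J, hJ⟩ : ∃ J : ℕ, l < J * h := by
    have h0 : (0 : ℝ) < h := by exact_mod_cast hh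
    obtain ⟨J, hJ⟩ := exists_nat_gt (l / h)
    exact ⟨J, (div_lt_iff₀ h0).1 hJ⟩
  obtain ⟨o, ho, hg⟩ := hGeo ι κ a l h J hh
  obtain ⟨U, hU⟩ := hU o J ho hJ
  obtain ⟨N, hN1⟩ := exists_nat_gt ((M1 + M2 + 2 : ℚ) / (C * r))
  rw [div_lt_iff₀ hCr] at hN1
  set g : (ι → Fin (J + 2)) → ℕ → ℂ := fun idx θ => ∑' L : ι → ℕ, if InCell h o idx θ L then
      ((p : ℂ)⁻¹) ^ (∑ k, L k) * EB p a c ∅ (zz a θ L) else 0 with hgdef
  have key : Good p l (fun θ => ∑ idx : ι → Fin (J + 2),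
      (1 - ∑ B : Finset ι, if idx ∈ U B then (1 : ℂ) else 0) * g idx θ) := by
    refine Good.sum _ (fun idx _ => ?_)
    by_cases h1 : ∃ x, InP a l x ∧ InBox h o idx x
    · obtain ⟨B, h2, h3⟩ := hU.uniq idx h1
      rw [sum_eq_single B (fun B' _ hne => if_neg (fun h4 => hne (h3 B' h4)))
        (fun h => absurd (mem_univ _) h), if_pos h2]
      simpa using Good.zero
    · exact (hBox ι κ p a c l h o J M1 hM1 hg idx h1).const_mul _
  refine key.eventually (N + 1) (fun θ hθ => ?_)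
  obtain ⟨h1, h2⟩ := hSum ι κ p a c θ
  have h3 : EB p a c univ (zz a θ 0) = ∑ idx, g idx θ := by
    have h4 := hasSum_cells hh o J θ h1.summable Set.univ
    have h5 : {L | ∃ idx ∈ (Set.univ : Set (ι → Fin (J + 2))), InCell h o idx θ L} =
        Set.univ := by
      ext L
      simpa using exists_cell h o J θ L
    rw [h5, Set.indicator_univ] at h4
    rw [h1.unique h4]
    simp [hgdef]
  have h4 : ∀ B, ∑ idx, (if idx ∈ U B then g idx θ else 0) = 0 := by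
    intro B
    refine (hasSum_cells hh o J θ h1.summable (U B)).unique (h2 B _ ?_ ?_)
    · rintro L L' hL ⟨idx, h5, h6⟩
      obtain ⟨idx', h7⟩ := exists_cell h o J θ L'
      exact ⟨idx', hU.inv B idx idx' (fun k hk => cell_eq hh h6 h7 (hL k hk)) h5, h7⟩
    · rintro L ⟨idx, h5, h6⟩
      obtain ⟨x, hx, hBx, hl, hv, hw⟩ := hU.wit B idx h5
      have hθ0 : (0 : ℚ) < θ := by exact_mod_cast (by omega : 0 < θ)
      have hθ1 : (N : ℚ) ≤ θ := by exact_mod_cast (by omega : N ≤ θ)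
      obtain ⟨L0, h7, h8, h9⟩ := column hs hC hr.le (ρ' := 2 * (C * r)) (by positivity)
        (by nlinarith) (by nlinarith) hx hBx hl θ L (fun k hk => by
          have h10 := hw _ (inBox_of_cell (by omega) h6) k hk
          have h11 : (L k : ℚ) - x k * θ = ((L k : ℚ) / θ - x k) * θ := by field_simp
          rw [h11, abs_mul, abs_of_pos hθ0]
          exact mul_le_mul_of_nonneg_right h10 hθ0.le)
      have h10 : ∀ z : ℤ, θ * (2 * (C * r) - C * r) - 1 ≤ (z : ℚ) → (M1 : ℤ) + M2 < z := by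
        intro z hz
        have h11 : (N : ℚ) * (C * r) ≤ θ * (C * r) := mul_le_mul_of_nonneg_right hθ1 hCr.le
        have h12 : (((M1 : ℤ) + M2 : ℤ) : ℚ) < z := by
          push_cast
          nlinarith
        exact_mod_cast h12
      refine ⟨L0, h7, hM2 _ univ B (hN _ (hs.inP x hx).1) (subset_univ _) hl hv θ L0 h8
        (fun i hi => ?_), fun L' hL' hne => ?_⟩
      · obtain ⟨j, hj, h0, h11⟩ := h9 i hi
        have := h10 _ (h11 L0 h7 le_rfl)
        exact ⟨j, hj, h0, by omega⟩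
      · obtain ⟨i, hi⟩ := not_forall.1 hne
        have hiB : i ∈ B := by
          by_contra h11
          exact hi (by rw [h7 i h11, hL' i h11])
        obtain ⟨j, _, _, h11⟩ := h9 i hiB
        have := h10 _ (h11 L' hL' (not_le.1 hi).le)
        exact hM1 θ L' j (by omega)
  rw [h3]
  simp only [sub_mul, one_mul, sum_sub_distrib, sum_mul, ite_mul, zero_mul]
  rw [sum_comm, sum_eq_zero (fun B _ => h4 B), sub_zero]

end Pool.Agent.MP_5d9b3c_ag.H48N
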