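import Pool.Agent.MP_5d9b3c_ag.H48N.BasicP

/-!
The selection of valid blocks.
-/

namespace Pool.Agent.MP_5d9b3c_ag.H48N

open Finset Pool.Agent.MP_5d9b3c_ag.H22

namespace SelAux

lemma chain_eq {α : Type} [Fintype α] (S : ℕ → Finset α) (h : ∀ t, S t ⊆ S (t + 1)) :
    ∃ t ≤ Fintype.card α, S (t + 1) = S t := by
  by_contra hc
  push Not at hc
  have key : ∀ t, t ≤ Fintype.card α + 1 → t ≤ #(S t) := by
    intro t
    induction t with
    | zero => exact fun _ => Nat.zero_le _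
    | succ t ih =>
      intro ht
      have h1 := card_lt_card (Finset.ssubset_iff_subset_ne.2 ⟨h t, (hc t (by omega)).symm⟩)
      have := ih (by omega)
      omega
  have h1 := key _ le_rfl
  have h2 := card_le_univ (S (Fintype.card α + 1))
  omega

lemma exists_rho {ι α : Type} [Fintype ι] [Fintype α] (v : α → ι → ℚ) {δ : ℚ} (hδ : 0 < δ) :
    ∃ ρ : ℚ, 0 < ρ ∧ ∀ x x', Near ρ x x' → ∀ j, |x ⬝ᵥ v j - x' ⬝ᵥ v j| ≤ δ := by
  have h0 : 0 ≤ ∑ j, ∑ k, |v j k| := sum_nonneg fun _ _ => sum_nonneg fun _ _ => abs_nonneg _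
  refine ⟨δ / (∑ j, ∑ k, |v j k| + 1), by positivity, fun x x' h j => ?_⟩
  have h1 : ∑ k, |v j k| ≤ ∑ j, ∑ k, |v j k| := single_le_sum (f := fun j => ∑ k, |v j k|)
    (fun _ _ => sum_nonneg fun _ _ => abs_nonneg _) (mem_univ j)
  rw [← sub_dotProduct, dotProduct]
  refine (abs_sum_le_sum_abs _ _).trans ?_
  calc ∑ k, |(x - x') k * v j k| ≤ ∑ k, δ / (∑ j, ∑ k, |v j k| + 1) * |v j k| :=
        sum_le_sum fun k _ => by
          rw [abs_mul]
          exact mul_le_mul_of_nonneg_right (h k) (abs_nonneg _)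
    _ = δ / (∑ j, ∑ k, |v j k| + 1) * ∑ k, |v j k| := by rw [mul_sum]
    _ ≤ δ / (∑ j, ∑ k, |v j k| + 1) * (∑ j, ∑ k, |v j k| + 1) :=
        mul_le_mul_of_nonneg_left (by linarith) (by positivity)
    _ = δ := div_mul_cancel₀ _ (by positivity)

variable {ι κ : Type} [Fintype ι] [LinearOrder ι] [Fintype κ] [DecidableEq κ]
  {a : κ → ι →₀ ℕ} {c : κ → ℂ} {l : ℝ}

lemma down (hl : LiftStmt) (hnd : NDP a c) {w w' : ι → ℚ} (hw : InP a l w) (hw' : InG a w')
    (hs : tg a w ⊆ tg a w') {J : Finset ι} (hJ : J ⊆ Fw w) (hL : Lin a (Tw a w') J)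
    (h : ¬ Solv a c (Tw a w') J) : ¬ Solv a c (Tw a w) J := by
  have e : (Tw a w').filter (fun j => (w - w') ⬝ᵥ Aq a j = 0) = Tw a w := by
    ext j
    rw [mem_filter, sub_dotProduct, sub_eq_zero]
    constructor
    · rintro ⟨h1, h2⟩
      rw [mem_Tw, h2, mem_Tw.1 h1]
    · intro h1
      exact ⟨Tw_mono hs h1, by rw [mem_Tw.1 h1, mem_Tw.1 (Tw_mono hs h1)]⟩
  intro hS
  refine h (hl ι κ a c _ univ J (hnd w' hw') (subset_univ _) hL (w - w')
    (fun k hk => absurd (mem_univ k) hk) (fun j hj => ?_) ?_ ?_)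
  · rw [sub_dotProduct, mem_Tw.1 (mem_MA.1 hj).1, sub_nonneg]
    exact (inG_iff.1 hw.1).1 j
  · rw [e]
    exact hw.occ.mono subset_rfl hJ
  · rwa [e]

end SelAux

open SelAux in
theorem sel (hs : StabStmt) (hc : ClosStmt) (hl : LiftStmt) : SelStmt := by
  intro ι κ _ _ _ _ a c l hnd hb
  obtain ⟨η, hη, hst⟩ := hs ι (κ ⊕ ι) (vG a) (bG κ ι)
  set m := Fintype.card (κ ⊕ ι) with hm
  have hν : 0 < η / (2 * m + 3) := by positivity
  set ν := η / (2 * m + 3) with hνd
  obtain ⟨ρ, hρ, hnear⟩ := exists_rho (vG a) (half_pos hν)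
  have ex : ∀ S : Finset (κ ⊕ ι), ∃ w, (∃ w, InG a w ∧ S ⊆ tg a w) → InG a w ∧ S ⊆ tg a w ∧
      ∀ w', InG a w' → S ⊆ tg a w' → tg a w ⊆ tg a w' := fun S => by
    by_cases h : ∃ w, InG a w ∧ S ⊆ tg a w
    · obtain ⟨w, hw⟩ := hc ι (κ ⊕ ι) (vG a) (bG κ ι) S h
      exact ⟨w, fun _ => hw⟩
    · exact ⟨0, fun h' => absurd h' h⟩
  choose W hW using ex
  have ex2 : ∀ w, ∃ Z, InP a l w → Free a c (Tw a w) (Fw w) Z := fun w => by
    by_cases h : InP a l w
    · obtain ⟨Z, hZ⟩ := hb w h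
      exact ⟨Z, fun _ => hZ⟩
    · exact ⟨∅, fun h' => absurd h' h⟩
  choose Z hZ using ex2
  obtain ⟨S, hS⟩ : ∃ S : ℕ → (ι → ℚ) → Finset (κ ⊕ ι),
      ∀ i x j, j ∈ S i x ↔ x ⬝ᵥ vG a j ≤ bG κ ι j + i * ν :=
    ⟨fun i x => univ.filter fun j => x ⬝ᵥ vG a j ≤ bG κ ι j + i * ν, fun i x j => by simp⟩
  have Smono : ∀ {i i'} x, i ≤ i' → S i x ⊆ S i' x := fun {i i'} x h j hj => by
    rw [hS] at hj ⊢
    have : (i : ℚ) * ν ≤ i' * ν := mul_le_mul_of_nonneg_right (by exact_mod_cast h) hν.le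
    linarith
  have Sstep : ∀ i x x', (∀ j, x' ⬝ᵥ vG a j ≤ x ⬝ᵥ vG a j + ν) → S i x ⊆ S (i + 1) x' :=
    fun i x x' h j hj => by
      rw [hS] at hj ⊢
      push_cast
      linarith [h j]
  have ok : ∀ i x, InP a l x → i ≤ 2 * m + 3 → ∃ w, InG a w ∧ S i x ⊆ tg a w := fun i x hx hi =>
    hst x _ (fun j => by linarith [hx.1 j]) fun j hj => by
      rw [hS] at hj
      have h1 : (i : ℚ) * ν ≤ (2 * m + 3) * ν :=
        mul_le_mul_of_nonneg_right (by exact_mod_cast hi) hν.le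
      rw [hνd, mul_div_cancel₀ _ (by positivity)] at h1
      linarith
  have wP : ∀ i x, InP a l x → i ≤ 2 * m + 3 → InP a l (W (S i x)) := fun i x hx hi =>
    hx.mono (hW _ (ok i x hx hi)).1 (subset_trans (fun j hj => by
      have h1 := mem_Tt.1 hj
      have h2 : 0 ≤ (i : ℚ) * ν := by positivity
      rw [hS]
      linarith) (hW _ (ok i x hx hi)).2.1)
  have wm : ∀ {A} i x, InP a l x → i ≤ 2 * m + 3 → A ⊆ S i x → tg a (W A) ⊆ tg a (W (S i x)) := by
    intro A i x hx hi hA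
    obtain ⟨h1, h2, -⟩ := hW _ (ok i x hx hi)
    exact (hW A ⟨_, h1, hA.trans h2⟩).2.2 _ h1 (hA.trans h2)
  have ex3 : ∀ x, ∃ t ≤ m, S (2 * t + 3) x = S (2 * t + 1) x := fun x =>
    chain_eq (fun t => S (2 * t + 1) x) fun t => Smono x (by omega)
  choose t ht hSt using ex3
  have mid : ∀ x, S (2 * t x + 2) x = S (2 * t x + 1) x := fun x =>
    subset_antisymm (hSt x ▸ Smono x (by omega)) (Smono x (by omega))
  obtain ⟨J, hJ⟩ : ∃ J : ℕ → (ι → ℚ) → Finset ι, ∀ i x k, k ∈ J i x ↔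
      k ∈ Z (W (S (2 * t x + 1) x)) ∧
        ∀ i', i ≤ i' → i' < 2 * t x + 1 → k ∉ Nb a (Tw a (W (S i' x))) (Z (W (S i' x))) := by
    classical
    exact ⟨fun i x => (Z (W (S (2 * t x + 1) x))).filter fun k => ∀ i', i ≤ i' →
      i' < 2 * t x + 1 → k ∉ Nb a (Tw a (W (S i' x))) (Z (W (S i' x))), fun i x k => mem_filter⟩
  have JZ : ∀ i x, J i x ⊆ Z (W (S (2 * t x + 1) x)) := fun i x k hk => ((hJ i x k).1 hk).1
  have fr : ∀ x, InP a l x → Free a c (Tw a (W (S (2 * t x + 1) x))) (Fw (W (S (2 * t x + 1) x)))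
      (Z (W (S (2 * t x + 1) x))) := fun x hx => hZ _ (wP _ x hx (by have := ht x; omega))
  have one : ∀ x x', InP a l x' → Near ρ x x' → tg a (W (S 1 x)) ⊆ tg a (W (S (2 * t x' + 1) x')) := by
    intro x x' hx' h
    refine wm _ x' hx' (by have := ht x'; omega) ?_
    rw [← mid]
    refine (Sstep 1 x x' fun j => ?_).trans (Smono x' (by omega))
    linarith [(abs_le.1 (hnear x x' h j)).1]
  refine ⟨ν, ρ, J 1, fun x => W (S 1 x), hν, hρ, fun x hx => wP 1 x hx (by omega),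
    fun x hx j hj => (hW _ (ok 1 x hx (by omega))).2.1 ((hS 1 x j).2 (by simpa using hj)),
    fun x hx => ?_, fun x x' hx hx' h => ?_, ?_⟩
  · have h0 := ht x
    have key : ∀ i, i ≤ 2 * t x + 1 → ¬ Solv a c (Tw a (W (S i x))) (J i x) := by
      intro i hi
      induction hi using Nat.decreasingInduction with
      | self =>
        refine fun h => (fr x hx).2.2.1 (h.anti fun k hk => (hJ _ x k).2 ⟨hk, fun i' _ _ => ?_⟩)
        omega
      | of_succ i hi ih =>
        have p1 := wP i x hx (by omega)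
        have s1 := wm (2 * t x + 1) x hx (by omega) (Smono (i := i) x (by omega))
        have s2 := wm (2 * t x + 1) x hx (by omega) (Smono (i := i + 1) x (by omega))
        have hF : J (i + 1) x ⊆ Fw (W (S i x)) :=
          (JZ _ x).trans ((fr x hx).1.trans (Fw_anti p1.1 s1))
        have h1 := down hl hnd p1 (wP (i + 1) x hx (by omega)).1
          (wm (i + 1) x hx (by omega) (Smono x (by omega))) hF
          ((fr x hx).2.1.mono (Tw_mono s2) (JZ _ x)) ih
        refine fun h => (hZ _ p1).2.2.2 _ hF ((fr x hx).2.1.mono (Tw_mono s1) (JZ _ x)) h1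
          (h.anti fun k hk => ?_)
        obtain ⟨h2, h3⟩ := mem_sdiff.1 hk
        rw [hJ] at h2 ⊢
        refine ⟨h2.1, fun i' h4 h5 => ?_⟩
        rcases h4.eq_or_lt with rfl | h4
        · exact h3
        · exact h2.2 i' h4 h5
    exact key 1 (by omega)
  · exact (JZ 1 x').trans ((fr x' hx').1.trans (Fw_anti (wP 1 x hx (by omega)).1 (one x x' hx' h)))
  · have key : ∀ x x' x'', InP a l x' → InP a l x'' → Near ρ x x' → Near ρ x x'' → t x' ≤ t x'' →
        Lin a (Tw a (W (S 1 x))) (J 1 x' ∪ J 1 x'') := by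
      intro x x' x'' h1 h2 n1 n2 hle
      have l1 := (fr x' h1).2.1.mono (Tw_mono (one x x' h1 n1)) subset_rfl
      have l2 := (fr x'' h2).2.1.mono (Tw_mono (one x x'' h2 n2)) subset_rfl
      have e : S (2 * t x' + 2) x'' = S (2 * t x' + 1) x' := by
        refine subset_antisymm (hSt x' ▸ Sstep _ x'' x' fun j => ?_) (Sstep _ x' x'' fun j => ?_)
        all_goals linarith [abs_le.1 (hnear x x' n1 j), abs_le.1 (hnear x x'' n2 j)]
      have cross : ∀ j ∈ Tw a (W (S 1 x)), ∀ i ∈ J 1 x', ∀ k ∈ J 1 x'', a j i ≠ 0 → a j k ≠ 0 →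
          i = k := by
        intro j hj i hi k hk f1 f2
        have hkZ : k ∈ Z (W (S (2 * t x' + 1) x')) := by
          rcases hle.eq_or_lt with h | h
          · rw [← e, h, mid]
            exact JZ 1 x'' hk
          · have := ((hJ 1 x'' k).1 hk).2 (2 * t x' + 2) (by omega) (by omega)
            rw [e, mem_Nb] at this
            by_contra hn
            exact this ⟨hn, j, Tw_mono (one x x' h1 n1) hj, f2, i, JZ 1 x' hi, f1⟩
        by_contra hne
        exact f2 (l1.eq_zero hj (JZ 1 x' hi) hkZ (Ne.symm hne) f1)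
      refine lin_of_pairs (fun j hj i hi => ?_) fun j hj i hi k hk f1 f2 => ?_
      · by_cases f : a j i = 0
        · omega
        · rcases mem_union.1 hi with hi | hi
          · exact (l1.eq_one hj (JZ 1 x' hi) f).le
          · exact (l2.eq_one hj (JZ 1 x'' hi) f).le
      · by_contra hne
        rcases mem_union.1 hi with hi | hi <;> rcases mem_union.1 hk with hk | hk
        · exact f2 (l1.eq_zero hj (JZ 1 x' hi) (JZ 1 x' hk) (Ne.symm hne) f1)
        · exact hne (cross j hj i hi k hk f1 f2)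
        · exact hne (cross j hj k hk i hi f2 f1).symm
        · exact f2 (l2.eq_zero hj (JZ 1 x'' hi) (JZ 1 x'' hk) (Ne.symm hne) f1)
    intro x x' x'' _ h1 h2 n1 n2
    rcases le_total (t x') (t x'') with h | h
    · exact key x x' x'' h1 h2 n1 n2 h
    · rw [union_comm]
      exact key x x'' x' h2 h1 n2 n1 h

end Pool.Agent.MP_5d9b3c_ag.H48N
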