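import Pool.Agent.MP_5d9b3c_ag.H48N.BasicO

/-!
The line shelling of the fan: the face ring of a coordinate face is Cohen-Macaulay.
-/

namespace Pool.Agent.MP_5d9b3c_ag.H48N

open Finset Pool.Agent.MP_5d9b3c_ag.H22

namespace ShellAux

variable {ι κ : Type} [Fintype ι] [LinearOrder ι] [Fintype κ] [DecidableEq κ] {B : κ → Pt ι}
  {c : κ → ℂ} {K A : Finset ι} {η : ℚ} {W : Finset (ι → ℚ)} {wc : (ι → ℚ) → ι → ℚ} {q y : Vq ι}
  {ψ z o : ι → ℚ} {u : Pt ι} {b : κ}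

/-- The indicator of the complement. -/
def ind (A : Finset ι) : ι → ℚ := fun i => if i ∈ A then 0 else 1

/-- The tight vectors that vanish outside `A`. -/
def TA (B : κ → Pt ι) (η : ℚ) (A : Finset ι) (ψ : ι → ℚ) : Finset κ :=
  (Tt (bx B) (val B η) ψ).filter (fun b => ind A ⬝ᵥ bx B b = 0)

/-- A minimiser over the vertices. -/
def Mn (W : Finset (ι → ℚ)) (p ψ : ι → ℚ) : Prop := ∀ ψ' ∈ W, ψ ⬝ᵥ p ≤ ψ' ⬝ᵥ p

/-- A layer of the shelling. -/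
def Lay (K A : Finset ι) (W : Finset (ι → ℚ)) (wc : (ι → ℚ) → ι → ℚ) (q y : Vq ι)
    (o ψ : ι → ℚ) (u : Pt ι) : Prop :=
  u ∈ GG K W wc q y ∧ (∀ i ∉ A, pp q y u i = 0) ∧ Mn W (pp q y u) ψ ∧
    ∀ ψ' ∈ W, Mn W (pp q y u) ψ' → ψ ⬝ᵥ o ≤ ψ' ⬝ᵥ o

omit [Fintype ι] in
lemma ind_term (hz : ∀ i ∉ A, 0 ≤ z i) (i : ι) : 0 ≤ ind A i * z i := by
  by_cases h : i ∈ A
  · simp [ind, h]
  · simpa [ind, h] using hz i h

lemma ind_nonneg (hz : ∀ i ∉ A, 0 ≤ z i) : 0 ≤ ind A ⬝ᵥ z :=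
  sum_nonneg (fun i _ => ind_term hz i)

lemma ind_zero (hz : ∀ i ∉ A, z i = 0) : ind A ⬝ᵥ z = 0 :=
  sum_eq_zero (fun i _ => by
    by_cases h : i ∈ A
    · simp [ind, h]
    · simp [hz i h])

lemma zero_of_ind (hz : ∀ i ∉ A, 0 ≤ z i) (h0 : ind A ⬝ᵥ z = 0) : ∀ i ∉ A, z i = 0 := by
  intro i hi
  have := (sum_eq_zero_iff_of_nonneg (fun i _ => ind_term hz i)).1 h0 i (mem_univ i)
  simpa [ind, hi] using this

omit [DecidableEq κ] in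
lemma mem_TA (h : IsFan B c K η W wc) (hK : K ⊆ A) :
    b ∈ TA B η A ψ ↔ ψ ⬝ᵥ bx B b = val B η b ∧ ∀ i ∉ A, bx B b i = 0 := by
  rw [TA, mem_filter, mem_Tt]
  exact and_congr_right (fun _ =>
    ⟨zero_of_ind (fun i hi => h.bx_nonneg b (fun h1 => hi (hK h1))), ind_zero⟩)

omit [Fintype κ] [DecidableEq κ] in
/-- The rank is large unless a functional that is nonzero on `A` kills the vectors. -/
lemma rk_or (B : κ → Pt ι) (A : Finset ι) (T : Finset κ) : ∃ f : ι → ℚ,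
    (∀ b ∈ T, f ⬝ᵥ bx B b = 0) ∧ ((∃ k ∈ A, f k ≠ 0) ∨ #A ≤ rk (Bq B) T) := by
  by_cases h : ∃ f : ι → ℚ, (∀ b ∈ T, f ⬝ᵥ bx B b = 0) ∧ ∃ k ∈ A, f k ≠ 0
  · obtain ⟨f, h1, h2⟩ := h
    exact ⟨f, h1, Or.inl h2⟩
  refine ⟨0, fun _ _ => zero_dotProduct _, Or.inr ?_⟩
  let L : Submodule.span ℚ (Bq B '' (T : Set κ)) →ₗ[ℚ] (A → ℚ) :=
    (LinearMap.funLeft ℚ ℚ (fun k : A => some k.1)).comp (Submodule.subtype _)
  have hs : Function.Surjective L := by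
    rw [← LinearMap.range_eq_top, eq_top_iff, ← (Pi.basisFun ℚ A).span_eq, Submodule.span_le]
    rintro _ ⟨k, rfl⟩
    rcases span_dot (bx B) T (Pi.single k.1 1) with ⟨d, h1, h2⟩ | ⟨s, h1⟩
    · exact absurd ⟨d, h2, k.1, k.2, by simpa using h1⟩ h
    · refine ⟨⟨∑ j ∈ T, s j • Bq B j, Submodule.sum_mem _ (fun j hj =>
        Submodule.smul_mem _ _ (Submodule.subset_span ⟨j, hj, rfl⟩))⟩, ?_⟩
      funext i
      have h3 := congrFun h1 i.1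
      rw [Finset.sum_apply] at h3
      have h4 : (∑ j ∈ T, s j • Bq B j) (some i.1) = ∑ j ∈ T, (s j • bx B j) i.1 := by
        rw [Finset.sum_apply]
        rfl
      change (∑ j ∈ T, s j • Bq B j) (some i.1) = _
      rw [h4, ← h3, Pi.basisFun_apply, Pi.single_apply, Pi.single_apply]
      simp only [Subtype.ext_iff]
  have := LinearMap.finrank_le_finrank_of_surjective hs
  simpa [rk] using this

/-- All faces of a layer cone are nondegenerate. -/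
lemma faceND (h : IsFan B c K η W wc) (hK : K ⊆ A) (hψ : ψ ∈ W) :
    FaceND B c A (TA B η A ψ) := by
  intro n hn hne
  have hi : ∀ b, 0 ≤ ind A ⬝ᵥ bx B b := fun b =>
    ind_nonneg (fun i hi => h.bx_nonneg b (fun h1 => hi (hK h1)))
  obtain ⟨d, hd⟩ : ∃ d : ι → ℚ, ∀ b ∈ TA B η A ψ, d ⬝ᵥ bx B b = n ⬝ᵥ Bq B b := by
    refine ⟨(fun i => n (some i)) + n none • wc ψ, fun b hb => ?_⟩
    rw [add_dotProduct, smul_dotProduct, mem_Tt.1 (h.csub ψ hψ (mem_filter.1 hb).1)]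
    simp [dotProduct, Fintype.sum_option, add_comm]
  obtain ⟨ε, hε, h1⟩ := H48.small (TA B η A ψ)ᶜ
    (fun b => ψ ⬝ᵥ bx B b + ind A ⬝ᵥ bx B b - val B η b) (fun b => d ⬝ᵥ bx B b) (fun b hb => by
      have h2 := h.feas ψ hψ b
      have h3 := hi b
      by_contra h4
      exact mem_compl.1 hb (mem_filter.2 ⟨mem_Tt.2 (by linarith), by linarith⟩))
  have e : ∀ b, (ψ + ind A + ε • d) ⬝ᵥ bx B b =
      ψ ⬝ᵥ bx B b + ind A ⬝ᵥ bx B b + ε * (d ⬝ᵥ bx B b) := fun b => by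
    rw [add_dotProduct, add_dotProduct, smul_dotProduct, smul_eq_mul]
  have hf : Feas (bx B) (val B η) (ψ + ind A + ε • d) := fun b => by
    rw [e]
    by_cases hb : b ∈ TA B η A ψ
    · have h2 := mul_nonneg hε.le (hn b hb)
      rw [hd b hb]
      linarith [h.feas ψ hψ b, hi b]
    · linarith [h1 b (mem_compl.2 hb)]
  have hT : Tt (bx B) (val B η) (ψ + ind A + ε • d) =
      (TA B η A ψ).filter (fun b => n ⬝ᵥ Bq B b = 0) := by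
    ext b
    rw [mem_Tt, e, mem_filter]
    by_cases hb : b ∈ TA B η A ψ
    · rw [hd b hb, mem_Tt.1 (mem_filter.1 hb).1, (mem_filter.1 hb).2]
      simp [hb, hε.ne']
    · have := h1 b (mem_compl.2 hb)
      exact ⟨fun h2 => by linarith, fun h2 => absurd h2.1 hb⟩
  intro x hx
  obtain ⟨i, -, h2⟩ := h.nd _ hf (by rwa [hT]) x hx
  rw [hT] at h2
  refine ⟨i, ?_, h2⟩
  by_contra h3
  refine h2 (sum_eq_zero (fun b hb => ?_))
  have h4 := ((mem_TA h hK).1 (mem_filter.1 hb).1).2 i h3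
  have h5 : B b (some i) = 0 := by
    unfold bx at h4
    exact_mod_cast h4
  simp [h5]

omit [Fintype ι] [LinearOrder ι] [Fintype κ] [DecidableEq κ] in
lemma shift_eq (ε l : ℚ) :
    hat q u - (y - ε • qq l o) = (hat q u - y) + ε • qq l o := by
  abel

omit [Fintype ι] [LinearOrder ι] [Fintype κ] [DecidableEq κ] in
lemma shift_proj (ε l : ℚ) :
    (fun k => ((hat q u - y) + ε • qq l o) (some k)) = pp q y u + ε • o := rfl

omit [LinearOrder ι] [Fintype κ] [DecidableEq κ] in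
lemma shift_hw (ε : ℚ) (w : ι → ℚ) :
    hw w ⬝ᵥ ((hat q u - y) + ε • qq (w ⬝ᵥ o) o) = hw w ⬝ᵥ (hat q u - y) := by
  rw [dotProduct_add, dotProduct_smul, hw_dot w (qq _ o)]
  simp

omit [DecidableEq κ] in
/-- A layer is the set of lattice points of a shifted cone. -/
lemma lay_iff (h : IsFan B c K η W wc) (hK : K ⊆ A) (hψ : ψ ∈ W) (ho : ∀ k, 0 ≤ o k)
    (ho' : ∀ k ∉ A, o k = 0) (q y : Vq ι) : ∃ ε0 : ℚ, 0 < ε0 ∧ ∀ ε, 0 < ε → ε ≤ ε0 → ∀ u,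
      u ∈ CY B q (TA B η A ψ) (y - ε • qq (wc ψ ⬝ᵥ o) o) ↔ Lay K A W wc q y o ψ u := by
  obtain ⟨ε0, h0, hg⟩ := gap_hat (γ := W ⊕ ι)
    (Sum.elim (fun ψ' => qq 0 (ψ'.1 - ψ)) (fun k => qq 0 (Pi.single k 1)))
    (Sum.elim (fun ψ' => (ψ'.1 - ψ) ⬝ᵥ o) o) q y
  refine ⟨ε0, h0, fun ε hε hε0 u => ?_⟩
  have g1 : ∀ ψ' ∈ W, (ψ ⬝ᵥ pp q y u < ψ' ⬝ᵥ pp q y u →
      ψ ⬝ᵥ pp q y u + ε * (ψ ⬝ᵥ o) < ψ' ⬝ᵥ pp q y u + ε * (ψ' ⬝ᵥ o)) ∧
      (ψ' ⬝ᵥ pp q y u < ψ ⬝ᵥ pp q y u →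
      ψ' ⬝ᵥ pp q y u + ε * (ψ' ⬝ᵥ o) < ψ ⬝ᵥ pp q y u + ε * (ψ ⬝ᵥ o)) := fun ψ' hψ' => by
    have h1 := hg ε hε.le hε0 (Sum.inl ⟨ψ', hψ'⟩) u
    simp only [Sum.elim_inl, qq_dot, zero_mul, zero_add, pp_eq, sub_dotProduct] at h1
    exact ⟨fun h2 => by linarith [h1.1 (by linarith)], fun h2 => by linarith [h1.2 (by linarith)]⟩
  have g2 : ∀ k, pp q y u k < 0 → pp q y u k + ε * o k < 0 := fun k => by
    have h1 := (hg ε hε.le hε0 (Sum.inr k) u).2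
    simp only [Sum.elim_inr, qq_dot, zero_mul, zero_add, pp_eq, single_dotProduct, one_mul] at h1
    exact h1
  have e : ∀ ψ' : ι → ℚ, ψ' ⬝ᵥ (pp q y u + ε • o) = ψ' ⬝ᵥ pp q y u + ε * (ψ' ⬝ᵥ o) := fun ψ' => by
    rw [dotProduct_add, dotProduct_smul, smul_eq_mul]
  have hsub : TA B η A ψ ⊆ Tt (bx B) (val B η) ψ := filter_subset _ _
  have hlev : ∀ b ∈ Tt (bx B) (val B η) ψ, wc ψ ⬝ᵥ bx B b = lev B b := fun b hb =>
    mem_Tt.1 (h.csub ψ hψ hb)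
  change Cone _ _ _ ↔ _
  rw [shift_eq]
  constructor
  · intro hc
    have h1 := hc.proj
    rw [shift_proj] at h1
    have h2 : ∀ k ∉ K, 0 ≤ pp q y u k := fun k hk => by
      by_contra h3
      have h4 := g2 k (not_le.1 h3)
      have h5 := h1.dot_nonneg (n := Pi.single k 1) (fun b _ => by
        simpa using h.bx_nonneg b hk)
      simp only [single_dotProduct, one_mul, Pi.add_apply, Pi.smul_apply, smul_eq_mul] at h5
      linarith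
    have h3 : ∀ ψ' ∈ W, ψ ⬝ᵥ pp q y u + ε * (ψ ⬝ᵥ o) ≤ ψ' ⬝ᵥ pp q y u + ε * (ψ' ⬝ᵥ o) :=
      fun ψ' hψ' => by
        rw [← e, ← e]
        exact (h1.mono hsub).le_of_feas (h.feas ψ' hψ')
    have h4 : Mn W (pp q y u) ψ := fun ψ' hψ' => by
      by_contra h5
      linarith [(g1 ψ' hψ').2 (not_le.1 h5), h3 ψ' hψ']
    refine ⟨h.mem_GG hψ (Cone.lift (h.cone_of_min h2 (h.feas ψ hψ) h4) hlev ?_), fun i hi => ?_,
      h4, fun ψ' hψ' h5 => ?_⟩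
    · rw [← shift_hw (o := o) ε]
      exact hc.dot_zero (fun b hb => by rw [hw_Bq, hlev b (hsub hb), sub_self])
    · have h5 := h1.dot_zero (n := Pi.single i 1) (fun b hb => by
        simpa using ((mem_TA h hK).1 hb).2 i hi)
      simpa [ho' i hi] using h5
    · have h6 := h3 ψ' hψ'
      have h7 := h5 ψ hψ
      exact le_of_mul_le_mul_left (by linarith) hε
  · rintro ⟨h1, h2, h3, h4⟩
    refine Cone.lift (w := wc ψ) ?_ (fun b hb => hlev b (hsub hb)) ?_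
    · rw [shift_proj]
      refine (h.cone_of_min (p := pp q y u + ε • o)
        (fun k hk => add_nonneg (h1.1.1 k hk) (mul_nonneg hε.le (ho k))) (h.feas ψ hψ)
        (fun ψ' hψ' => ?_)).face (fun b _ =>
          ind_nonneg (fun i hi => h.bx_nonneg b (fun h1 => hi (hK h1))))
        (ind_zero (fun i hi => by simp [h2 i hi, ho' i hi])).le
      rw [e, e]
      rcases (h3 ψ' hψ').lt_or_eq with h5 | h5
      · exact ((g1 ψ' hψ').1 h5).le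
      · have h6 := h4 ψ' hψ' (fun ψ'' h7 => by rw [← h5]; exact h3 ψ'' h7)
        have := mul_le_mul_of_nonneg_left h6 hε.le
        linarith
    · rw [shift_hw]
      exact h.hw_zero h1 hψ h3

omit [LinearOrder ι] [Fintype κ] [DecidableEq κ] in
/-- If the shifted point lies in the cone for two shifts, the direction lies in the span. -/
lemma dot_dir {T : Finset κ} {f : ι → ℚ} (hf : ∀ b ∈ T, f ⬝ᵥ bx B b = 0) {ε ε' l : ℚ}
    (hne : ε ≠ ε') (h1 : u ∈ CY B q T (y - ε • qq l o)) (h2 : u ∈ CY B q T (y - ε' • qq l o)) :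
    f ⬝ᵥ o = 0 := by
  change Cone _ _ _ at h1 h2
  rw [shift_eq] at h1 h2
  have h3 := h1.proj.dot_zero hf
  have h4 := h2.proj.dot_zero hf
  rw [shift_proj, dotProduct_add, dotProduct_smul, smul_eq_mul] at h3 h4
  have h5 : (ε - ε') * (f ⬝ᵥ o) = 0 := by linarith
  exact (mul_eq_zero.1 h5).resolve_left (sub_ne_zero.2 hne)

omit [LinearOrder ι] in
/-- A lexicographic minimiser. -/
lemma exists_lex (hW : W.Nonempty) (o p : ι → ℚ) :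
    ∃ ψ ∈ W, Mn W p ψ ∧ ∀ ψ' ∈ W, Mn W p ψ' → ψ ⬝ᵥ o ≤ ψ' ⬝ᵥ o := by
  classical
  obtain ⟨ψ0, h1, h2⟩ := W.exists_min_image (fun ψ => ψ ⬝ᵥ p) hW
  obtain ⟨ψ, h3, h4⟩ := (W.filter (Mn W p)).exists_min_image (fun ψ => ψ ⬝ᵥ o)
    ⟨ψ0, mem_filter.2 ⟨h1, h2⟩⟩
  exact ⟨ψ, (mem_filter.1 h3).1, (mem_filter.1 h3).2, fun ψ' h5 h6 =>
    h4 ψ' (mem_filter.2 ⟨h5, h6⟩)⟩

end ShellAux

open ShellAux in
theorem shell (hCM : CMStmt) (hGen : GenStmt) : ShellStmt := by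
  intro ι κ _ _ _ _ B c K η W wc h q y A hK k hk
  classical
  choose f hf hf' using rk_or B A
  obtain ⟨o, ho1, ho2, ho3⟩ := hGen ι ((W × W) ⊕ Finset κ) A
    (Sum.elim (fun t => t.1.1 - t.2.1) f) 0 1 one_pos
  have ho : ∀ k, 0 ≤ o k := fun k => by
    by_cases h1 : k ∈ A
    · exact (ho1 k h1).1.le
    · exact (ho2 k h1).ge
  have agree : ∀ ψ ∈ W, ∀ ψ' ∈ W, ψ ⬝ᵥ o = ψ' ⬝ᵥ o → ∀ z : ι → ℚ, (∀ i ∉ A, z i = 0) →
      ψ ⬝ᵥ z = ψ' ⬝ᵥ z := by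
    intro ψ h1 ψ' h2 h3 z hz
    have h4 : ∀ k ∈ A, ψ k = ψ' k := by
      intro k hk
      by_contra h5
      refine ho3 (Sum.inl (⟨ψ, h1⟩, ⟨ψ', h2⟩)) ⟨k, hk, sub_ne_zero.2 h5⟩ ?_
      simp [sub_dotProduct, h3]
    refine sum_congr rfl (fun i _ => ?_)
    by_cases h5 : i ∈ A
    · rw [h4 i h5]
    · rw [hz i h5, mul_zero, mul_zero]
  have hW : W.Nonempty := by
    obtain ⟨ψ, h1, -⟩ := h.cover 0 (fun _ _ => le_rfl)
    exact ⟨ψ, h1⟩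
  choose σ σ1 σ2 σ3 using exists_lex hW o
  have hnn : ∀ b, ∀ i ∉ A, 0 ≤ bx B b i := fun b i hi => h.bx_nonneg b (fun h1 => hi (hK h1))
  have mono : ∀ p b, Sim B η W p b → σ p ⬝ᵥ o ≤ σ (p + bx B b) ⬝ᵥ o := fun p b hs =>
    σ3 p _ (σ1 _) ((hs.min_iff h.feas (σ1 _)).1 (σ2 _)).1
  refine Ex.chainFin (comm_Ftr h.feas) (fun u => σ (pp q y u) ⬝ᵥ o) (W.image (fun ψ => ψ ⬝ᵥ o)) _
    (fun J u hu => ⟨hu.1, hu.2.1⟩) (fun J u _ _ => mem_image_of_mem _ (σ1 _)) (fun r hr => ?_)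
  obtain ⟨ψ, hψ, rfl⟩ := mem_image.1 hr
  have lay : ∀ u ∈ GG K W wc q y, (¬ ∃ i ∉ A, 0 < pp q y u i) → σ (pp q y u) ⬝ᵥ o = ψ ⬝ᵥ o →
      Lay K A W wc q y o ψ u := by
    intro u h1 h2 h3
    have h4 : ∀ i ∉ A, pp q y u i = 0 := fun i hi =>
      le_antisymm (not_lt.1 (fun h5 => h2 ⟨i, hi, h5⟩)) (h1.1.1 i (fun h5 => hi (hK h5)))
    refine ⟨h1, h4, fun ψ' h5 => ?_, fun ψ' h5 h6 => ?_⟩
    · rw [← agree _ (σ1 _) _ hψ h3 _ h4]
      exact σ2 _ ψ' h5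
    · rw [← h3]
      exact σ3 _ ψ' h5 h6
  have layeq : ∀ u, Lay K A W wc q y o ψ u → σ (pp q y u) ⬝ᵥ o = ψ ⬝ᵥ o := fun u hu =>
    le_antisymm (σ3 _ ψ hψ hu.2.2.1) (hu.2.2.2 _ (σ1 _) (σ2 _))
  obtain ⟨ε, hε, hl⟩ := lay_iff h hK hψ ho ho2 q y
  have hl1 := hl ε hε le_rfl
  have hex : Ex (FT B c (TA B η A ψ)) k
      (res A (CY B q (TA B η A ψ) (y - ε • qq (wc ψ ⬝ᵥ o) o))) (emp _ _) := by
    by_cases hne : ∃ u, Lay K A W wc q y o ψ u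
    · obtain ⟨u, hu⟩ := hne
      refine hCM ι κ B c A _ (faceND h hK hψ) q _ k ?_
      rcases hf' (TA B η A ψ) with h1 | h1
      · exfalso
        refine ho3 (Sum.inr (TA B η A ψ)) h1 ?_
        have h2 := dot_dir (hf (TA B η A ψ)) (ε := ε) (ε' := ε / 2) (by linarith)
          ((hl1 u).2 hu) ((hl (ε / 2) (by linarith) (by linarith) u).2 hu)
        simp [h2]
      · omega
    · exact Ex.of_subset (fun J _ u hu => hne ⟨u, (hl1 u).1 hu.2⟩)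
  refine hex.chg ?_ (Stab.res A (fun i _ u hu => FT_mem i (fun b hb => CY_add hu hb)))
    (fun J u hu => ?_) (fun J u hu => ?_) (fun J u hu hu' => ?_) (fun J i _ u hu => ?_)
  · intro J i _ u hu
    refine Ftr_mem i (fun b hb _ => ?_)
    rcases hu with ⟨h1, h2, j, h3, h4⟩ | ⟨⟨h1, h2⟩, h3⟩
    · refine Or.inl ⟨(subset_insert _ _).trans h1, h.sim_add h2 hb, j, h3, ?_⟩
      rw [pp_add]
      exact add_pos_of_pos_of_nonneg h4 (hnn b j h3)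
    · refine Or.inr ⟨⟨(subset_insert _ _).trans h1, h.sim_add h2 hb⟩, ?_⟩
      rw [pp_add]
      exact h3.trans_le (mono _ b hb)
  · rcases hu with h1 | ⟨⟨h1, h2⟩, h3⟩
    · exact Or.inr (Or.inl h1)
    · by_cases h4 : ∃ i ∉ A, 0 < pp q y u i
      · exact Or.inr (Or.inl ⟨h1, h2, h4⟩)
      · rcases h3.lt_or_eq with h5 | h5
        · exact Or.inr (Or.inr ⟨⟨h1, h2⟩, h5⟩)
        · exact Or.inl ⟨h1, (hl1 u).2 (lay u h2 h4 h5.symm)⟩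
  · have h1 := (hl1 u).1 hu.2
    exact Or.inr ⟨⟨hu.1, h1.1⟩, (layeq u h1).ge⟩
  · have h1 := (hl1 u).1 hu.2
    rcases hu' with ⟨-, -, j, h3, h4⟩ | ⟨-, h3⟩
    · exact h4.ne' (h1.2.1 j h3)
    · exact h3.ne' (layeq u h1)
  · have h1 := (hl1 u).1 hu.2
    have hJ : J ⊆ A := (subset_insert _ _).trans hu.1
    refine op_sub_mem (fun h2 => absurd rfl h2) (fun b hb => ?_)
    by_cases h2 : b ∈ TA B η A ψ
    · exfalso
      refine hb ?_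
      rw [if_pos h2, if_pos ⟨ψ, hψ, h1.2.2.1, ((mem_TA h hK).1 h2).1⟩]
    have hs : Sim B η W (pp q y u) b := by
      by_contra h3
      refine hb ?_
      rw [if_neg h2, if_neg h3]
    have h3 := h.sim_add h1.1 hs
    by_cases h4 : ∃ j ∉ A, 0 < pp q y (u + B b) j
    · exact Or.inl ⟨hJ, h3, h4⟩
    refine Or.inr ⟨⟨hJ, h3⟩, ?_⟩
    have h5 := mono _ b hs
    rw [layeq u h1, ← pp_add] at h5
    refine lt_of_le_of_ne h5 (fun h6 => h2 ?_)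
    have h7 := lay _ h3 h4 h6.symm
    have h8 := h7.2.2.1
    have h9 := h7.2.1
    rw [pp_add] at h8 h9
    refine (mem_TA h hK).2 ⟨((hs.min_iff h.feas hψ).1 h8).2, fun j hj => ?_⟩
    simpa [h1.2.1 j hj] using h9 j hj

end Pool.Agent.MP_5d9b3c_ag.H48N
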