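import Pool.Agent.MP_5d9b3c_ag.H48N.Spec

/-!
Elementary lemmas on polyhedra, blocks and generating series.
-/

namespace Pool.Agent.MP_5d9b3c_ag.H48N

open Finset Pool.Agent.MP_5d9b3c_ag.H22

section Poly

variable {ι α : Type} [Fintype ι] {v : α → ι → ℚ} {β : α → ℚ} {T : Finset α} {x p : ι → ℚ}

lemma mem_Tt [Fintype α] {j : α} : j ∈ Tt v β x ↔ x ⬝ᵥ v j = β j := by simp [Tt]

omit [Fintype ι] in
lemma Cone.zero : Cone v T 0 := ⟨0, fun _ => le_rfl, by simp⟩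

omit [Fintype ι] in
lemma Cone.add {y : ι → ℚ} (h : Cone v T x) (h' : Cone v T y) : Cone v T (x + y) := by
  obtain ⟨s, hs, rfl⟩ := h
  obtain ⟨s', hs', rfl⟩ := h'
  exact ⟨s + s', fun j => add_nonneg (hs j) (hs' j), by simp [add_smul, sum_add_distrib]⟩

omit [Fintype ι] in
lemma Cone.smul (h : Cone v T x) {r : ℚ} (hr : 0 ≤ r) : Cone v T (r • x) := by
  obtain ⟨s, hs, rfl⟩ := h
  exact ⟨r • s, fun j => mul_nonneg hr (hs j), by simp [smul_sum, mul_smul]⟩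

omit [Fintype ι] in
lemma Cone.single {j : α} (hj : j ∈ T) : Cone v T (v j) := by
  classical
  exact ⟨Pi.single j 1, fun k => by by_cases h : k = j <;> simp [h], by
    rw [sum_eq_single j (fun k _ hk => by simp [hk]) (fun h => absurd hj h)]
    simp⟩

omit [Fintype ι] in
lemma Cone.mono {T' : Finset α} (h : Cone v T x) (hT : T ⊆ T') : Cone v T' x := by
  classical
  obtain ⟨s, hs, rfl⟩ := h
  refine ⟨fun j => if j ∈ T then s j else 0, fun j => by
    by_cases h : j ∈ T <;> simp [h, hs j], ?_⟩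
  rw [← sum_subset hT (fun j _ hj => by simp [hj])]
  exact sum_congr rfl (fun j hj => by simp [hj])

omit [Fintype ι] in
lemma Cone.of_sum {s : α → ℚ} (hs : ∀ j ∈ T, 0 ≤ s j) : Cone v T (∑ j ∈ T, s j • v j) := by
  classical
  exact ⟨fun j => if j ∈ T then s j else 0, fun j => by
    by_cases h : j ∈ T <;> simp [h, hs j], sum_congr rfl (fun j hj => by simp [hj])⟩

omit [Fintype ι] in
lemma Cone.mem_span (h : Cone v T x) : x ∈ Submodule.span ℚ (v '' (T : Set α)) := by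
  obtain ⟨s, _, rfl⟩ := h
  exact Submodule.sum_mem _ (fun j hj =>
    Submodule.smul_mem _ _ (Submodule.subset_span ⟨j, hj, rfl⟩))

lemma Cone.dot_nonneg {n : ι → ℚ} (h : Cone v T x) (hn : ∀ j ∈ T, 0 ≤ n ⬝ᵥ v j) :
    0 ≤ n ⬝ᵥ x := by
  obtain ⟨s, hs, rfl⟩ := h
  rw [dotProduct_sum]
  refine sum_nonneg (fun j hj => ?_)
  rw [dotProduct_smul]
  exact mul_nonneg (hs j) (hn j hj)

lemma dot_zero_of_span {n : ι → ℚ} (h : x ∈ Submodule.span ℚ (v '' (T : Set α)))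
    (hn : ∀ j ∈ T, n ⬝ᵥ v j = 0) : n ⬝ᵥ x = 0 := by
  induction h using Submodule.span_induction with
  | mem y hy =>
    obtain ⟨j, hj, rfl⟩ := hy
    exact hn j hj
  | zero => simp
  | add y z _ _ h1 h2 => rw [dotProduct_add, h1, h2, add_zero]
  | smul r y _ h1 => rw [dotProduct_smul, h1, smul_zero]

lemma Cone.dot_zero {n : ι → ℚ} (h : Cone v T x) (hn : ∀ j ∈ T, n ⬝ᵥ v j = 0) : n ⬝ᵥ x = 0 :=
  dot_zero_of_span h.mem_span hn

/-- A point of the cone on which a supporting functional vanishes lies in the cone of the face. -/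
lemma Cone.face {n : ι → ℚ} (h : Cone v T x) (hn : ∀ j ∈ T, 0 ≤ n ⬝ᵥ v j) (h0 : n ⬝ᵥ x ≤ 0) :
    Cone v (T.filter (fun j => n ⬝ᵥ v j = 0)) x := by
  obtain ⟨s, hs, rfl⟩ := h
  have hp : ∀ j ∈ T, 0 ≤ n ⬝ᵥ s j • v j := fun j hj => by
    rw [dotProduct_smul]
    exact mul_nonneg (hs j) (hn j hj)
  rw [dotProduct_sum] at h0
  have h1 := (sum_eq_zero_iff_of_nonneg hp).1 (le_antisymm h0 (sum_nonneg hp))
  refine ⟨s, hs, (sum_subset (filter_subset _ _) (fun j hj hj' => ?_)).symm⟩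
  have h2 := h1 j hj
  rw [dotProduct_smul, smul_eq_mul, mul_eq_zero] at h2
  rw [h2.resolve_right (fun h => hj' (mem_filter.2 ⟨hj, h⟩)), zero_smul]

/-- Weak duality. -/
lemma Cone.le_of_feas [Fintype α] {x' : ι → ℚ} (h : Cone v (Tt v β x) p) (h' : Feas v β x') :
    x ⬝ᵥ p ≤ x' ⬝ᵥ p := by
  have := h.dot_nonneg (n := x' - x) (fun j hj => by
    rw [sub_dotProduct, mem_Tt.1 hj]
    linarith [h' j])
  rw [sub_dotProduct] at this
  linarith

/-- Complementary slackness. -/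
lemma Cone.tight [Fintype α] [DecidableEq α] {x' : ι → ℚ} (h : Cone v (Tt v β x) p)
    (h' : Feas v β x') (hle : x' ⬝ᵥ p ≤ x ⬝ᵥ p) : Cone v (Tt v β x ∩ Tt v β x') p := by
  have := h.face (n := x' - x) (fun j hj => by
    rw [sub_dotProduct, mem_Tt.1 hj]
    linarith [h' j]) (by rw [sub_dotProduct]; linarith)
  refine this.mono (fun j hj => ?_)
  obtain ⟨h1, h2⟩ := mem_filter.1 hj
  rw [sub_dotProduct, mem_Tt.1 h1, sub_eq_zero] at h2
  exact mem_inter.2 ⟨h1, mem_Tt.2 h2⟩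

lemma exists_dot (f : (ι → ℚ) →ₗ[ℚ] ℚ) : ∃ d : ι → ℚ, ∀ y, d ⬝ᵥ y = f y := by
  classical
  refine ⟨fun i => f (fun j => if i = j then 1 else 0), fun y => ?_⟩
  rw [LinearMap.pi_apply_eq_sum_univ f, dotProduct]
  exact sum_congr rfl (fun i _ => by rw [smul_eq_mul, mul_comm])

/-- The Farkas lemma with dot products. -/
lemma farkas_dot (v : α → ι → ℚ) (T : Finset α) (z : ι → ℚ) :
    (∃ d : ι → ℚ, d ⬝ᵥ z < 0 ∧ ∀ j ∈ T, 0 ≤ d ⬝ᵥ v j) ∨ Cone v T z := by
  rcases farkas_rat T v z with ⟨f, h1, h2⟩ | h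
  · obtain ⟨d, hd⟩ := exists_dot f
    refine Or.inl ⟨-d, by rw [neg_dotProduct, hd]; linarith, fun j hj => ?_⟩
    rw [neg_dotProduct, hd]
    linarith [h2 j hj]
  · exact Or.inr h

/-- Linear duality with dot products. -/
lemma span_dot (v : α → ι → ℚ) (T : Finset α) (z : ι → ℚ) :
    (∃ d : ι → ℚ, d ⬝ᵥ z ≠ 0 ∧ ∀ j ∈ T, d ⬝ᵥ v j = 0) ∨
      ∃ s : α → ℚ, z = ∑ j ∈ T, s j • v j := by
  rcases farkas_dot (Sum.elim v (fun j => -v j)) (T.disjSum T) z with ⟨d, h1, h2⟩ | ⟨s, _, h⟩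
  · refine Or.inl ⟨d, h1.ne, fun j hj => ?_⟩
    have h3 := h2 (Sum.inl j) (inl_mem_disjSum.2 hj)
    have h4 := h2 (Sum.inr j) (inr_mem_disjSum.2 hj)
    simp only [Sum.elim_inl, Sum.elim_inr, dotProduct_neg] at h3 h4
    linarith
  · refine Or.inr ⟨fun j => s (Sum.inl j) - s (Sum.inr j), ?_⟩
    rw [h, sum_disjSum, ← sum_add_distrib]
    exact sum_congr rfl (fun j _ => by simp [sub_eq_add_neg, add_smul])

/-- Common denominators: finitely many affine functionals take discrete values on the lattice. -/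
lemma disc {γ : Type} [Finite γ] (f : γ → ι → ℚ) (r : γ → ℚ) :
    ∃ m : ℕ, 0 < m ∧ ∀ j, ∀ u : ι → ℤ, ∃ z : ℤ, m * (f j ⬝ᵥ (fun i => (u i : ℚ)) + r j) = z := by
  have := Fintype.ofFinite γ
  obtain ⟨N, hN, n, hn⟩ := clear_den (fun t : γ × Option ι => t.2.elim (r t.1) (f t.1))
  refine ⟨N, hN, fun j u => ⟨∑ i, n (j, some i) * u i + n (j, none), ?_⟩⟩
  push_cast
  rw [hn (j, none), mul_add, dotProduct, mul_sum]
  congr 1
  exact sum_congr rfl (fun i _ => by rw [hn (j, some i), mul_assoc]; rfl)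

/-- A uniform gap. -/
lemma gap {γ : Type} [Finite γ] (f : γ → ι → ℚ) (r s : γ → ℚ) :
    ∃ ε : ℚ, 0 < ε ∧ ∀ ε' : ℚ, 0 ≤ ε' → ε' ≤ ε → ∀ j, ∀ u : ι → ℤ,
      (0 < f j ⬝ᵥ (fun i => (u i : ℚ)) + r j → 0 < f j ⬝ᵥ (fun i => (u i : ℚ)) + r j + ε' * s j) ∧
      (f j ⬝ᵥ (fun i => (u i : ℚ)) + r j < 0 → f j ⬝ᵥ (fun i => (u i : ℚ)) + r j + ε' * s j < 0) := by
  have := Fintype.ofFinite γ
  obtain ⟨m, hm, h⟩ := disc f r
  have hm' : (0 : ℚ) < m := by exact_mod_cast hm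
  have hS : 0 ≤ ∑ j, |s j| := sum_nonneg (fun _ _ => abs_nonneg _)
  refine ⟨1 / (m * (∑ j, |s j| + 1)), by positivity, fun ε' h0 h1 j u => ?_⟩
  obtain ⟨z, hz⟩ := h j u
  have h2 : |s j| ≤ ∑ j, |s j| := single_le_sum (f := fun j => |s j|) (fun _ _ => abs_nonneg _)
    (mem_univ j)
  rw [le_div_iff₀ (by positivity)] at h1
  have h3 : m * |ε' * s j| < 1 := by
    rw [abs_mul, abs_of_nonneg h0]
    have : ε' * (m * |s j|) ≤ ε' * (m * ∑ j, |s j|) :=
      mul_le_mul_of_nonneg_left (mul_le_mul_of_nonneg_left h2 hm'.le) h0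
    rcases h0.lt_or_eq with h4 | h4
    · nlinarith [mul_pos h4 hm']
    · rw [← h4]; simp
  have h4 := neg_abs_le (ε' * s j)
  have h5 := le_abs_self (ε' * s j)
  constructor
  · intro h6
    have : (0 : ℚ) < z := by rw [← hz]; positivity
    have : (1 : ℚ) ≤ z := by exact_mod_cast (by exact_mod_cast this : (0 : ℤ) < z)
    by_contra h7
    push Not at h7
    nlinarith
  · intro h6
    have : (z : ℚ) < 0 := by rw [← hz]; exact mul_neg_of_pos_of_neg hm' h6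
    have : (z : ℚ) ≤ -1 := by
      have : z < 0 := by exact_mod_cast this
      exact_mod_cast (by omega : z ≤ -1)
    by_contra h7
    push Not at h7
    nlinarith

end Poly

section Blocks

variable {ι κ : Type} [Fintype ι] [LinearOrder ι] [Fintype κ] [DecidableEq κ]
  {a : κ → ι →₀ ℕ} {c : κ → ℂ} {T T' : Finset κ} {F F' J J' : Finset ι} {w x : ι → ℚ} {l : ℝ}

omit [LinearOrder ι] [DecidableEq κ] in
lemma mem_Tw {j : κ} : j ∈ Tw a w ↔ w ⬝ᵥ Aq a j = 1 := by simp [Tw]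

omit [LinearOrder ι] in
lemma mem_Fw {k : ι} : k ∈ Fw w ↔ 0 < w k := by simp [Fw]

omit [Fintype ι] [LinearOrder ι] [Fintype κ] [DecidableEq κ] in
lemma mem_MA {j : κ} : j ∈ MA a T J ↔ j ∈ T ∧ ∃ i ∈ J, a j i ≠ 0 := mem_filter

omit [Fintype κ] [DecidableEq κ] in
lemma mem_Nb {k : ι} : k ∈ Nb a T J ↔ k ∉ J ∧ ∃ j ∈ T, a j k ≠ 0 ∧ ∃ z ∈ J, a j z ≠ 0 := by
  simp only [Nb, mem_filter, mem_univ, true_and]

omit [LinearOrder ι] [Fintype κ] [DecidableEq κ] in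
lemma mem_LinSet {τ : κ → ℚ} {μ : ι → ℚ} {i : ι} :
    i ∈ LinSet a T τ μ ↔ 1 - ∑ j ∈ T, τ j * (1 - μ ⬝ᵥ Aq a j) ≤ μ i := by
  simp only [LinSet, mem_filter, mem_univ, true_and]

omit [Fintype κ] [DecidableEq κ] in
lemma inG_iff : InG a w ↔ (∀ j, 1 ≤ w ⬝ᵥ Aq a j) ∧ ∀ k, 0 ≤ w k := by
  simp [InG, Feas, vG, bG]

omit [DecidableEq κ] in
lemma inl_mem_tg {j : κ} : Sum.inl j ∈ tg a w ↔ j ∈ Tw a w := by
  simp [tg, mem_Tt, mem_Tw, vG, bG]

omit [DecidableEq κ] in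
lemma inr_mem_tg {k : ι} : Sum.inr k ∈ tg a w ↔ w k = 0 := by
  simp [tg, mem_Tt, vG, bG]

omit [DecidableEq κ] in
lemma Tw_mono (h : tg a x ⊆ tg a w) : Tw a x ⊆ Tw a w :=
  fun _ hj => inl_mem_tg.1 (h (inl_mem_tg.2 hj))

omit [DecidableEq κ] in
lemma Fw_anti (hx : InG a x) (h : tg a x ⊆ tg a w) : Fw w ⊆ Fw x := fun k hk => by
  rw [mem_Fw] at hk ⊢
  refine lt_of_le_of_ne ((inG_iff.1 hx).2 k) (fun h0 => ?_)
  exact hk.ne' (inr_mem_tg.1 (h (inr_mem_tg.2 h0.symm)))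

omit [DecidableEq κ] in
lemma InP.sum (h : InP a l x) : ((∑ k, x k : ℚ) : ℝ) = l := h.2 x h.1 subset_rfl

omit [DecidableEq κ] in
lemma InP.mono (h : InP a l x) (hw : InG a w) (hs : tg a x ⊆ tg a w) : InP a l w :=
  ⟨hw, fun w' h1 h2 => h.2 w' h1 (hs.trans h2)⟩

omit [LinearOrder ι] [Fintype κ] [DecidableEq κ] in
lemma dot_Aq_nonneg {d : ι → ℚ} (hd : ∀ k, 0 ≤ d k) (j : κ) : 0 ≤ d ⬝ᵥ Aq a j :=
  sum_nonneg (fun k _ => mul_nonneg (hd k) (Nat.cast_nonneg _))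

omit [DecidableEq κ] in
/-- On a face at constant level every variable of positive weight occurs. -/
lemma InP.occ (h : InP a l x) : Occ a (Tw a x) (Fw x) := by
  intro k hk
  by_contra hne
  push Not at hne
  obtain ⟨h1, h2⟩ := inG_iff.1 h.1
  have e : ∀ j, (x + Pi.single k 1) ⬝ᵥ Aq a j = x ⬝ᵥ Aq a j + a j k := fun j => by
    simp [add_dotProduct, Aq]
  have hG : InG a (x + Pi.single k 1) := inG_iff.2 ⟨fun j => by
    rw [e]
    linarith [h1 j, (Nat.cast_nonneg (a j k) : (0 : ℚ) ≤ _)], fun i => by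
    have := h2 i
    by_cases hi : i = k
    · subst hi; simp; linarith
    · simpa [hi] using this⟩
  have h3 := h.2 _ hG (by
    rintro (j | i) hj
    · rw [inl_mem_tg] at hj ⊢
      rw [mem_Tw, e, hne j hj, mem_Tw.1 hj]
      simp
    · rw [inr_mem_tg] at hj ⊢
      have hi : i ≠ k := by
        rintro rfl
        exact (mem_Fw.1 hk).ne' hj
      simpa [hi] using hj)
  rw [← h.sum, Rat.cast_inj] at h3
  simp [sum_add_distrib] at h3

omit [Fintype ι] [LinearOrder ι] [Fintype κ] [DecidableEq κ] in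
lemma Lin.mono (h : Lin a T J) (hT : T' ⊆ T) (hJ : J' ⊆ J) : Lin a T' J' :=
  fun j hj => (sum_le_sum_of_subset hJ).trans (h j (hT hj))

omit [Fintype ι] [LinearOrder ι] [Fintype κ] [DecidableEq κ] in
lemma Lin.eq_one (h : Lin a T J) {j : κ} (hj : j ∈ T) {i : ι} (hi : i ∈ J) (h0 : a j i ≠ 0) :
    a j i = 1 := by
  have h1 := single_le_sum (f := fun i => a j i) (fun _ _ => Nat.zero_le _) hi
  have := h j hj
  omega

omit [Fintype ι] [Fintype κ] [DecidableEq κ] in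
lemma Lin.eq_zero (h : Lin a T J) {j : κ} (hj : j ∈ T) {i k : ι} (hi : i ∈ J) (hk : k ∈ J)
    (hne : k ≠ i) (h0 : a j i ≠ 0) : a j k = 0 := by
  have h1 : ∑ t ∈ {i, k}, a j t ≤ ∑ t ∈ J, a j t :=
    sum_le_sum_of_subset (insert_subset hi (singleton_subset_iff.2 hk))
  rw [sum_pair hne.symm] at h1
  have := h j hj
  omega

omit [Fintype ι] [LinearOrder ι] [Fintype κ] [DecidableEq κ] in
lemma lin_of_pairs (h1 : ∀ j ∈ T, ∀ i ∈ J, a j i ≤ 1)
    (h2 : ∀ j ∈ T, ∀ i ∈ J, ∀ k ∈ J, a j i ≠ 0 → a j k ≠ 0 → i = k) : Lin a T J := by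
  intro j hj
  by_cases h : ∃ i ∈ J, a j i ≠ 0
  · obtain ⟨i, hi, h0⟩ := h
    rw [sum_eq_single i (fun k hk hne => by
      by_contra h3
      exact hne (h2 j hj k hk i hi h3 h0)) (fun h => absurd hi h)]
    exact h1 j hj i hi
  · push Not at h
    rw [sum_eq_zero h]
    omega

omit [Fintype κ] in
/-- The indicator of a linear set pairs to one with the monomials that meet it. -/
lemma Lin.ind_dot (h : Lin a T J) {j : κ} (hj : j ∈ T) :
    (fun k => if k ∈ J then (1 : ℚ) else 0) ⬝ᵥ Aq a j = if j ∈ MA a T J then 1 else 0 := by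
  have e : (fun k => if k ∈ J then (1 : ℚ) else 0) ⬝ᵥ Aq a j = ((∑ i ∈ J, a j i : ℕ) : ℚ) := by
    simp [dotProduct, Aq]
  rw [e]
  split_ifs with h1
  · obtain ⟨_, i, hi, h0⟩ := mem_MA.1 h1
    have h2 := single_le_sum (f := fun i => a j i) (fun _ _ => Nat.zero_le _) hi
    have h3 := h j hj
    have : ∑ i ∈ J, a j i = 1 := by omega
    rw [this, Nat.cast_one]
  · rw [sum_eq_zero (fun i hi => by
      by_contra h0
      exact h1 (mem_MA.2 ⟨hj, i, hi, h0⟩)), Nat.cast_zero]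

omit [Fintype ι] [LinearOrder ι] [Fintype κ] [DecidableEq κ] in
lemma Occ.mono (h : Occ a T J) (hT : T ⊆ T') (hJ : J' ⊆ J) : Occ a T' J' := fun i hi => by
  obtain ⟨j, hj, h0⟩ := h i (hJ hi)
  exact ⟨j, hT hj, h0⟩

omit [LinearOrder ι] [Fintype κ] [DecidableEq κ] in
lemma Solv.anti (h : Solv a c T J) (hJ : J' ⊆ J) : Solv a c T J' := by
  obtain ⟨x, h1, h2⟩ := h
  exact ⟨x, h1, fun i hi => h2 i (hJ hi)⟩

omit [LinearOrder ι] [Fintype κ] [DecidableEq κ] in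
lemma solv_empty : Solv a c T ∅ := ⟨1, fun _ => one_ne_zero, by simp⟩

omit [LinearOrder ι] [Fintype κ] [DecidableEq κ] in
lemma solv_MA : Solv a c (MA a T J) J ↔ Solv a c T J := by
  refine exists_congr (fun x => and_congr_right (fun _ => forall₂_congr (fun i hi => ?_)))
  have hs : MA a T J ⊆ T := filter_subset _ _
  rw [sum_subset hs (fun j hj hj' => ?_)]
  have : a j i = 0 := by
    by_contra h0
    exact hj' (mem_MA.2 ⟨hj, i, hi, h0⟩)
  simp [this]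

omit [LinearOrder ι] [Fintype κ] [DecidableEq κ] in
lemma solv_congr (h : MA a T J = MA a T' J) : Solv a c T J ↔ Solv a c T' J := by
  rw [← solv_MA, h, solv_MA]

omit [LinearOrder ι] [Fintype κ] [DecidableEq κ] in
lemma TND.mono (h : TND a c T F) (hF : F' ⊆ F) : TND a c T F' :=
  fun d m h1 => h d m (fun k hk => h1 k (fun hk' => hk (hF hk')))

omit [LinearOrder ι] [Fintype κ] [DecidableEq κ] in
/-- Faces of faces are faces. -/
lemma TND.face (h : TND a c T F) {d : ι → ℚ} {m : ℚ} (h1 : ∀ k ∉ F, 0 ≤ d k)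
    (h2 : ∀ j ∈ T, m ≤ d ⬝ᵥ Aq a j) : TND a c (T.filter (fun j => d ⬝ᵥ Aq a j = m)) F := by
  intro d' m' h3 h4 h5
  obtain ⟨ε, hε, h6⟩ := H48.small (T.filter (fun j => d ⬝ᵥ Aq a j ≠ m))
    (fun j => d ⬝ᵥ Aq a j - m) (fun j => d' ⬝ᵥ Aq a j - m') (fun j hj => by
      obtain ⟨h7, h8⟩ := mem_filter.1 hj
      exact sub_pos.2 (lt_of_le_of_ne (h2 j h7) h8.symm))
  have e : ∀ j, (d + ε • d') ⬝ᵥ Aq a j = d ⬝ᵥ Aq a j + ε * (d' ⬝ᵥ Aq a j) := fun j => by
    rw [add_dotProduct, smul_dotProduct, smul_eq_mul]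
  have e2 : T.filter (fun j => (d + ε • d') ⬝ᵥ Aq a j = m + ε * m') =
      (T.filter (fun j => d ⬝ᵥ Aq a j = m)).filter (fun j => d' ⬝ᵥ Aq a j = m') := by
    ext j
    simp only [mem_filter, e]
    constructor
    · rintro ⟨h7, h8⟩
      by_cases h9 : d ⬝ᵥ Aq a j = m
      · refine ⟨⟨h7, h9⟩, mul_left_cancel₀ hε.ne' (by linarith)⟩
      · have := h6 j (mem_filter.2 ⟨h7, h9⟩)
        exfalso
        linarith
    · rintro ⟨⟨h7, h8⟩, h9⟩
      exact ⟨h7, by rw [h8, h9]⟩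
  rw [← e2] at h5 ⊢
  refine h _ _ (fun k hk => add_nonneg (h1 k hk) (mul_nonneg hε.le (h3 k hk))) (fun j hj => ?_) h5
  rw [e]
  by_cases h9 : d ⬝ᵥ Aq a j = m
  · have := mul_le_mul_of_nonneg_left (h4 j (mem_filter.2 ⟨hj, h9⟩)) hε.le
    linarith
  · have := h6 j (mem_filter.2 ⟨hj, h9⟩)
    linarith

omit [Fintype κ] in
/-- The monomials that meet a linear set form a face. -/
lemma TND.toMA (h : TND a c T F) (hJ : J ⊆ F) (hl : Lin a T J) : TND a c (MA a T J) F := by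
  have := h.face (d := -fun k => if k ∈ J then (1 : ℚ) else 0) (m := -1) (fun k hk => by
    have : k ∉ J := fun h => hk (hJ h)
    simp [this]) (fun j hj => by
    rw [neg_dotProduct, hl.ind_dot hj]
    split_ifs <;> norm_num)
  convert this using 1
  ext j
  rw [mem_filter]
  constructor
  · intro hj
    have hT := (mem_MA.1 hj).1
    exact ⟨hT, by rw [neg_dotProduct, hl.ind_dot hT, if_pos hj]⟩
  · rintro ⟨hT, h1⟩
    rw [neg_dotProduct, hl.ind_dot hT] at h1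
    by_contra h2
    simp [h2] at h1

omit [Fintype κ] in
lemma TND.faceM (h : TND a c T F) (hJ : J ⊆ F) (hl : Lin a T J) {d : ι → ℚ}
    (h1 : ∀ k ∉ F, 0 ≤ d k) (h2 : ∀ j ∈ MA a T J, 0 ≤ d ⬝ᵥ Aq a j) :
    TND a c ((MA a T J).filter (fun j => d ⬝ᵥ Aq a j = 0)) F :=
  (h.toMA hJ hl).face h1 h2

omit [LinearOrder ι] [Fintype κ] [DecidableEq κ] in
lemma TND.nd (h : TND a c T F) (hT : T.Nonempty) : ND (Aof a) c T := by
  have := h 0 0 (fun _ _ => le_rfl) (by simp)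
  simp only [zero_dotProduct, filter_true] at this
  exact this hT

end Blocks

section Series

variable {p : ℕ} {l : ℝ} {s s' : ℕ → ℂ}

lemma Good.of_poly (C : Polynomial ℂ) : Good p l (fun n => C.coeff n) :=
  ⟨1, C, by ext n; simp, by simp⟩

lemma Good.of_finite (N : ℕ) (h : ∀ n, N ≤ n → s n = 0) : Good p l s := by
  have : s = fun n => (PowerSeries.trunc N (PowerSeries.mk s)).coeff n := by
    ext n
    rw [PowerSeries.coeff_trunc]
    split_ifs with h1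
    · simp
    · exact h n (not_lt.1 h1)
  rw [this]
  exact Good.of_poly _

lemma Good.zero : Good p l (fun _ => 0) := Good.of_finite 0 (fun _ _ => rfl)

lemma Good.add (h : Good p l s) (h' : Good p l s') : Good p l (fun n => s n + s' n) := by
  obtain ⟨D, C, h1, h2⟩ := h
  obtain ⟨D', C', h3, h4⟩ := h'
  refine ⟨D * D', D' * C + D * C', ?_, fun T hT => ?_⟩
  · have e : PowerSeries.mk (fun n => s n + s' n) = PowerSeries.mk s + PowerSeries.mk s' := by
      ext n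
      simp
    push_cast
    rw [e, ← h1, ← h3]
    ring
  · rw [Polynomial.eval_mul]
    exact mul_ne_zero (h2 T hT) (h4 T hT)

lemma Good.const_mul (h : Good p l s) (r : ℂ) : Good p l (fun n => r * s n) := by
  obtain ⟨D, C, h1, h2⟩ := h
  refine ⟨D, Polynomial.C r * C, ?_, h2⟩
  have e : PowerSeries.mk (fun n => r * s n) = PowerSeries.C r * PowerSeries.mk s := by
    ext n
    simp
  push_cast
  rw [e, ← h1]
  ring

lemma Good.sum {α : Type} (S : Finset α) {f : α → ℕ → ℂ} (h : ∀ j ∈ S, Good p l (f j)) :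
    Good p l (fun n => ∑ j ∈ S, f j n) := by
  classical
  induction S using Finset.induction_on with
  | empty => simpa using Good.zero
  | insert j S hj ih =>
    simp only [sum_insert hj]
    exact (h j (mem_insert_self _ _)).add (ih (fun k hk => h k (mem_insert_of_mem hk)))

lemma Good.eventually (h : Good p l s) (N : ℕ) (h' : ∀ n, N ≤ n → s' n = s n) : Good p l s' := by
  have := h.add (Good.of_finite (s := fun n => s' n - s n) N (fun n hn => by rw [h' n hn, sub_self]))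
  simpa using this

/-- Removing a factor `1 - ξ X ^ N`. -/
lemma Good.of_shift (ξ : ℂ) (N : ℕ) (hξ : ∀ T : ℂ, ‖T‖ = (p : ℝ) ^ l → ξ * T ^ N ≠ 1)
    (h : Good p l (fun n => s n - if N ≤ n then ξ * s (n - N) else 0)) : Good p l s := by
  obtain ⟨D, C, h1, h2⟩ := h
  refine ⟨D * (1 - Polynomial.C ξ * Polynomial.X ^ N), C, ?_, fun T hT => ?_⟩
  · rw [← h1]
    push_cast
    rw [mul_assoc]
    congr 1
    ext n
    rw [sub_mul, one_mul, mul_assoc, map_sub, PowerSeries.coeff_C_mul, PowerSeries.coeff_X_pow_mul']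
    simp
  · rw [Polynomial.eval_mul]
    refine mul_ne_zero (h2 T hT) ?_
    have := sub_ne_zero.2 (hξ T hT).symm
    simpa using this

end Series

end Pool.Agent.MP_5d9b3c_ag.H48N
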