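import Pool.Agent.MP_5d9b3c_ag.H48N.BasicP
import Pool.Agent.MP_5d9b3c_ag.H22.Phase

/-!
The uniform Nullstellensatz for a valid block.
-/

namespace Pool.Agent.MP_5d9b3c_ag.H48N

open Finset Pool.Agent.MP_5d9b3c_ag.H22

namespace UnsAux

variable {ι κ : Type} [Fintype ι]

lemma null_gen {A : κ → ι → ℕ} {w : ι → κ → ℤ} {J : Finset κ}
    (h : ∀ x : ι → ℂ, (∀ i, x i ≠ 0) → ∃ i, ∑ j ∈ J, (w i j : ℂ) * ∏ i', x i' ^ A j i' ≠ 0) :
    ∃ (N : ℤ) (e : ℕ), N ≠ 0 ∧ ∀ (x : ι → ℤ) (D : ℤ),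
      (∀ i, D ∣ ∑ j ∈ J, w i j * ∏ i', x i' ^ A j i') → D ∣ N * (∏ i, x i) ^ e := by
  obtain ⟨P, hP⟩ : ∃ P : ι → MvPolynomial ι ℚ, ∀ i, P i =
    ∑ j ∈ J, MvPolynomial.C (w i j : ℚ) * ∏ i', MvPolynomial.X i' ^ A j i' :=
    ⟨_, fun _ => rfl⟩
  have hrad : (∏ i, MvPolynomial.X i : MvPolynomial ι ℚ) ∈ (Ideal.span (Set.range P)).radical := by
    rw [← MvPolynomial.vanishingIdeal_zeroLocus_eq_radical (K := ℂ), MvPolynomial.zeroLocus_span,
      MvPolynomial.mem_vanishingIdeal_iff]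
    intro x hx
    by_contra h0
    simp only [map_prod, MvPolynomial.aeval_X, prod_eq_zero_iff, mem_univ, true_and,
      not_exists] at h0
    obtain ⟨i, hi⟩ := h x h0
    have := hx _ ⟨i, rfl⟩
    rw [hP] at this
    simpa using hi (by simpa using this)
  obtain ⟨e, he⟩ := hrad
  obtain ⟨q, hq⟩ := Ideal.mem_span_range_iff_exists_fun.1 he
  choose N hN hN' using fun i => clear_poly (q i)
  refine ⟨∏ i, N i, e, prod_ne_zero_iff.2 (fun i _ => hN i), fun x D hD => ?_⟩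
  classical
  choose t ht using fun i => hN' i x
  have h1 : (∏ i, N i) * (∏ i, x i) ^ e =
      ∑ i, (∏ i' ∈ univ.erase i, N i') * t i * ∑ j ∈ J, w i j * ∏ i', x i' ^ A j i' := by
    have h2 := congrArg (MvPolynomial.aeval (fun i => (x i : ℚ))) hq
    simp only [map_sum, map_mul, map_pow, map_prod, MvPolynomial.aeval_X, hP,
      MvPolynomial.aeval_C, Algebra.algebraMap_self, RingHom.id_apply] at h2
    have h3 : (((∏ i, N i) * (∏ i, x i) ^ e : ℤ) : ℚ) = ((∑ i, (∏ i' ∈ univ.erase i, N i') * t i *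
        ∑ j ∈ J, w i j * ∏ i', x i' ^ A j i' : ℤ) : ℚ) := by
      push_cast
      rw [← h2, mul_sum]
      refine sum_congr rfl (fun i _ => ?_)
      rw [ht, ← mul_prod_erase _ _ (mem_univ i)]
      ring
    exact_mod_cast h3
  rw [h1]
  exact dvd_sum (fun i _ => (hD i).mul_left _)

omit [Fintype ι] in
lemma prod_zpow_eq {z : ℂ} (hz : z ≠ 0) (s : Finset ι) (e : ι → ℤ) :
    ∏ i ∈ s, z ^ e i = z ^ ∑ i ∈ s, e i := by
  classical
  induction s using Finset.induction_on with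
  | empty => simp
  | insert i s hi ih => rw [prod_insert hi, sum_insert hi, ih, zpow_add₀ hz]

lemma expo [LinearOrder ι] {a : κ → ι →₀ ℕ} {T : Finset κ} {B : Finset ι} (hl : Lin a T B)
    {L m : ι → ℕ} {k : ℕ} {i : ι} {j : κ} (hi : i ∈ B) (hj : j ∈ T) (h0 : a j i ≠ 0)
    (h : ∑ i', L i' * a j i' = m i + k) :
    ∑ i', ((L i' : ℤ) - if i' ∈ B then (m i' : ℤ) else 0) * a j i' = k := by
  have e : ∑ i', (if i' ∈ B then (m i' : ℤ) else 0) * a j i' = m i := by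
    rw [sum_eq_single i (fun i' _ hne => ?_) (fun h => absurd (mem_univ i) h), if_pos hi,
      hl.eq_one hj hi h0, Nat.cast_one, mul_one]
    split_ifs with h1
    · rw [hl.eq_zero hj hi h1 hne h0, Nat.cast_zero, mul_zero]
    · exact zero_mul _
  have h' : ∑ i', (L i' : ℤ) * a j i' = m i + k := by exact_mod_cast h
  simp only [sub_mul, sum_sub_distrib, e, h', add_sub_cancel_left]

end UnsAux

open UnsAux in
theorem uns (h : LiftStmt) : UnsStmt := by
  intro ι κ _ _ _ _ p hp a c T F B hnd hBF hl _ hs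
  by_contra hne
  push Not at hne
  choose L m k h1 h2 x h3 h4 using hne
  obtain ⟨S, n0, hS⟩ := seq_alt (fun n => Sum.elim (L n) (k n))
  obtain ⟨n1, _, h5, h6⟩ := hS (∑ a, Sum.elim (L n0) (k n0) a)
  have h7 : ∀ a ∉ S, Sum.elim (L n0) (k n0) a < Sum.elim (L n1) (k n1) a := fun a ha =>
    lt_of_le_of_lt (single_le_sum (f := Sum.elim (L n0) (k n0)) (fun _ _ => Nat.zero_le _)
      (mem_univ a)) (h6 a ha)
  have h8 : ∀ i, L n0 i ≤ L n1 i := fun i => by
    by_cases h : Sum.inl i ∈ S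
    · exact (h5 _ h).ge
    · exact (h7 _ h).le
  have h10 : ∀ j, (Sum.inr j ∈ S → k n1 j = k n0 j) ∧ (Sum.inr j ∉ S → k n0 j < k n1 j) :=
    fun j => ⟨h5 _, h7 (Sum.inr j)⟩
  obtain ⟨E, hE⟩ : ∃ E : ℕ → ι → ℤ, ∀ n i,
    E n i = (L n i : ℤ) - if i ∈ B then (m n i : ℤ) else 0 := ⟨_, fun _ _ => rfl⟩
  have hE' : ∀ n, ∀ i ∈ B, ∀ j ∈ T, a j i ≠ 0 → ∑ i', E n i' * a j i' = k n j :=
    fun n i hi j hj h0 => by
      simp only [hE]
      exact expo hl hi hj h0 (h1 n i hi j hj h0)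
  obtain ⟨d, hd⟩ : ∃ d : ι → ℚ, ∀ i, d i = ((E n1 i - E n0 i : ℤ) : ℚ) := ⟨_, fun _ => rfl⟩
  have hd' : ∀ i ∈ B, ∀ j ∈ T, a j i ≠ 0 → d ⬝ᵥ Aq a j = (k n1 j : ℚ) - k n0 j :=
    fun i hi j hj h0 => by
      have e : ∑ i', (E n1 i' - E n0 i') * a j i' = (k n1 j : ℤ) - k n0 j := by
        simp only [sub_mul, sum_sub_distrib, hE' _ i hi j hj h0]
      simp only [dotProduct, hd, Aq]
      exact_mod_cast e
  have hz : ∀ i ∈ B, ∀ j ∈ T, a j i ≠ 0 → (d ⬝ᵥ Aq a j = 0 ↔ Sum.inr j ∈ S) :=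
    fun i hi j hj h0 => by
      rw [hd' i hi j hj h0, sub_eq_zero, Nat.cast_inj]
      exact ⟨fun e => by_contra fun h' => ((h10 j).2 h').ne' e, (h10 j).1⟩
  have hface : ¬ Solv a (fun j => (c j : ℂ)) (T.filter (fun j => d ⬝ᵥ Aq a j = 0)) B :=
    fun h' => hs (h ι κ a _ T F B hnd hBF hl d (fun i hi => by
      rw [hd, hE, hE, if_neg (fun h => hi (hBF h)), if_neg (fun h => hi (hBF h))]
      have := h8 i
      exact_mod_cast (by omega : (0 : ℤ) ≤ (L n1 i : ℤ) - 0 - (L n0 i - 0))) (fun j hj => by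
      obtain ⟨hj, i, hi, h0⟩ := mem_MA.1 hj
      rw [hd' i hi j hj h0, sub_nonneg, Nat.cast_le]
      by_cases h' : Sum.inr j ∈ S
      · exact ((h10 j).1 h').ge
      · exact ((h10 j).2 h').le) (fun i hi => by
      obtain ⟨j, hj, h0, e⟩ := h2 n1 i hi
      refine ⟨j, mem_filter.2 ⟨hj, (hz i hi j hj h0).2 ?_⟩, h0⟩
      by_contra h'
      have := (h10 j).2 h'
      omega) h')
  obtain ⟨N, e, hN, hN'⟩ := null_gen (A := fun j i => a j i)
    (w := fun i j => if i ∈ B then a j i * ((p : ℤ) ^ k n0 j * c j) else 0)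
    (J := T.filter (fun j => Sum.inr j ∈ S)) (fun y hy => by
      by_contra hc
      push Not at hc
      refine hface ⟨fun i => (p : ℂ) ^ E n0 i * y i,
        fun i => mul_ne_zero (zpow_ne_zero _ p_ne_zero) (hy i), fun i hi => ?_⟩
      rw [← hc i, sum_filter, sum_filter]
      refine sum_congr rfl (fun j hj => ?_)
      by_cases h0 : a j i = 0
      · simp [h0]
      simp only [hz i hi j hj h0, if_pos hi]
      split_ifs
      · have : ∏ i', ((p : ℂ) ^ E n0 i') ^ a j i' = (p : ℂ) ^ k n0 j := by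
          simp only [← zpow_natCast, ← zpow_mul]
          rw [prod_zpow_eq p_ne_zero, hE' n0 i hi j hj h0]
        simp only [mul_pow, prod_mul_distrib, this]
        push_cast
        ring
      · rfl)
  obtain ⟨n, h11, h12, h13⟩ := hS N.natAbs
  have hpr := Nat.prime_iff_prime_int.1 hp.out
  have h14 := hN' (x n) ((p : ℤ) ^ N.natAbs) (fun i => by
    by_cases hi : i ∈ B
    swap
    · simp [hi]
    have h15 := (pow_dvd_pow _ h11).trans (h4 n i hi)
    rw [← sum_filter_add_sum_filter_not T (fun j => Sum.inr j ∈ S)] at h15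
    have h16 : (p : ℤ) ^ N.natAbs ∣ ∑ j ∈ T.filter (fun j => ¬ Sum.inr j ∈ S),
        a j i * ((p : ℤ) ^ k n j * (c j * ∏ i', x n i' ^ a j i')) :=
      dvd_sum (fun j hj => ((pow_dvd_pow _ (h13 (Sum.inr j) (mem_filter.1 hj).2).le).mul_right
        _).mul_left _)
    refine (congrArg _ (sum_congr rfl (fun j hj => ?_))).mp ((dvd_add_left h16).1 h15)
    have : k n j = k n0 j := h12 _ (mem_filter.1 hj).2
    simp only [this, if_pos hi, mul_assoc])
  have h15 : IsCoprime ((p : ℤ) ^ N.natAbs) ((∏ i, x n i) ^ e) := by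
    refine (hpr.coprime_iff_not_dvd.2 ?_).pow
    simpa using not_dvd_prod_pow (h3 n) (fun _ => 1)
  have h16 := Int.natAbs_le_of_dvd_ne_zero (h15.dvd_of_dvd_mul_right h14) hN
  rw [Int.natAbs_pow, Int.natAbs_natCast] at h16
  have := Nat.lt_pow_self (n := N.natAbs) hp.out.one_lt
  omega

end Pool.Agent.MP_5d9b3c_ag.H48N
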