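import Pool.Agent.MP_5d9b3c_ag.H48N.BasicP

/-!
Elementary lemmas on Koszul complexes of commuting operators.
-/

namespace Pool.Agent.MP_5d9b3c_ag.H48N

open Finset Pool.Agent.MP_5d9b3c_ag.H22

section Su

variable {X : Type} {Y Y' : Set X} {e : X →₀ ℂ}

lemma mem_Su : e ∈ Su Y ↔ ∀ u ∉ Y, e u = 0 := Finsupp.mem_supported' ℂ e

lemma single_mem_Su {u : X} (h : u ∈ Y) (r : ℂ) : Finsupp.single u r ∈ Su Y :=
  Finsupp.single_mem_supported ℂ r h

lemma Su_mono (h : Y ⊆ Y') (he : e ∈ Su Y) : e ∈ Su Y' := Finsupp.supported_mono h he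

lemma Su_inter (h : e ∈ Su Y) (h' : e ∈ Su Y') : e ∈ Su (Y ∩ Y') := by
  rw [mem_Su] at *
  intro u hu
  by_cases h1 : u ∈ Y
  · exact h' u (fun h2 => hu ⟨h1, h2⟩)
  · exact h u h1

lemma Su_empty (h : e ∈ Su (∅ : Set X)) : e = 0 := by
  ext u
  exact mem_Su.1 h u (fun h => h)

/-- A linear map sends the functions supported in `Y` into `N` if it does so on points. -/
lemma map_Su {M : Type} [AddCommGroup M] [Module ℂ M] (L : (X →₀ ℂ) →ₗ[ℂ] M) (N : Submodule ℂ M)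
    (h : ∀ u ∈ Y, L (Finsupp.single u 1) ∈ N) (he : e ∈ Su Y) : L e ∈ N := by
  rw [Su, Finsupp.supported_eq_span_single] at he
  induction he using Submodule.span_induction with
  | mem x hx =>
    obtain ⟨u, hu, rfl⟩ := hx
    exact h u hu
  | zero => simp
  | add x y _ _ h1 h2 => rw [map_add]; exact N.add_mem h1 h2
  | smul r x _ h1 => rw [map_smul]; exact N.smul_mem r h1

lemma eq_on_Su {M : Type} [AddCommGroup M] [Module ℂ M] (L L' : (X →₀ ℂ) →ₗ[ℂ] M)
    (h : ∀ u ∈ Y, L (Finsupp.single u 1) = L' (Finsupp.single u 1)) (he : e ∈ Su Y) :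
    L e = L' e := by
  have := map_Su (L - L') ⊥ (fun u hu => by simp [h u hu]) he
  simpa [sub_eq_zero] using this

lemma op_ext {M : Type} [AddCommGroup M] [Module ℂ M] {L L' : (X →₀ ℂ) →ₗ[ℂ] M}
    (h : ∀ u, L (Finsupp.single u 1) = L' (Finsupp.single u 1)) : L = L' :=
  LinearMap.ext (fun _ => eq_on_Su (Y := Set.univ) L L' (fun u _ => h u)
    (mem_Su.2 (fun _ h => absurd trivial h)))

open Classical in
/-- The projection to the functions supported in `P`. -/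
noncomputable def prj (P : Set X) : Op X where
  toFun e := e.filter (fun u => u ∈ P)
  map_add' _ _ := Finsupp.filter_add
  map_smul' _ _ := Finsupp.filter_smul

lemma prj_pos {P : Set X} {u : X} (h : u ∈ P) : prj P e u = e u := by
  classical
  exact Finsupp.filter_apply_pos _ _ h

lemma prj_neg {P : Set X} {u : X} (h : u ∉ P) : prj P e u = 0 := by
  classical
  exact Finsupp.filter_apply_neg _ _ h

lemma prj_mem (P : Set X) (he : e ∈ Su Y) : prj P e ∈ Su (Y ∩ P) := by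
  rw [mem_Su] at *
  intro u hu
  by_cases h : u ∈ P
  · rw [prj_pos h]
    exact he u (fun h1 => hu ⟨h1, h⟩)
  · exact prj_neg h

lemma sub_prj_mem (P : Set X) (he : e ∈ Su Y) : e - prj P e ∈ Su (Y \ P) := by
  rw [mem_Su] at *
  intro u hu
  rw [Finsupp.sub_apply]
  by_cases h : u ∈ P
  · rw [prj_pos h, sub_self]
  · rw [prj_neg h, he u (fun h1 => hu ⟨h1, h⟩), sub_zero]

lemma prj_of_mem {P : Set X} (he : e ∈ Su P) : prj P e = e := by
  ext u
  by_cases h : u ∈ P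
  · exact prj_pos h
  · rw [prj_neg h, mem_Su.1 he u h]

lemma prj_of_disj {P : Set X} (he : e ∈ Su Y) (h : ∀ u ∈ Y, u ∉ P) : prj P e = 0 :=
  Su_empty (Su_mono (fun u hu => h u hu.1 hu.2) (prj_mem P he))

end Su

section Kos

variable {X ι : Type} [Fintype ι] [LinearOrder ι] {D F G : ι → Op X} {e e' : Ch X ι}
  {Y Y' Y'' Z W : Finset ι → Set X} {k : ℕ}

omit [Fintype ι] in
lemma sgn_sq (i : ι) (J : Finset ι) : sgn i J * sgn i J = 1 := by
  rw [sgn, ← mul_pow]
  simp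

omit [Fintype ι] in
@[simp] lemma sgn_empty (i : ι) : sgn i ∅ = 1 := by simp [sgn]

omit [Fintype ι] in
lemma sgn_insert {i : ι} {J : Finset ι} (hi : i ∉ J) (k : ι) :
    sgn k (insert i J) = (if i < k then -1 else 1) * sgn k J := by
  rw [sgn, sgn, filter_insert]
  split_ifs
  · rw [card_insert_of_notMem (fun h => hi (mem_filter.1 h).1), pow_succ, mul_comm]
  · rw [one_mul]

omit [Fintype ι] in
lemma sgn_swap {i k : ι} {J : Finset ι} (hi : i ∉ J) (hk : k ∉ J) (h : i ≠ k) :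
    sgn i J * sgn k (insert i J) = -(sgn k J * sgn i (insert k J)) := by
  rw [sgn_insert hi, sgn_insert hk]
  rcases lt_or_gt_of_ne h with h1 | h1
  · rw [if_pos h1, if_neg h1.not_gt]
    ring
  · rw [if_pos h1, if_neg h1.not_gt]
    ring

lemma kd_add (e e' : Ch X ι) : kd D (e + e') = kd D e + kd D e' := by
  funext J
  simp [kd, sum_add_distrib]

lemma kd_sub (e e' : Ch X ι) : kd D (e - e') = kd D e - kd D e' := by
  funext J
  simp [kd, smul_sub]

@[simp] lemma kd_zero : kd D (0 : Ch X ι) = 0 := by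
  funext J
  simp [kd]

lemma kd_empty (e : Ch X ι) : kd D e ∅ = ∑ i, D i (e {i}) := by
  simp [kd]

lemma kd_kd (h : Comm D) (e : Ch X ι) : kd D (kd D e) = 0 := by
  funext J
  obtain ⟨t, ht⟩ : ∃ t : ι → ι → X →₀ ℂ, t = fun i k => if k = i then 0 else
    (sgn i J * sgn k (insert i J)) • D i (D k (e (insert k (insert i J)))) := ⟨_, rfl⟩
  have h1 : kd D (kd D e) J = ∑ i ∈ Jᶜ, ∑ k ∈ Jᶜ, t i k := by
    refine sum_congr rfl (fun i _ => ?_)
    rw [kd, map_sum, smul_sum, compl_insert, ← sum_erase (Jᶜ) (a := i) (by simp [ht])]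
    refine sum_congr rfl (fun k hk => ?_)
    simp only [ht, if_neg (mem_erase.1 hk).1, map_smul, smul_smul]
  have h2 : ∑ i ∈ Jᶜ, ∑ k ∈ Jᶜ, t i k = -∑ i ∈ Jᶜ, ∑ k ∈ Jᶜ, t i k := by
    conv_rhs => rw [sum_comm]
    rw [← sum_neg_distrib]
    refine sum_congr rfl (fun i hi => ?_)
    rw [← sum_neg_distrib]
    refine sum_congr rfl (fun k hk => ?_)
    by_cases hik : k = i
    · simp [ht, hik]
    · have h3 := LinearMap.congr_fun (h i k).eq (e (insert k (insert i J)))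
      simp only [Module.End.mul_apply] at h3
      simp only [ht, if_neg hik, if_neg (Ne.symm hik)]
      rw [sgn_swap (mem_compl.1 hi) (mem_compl.1 hk) (Ne.symm hik), h3, insert_comm, neg_smul]
  rw [h1, Pi.zero_apply]
  have h3 : (2 : ℂ) • ∑ i ∈ Jᶜ, ∑ k ∈ Jᶜ, t i k = 0 := by
    rw [two_smul]
    exact add_eq_zero_iff_eq_neg.2 h2
  exact (smul_eq_zero.1 h3).resolve_left two_ne_zero

lemma kd_sub_kd (h : Comm D) (e e' : Ch X ι) : kd D (e - kd D e') = kd D e := by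
  rw [kd_sub, kd_kd h, sub_zero]

omit [Fintype ι] [LinearOrder ι] in
lemma Deg.zero : Deg k (0 : Ch X ι) := fun _ _ => rfl

omit [Fintype ι] [LinearOrder ι] in
lemma Deg.add (h : Deg k e) (h' : Deg k e') : Deg k (e + e') := fun J hJ => by
  rw [Pi.add_apply, h J hJ, h' J hJ, add_zero]

omit [Fintype ι] [LinearOrder ι] in
lemma Deg.sub (h : Deg k e) (h' : Deg k e') : Deg k (e - e') := fun J hJ => by
  rw [Pi.sub_apply, h J hJ, h' J hJ, sub_zero]

omit [Fintype ι] [LinearOrder ι] in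
lemma Deg.map (h : Deg k e) (L : Finset ι → Op X) : Deg k (fun J => L J (e J)) := fun J hJ => by
  simp only [h J hJ, map_zero]

lemma Deg.kd (h : Deg (k + 1) e) : Deg k (kd D e) := fun J hJ =>
  sum_eq_zero (fun i hi => by
    rw [h _ (by rw [card_insert_of_notMem (mem_compl.1 hi)]; omega), map_zero, smul_zero])

omit [Fintype ι] [LinearOrder ι] in
lemma In.zero : In Y (0 : Ch X ι) := fun _ => Submodule.zero_mem _

omit [Fintype ι] [LinearOrder ι] in
lemma In.add (h : In Y e) (h' : In Y e') : In Y (e + e') := fun J => add_mem (h J) (h' J)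

omit [Fintype ι] [LinearOrder ι] in
lemma In.sub (h : In Y e) (h' : In Y e') : In Y (e - e') := fun J => sub_mem (h J) (h' J)

omit [Fintype ι] [LinearOrder ι] in
lemma In.mono (h : In Y e) (h' : ∀ J, Y J ⊆ Y' J) : In Y' e := fun J => Su_mono (h' J) (h J)

omit [Fintype ι] [LinearOrder ι] in
lemma In.inter (h : In Y e) (h' : In Y' e) : In (fun J => Y J ∩ Y' J) e :=
  fun J => Su_inter (h J) (h' J)

omit [Fintype ι] [LinearOrder ι] in
lemma in_emp : In (emp X ι) e ↔ e = 0 :=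
  ⟨fun h => funext (fun J => Su_empty (h J)), fun h => h ▸ In.zero⟩

omit [Fintype ι] [LinearOrder ι] in
lemma Deg.in_zero (h : Deg 0 e) (h' : e ∅ ∈ Su (Y ∅)) : In Y e := fun J => by
  by_cases hJ : J = ∅
  · rwa [hJ]
  · rw [h J (by simpa using hJ)]
    exact Submodule.zero_mem _

/-- The differential maps one family to another. -/
lemma In.kd' (h : In Y e)
    (hD : ∀ J, ∀ i ∉ J, ∀ u ∈ Y (insert i J), D i (Finsupp.single u 1) ∈ Su (Y' J)) :
    In Y' (kd D e) := fun J =>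
  Submodule.sum_mem _ (fun i hi => Submodule.smul_mem _ _
    (map_Su _ _ (hD J i (mem_compl.1 hi)) (h _)))

lemma In.kd (h : In Y e) (hD : Stab D Y) : In Y (kd D e) := h.kd' hD

lemma In.kd_sub (h : In Y e) (hD : ∀ J, ∀ i ∉ J, ∀ u ∈ Y (insert i J),
    D i (Finsupp.single u 1) - F i (Finsupp.single u 1) ∈ Su (Y' J)) :
    In Y' (H48N.kd D e - H48N.kd F e) := by
  have : H48N.kd D e - H48N.kd F e = H48N.kd (fun i => D i - F i) e := by
    funext J
    simp [H48N.kd, smul_sub]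
  rw [this]
  exact h.kd' hD

omit [Fintype ι] [LinearOrder ι] in
/-- Splitting a chain. -/
lemma In.split (h : In W e) (hd : Deg k e) (hW : ∀ J, W J ⊆ Y J ∪ Z J) :
    ∃ e1, Deg k e1 ∧ In Y e1 ∧ In W e1 ∧ In Z (e - e1) :=
  ⟨fun J => prj (Y J) (e J), hd.map _, fun J => Su_mono Set.inter_subset_right (prj_mem _ (h J)),
    fun J => Su_mono Set.inter_subset_left (prj_mem _ (h J)),
    fun J => Su_mono (fun _ hu => (hW J hu.1).resolve_left hu.2) (sub_prj_mem _ (h J))⟩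

/-- A chain of degree one with given components. -/
lemma exists_deg_one (f : ι → X →₀ ℂ) : ∃ e : Ch X ι, Deg 1 e ∧ ∀ i, e {i} = f i := by
  refine ⟨fun J => ∑ i, if J = {i} then f i else 0, fun J hJ => sum_eq_zero (fun i _ => ?_),
    fun i => by simp⟩
  rw [if_neg]
  rintro rfl
  simp at hJ

omit [Fintype ι] in
lemma Stab.const {Y : Set X} (h : ∀ i, ∀ u ∈ Y, D i (Finsupp.single u 1) ∈ Su Y) :
    Stab D (fun _ => Y) := fun _ i _ u hu => h i u hu

omit [Fintype ι] in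
lemma Stab.of_const {Y : Set X} (h : Stab D (fun _ => Y)) (i : ι) {f : X →₀ ℂ} (hf : f ∈ Su Y) :
    D i f ∈ Su Y := map_Su _ _ (h ∅ i (notMem_empty i)) hf

omit [Fintype ι] in
lemma Stab.res {Y : Set X} (A : Finset ι) (h : ∀ i ∈ A, ∀ u ∈ Y, D i (Finsupp.single u 1) ∈ Su Y) :
    Stab D (res A Y) := fun _ i _ u hu =>
  Su_mono (fun _ hv => ⟨(subset_insert _ _).trans hu.1, hv⟩)
    (h i (hu.1 (mem_insert_self _ _)) u hu.2)

omit [Fintype ι] in
lemma Stab.union (h : Stab D Y) (h' : Stab D Z) : Stab D (fun J => Y J ∪ Z J) :=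
  fun J i hi u hu => hu.elim (fun h1 => Su_mono Set.subset_union_left (h J i hi u h1))
    (fun h1 => Su_mono Set.subset_union_right (h' J i hi u h1))

omit [Fintype ι] in
lemma Stab.inter (h : Stab D Y) (h' : Stab D Z) : Stab D (fun J => Y J ∩ Z J) :=
  fun J i hi u hu => Su_inter (h J i hi u hu.1) (h' J i hi u hu.2)

omit [Fintype ι] in
lemma stab_emp : Stab D (emp X ι) := fun _ _ _ _ h => h.elim

omit [LinearOrder ι] in
lemma res_univ (Y : Set X) : res (univ : Finset ι) Y = fun _ => Y := by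
  funext J
  simp [res]

lemma Ex.of_subset (h : ∀ J, #J = k → Y J ⊆ Y' J) : Ex D k Y Y' := fun e h1 h2 _ =>
  ⟨0, Deg.zero, In.zero, fun J => by
    rw [kd_zero, sub_zero]
    by_cases hJ : #J = k
    · exact Su_mono (h J hJ) (h2 J)
    · rw [h1 J hJ]
      exact Submodule.zero_mem _⟩

lemma Ex.trans (hD : Comm D) (h1 : Ex D k Y Y') (h2 : Ex D k Y' Y'') (s1 : ∀ J, Y' J ⊆ Y J)
    (s2 : ∀ J, Y'' J ⊆ Y' J) : Ex D k Y Y'' := by
  intro e d1 i1 i2
  obtain ⟨e1, d2, i3, i4⟩ := h1 e d1 i1 (i2.mono s2)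
  obtain ⟨e2, d3, i5, i6⟩ := h2 _ (d1.sub d2.kd) i4 (by rwa [kd_sub_kd hD])
  exact ⟨e1 + e2, d2.add d3, i3.add (i5.mono s1), by rwa [kd_add, ← sub_sub]⟩

lemma Ex.two_of_three (hD : Comm D) (h1 : Ex D (k + 1) Y Y') (h2 : Ex D k Y Y'')
    (s1 : ∀ J, Y' J ⊆ Y J) (s2 : ∀ J, Y'' J ⊆ Y' J) : Ex D k Y' Y'' := by
  intro e d1 i1 i2
  obtain ⟨e1, d2, i3, i4⟩ := h2 e d1 (i1.mono s1) i2
  obtain ⟨e2, d3, _, i6⟩ := h1 e1 d2 i3 (by simpa using i1.sub (i4.mono s2))
  exact ⟨_, d2.sub d3.kd, i6, by rwa [kd_sub_kd hD]⟩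

/-- Excision, from the small pair to the large pair. -/
lemma Ex.union (h : Ex D k Y Y') (hY : Stab D Y) (hZ : Stab D Z) (s1 : ∀ J, Y J ∩ Z J ⊆ Y' J)
    (s2 : ∀ J, Y' J ⊆ Z J) (s3 : ∀ J, W J ⊆ Y J ∪ Z J) (s4 : ∀ J, Y J ⊆ W J) : Ex D k W Z := by
  intro e d1 i1 i2
  obtain ⟨e1, d2, i3, _, i4⟩ := i1.split d1 s3
  have i5 : In Z (kd D e1) := by simpa [kd_sub] using i2.sub (i4.kd hZ)
  obtain ⟨e2, d3, i6, i7⟩ := h e1 d2 i3 (((i3.kd hY).inter i5).mono s1)
  exact ⟨e2, d3, i6.mono s4, by simpa using i4.add (i7.mono s2)⟩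

/-- Excision, from the large pair to the small pair. -/
lemma Ex.inter (h : Ex D k W Z) (hY : Stab D Y) (hZ : Stab D Z) (s1 : ∀ J, Y J ∩ Z J ⊆ Y' J)
    (s2 : ∀ J, Y' J ⊆ Z J) (s3 : ∀ J, W J ⊆ Y J ∪ Z J) (s4 : ∀ J, Y J ⊆ W J) : Ex D k Y Y' := by
  intro e d1 i1 i2
  obtain ⟨e1, d2, i3, i4⟩ := h e d1 (i1.mono s4) (i2.mono s2)
  obtain ⟨e2, d3, i5, _, i6⟩ := i3.split d2 s3
  refine ⟨e2, d3, i5, ((i1.sub (i5.kd hY)).inter ?_).mono s1⟩
  simpa [kd_sub] using i4.add (i6.kd hZ)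

/-- Replacing the operators by their leading parts on the layer `Z` between `Y'` and `Y`. -/
lemma Ex.chg (h : Ex F k Z (emp X ι)) (hY : Stab D Y') (hZ : Stab F Z)
    (s1 : ∀ J, Y J ⊆ Z J ∪ Y' J) (s2 : ∀ J, Z J ⊆ Y J) (s3 : ∀ J, ∀ u ∈ Z J, u ∉ Y' J)
    (hD : ∀ J, ∀ i ∉ J, ∀ u ∈ Z (insert i J),
      D i (Finsupp.single u 1) - F i (Finsupp.single u 1) ∈ Su (Y' J)) : Ex D k Y Y' := by
  intro e d1 i1 i2
  obtain ⟨e1, d2, i3, _, i4⟩ := i1.split d1 s1
  have i5 : In Y' (kd F e1) := by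
    simpa [kd_sub] using (i2.sub (i4.kd hY)).sub (i3.kd_sub hD)
  obtain ⟨e2, d3, i6, i7⟩ := h e1 d2 i3
    (((i3.kd hZ).inter i5).mono (fun J u hu => s3 J u hu.1 hu.2))
  rw [in_emp, sub_eq_zero] at i7
  refine ⟨e2, d3, i6.mono s2, ?_⟩
  have := i4.sub (i6.kd_sub hD)
  rw [← i7] at this
  simpa using this

/-- An increasing chain of subcomplexes. -/
lemma Ex.chain (hD : Comm D) (C : ℕ → Finset ι → Set X) (h : ∀ n, Ex D k (C (n + 1)) (C n))
    (s1 : ∀ n J, C n J ⊆ C (n + 1) J) (s2 : ∀ n J, C n J ⊆ Y J)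
    (s3 : ∀ J, ∀ u ∈ Y J, ∃ n, u ∈ C n J) : Ex D k Y (C 0) := by
  have hm : ∀ J, Monotone (fun n => C n J) := fun J => monotone_nat_of_le_succ (fun n => s1 n J)
  have h1 : ∀ n, Ex D k (C n) (C 0) := by
    intro n
    induction n with
    | zero => exact Ex.of_subset (fun _ _ => subset_rfl)
    | succ n ih => exact (h n).trans hD ih (s1 n) (fun J => hm J (Nat.zero_le n))
  intro e d1 i1 i2
  choose! N hN using s3
  obtain ⟨e1, d2, i3, i4⟩ := h1 (∑ J, ∑ u ∈ (e J).support, N J u) e d1 (fun J => by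
    intro u hu
    refine hm J ?_ (hN J u (i1 J hu))
    exact (single_le_sum (f := fun u => N J u) (fun _ _ => Nat.zero_le _) hu).trans
      (single_le_sum (f := fun J => ∑ u ∈ (e J).support, N J u) (fun _ _ => Nat.zero_le _)
        (mem_univ J))) i2
  exact ⟨e1, d2, i3.mono (s2 _), i4⟩

/-- A filtration by a function with finitely many values. -/
lemma Ex.chainFin (hD : Comm D) {Λ : Type} [LinearOrder Λ] (φ : X → Λ) (R : Finset Λ) :
    ∀ Y : Finset ι → Set X, (∀ J, Y' J ⊆ Y J) → (∀ J, ∀ u ∈ Y J, u ∉ Y' J → φ u ∈ R) →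
      (∀ r ∈ R, Ex D k (fun J => Y' J ∪ {u | u ∈ Y J ∧ r ≤ φ u})
        (fun J => Y' J ∪ {u | u ∈ Y J ∧ r < φ u})) → Ex D k Y Y' := by
  induction R using Finset.induction_on_min with
  | empty =>
    intro Y _ h2 _
    refine Ex.of_subset (fun J _ u hu => ?_)
    by_contra h
    simpa using h2 J u hu h
  | insert r R hr ih =>
    intro Y h1 h2 h3
    have e1 : (fun J => Y' J ∪ {u | u ∈ Y J ∧ r ≤ φ u}) = Y := by
      funext J
      refine Set.Subset.antisymm (Set.union_subset (h1 J) (fun u hu => hu.1)) (fun u hu => ?_)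
      by_cases h : u ∈ Y' J
      · exact Or.inl h
      · refine Or.inr ⟨hu, ?_⟩
        rcases mem_insert.1 (h2 J u hu h) with h4 | h4
        · exact h4.ge
        · exact (hr _ h4).le
    have h4 := h3 r (mem_insert_self _ _)
    rw [e1] at h4
    refine h4.trans hD (ih _ (fun J => Set.subset_union_left) (fun J u hu hu' => ?_)
      (fun r' hr' => ?_)) (fun J => Set.union_subset (h1 J) (fun u hu => hu.1))
      (fun J => Set.subset_union_left)
    · have h5 := hu.resolve_left hu'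
      exact (mem_insert.1 (h2 J u h5.1 hu')).resolve_left h5.2.ne'
    · have h5 := hr r' hr'
      convert h3 r' (mem_insert_of_mem hr') using 2 with J J
      · ext u
        simp only [Set.mem_union, Set.mem_ofPred_eq]
        exact ⟨fun h => h.elim Or.inl (fun h => h.1.elim Or.inl (fun h' => Or.inr ⟨h'.1, h.2⟩)),
          fun h => h.elim Or.inl (fun h => Or.inr ⟨Or.inr ⟨h.1, h5.trans_le h.2⟩, h.2⟩)⟩
      · ext u
        simp only [Set.mem_union, Set.mem_ofPred_eq]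
        exact ⟨fun h => h.elim Or.inl (fun h => h.1.elim Or.inl (fun h' => Or.inr ⟨h'.1, h.2⟩)),
          fun h => h.elim Or.inl (fun h => Or.inr ⟨Or.inr ⟨h.1, h5.trans h.2⟩, h.2⟩)⟩

/-- The homotopy. -/
noncomputable def ht (G : ι → Op X) (e : Ch X ι) : Ch X ι :=
  fun J => ∑ i ∈ J, sgn i (J.erase i) • G i (e (J.erase i))

lemma kd_ht (h : ∀ i k, Commute (G i) (D k)) (e : Ch X ι) (J : Finset ι) :
    kd D (ht G e) J + ht G (kd D e) J = (∑ i, D i * G i) (e J) := by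
  have h1 : kd D (ht G e) J = ∑ i ∈ Jᶜ, (D i * G i) (e J) + ∑ i ∈ Jᶜ, ∑ k ∈ J,
      (sgn i J * sgn k (insert i (J.erase k))) • D i (G k (e (insert i (J.erase k)))) := by
    rw [kd, ← sum_add_distrib]
    refine sum_congr rfl (fun i hi => ?_)
    have hi' := mem_compl.1 hi
    rw [ht, sum_insert hi', erase_insert hi', map_add, smul_add, map_smul, smul_smul, sgn_sq,
      one_smul, map_sum, smul_sum]
    congr 1
    refine sum_congr rfl (fun k hk => ?_)
    rw [erase_insert_of_ne (by rintro rfl; exact hi' hk), map_smul, smul_smul]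
  have h2 : ht G (kd D e) J = ∑ k ∈ J, (D k * G k) (e J) + ∑ k ∈ J, ∑ i ∈ Jᶜ,
      (sgn k (J.erase k) * sgn i (J.erase k)) • G k (D i (e (insert i (J.erase k)))) := by
    rw [ht, ← sum_add_distrib]
    refine sum_congr rfl (fun k hk => ?_)
    rw [kd, compl_erase, sum_insert (by simpa using hk), insert_erase hk, map_add, smul_add,
      map_smul, smul_smul, sgn_sq, one_smul, map_sum, smul_sum, ← (h k k).eq]
    congr 1
    exact sum_congr rfl (fun i _ => by rw [map_smul, smul_smul])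
  rw [h1, h2, add_add_add_comm, sum_comm (s := J), ← sum_add_distrib (s := Jᶜ) (f := fun i =>
    ∑ k ∈ J, _), sum_eq_zero (s := Jᶜ) (f := fun i => _ + _), add_zero, LinearMap.sum_apply,
    sum_compl_add_sum]
  intro i hi
  rw [← sum_add_distrib]
  refine sum_eq_zero (fun k hk => ?_)
  have hi' := mem_compl.1 hi
  have hik : i ≠ k := by
    rintro rfl
    exact hi' hk
  have h3 := LinearMap.congr_fun (h k i).eq (e (insert i (J.erase k)))
  simp only [Module.End.mul_apply] at h3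
  have h4 := sgn_swap (J := J.erase k) (fun h => hi' (mem_of_mem_erase h)) (notMem_erase k J) hik
  rw [insert_erase hk] at h4
  rw [h3, ← add_smul]
  have h5 := sgn_sq i (J.erase k)
  have h6 := sgn_sq i J
  have : sgn i J * sgn k (insert i (J.erase k)) + sgn k (J.erase k) * sgn i (J.erase k) = 0 := by
    linear_combination (sgn i J * sgn i (J.erase k)) * h4 -
      (sgn i J * sgn k (insert i (J.erase k))) * h5 - (sgn k (J.erase k) * sgn i (J.erase k)) * h6
  rw [this, zero_smul]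

omit [Fintype ι] in
lemma In.ht (h : In Y e) (hG : ∀ J, ∀ i ∈ J, ∀ f ∈ Su (Y (J.erase i)), G i f ∈ Su (Y J)) :
    In Y (ht G e) := fun J =>
  Submodule.sum_mem _ (fun i hi => Submodule.smul_mem _ _ (hG J i hi _ (h _)))

omit [Fintype ι] in
lemma Deg.ht (h : Deg k e) : Deg (k + 1) (ht G e) := fun J hJ =>
  sum_eq_zero (fun i hi => by
    have := card_erase_add_one hi
    rw [h _ (by omega), map_zero, smul_zero])

/-- Exactness from a homotopy. -/
lemma Ex.of_ht (G : ι → Op X) (h : ∀ i k, Commute (G i) (D k))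
    (h1 : ∀ J, ∀ i ∈ J, ∀ f ∈ Su (Y (J.erase i)), G i f ∈ Su (Y J))
    (h2 : ∀ J, ∀ i ∈ J, ∀ f ∈ Su (Y' (J.erase i)), G i f ∈ Su (Y' J))
    (h3 : ∀ J, ∀ f ∈ Su (Y J), f - (∑ i, D i * G i) f ∈ Su (Y' J)) : Ex D k Y Y' := by
  intro e d1 i1 i2
  refine ⟨ht G e, d1.ht, i1.ht h1, fun J => ?_⟩
  have := add_mem (h3 J _ (i1 J)) (i2.ht h2 J)
  rw [← kd_ht h, ← sub_sub, sub_add_cancel] at this
  exact this

/-- A contractible complex. -/
lemma Ex.of_htpy {Y : Set X} {A : Finset ι} (G : ι → Op X) (h0 : ∀ i ∉ A, G i = 0)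
    (h : ∀ i k, Commute (G i) (D k)) (h1 : ∑ i, D i * G i = 1)
    (h2 : ∀ i, ∀ f ∈ Su Y, G i f ∈ Su Y) : Ex D k (res A Y) (emp X ι) := by
  refine Ex.of_ht G h (fun J i hi f hf => ?_) (fun J i _ f hf => ?_) (fun J f _ => by simp [h1])
  · by_cases hJ : J ⊆ A
    · exact Su_mono (fun u hu => ⟨hJ, hu⟩) (h2 i f (Su_mono (fun u hu => hu.2) hf))
    · by_cases hA : i ∈ A
      · rw [Su_empty (Su_mono (fun u hu => hJ (fun j hj => ?_)) hf), map_zero]
        · exact Submodule.zero_mem _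
        · by_cases h3 : j = i
          · rwa [h3]
          · exact hu.1 (mem_erase.2 ⟨h3, hj⟩)
      · rw [h0 i hA]
        exact Submodule.zero_mem _
  · rw [Su_empty hf, map_zero]
    exact Submodule.zero_mem _

/-- One operator acts as a nonzero scalar on the quotient. -/
lemma Ex.of_scalar {Y Y' : Set X} (i0 : ι) {s : ℂ} (hs : s ≠ 0)
    (h1 : ∀ u ∈ Y', D i0 (Finsupp.single u 1) ∈ Su Y')
    (h2 : ∀ u ∈ Y, u ∉ Y' → D i0 (Finsupp.single u 1) - s • Finsupp.single u 1 ∈ Su Y') :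
    Ex D k (fun _ => Y) (fun _ => Y') := by
  have hG : ∀ (Y : Set X) i, ∀ f ∈ Su Y, (if i = i0 then s⁻¹ • (1 : Op X) else 0) f ∈ Su Y := by
    intro Y i f hf
    split_ifs
    · exact Submodule.smul_mem _ _ hf
    · exact Submodule.zero_mem _
  refine Ex.of_ht (fun i => if i = i0 then s⁻¹ • 1 else 0) (fun i k => ?_)
    (fun _ i _ => hG Y i) (fun _ i _ => hG Y' i) (fun _ f hf => ?_)
  · split_ifs
    · exact (Commute.one_left _).smul_left _
    · exact Commute.zero_left _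
  · have e1 : (∑ i, D i * if i = i0 then s⁻¹ • (1 : Op X) else 0) = s⁻¹ • D i0 := by simp
    rw [e1]
    refine map_Su (1 - s⁻¹ • D i0) _ (fun u hu => ?_) hf
    by_cases h3 : u ∈ Y'
    · exact sub_mem (single_mem_Su h3 1) (Submodule.smul_mem _ _ (h1 u h3))
    · have := Submodule.smul_mem _ (-s⁻¹) (h2 u hu h3)
      rw [smul_sub, smul_smul, neg_mul, inv_mul_cancel₀ hs, neg_smul, neg_smul, one_smul,
        sub_neg_eq_add, neg_add_eq_sub] at this
      exact this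

end Kos

end Pool.Agent.MP_5d9b3c_ag.H48N
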