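import Pool.Agent.MP_5d9b3c_ag.H48N.BasicK

/-!
Elementary lemmas on the operators on the lattice and on fans.
-/

namespace Pool.Agent.MP_5d9b3c_ag.H48N

open Finset Pool.Agent.MP_5d9b3c_ag.H22

section Vec

variable {ι κ : Type} {B : κ → Pt ι} {q y : Vq ι}

@[simp] lemma qq_none (l : ℚ) (x : ι → ℚ) : qq l x none = l := rfl

@[simp] lemma qq_some (l : ℚ) (x : ι → ℚ) (i : ι) : qq l x (some i) = x i := rfl

@[simp] lemma Bq_none (b : κ) : Bq B b none = lev B b := rfl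

@[simp] lemma Bq_some (b : κ) (k : ι) : Bq B b (some k) = bx B b k := rfl

@[simp] lemma hat_zero : hat q 0 = q := by
  ext o
  simp [hat]

lemma hat_add (u : Pt ι) (b : κ) : hat q (u + B b) = hat q u + Bq B b := by
  ext o
  simp only [hat, Bq, Pi.add_apply, Int.cast_add]
  ring

lemma hat_add_sub (u : Pt ι) (b : κ) : hat q (u + B b) - y = (hat q u - y) + Bq B b := by
  rw [hat_add]
  abel

lemma hat_sub (u : Pt ι) (b : κ) : hat q (u - B b) = hat q u - Bq B b := by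
  rw [eq_sub_iff_add_eq, ← hat_add, sub_add_cancel]

lemma pp_add (u : Pt ι) (b : κ) : pp q y (u + B b) = pp q y u + bx B b := by
  ext k
  simp only [pp, hat_add, Pi.add_apply, Bq_some]
  ring

lemma pp_eq (u : Pt ι) : (fun k => (hat q u - y) (some k)) = pp q y u := rfl

variable [Fintype ι]

lemma qq_dot (l : ℚ) (x : ι → ℚ) (v : Vq ι) :
    qq l x ⬝ᵥ v = l * v none + x ⬝ᵥ (fun i => v (some i)) := by
  simp [dotProduct, Fintype.sum_option]

lemma hw_dot (w : ι → ℚ) (v : Vq ι) : hw w ⬝ᵥ v = w ⬝ᵥ (fun i => v (some i)) - v none := by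
  rw [hw, qq_dot]
  ring

lemma hw_Bq (w : ι → ℚ) (b : κ) : hw w ⬝ᵥ Bq B b = w ⬝ᵥ bx B b - lev B b := hw_dot _ _

lemma hw_hat (w : ι → ℚ) (u : Pt ι) :
    hw w ⬝ᵥ (hat q u - y) = w ⬝ᵥ pp q y u - (hat q u - y) none := hw_dot _ _

lemma dot_hat_sub (n : Vq ι) (u : Pt ι) :
    n ⬝ᵥ (hat q u - y) = n ⬝ᵥ (fun o => (u o : ℚ)) + n ⬝ᵥ (q - y) := by
  rw [← dotProduct_add]
  congr 1
  ext o
  simp only [hat, Pi.sub_apply, Pi.add_apply]
  ring

/-- Common denominators on the shifted lattice. -/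
lemma disc_hat {γ : Type} [Finite γ] (n : γ → Vq ι) (q y : Vq ι) :
    ∃ m : ℕ, 0 < m ∧ ∀ j, ∀ u : Pt ι, ∃ z : ℤ, m * (n j ⬝ᵥ (hat q u - y)) = z := by
  simp only [dot_hat_sub]
  exact disc n _

/-- A uniform gap on the shifted lattice. -/
lemma gap_hat {γ : Type} [Finite γ] (n : γ → Vq ι) (s : γ → ℚ) (q y : Vq ι) :
    ∃ ε : ℚ, 0 < ε ∧ ∀ ε' : ℚ, 0 ≤ ε' → ε' ≤ ε → ∀ j, ∀ u : Pt ι,
      (0 < n j ⬝ᵥ (hat q u - y) → 0 < n j ⬝ᵥ (hat q u - y) + ε' * s j) ∧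
      (n j ⬝ᵥ (hat q u - y) < 0 → n j ⬝ᵥ (hat q u - y) + ε' * s j < 0) := by
  simp only [dot_hat_sub]
  exact gap n _ s

/-- Lifting a point of the cone to the right level. -/
lemma Cone.lift {T : Finset κ} {w : ι → ℚ} {v : Vq ι} (h : Cone (bx B) T (fun k => v (some k)))
    (hw1 : ∀ b ∈ T, w ⬝ᵥ bx B b = lev B b) (hw2 : hw w ⬝ᵥ v = 0) : Cone (Bq B) T v := by
  obtain ⟨s, hs, h⟩ := h
  refine ⟨s, hs, ?_⟩
  rw [hw_dot, h, dotProduct_sum, sub_eq_zero] at hw2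
  ext (_ | k)
  · rw [← hw2, Finset.sum_apply]
    exact sum_congr rfl (fun b hb => by rw [dotProduct_smul, hw1 b hb]; rfl)
  · rw [congrFun h k, Finset.sum_apply, Finset.sum_apply]
    rfl

omit [Fintype ι] in
lemma Cone.proj {T : Finset κ} {v : Vq ι} (h : Cone (Bq B) T v) :
    Cone (bx B) T (fun k => v (some k)) := by
  obtain ⟨s, hs, rfl⟩ := h
  refine ⟨s, hs, ?_⟩
  ext k
  rw [Finset.sum_apply, Finset.sum_apply]
  rfl

end Vec

section Ops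

variable {ι κ : Type} [Fintype κ] {B : κ → Pt ι} {c : κ → ℂ} {q y : Vq ι}

lemma op_single (s : Pt ι → ℂ) (ρ : Pt ι → κ → ℂ) (u : Pt ι) :
    op B s ρ (Finsupp.single u 1) =
      s u • Finsupp.single u 1 + ∑ b, ρ u b • Finsupp.single (u + B b) 1 := by
  rw [op, Finsupp.linearCombination_single, one_smul]

lemma op_mem {s : Pt ι → ℂ} {ρ : Pt ι → κ → ℂ} {u : Pt ι} {Y : Set (Pt ι)}
    (h1 : s u ≠ 0 → u ∈ Y) (h2 : ∀ b, ρ u b ≠ 0 → u + B b ∈ Y) :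
    op B s ρ (Finsupp.single u 1) ∈ Su Y := by
  have key : ∀ (r : ℂ) (v : Pt ι), (r ≠ 0 → v ∈ Y) → r • Finsupp.single v (1 : ℂ) ∈ Su Y := by
    intro r v h
    by_cases h0 : r = 0
    · rw [h0, zero_smul]
      exact Submodule.zero_mem _
    · exact Submodule.smul_mem _ _ (single_mem_Su (h h0) 1)
  rw [op_single]
  exact add_mem (key _ _ h1) (Submodule.sum_mem _ (fun b _ => key _ _ (h2 b)))

lemma op_sub (s s' : Pt ι → ℂ) (ρ ρ' : Pt ι → κ → ℂ) :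
    op B s ρ - op B s' ρ' = op B (s - s') (ρ - ρ') :=
  op_ext (fun u => by
    simp only [LinearMap.sub_apply, op_single, Pi.sub_apply, sub_smul, sum_sub_distrib]
    abel)

lemma op_sub_mem {s s' : Pt ι → ℂ} {ρ ρ' : Pt ι → κ → ℂ} {u : Pt ι} {Y : Set (Pt ι)}
    (h1 : s u ≠ s' u → u ∈ Y) (h2 : ∀ b, ρ u b ≠ ρ' u b → u + B b ∈ Y) :
    op B s ρ (Finsupp.single u 1) - op B s' ρ' (Finsupp.single u 1) ∈ Su Y := by
  rw [← LinearMap.sub_apply, op_sub]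
  exact op_mem (fun h => h1 (sub_ne_zero.1 h)) (fun b h => h2 b (sub_ne_zero.1 h))

lemma op_commute {s s' : Pt ι → ℂ} {ρ ρ' : Pt ι → κ → ℂ}
    (h1 : ∀ u b, s' u * ρ u b + ρ' u b * s (u + B b) = s u * ρ' u b + ρ u b * s' (u + B b))
    (h2 : ∀ u b b', ρ' u b * ρ (u + B b) b' = ρ u b' * ρ' (u + B b') b) :
    Commute (op B s ρ) (op B s' ρ') := by
  refine op_ext (fun u => ?_)
  simp only [Module.End.mul_apply, op_single, map_add, map_smul, map_sum, smul_add, smul_sum,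
    smul_smul, sum_add_distrib]
  have e1 : ∑ b, (s' u * ρ u b) • Finsupp.single (u + B b) (1 : ℂ) +
      ∑ b, (ρ' u b * s (u + B b)) • Finsupp.single (u + B b) (1 : ℂ) =
      ∑ b, (s u * ρ' u b) • Finsupp.single (u + B b) (1 : ℂ) +
      ∑ b, (ρ u b * s' (u + B b)) • Finsupp.single (u + B b) (1 : ℂ) := by
    rw [← sum_add_distrib, ← sum_add_distrib]
    exact sum_congr rfl (fun b _ => by rw [← add_smul, ← add_smul, h1])
  have e2 : ∑ b, ∑ b', (ρ' u b * ρ (u + B b) b') • Finsupp.single (u + B b + B b') (1 : ℂ) =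
      ∑ b, ∑ b', (ρ u b * ρ' (u + B b) b') • Finsupp.single (u + B b + B b') (1 : ℂ) := by
    conv_rhs => rw [sum_comm]
    exact sum_congr rfl (fun b _ => sum_congr rfl (fun b' _ => by rw [h2, add_right_comm]))
  rw [add_assoc, add_assoc, ← add_assoc (∑ _, _), e1, e2, mul_comm (s u), add_assoc]

variable [Fintype ι]

lemma Dn_single (n : Vq ι) (u : Pt ι) : Dn B c q n (Finsupp.single u 1) =
    ((n ⬝ᵥ hat q u : ℚ) : ℂ) • Finsupp.single u 1 +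
      ∑ b, (c b * ((n ⬝ᵥ Bq B b : ℚ) : ℂ)) • Finsupp.single (u + B b) 1 := op_single _ _ _

lemma Dn_commute (n n' : Vq ι) : Commute (Dn B c q n) (Dn B c q n') :=
  op_commute (fun u b => by
    rw [hat_add, dotProduct_add, dotProduct_add]
    push_cast
    ring) (fun _ _ _ => mul_comm _ _)

lemma Dn_mem {n : Vq ι} {Y : Set (Pt ι)} (h : ∀ u ∈ Y, ∀ b, u + B b ∈ Y) {e : Pt ι →₀ ℂ}
    (he : e ∈ Su Y) : Dn B c q n e ∈ Su Y :=
  map_Su _ _ (fun u hu => op_mem (fun _ => hu) (fun b _ => h u hu b)) he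

lemma Dn_add (n n' : Vq ι) : Dn B c q (n + n') = Dn B c q n + Dn B c q n' :=
  op_ext (fun u => by
    simp only [LinearMap.add_apply, Dn_single, add_dotProduct, Rat.cast_add, mul_add, add_smul,
      sum_add_distrib]
    abel)

lemma Dn_smul (r : ℚ) (n : Vq ι) : Dn B c q (r • n) = (r : ℂ) • Dn B c q n :=
  op_ext (fun u => by
    simp only [LinearMap.smul_apply, Dn_single, smul_dotProduct, smul_eq_mul, Rat.cast_mul,
      smul_add, smul_sum, smul_smul, mul_left_comm])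

lemma Dn_zero : Dn B c q 0 = 0 := by
  have := Dn_smul (B := B) (c := c) (q := q) 0 0
  simpa using this

lemma Dn_sum {α : Type} (S : Finset α) (n : α → Vq ι) :
    Dn B c q (∑ j ∈ S, n j) = ∑ j ∈ S, Dn B c q (n j) := by
  classical
  induction S using Finset.induction_on with
  | empty => simp [Dn_zero]
  | insert j S hj ih => rw [sum_insert hj, sum_insert hj, Dn_add, ih]

variable [LinearOrder ι]

lemma Dx_single (i : ι) (u : Pt ι) : Dx B c q i (Finsupp.single u 1) =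
    ((hat q u (some i) : ℚ) : ℂ) • Finsupp.single u 1 +
      ∑ b, (c b * (B b (some i) : ℂ)) • Finsupp.single (u + B b) 1 := by
  simp [Dx, Dn_single, bx]

lemma D0_single (u : Pt ι) : D0 B c q (Finsupp.single u 1) =
    ((hat q u none : ℚ) : ℂ) • Finsupp.single u 1 +
      ∑ b, (c b * (B b none : ℂ)) • Finsupp.single (u + B b) 1 := by
  simp [D0, Dn_single, lev]

lemma Dx_eq (i : ι) : Dx B c q i =
    op B (fun u => ((hat q u (some i) : ℚ) : ℂ)) (fun _ b => c b * (B b (some i) : ℂ)) :=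
  op_ext (fun u => by rw [Dx_single, op_single])

lemma comm_Dx : Comm (Dx B c q) := fun _ _ => Dn_commute _ _

lemma Dn_hw (w : ι → ℚ) : Dn B c q (hw w) = ∑ i, (w i : ℂ) • Dx B c q i - D0 B c q := by
  have : hw w = ∑ i, w i • Pi.single (some i) 1 + (-1 : ℚ) • Pi.single none 1 := by
    ext (_ | k)
    · simp [hw]
    · simp [hw, Pi.single_apply]
  rw [this, Dn_add, Dn_sum, Dn_smul]
  refine LinearMap.ext (fun e => ?_)
  simp [Dn_smul, Dx, D0, sub_eq_add_neg]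

lemma stab_Dx {Y : Set (Pt ι)} (h : ∀ u ∈ Y, ∀ b, u + B b ∈ Y) : Stab (Dx B c q) (fun _ => Y) :=
  Stab.const (fun _ _ hu => Dn_mem h (single_mem_Su hu 1))

lemma Dx_mem_N0 (Y : Set (Pt ι)) (i : ι) (e : Pt ι →₀ ℂ) : Dx B c q i e ∈ N0 B c q Y :=
  Submodule.mem_sup_left (Submodule.mem_iSup_of_mem i ⟨e, rfl⟩)

lemma Su_le_N0 {Y : Set (Pt ι)} {e : Pt ι →₀ ℂ} (h : e ∈ Su Y) : e ∈ N0 B c q Y :=
  Submodule.mem_sup_right h

lemma mem_N0 {Y : Set (Pt ι)} {f : Pt ι →₀ ℂ} :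
    f ∈ N0 B c q Y ↔ ∃ e, Deg 1 e ∧ f - kd (Dx B c q) e ∅ ∈ Su Y := by
  constructor
  · intro h
    obtain ⟨f1, h1, f2, h2, rfl⟩ := Submodule.mem_sup.1 h
    obtain ⟨g, hg⟩ : ∃ g : ι → Pt ι →₀ ℂ, f1 = ∑ i, Dx B c q i (g i) := by
      refine Submodule.iSup_induction _ (motive := fun f => ∃ g : ι → Pt ι →₀ ℂ,
        f = ∑ i, Dx B c q i (g i)) h1 ?_ ⟨0, by simp⟩ ?_
      · rintro i _ ⟨g, rfl⟩
        refine ⟨Pi.single i g, ?_⟩
        rw [sum_eq_single i (fun k _ hk => by simp [hk]) (by simp), Pi.single_eq_same]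
      · rintro _ _ ⟨g, rfl⟩ ⟨g', rfl⟩
        exact ⟨g + g', by simp [sum_add_distrib]⟩
    obtain ⟨e, h3, h4⟩ := exists_deg_one g
    exact ⟨e, h3, by simpa [kd_empty, h4, ← hg] using h2⟩
  · rintro ⟨e, _, h⟩
    have := add_mem (Su_le_N0 (B := B) (c := c) (q := q) h)
      (Submodule.sum_mem _ (fun i (_ : i ∈ univ) => Dx_mem_N0 Y i (e {i})))
    simpa [kd_empty] using this

lemma D0_mem_N0 {Y : Set (Pt ι)} (h : ∀ u ∈ Y, ∀ b, u + B b ∈ Y) {f : Pt ι →₀ ℂ}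
    (hf : f ∈ N0 B c q Y) : D0 B c q f ∈ N0 B c q Y := by
  obtain ⟨e, _, h1⟩ := mem_N0.1 hf
  have h2 : D0 B c q (f - kd (Dx B c q) e ∅) ∈ N0 B c q Y := Su_le_N0 (Dn_mem h h1)
  have h3 : D0 B c q (kd (Dx B c q) e ∅) ∈ N0 B c q Y := by
    rw [kd_empty, map_sum]
    refine Submodule.sum_mem _ (fun i _ => ?_)
    have := LinearMap.congr_fun (Dn_commute (B := B) (c := c) (q := q) (Pi.single none 1)
      (Pi.single (some i) 1)).eq (e {i})
    simp only [Module.End.mul_apply] at this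
    rw [D0, Dx, this]
    exact Dx_mem_N0 Y i _
  simpa using add_mem h2 h3

lemma aeval_mem_N0 {Y : Set (Pt ι)} (h : ∀ u ∈ Y, ∀ b, u + B b ∈ Y) (π : Polynomial ℂ)
    {f : Pt ι →₀ ℂ} (hf : f ∈ N0 B c q Y) : Polynomial.aeval (D0 B c q) π f ∈ N0 B c q Y := by
  induction π using Polynomial.induction_on' with
  | add p p' h1 h2 =>
    rw [map_add]
    exact add_mem h1 h2
  | monomial n r =>
    rw [Polynomial.aeval_monomial, ← Algebra.smul_def, LinearMap.smul_apply]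
    refine Submodule.smul_mem _ _ ?_
    induction n with
    | zero => simpa using hf
    | succ n ih =>
      rw [pow_succ', Module.End.mul_apply]
      exact D0_mem_N0 h ih

end Ops

section Face

variable {ι κ : Type} [Fintype κ] [DecidableEq κ] {B : κ → Pt ι} {c : κ → ℂ} {q y : Vq ι}
  {T : Finset κ}

lemma FT_single (i : ι) (u : Pt ι) : FT B c T i (Finsupp.single u 1) =
    ∑ b ∈ T, (c b * (B b (some i) : ℂ)) • Finsupp.single (u + B b) 1 := by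
  simp only [FT, op_single, Pi.zero_apply, zero_smul, zero_add, ite_smul, sum_ite_mem,
    univ_inter]

lemma FT_mem {Y : Set (Pt ι)} {u : Pt ι} (i : ι) (h : ∀ b ∈ T, u + B b ∈ Y) :
    FT B c T i (Finsupp.single u 1) ∈ Su Y :=
  op_mem (fun h => absurd rfl h) (fun b hb => h b (by
    by_contra h1
    exact hb (if_neg h1)))

lemma comm_FT : Comm (FT B c T) := fun _ _ =>
  op_commute (fun _ _ => by simp) (fun _ _ _ => mul_comm _ _)

omit [Fintype κ] [DecidableEq κ] in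
lemma CY_add {u : Pt ι} (h : u ∈ CY B q T y) {b : κ} (hb : b ∈ T) : u + B b ∈ CY B q T y := by
  change Cone _ _ _
  rw [hat_add_sub]
  exact Cone.add h (Cone.single hb)

end Face

section Fan

variable {ι κ : Type} [Fintype ι] [Fintype κ] {B : κ → Pt ι} {c : κ → ℂ} {K : Finset ι} {η : ℚ}
  {W : Finset (ι → ℚ)} {wc : (ι → ℚ) → ι → ℚ} {q y : Vq ι} {p ψ : ι → ℚ} {u : Pt ι} {b : κ}

omit [Fintype κ] in
lemma Ypos_add (h : ∀ ψ ∈ W, Feas (bx B) (lev B) (wc ψ)) (hu : u ∈ Ypos W wc q y) (b : κ) :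
    u + B b ∈ Ypos W wc q y := fun ψ hψ => by
  rw [hat_add_sub, dotProduct_add, hw_Bq]
  linarith [hu ψ hψ, h ψ hψ b]

lemma IsFan.bx_nonneg (h : IsFan B c K η W wc) (b : κ) {k : ι} (hk : k ∉ K) : 0 ≤ bx B b k := by
  unfold bx
  exact_mod_cast h.nonneg b k hk

lemma IsFan.Ynn_add (h : IsFan B c K η W wc) (hu : u ∈ Ynn K W wc q y) (b : κ) :
    u + B b ∈ Ynn K W wc q y :=
  ⟨fun k hk => by
    rw [pp_add]
    exact add_nonneg (hu.1 k hk) (h.bx_nonneg b hk), fun ψ hψ => by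
    rw [hat_add_sub, dotProduct_add, hw_Bq]
    linarith [hu.2 ψ hψ, h.cfeas ψ hψ b]⟩

/-- A minimiser over the vertices exists and is a minimiser over all feasible points. -/
lemma IsFan.exists_min (h : IsFan B c K η W wc) (hp : ∀ k ∉ K, 0 ≤ p k) :
    ∃ ψ ∈ W, ∀ ψ', Feas (bx B) (val B η) ψ' → ψ ⬝ᵥ p ≤ ψ' ⬝ᵥ p := by
  obtain ⟨ψ, h1, h2⟩ := h.cover p hp
  exact ⟨ψ, h1, fun _ h3 => h2.le_of_feas h3⟩

/-- The point lies in the cone of every feasible minimiser. -/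
lemma IsFan.cone_of_min (h : IsFan B c K η W wc) (hp : ∀ k ∉ K, 0 ≤ p k)
    (hf : Feas (bx B) (val B η) ψ) (hm : ∀ ψ' ∈ W, ψ ⬝ᵥ p ≤ ψ' ⬝ᵥ p) :
    Cone (bx B) (Tt (bx B) (val B η) ψ) p := by
  classical
  obtain ⟨ψ0, h1, h2⟩ := h.cover p hp
  exact (h2.tight hf (hm ψ0 h1)).mono inter_subset_right

lemma IsFan.wc_min (h : IsFan B c K η W wc) (hψ : ψ ∈ W)
    (hc : Cone (bx B) (Tt (bx B) (val B η) ψ) p) {w : ι → ℚ} (hw1 : Feas (bx B) (lev B) w) :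
    wc ψ ⬝ᵥ p ≤ w ⬝ᵥ p := (hc.mono (h.csub ψ hψ)).le_of_feas hw1

lemma IsFan.mem_GG (h : IsFan B c K η W wc) (hψ : ψ ∈ W)
    (hc : Cone (Bq B) (Tt (bx B) (val B η) ψ) (hat q u - y)) : u ∈ GG K W wc q y := by
  refine ⟨⟨fun k hk => ?_, fun ψ' hψ' => hc.dot_nonneg (fun b _ => ?_)⟩, fun h1 => ?_⟩
  · obtain ⟨s, hs, h1⟩ := hc.proj
    rw [← pp_eq, h1, Finset.sum_apply]
    exact sum_nonneg (fun b _ => mul_nonneg (hs b) (h.bx_nonneg b hk))
  · rw [hw_Bq]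
    linarith [h.cfeas ψ' hψ' b]
  · refine (h1 ψ hψ).ne' (hc.dot_zero (fun b hb => ?_))
    rw [hw_Bq, mem_Tt.1 (h.csub ψ hψ hb), sub_self]

/-- On the boundary layer the wall of every minimiser vanishes. -/
lemma IsFan.hw_zero (h : IsFan B c K η W wc) (hu : u ∈ GG K W wc q y) (hψ : ψ ∈ W)
    (hm : ∀ ψ' ∈ W, ψ ⬝ᵥ pp q y u ≤ ψ' ⬝ᵥ pp q y u) : hw (wc ψ) ⬝ᵥ (hat q u - y) = 0 := by
  refine le_antisymm ?_ (hu.1.2 ψ hψ)
  by_contra h1
  refine hu.2 (fun ψ' hψ' => ?_)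
  have := h.wc_min hψ (h.cone_of_min hu.1.1 (h.feas ψ hψ) hm) (h.cfeas ψ' hψ')
  rw [hw_hat] at h1 ⊢
  linarith

lemma IsFan.cone_GG (h : IsFan B c K η W wc) (hu : u ∈ GG K W wc q y) (hψ : ψ ∈ W)
    (hm : ∀ ψ' ∈ W, ψ ⬝ᵥ pp q y u ≤ ψ' ⬝ᵥ pp q y u) :
    Cone (Bq B) (Tt (bx B) (val B η) ψ) (hat q u - y) :=
  Cone.lift (h.cone_of_min hu.1.1 (h.feas ψ hψ) hm) (fun _ hb => mem_Tt.1 (h.csub ψ hψ hb))
    (h.hw_zero hu hψ hm)

/-- The cone of any feasible minimiser contains the lifted point. -/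
lemma IsFan.cone_GG' (h : IsFan B c K η W wc) (hu : u ∈ GG K W wc q y)
    (hf : Feas (bx B) (val B η) ψ) (hm : ∀ ψ' ∈ W, ψ ⬝ᵥ pp q y u ≤ ψ' ⬝ᵥ pp q y u) :
    Cone (Bq B) (Tt (bx B) (val B η) ψ) (hat q u - y) := by
  classical
  obtain ⟨ψ0, h1, h2⟩ := h.cover _ hu.1.1
  exact (Cone.lift (h2.tight hf (hm ψ0 h1))
    (fun _ hb => mem_Tt.1 (h.csub ψ0 h1 (mem_inter.1 hb).1))
    (h.hw_zero hu h1 (fun ψ' h3 => h2.le_of_feas (h.feas ψ' h3)))).mono inter_subset_right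

lemma IsFan.sim_add (h : IsFan B c K η W wc) (hu : u ∈ GG K W wc q y)
    (hs : Sim B η W (pp q y u) b) : u + B b ∈ GG K W wc q y := by
  obtain ⟨ψ, h1, h2, h3⟩ := hs
  refine h.mem_GG h1 ?_
  rw [hat_add_sub]
  exact (h.cone_GG hu h1 h2).add (Cone.single (mem_Tt.2 h3))

omit [Fintype κ] in
/-- The minimisers after a shift inside a cone. -/
lemma Sim.min_iff (hf : ∀ ψ ∈ W, Feas (bx B) (val B η) ψ) (hs : Sim B η W p b) (hψ : ψ ∈ W) :
    (∀ ψ' ∈ W, ψ ⬝ᵥ (p + bx B b) ≤ ψ' ⬝ᵥ (p + bx B b)) ↔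
      (∀ ψ' ∈ W, ψ ⬝ᵥ p ≤ ψ' ⬝ᵥ p) ∧ ψ ⬝ᵥ bx B b = val B η b := by
  obtain ⟨ψ0, h1, h2, h3⟩ := hs
  simp only [dotProduct_add]
  constructor
  · intro h4
    have h5 := h4 ψ0 h1
    have h6 := h2 ψ hψ
    have h7 := hf ψ hψ b
    exact ⟨fun ψ' h8 => by linarith [h2 ψ' h8], by linarith⟩
  · rintro ⟨h4, h5⟩ ψ' h6
    linarith [h4 ψ' h6, hf ψ' h6 b]

omit [Fintype κ] in
lemma sim_sim (hf : ∀ ψ ∈ W, Feas (bx B) (val B η) ψ) {b' : κ} (h1 : Sim B η W p b)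
    (h2 : Sim B η W (p + bx B b) b') : Sim B η W p b' ∧ Sim B η W (p + bx B b') b := by
  obtain ⟨ψ, h3, h4, h5⟩ := h2
  obtain ⟨h6, h7⟩ := (h1.min_iff hf h3).1 h4
  have h8 : Sim B η W p b' := ⟨ψ, h3, h6, h5⟩
  exact ⟨h8, ψ, h3, (h8.min_iff hf h3).2 ⟨h6, h5⟩, h7⟩

open Classical in
lemma Ftr_single (i : ι) (u : Pt ι) : Ftr B c η W q y i (Finsupp.single u 1) =
    ∑ b, (if Sim B η W (pp q y u) b then c b * (B b (some i) : ℂ) else 0) •
      Finsupp.single (u + B b) 1 := by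
  rw [Ftr, op_single, Pi.zero_apply, zero_smul, zero_add]

lemma Ftr_mem {Y : Set (Pt ι)} (i : ι)
    (h : ∀ b, Sim B η W (pp q y u) b → B b (some i) ≠ 0 → u + B b ∈ Y) :
    Ftr B c η W q y i (Finsupp.single u 1) ∈ Su Y :=
  op_mem (fun h => absurd rfl h) (fun b hb => h b (by
    by_contra h1
    exact hb (if_neg h1)) (fun h1 => hb (by simp [h1])))

lemma comm_Ftr (hf : ∀ ψ ∈ W, Feas (bx B) (val B η) ψ) : Comm (Ftr B c η W q y) := fun _ _ =>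
  op_commute (fun _ _ => by simp) (fun u b b' => by
    rw [pp_add, pp_add]
    by_cases h : Sim B η W (pp q y u) b ∧ Sim B η W (pp q y u + bx B b) b'
    · have h' := sim_sim hf h.1 h.2
      rw [if_pos h.1, if_pos h.2, if_pos h'.1, if_pos h'.2, mul_comm]
    · have h' : ¬ (Sim B η W (pp q y u) b' ∧ Sim B η W (pp q y u + bx B b') b) :=
        fun h' => h (sim_sim hf h'.1 h'.2)
      rw [not_and_or] at h h'
      rcases h with h | h <;> rcases h' with h' | h' <;>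
        rw [if_neg h, if_neg h'] <;> simp only [zero_mul, mul_zero])

end Fan

end Pool.Agent.MP_5d9b3c_ag.H48N
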