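import Pool.Agent.MP_5d9b3c_ag.H48N.BasicP

/-!
Generic grids, and the boxes that avoid the faces of a given level.
-/

namespace Pool.Agent.MP_5d9b3c_ag.H48N

open Finset Pool.Agent.MP_5d9b3c_ag.H22

namespace BoxAux

variable {ι κ : Type} [Fintype ι] [LinearOrder ι] [Fintype κ] [DecidableEq κ]

/-- The vector of ones is a combination of constraints in `S` and of a vector on the grid
coordinates. -/
def Rep (a : κ → ι →₀ ℕ) {J : ℕ} (t : Finset (κ ⊕ ι) × (ι → Option (Fin (J + 1))))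
    (γ : κ ⊕ ι → ℚ) (β : ι → ℚ) : Prop :=
  (∀ k, t.2 k = none → β k = 0) ∧ (fun _ => (1 : ℚ)) = ∑ j ∈ t.1, γ j • vG a j + β

omit [Fintype κ] [DecidableEq κ] in
lemma Rep.pair {a : κ → ι →₀ ℕ} {J : ℕ} {t : Finset (κ ⊕ ι) × (ι → Option (Fin (J + 1)))}
    {γ : κ ⊕ ι → ℚ} {β : ι → ℚ} (h : Rep a t γ β) {x : ι → ℚ}
    (hx : ∀ j ∈ t.1, x ⬝ᵥ vG a j = bG κ ι j) :
    ∑ k, x k = ∑ j ∈ t.1, γ j * bG κ ι j + x ⬝ᵥ β := by
  have h1 : ∑ k, x k = x ⬝ᵥ (fun _ => (1 : ℚ)) := by simp [dotProduct]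
  rw [h1, h.2, dotProduct_add, dotProduct_sum]
  congr 1
  exact sum_congr rfl (fun j hj => by rw [dotProduct_smul, hx j hj, smul_eq_mul])

omit [LinearOrder ι] in
lemma qq_dot (u : ℚ) (v : ι → ℚ) (e : Option ι → ℚ) :
    qq u v ⬝ᵥ e = u * e none + v ⬝ᵥ (fun k => e (some k)) := by
  simp [dotProduct, Fintype.sum_option, qq]

omit [LinearOrder ι] in
lemma summable_geom {r : ℝ} (h0 : 0 ≤ r) (h1 : r < 1) :
    Summable (fun L : ι → ℕ => r ^ (∑ k, L k)) := by
  classical
  refine summable_of_sum_le (c := ∏ _k : ι, (1 - r)⁻¹) (fun L => pow_nonneg h0 _) (fun u => ?_)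
  obtain ⟨N, hN⟩ : ∃ N : ℕ, ∀ L ∈ u, ∀ k, L k < N := by
    refine ⟨u.sup (fun L => ∑ k, L k) + 1, fun L hL k => ?_⟩
    have h2 : ∑ k, L k ≤ u.sup (fun L => ∑ k, L k) := le_sup (f := fun L => ∑ k, L k) hL
    have h3 : L k ≤ ∑ k, L k := single_le_sum (f := L) (fun _ _ => Nat.zero_le _) (mem_univ k)
    omega
  have hs : u ⊆ Fintype.piFinset (fun _ : ι => range N) := fun L hL =>
    Fintype.mem_piFinset.2 (fun k => mem_range.2 (hN L hL k))
  refine (sum_le_sum_of_subset_of_nonneg hs (fun L _ _ => pow_nonneg h0 _)).trans ?_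
  have h4 : ∑ L ∈ Fintype.piFinset (fun _ : ι => range N), r ^ (∑ k, L k) =
      ∏ _k : ι, ∑ i ∈ range N, r ^ i := by
    rw [prod_univ_sum]
    exact sum_congr rfl (fun L _ => (prod_pow_eq_pow_sum _ _ _).symm)
  rw [h4]
  refine prod_le_prod (fun _ _ => sum_nonneg (fun _ _ => pow_nonneg h0 _)) (fun _ _ => ?_)
  rw [← tsum_geometric_of_lt_one h0 h1]
  exact (summable_geometric_of_lt_one h0 h1).sum_le_tsum _ (fun _ _ => pow_nonneg h0 _)

lemma EB_toNat (p : ℕ) [Fact p.Prime] (a : κ → ι →₀ ℕ) (c : κ → ℤ) (B : Finset ι)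
    (z : Lat κ) : EB p a c B z = EB p a c B (fun j => ((z j).toNat : ℤ)) := by
  unfold EB EE
  congr 1
  ext x
  unfold integrand
  congr 1
  refine prod_congr rfl (fun j _ => ?_)
  change chi p (z j) _ = chi p ((z j).toNat : ℤ) _
  rcases le_total (z j) 0 with h | h
  · rw [(chi_eq_one_iff _ _).2 (by simp [Int.toNat_of_nonpos h]),
      (chi_eq_one_iff _ _).2 (by simp [Int.toNat_of_nonpos h])]
  · rw [Int.toNat_of_nonneg h]

/-- The functionals of a box and a type. -/
def lam (a : κ → ι →₀ ℕ) (h : ℚ) (o : ι → ℚ) {J M : ℕ} (idx : ι → Fin (J + 2))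
    (τ : κ → Fin (M + 1)) : (ι ⊕ ι) ⊕ (κ ⊕ κ) → Option ι → ℚ :=
  Sum.elim
    (Sum.elim
      (fun k => if (idx k : ℕ) = 0 then 0 else qq (-gl h o k (idx k - 1)) (Pi.single k 1))
      (fun k => if (idx k : ℕ) = J + 1 then 0 else qq (gl h o k (idx k)) (-Pi.single k 1)))
    (Sum.elim (fun j => qq (-1) (Aq a j))
      (fun j => if (τ j : ℕ) = 0 then 0 else qq 1 (-Aq a j)))

/-- The bounds. -/
def bet {M : ℕ} (τ : κ → Fin (M + 1)) : (ι ⊕ ι) ⊕ (κ ⊕ κ) → ℚ :=
  Sum.elim (fun _ => 0) (Sum.elim (fun j => -((τ j : ℕ) : ℚ)) (fun j => ((τ j : ℕ) : ℚ)))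

/-- The strict constraints. -/
def str (κ : Type) {J : ℕ} (idx : ι → Fin (J + 2)) : (ι ⊕ ι) ⊕ (κ ⊕ κ) → Prop :=
  Sum.elim (Sum.elim (fun _ => False) (fun k => (idx k : ℕ) ≠ J + 1)) (fun _ => False)

omit [Fintype κ] [DecidableEq κ] in
lemma cond_iff (a : κ → ι →₀ ℕ) (h : ℚ) (o : ι → ℚ) {J M : ℕ} (idx : ι → Fin (J + 2))
    (τ : κ → Fin (M + 1)) (θ : ℕ) (L : ι → ℕ) :
    (∀ j, bet τ j ≤ lam a h o idx τ j ⬝ᵥ qq θ (fun k => L k) ∧
      (str κ idx j → bet τ j < lam a h o idx τ j ⬝ᵥ qq θ (fun k => L k))) ↔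
    InCell h o idx θ L ∧ ∀ j, (zz a θ L j).toNat = τ j := by
  have hz : ∀ j, ((zz a θ L j : ℤ) : ℚ) = θ - Aq a j ⬝ᵥ (fun k => (L k : ℚ)) := fun j => by
    simp [zz, Aq, dotProduct, mul_comm]
  have e0 : qq (θ : ℚ) (fun k => (L k : ℚ)) none = θ := rfl
  have e1 : (fun k => qq (θ : ℚ) (fun k => (L k : ℚ)) (some k)) = fun k => (L k : ℚ) := rfl
  rw [Sum.forall, Sum.forall, Sum.forall, ← forall_and, ← forall_and]
  refine and_congr (forall_congr' (fun k => and_congr ?_ ?_)) (forall_congr' (fun j => ?_))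
  · by_cases hk : (idx k : ℕ) = 0
    · simp only [lam, bet, str, hk, Sum.elim_inl, if_true, zero_dotProduct, le_refl,
        false_imp_iff, and_true, true_or]
    · simp only [lam, bet, str, hk, Sum.elim_inl, if_false, qq_dot, e0, e1, false_or,
        single_dotProduct, false_imp_iff, and_true]
      constructor <;> intro h1 <;> linarith
  · by_cases hk : (idx k : ℕ) = J + 1
    · simp [lam, bet, str, hk]
    · simp only [lam, bet, str, hk, Sum.elim_inl, Sum.elim_inr, if_false, qq_dot, e0, e1,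
        false_or, neg_dotProduct, single_dotProduct, ne_eq, not_false_eq_true, true_imp_iff]
      constructor
      · intro h1
        linarith [h1.2]
      · intro h1
        constructor <;> linarith
  · by_cases hj : (τ j : ℕ) = 0
    · simp only [lam, bet, str, hj, Sum.elim_inl, Sum.elim_inr, if_true, qq_dot, e0, e1,
        false_imp_iff, and_true, zero_dotProduct, Nat.cast_zero, neg_zero, le_refl]
      rw [Int.toNat_eq_zero, ← Int.cast_nonpos (R := ℚ), hz]
      constructor <;> intro h1 <;> linarith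
    · simp only [lam, bet, str, hj, Sum.elim_inl, Sum.elim_inr, if_false, qq_dot, e0, e1,
        false_imp_iff, and_true, neg_dotProduct]
      constructor
      · rintro ⟨h1, h2⟩
        have : zz a θ L j = ((τ j : ℕ) : ℤ) := by
          have : ((zz a θ L j : ℤ) : ℚ) = (((τ j : ℕ) : ℤ) : ℚ) := by
            rw [hz, Int.cast_natCast]
            linarith
          exact_mod_cast this
        rw [this, Int.toNat_natCast]
      · intro h1
        have h2 : zz a θ L j = ((τ j : ℕ) : ℤ) := by omega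
        have h3 := hz j
        rw [h2, Int.cast_natCast] at h3
        constructor <;> linarith

omit [DecidableEq κ] in
lemma rat_hyp {a : κ → ι →₀ ℕ} {l : ℝ} {h : ℚ} {o : ι → ℚ} {J M : ℕ} (hg : GenGrid a l h o J)
    {idx : ι → Fin (J + 2)} (hn : ¬ ∃ x, InP a l x ∧ InBox h o idx x) (τ : κ → Fin (M + 1))
    (e : Option ι → ℚ) (he : e ≠ 0) (h0 : ∀ o, 0 ≤ e o) (h1 : ∀ j, 0 ≤ lam a h o idx τ j ⬝ᵥ e) :
    ∃ d : Option ι → ℚ, (∀ o, e o = 0 → d o = 0) ∧
      (∀ j, lam a h o idx τ j ⬝ᵥ e = 0 → lam a h o idx τ j ⬝ᵥ d = 0) ∧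
      ((∑ k, d (some k) : ℚ) : ℝ) ≠ l * d none := by
  by_cases hl : ((∑ k, e (some k) : ℚ) : ℝ) = l * e none
  swap
  · exact ⟨e, fun _ h => h, fun _ h => h, hl⟩
  have hpos : 0 < e none := by
    refine lt_of_le_of_ne (h0 none) (fun h2 => he ?_)
    rw [← h2, Rat.cast_zero, mul_zero, Rat.cast_eq_zero] at hl
    have h3 := (sum_eq_zero_iff_of_nonneg (fun k _ => h0 (some k))).1 hl
    ext (_ | k)
    · exact h2.symm
    · exact h3 k (mem_univ k)
  obtain ⟨x, hx⟩ : ∃ x : ι → ℚ, (fun k => e (some k)) = e none • x :=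
    ⟨fun k => e (some k) / e none, by
      ext k
      simp only [Pi.smul_apply, smul_eq_mul]
      field_simp⟩
  have hxk : ∀ k, e (some k) = e none * x k := fun k => congrFun hx k
  have hx0 : ∀ k, 0 ≤ x k := fun k => by
    have := h0 (some k)
    rw [hxk] at this
    exact nonneg_of_mul_nonneg_right this hpos |> fun h => h
  have hA : ∀ (u : ℚ) (v : ι → ℚ), qq u v ⬝ᵥ e = e none * (u + x ⬝ᵥ v) := fun u v => by
    rw [qq_dot, hx, dotProduct_smul, smul_eq_mul, dotProduct_comm]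
    ring
  have hG : InG a x := inG_iff.2 ⟨fun j => by
    have h2 := h1 (Sum.inr (Sum.inl j))
    simp only [lam, Sum.elim_inr, Sum.elim_inl, hA] at h2
    have := nonneg_of_mul_nonneg_right h2 hpos
    linarith, hx0⟩
  have hB : InBox h o idx x := fun k => by
    refine ⟨hx0 k, ?_, ?_⟩
    · by_cases hk : (idx k : ℕ) = 0
      · exact Or.inl hk
      · have h2 := h1 (Sum.inl (Sum.inl k))
        simp only [lam, Sum.elim_inl, hk, if_false, hA, dotProduct_single] at h2
        have := nonneg_of_mul_nonneg_right h2 hpos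
        exact Or.inr (by linarith)
    · by_cases hk : (idx k : ℕ) = J + 1
      · exact Or.inl hk
      · have h2 := h1 (Sum.inl (Sum.inr k))
        simp only [lam, Sum.elim_inl, Sum.elim_inr, hk, if_false, hA, dotProduct_neg,
          dotProduct_single] at h2
        have := nonneg_of_mul_nonneg_right h2 hpos
        exact Or.inr (by linarith)
  have hs : ((∑ k, x k : ℚ) : ℝ) = l := by
    simp only [hxk, ← mul_sum] at hl
    have h2 : (e none : ℝ) ≠ 0 := by exact_mod_cast hpos.ne'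
    rw [Rat.cast_mul, mul_comm] at hl
    exact mul_right_cancel₀ h2 hl
  obtain ⟨d, hd1, hd2, hd3⟩ := hg x hG hs (fun hP => hn ⟨x, hP, hB⟩)
  have hD : ∀ (u : ℚ) (v : ι → ℚ), qq u v ⬝ᵥ qq 0 d = d ⬝ᵥ v := fun u v => by
    rw [qq_dot, dotProduct_comm]
    simp [qq]
  have hT : ∀ j, x ⬝ᵥ Aq a j = 1 → d ⬝ᵥ Aq a j = 0 := fun j hj =>
    hd1 (Sum.inl j) (inl_mem_tg.2 (mem_Tw.2 hj))
  refine ⟨qq 0 d, ?_, ?_, ?_⟩
  · rintro (_ | k) hk
    · rfl
    · rw [hxk] at hk
      have h2 := hd1 (Sum.inr k) (inr_mem_tg.2 ((mul_eq_zero.1 hk).resolve_left hpos.ne'))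
      simpa [vG, qq] using h2
  · rintro ((k | k) | (j | j)) hj
    · by_cases hk : (idx k : ℕ) = 0
      · simp only [lam, hk, Sum.elim_inl, if_true, zero_dotProduct]
      · simp only [lam, Sum.elim_inl, hk, if_false, hA, hD, dotProduct_single] at hj ⊢
        have h2 := (mul_eq_zero.1 hj).resolve_left hpos.ne'
        have h3 := (idx k).2
        rw [hd2 k (idx k - 1) (by omega) (by linarith), zero_mul]
    · by_cases hk : (idx k : ℕ) = J + 1
      · simp [lam, hk]
      · simp only [lam, Sum.elim_inl, Sum.elim_inr, hk, if_false, hA, hD, dotProduct_neg,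
          dotProduct_single] at hj ⊢
        have h2 := (mul_eq_zero.1 hj).resolve_left hpos.ne'
        have h3 := (idx k).2
        rw [hd2 k (idx k) (by omega) (by linarith), zero_mul, neg_zero]
    · simp only [lam, Sum.elim_inl, Sum.elim_inr, hA, hD] at hj ⊢
      have h2 := (mul_eq_zero.1 hj).resolve_left hpos.ne'
      exact hT j (by linarith)
    · by_cases hk : (τ j : ℕ) = 0
      · simp only [lam, hk, Sum.elim_inr, if_true, zero_dotProduct]
      · simp only [lam, Sum.elim_inr, hk, if_false, hA, hD, dotProduct_neg] at hj ⊢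
        have h2 := (mul_eq_zero.1 hj).resolve_left hpos.ne'
        rw [hT j (by linarith), neg_zero]
  · have h2 : qq 0 d none = 0 := rfl
    rw [h2, Rat.cast_zero, mul_zero, Ne, Rat.cast_eq_zero]
    exact hd3

end BoxAux

open BoxAux

theorem geo (h : GenStmt) : GeoStmt := by
  intro ι κ _ _ _ _ a l hh J hpos
  classical
  have hc : ∀ t : Finset (κ ⊕ ι) × (ι → Option (Fin (J + 1))),
      ∃ (γ : κ ⊕ ι → ℚ) (β : ι → ℚ), (∃ γ' β', Rep a t γ' β') → Rep a t γ β := fun t => by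
    by_cases ht : ∃ γ' β', Rep a t γ' β'
    · obtain ⟨γ, β, h1⟩ := ht
      exact ⟨γ, β, fun _ => h1⟩
    · exact ⟨0, 0, fun h1 => absurd h1 ht⟩
  choose γ β hγ using hc
  obtain ⟨o, ho, -, hne⟩ := h ι (Finset (κ ⊕ ι) × (ι → Option (Fin (J + 1)))) univ β
    (fun t => l - ((∑ j ∈ t.1, γ t j * bG κ ι j +
      ∑ k, β t k * ((t.2 k).elim 0 (fun j => ((j : ℕ) : ℚ)) * hh) : ℚ) : ℝ)) hh hpos
  refine ⟨o, fun k => ho k (mem_univ k), fun x hx hl hP => ?_⟩
  obtain ⟨g, hg1, hg2⟩ : ∃ g : ι → Option (Fin (J + 1)),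
      (∀ k j, g k = some j → x k = gl hh o k j) ∧
      ∀ k, g k = none → ∀ j ≤ J, x k ≠ gl hh o k j := by
    have : ∀ k, ∃ t : Option (Fin (J + 1)), (∀ j, t = some j → x k = gl hh o k j) ∧
        (t = none → ∀ j ≤ J, x k ≠ gl hh o k j) := fun k => by
      by_cases hk : ∃ j ≤ J, x k = gl hh o k j
      · obtain ⟨j, h1, h2⟩ := hk
        refine ⟨some ⟨j, by omega⟩, fun j' hj' => ?_, fun h3 => by simp at h3⟩
        rw [← Option.some.inj hj']
        exact h2
      · push Not at hk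
        exact ⟨none, fun j hj => by simp at hj, fun _ => hk⟩
    choose g hg using this
    exact ⟨g, fun k => (hg k).1, fun k => (hg k).2⟩
  rcases span_dot (Sum.elim (vG a) (fun k => Pi.single k 1) : (κ ⊕ ι) ⊕ ι → ι → ℚ)
    ((tg a x).disjSum (univ.filter (fun k => g k ≠ none))) (fun _ => 1) with ⟨d, h1, h2⟩ | ⟨s, hs⟩
  · refine ⟨d, fun j hj => h2 (Sum.inl j) (inl_mem_disjSum.2 hj), fun k j hj hk => ?_, ?_⟩
    · have := h2 (Sum.inr k) (inr_mem_disjSum.2 (mem_filter.2
        ⟨mem_univ k, fun h3 => hg2 k h3 j hj hk⟩))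
      simpa using this
    · simpa [dotProduct] using h1
  exfalso
  have hR : Rep a (tg a x, g) (γ (tg a x, g)) (β (tg a x, g)) := by
    refine hγ _ ⟨fun j => s (Sum.inl j), fun k => if g k ≠ none then s (Sum.inr k) else 0,
      fun k hk => by simp at hk; simp [hk], ?_⟩
    rw [hs, sum_disjSum]
    congr 1
    ext k
    simp [Pi.single_apply]
  have hx1 := hR.pair (x := x) (fun j hj => mem_Tt.1 hj)
  refine hne (tg a x, g) ?_ ?_
  · by_contra h0
    push Not at h0
    have hβ : β (tg a x, g) = 0 := funext (fun k => h0 k (mem_univ k))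
    refine hP ⟨hx, fun w _ hw => ?_⟩
    rw [← hl, hx1, hR.pair (x := w) (fun j hj => mem_Tt.1 (hw hj)), hβ]
    simp
  · rw [← hl, hx1, ← Rat.cast_sub, Rat.cast_inj, add_sub_add_left_eq_sub, dotProduct, dotProduct,
      ← sum_sub_distrib]
    refine sum_congr rfl (fun k _ => ?_)
    cases hk : g k with
    | none => simp [hR.1 k hk]
    | some j =>
      rw [hg1 k j hk]
      simp only [gl, hk, Option.elim]
      ring

theorem box (h : RatStmt) : BoxStmt := by
  intro ι κ _ _ _ _ p hp a c l hh o J M hM hg idx hn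
  classical
  have hp1 : 1 < p := hp.out.one_lt
  have h1 := Good.sum (p := p) (l := l) (univ : Finset (κ → Fin (M + 1))) (fun τ _ =>
    (h ι _ p l (lam a hh o idx τ) (bet τ) (str κ idx) hp1 (rat_hyp hg hn τ)).const_mul
      (EB p a c ∅ (fun j => ((τ j : ℕ) : ℤ))))
  convert h1 using 2 with θ
  have hsum : ∀ (q : (ι → ℕ) → Prop) [DecidablePred q],
      Summable (fun L : ι → ℕ => if q L then ((p : ℂ)⁻¹) ^ (∑ k, L k) else 0) := by
    intro q _
    have hr : (1 : ℝ) < p := by exact_mod_cast hp1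
    refine Summable.of_norm_bounded (summable_geom (r := (p : ℝ)⁻¹) (by positivity)
      (inv_lt_one_of_one_lt₀ hr)) (fun L => ?_)
    split_ifs
    · simp
    · simp
  simp only [← tsum_mul_left]
  rw [← Summable.tsum_finsetSum (fun τ _ => (hsum _).mul_left _)]
  refine tsum_congr (fun L => ?_)
  simp only [cond_iff]
  by_cases hC : InCell hh o idx θ L
  swap
  · simp [hC]
  simp only [hC, if_true, true_and]
  by_cases hz : ∀ j, zz a θ L j ≤ M
  · rw [sum_eq_single (fun j => ⟨(zz a θ L j).toNat, by have := hz j; omega⟩)]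
    · rw [if_pos (fun _ => rfl), mul_comm, EB_toNat]
    · intro τ _ hτ
      rw [if_neg (fun h2 => hτ (funext (fun j => Fin.ext (h2 j).symm))), mul_zero]
    · intro h2
      exact absurd (mem_univ _) h2
  · push Not at hz
    obtain ⟨j, hj⟩ := hz
    rw [hM θ L j hj, mul_zero]
    refine (sum_eq_zero (fun τ _ => ?_)).symm
    rw [if_neg (fun h2 => ?_), mul_zero]
    have h3 := h2 j
    have h4 := (τ j).2
    omega

end Pool.Agent.MP_5d9b3c_ag.H48N
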