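import Pool.Agent.MP_5d9b3c_ag.H48N.BasicP

/-!
The certificate of the linear program of a face (strict complementary slackness).
-/

namespace Pool.Agent.MP_5d9b3c_ag.H48N

open Finset

namespace CertAux

/-- Strict complementary slackness. -/
theorem strict (h : LPStmt) {ι α : Type} [Fintype ι] [Fintype α] (v : α → ι → ℚ) (β : α → ℚ)
    (hne : ∃ x, Feas v β x) (p : ι → ℚ) (hp : Cone v univ p) :
    ∃ x, Feas v β x ∧ ∃ s : α → ℚ, (∀ j, 0 < s j) ∧ p = ∑ j ∈ Tt v β x, s j • v j := by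
  classical
  obtain ⟨x0, h0, -, h1⟩ := h ι α v β hne p hp
  obtain ⟨x, ⟨hx, hopt⟩, hmin⟩ := (InvImage.wf (fun x => #(Tt v β x)) wellFounded_lt).has_min
    {x | Feas v β x ∧ ∀ y, Feas v β y → x ⬝ᵥ p ≤ y ⬝ᵥ p} ⟨x0, h0, fun y hy => h1.le_of_feas hy⟩
  refine ⟨x, hx, ?_⟩
  rcases farkas_dot (fun o : Option α => o.elim (-p) v) (insertNone (Tt v β x))
    (p - ∑ j ∈ Tt v β x, v j) with ⟨d, h2, h3⟩ | ⟨s, hs, h2⟩
  · exfalso
    have h4 : d ⬝ᵥ p ≤ 0 := by simpa using h3 none (by simp)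
    have h5 : ∀ j ∈ Tt v β x, 0 ≤ d ⬝ᵥ v j := fun j hj => h3 (some j) (by simpa using hj)
    obtain ⟨ε, hε, h6⟩ := H48.small (univ \ Tt v β x) (fun j => x ⬝ᵥ v j - β j)
      (fun j => d ⬝ᵥ v j) (fun j hj => by
        have : x ⬝ᵥ v j ≠ β j := fun e => (mem_sdiff.1 hj).2 (mem_Tt.2 e)
        exact sub_pos.2 (lt_of_le_of_ne (hx j) this.symm))
    have e : ∀ y, (x + ε • d) ⬝ᵥ y = x ⬝ᵥ y + ε * (d ⬝ᵥ y) := fun y => by
      rw [add_dotProduct, smul_dotProduct, smul_eq_mul]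
    have hf : Feas v β (x + ε • d) := fun j => by
      rw [e]
      by_cases hj : j ∈ Tt v β x
      · have := mul_nonneg hε.le (h5 j hj)
        linarith [hx j]
      · have := h6 j (by simpa using hj)
        linarith
    have h7 : 0 ≤ d ⬝ᵥ p := by
      have := hopt _ hf
      rw [e] at this
      exact nonneg_of_mul_nonneg_right (by linarith) hε |>.trans le_rfl
    rw [dotProduct_sub, dotProduct_sum] at h2
    obtain ⟨j0, hj0, h8⟩ : ∃ j ∈ Tt v β x, 0 < d ⬝ᵥ v j := by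
      by_contra hc
      push Not at hc
      have := sum_nonpos hc
      linarith
    refine hmin (x + ε • d) ⟨hf, fun y hy => ?_⟩ (card_lt_card ⟨fun j hj => ?_, fun hsub => ?_⟩)
    · have := hopt y hy
      rw [e, le_antisymm h4 h7]
      linarith
    · by_contra hc
      have := h6 j (by simpa using hc)
      rw [mem_Tt, e] at hj
      linarith
    · have h9 := hsub hj0
      rw [mem_Tt, e, mem_Tt.1 hj0] at h9
      have := mul_pos hε h8
      linarith
  · rw [sum_insertNone] at h2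
    have hl : 0 < 1 + s none := by linarith [hs none]
    refine ⟨fun j => (s (some j) + 1) / (1 + s none), fun j => by
      have := hs (some j)
      positivity, ?_⟩
    ext i
    have h3 := congrFun h2 i
    simp only [Pi.sub_apply, Finset.sum_apply, Pi.add_apply, Pi.smul_apply, Option.elim_none,
      Option.elim_some, Pi.neg_apply, smul_eq_mul] at h3 ⊢
    have h4 : ∑ j ∈ Tt v β x, (s (some j) + 1) / (1 + s none) * v j i =
        (∑ j ∈ Tt v β x, s (some j) * v j i + ∑ j ∈ Tt v β x, v j i) / (1 + s none) := by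
      rw [← sum_add_distrib, sum_div]
      exact sum_congr rfl (fun j _ => by ring)
    rw [h4, eq_div_iff hl.ne']
    linarith

variable {ι κ : Type} [Fintype ι] [LinearOrder ι] [Fintype κ] [DecidableEq κ]

/-- The constraints: vectors. -/
def vC (a : κ → ι →₀ ℕ) (T : Finset κ) (F : Finset ι) : κ ⊕ ι ⊕ ι → ι → ℚ :=
  Sum.elim (fun j => if j ∈ T then -Aq a j else 0)
    (Sum.elim (fun k => Pi.single k 1) (fun k => if k ∈ F then 0 else -Pi.single k 1))

/-- The constraints: bounds. -/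
def bC (κ ι : Type) : κ ⊕ ι ⊕ ι → ℚ := Sum.elim (fun _ => -1) (fun _ => 0)

variable {a : κ → ι →₀ ℕ} {T : Finset κ} {F : Finset ι} {μ : ι → ℚ}

omit [Fintype κ] in
lemma feas_le (h : Feas (vC a T F) (bC κ ι) μ) {j : κ} (hj : j ∈ T) : μ ⬝ᵥ Aq a j ≤ 1 := by
  have := h (Sum.inl j)
  simp only [vC, bC, Sum.elim_inl, hj, if_true, dotProduct_neg] at this
  linarith

omit [Fintype κ] in
lemma feas_nonneg (h : Feas (vC a T F) (bC κ ι) μ) (i : ι) : 0 ≤ μ i := by
  simpa [vC, bC] using h (Sum.inr (Sum.inl i))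

omit [Fintype κ] in
lemma feas_off (h : Feas (vC a T F) (bC κ ι) μ) {i : ι} (hi : i ∉ F) : μ i = 0 := by
  have := h (Sum.inr (Sum.inr i))
  simp only [vC, bC, Sum.elim_inr, hi, if_false, dotProduct_neg, dotProduct_single] at this
  linarith [feas_nonneg h i]

lemma inl_tight {j : κ} : Sum.inl j ∈ Tt (vC a T F) (bC κ ι) μ ↔ j ∈ T ∧ μ ⬝ᵥ Aq a j = 1 := by
  by_cases hj : j ∈ T <;> simp [mem_Tt, vC, bC, hj]

lemma inr_tight {i : ι} : Sum.inr (Sum.inl i) ∈ Tt (vC a T F) (bC κ ι) μ ↔ μ i = 0 := by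
  simp [mem_Tt, vC, bC]

lemma cone_all (ho : Occ a T F) (p : ι → ℚ) : Cone (vC a T F) univ p := by
  rcases farkas_dot (vC a T F) univ p with ⟨d, h1, h2⟩ | h
  · exfalso
    have h3 : ∀ i, 0 ≤ d i := fun i => by simpa [vC] using h2 (Sum.inr (Sum.inl i)) (mem_univ _)
    have h4 : d = 0 := by
      ext i
      refine le_antisymm ?_ (h3 i)
      by_cases hi : i ∈ F
      · obtain ⟨j, hj, h0⟩ := ho i hi
        have h5 : d ⬝ᵥ Aq a j ≤ 0 := by simpa [vC, hj] using h2 (Sum.inl j) (mem_univ _)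
        have h6 : d i * Aq a j i ≤ d ⬝ᵥ Aq a j :=
          single_le_sum (f := fun k => d k * Aq a j k)
            (fun k _ => mul_nonneg (h3 k) (Nat.cast_nonneg _)) (mem_univ i)
        have h7 : 0 < Aq a j i := by
          simp only [Aq]
          exact_mod_cast Nat.pos_of_ne_zero h0
        exact nonpos_of_mul_nonpos_left (h6.trans h5) h7
      · simpa [vC, hi] using h2 (Sum.inr (Sum.inr i)) (mem_univ _)
    simp [h4] at h1
  · exact h

/-- A coordinate of a combination of the tight constraints. -/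
lemma coord (s : κ ⊕ ι ⊕ ι → ℚ) {i : ι} (hi : i ∈ F) :
    (∑ j ∈ Tt (vC a T F) (bC κ ι) μ, s j • vC a T F j) i =
      -(∑ j ∈ T, (if μ ⬝ᵥ Aq a j = 1 then s (Sum.inl j) else 0) * a j i) +
        if μ i = 0 then s (Sum.inr (Sum.inl i)) else 0 := by
  have e1 : ∑ j, (if Sum.inl j ∈ Tt (vC a T F) (bC κ ι) μ then
      s (Sum.inl j) * vC a T F (Sum.inl j) i else 0) =
      -(∑ j ∈ T, (if μ ⬝ᵥ Aq a j = 1 then s (Sum.inl j) else 0) * a j i) := by
    rw [← sum_neg_distrib, ← sum_subset (subset_univ T) (fun j _ hj => by simp [inl_tight, hj])]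
    refine sum_congr rfl (fun j hj => ?_)
    simp only [inl_tight]
    by_cases h1 : μ ⬝ᵥ Aq a j = 1 <;> simp [hj, h1, vC, Aq]
  have e2 : ∑ k, (if Sum.inr (Sum.inl k) ∈ Tt (vC a T F) (bC κ ι) μ then
      s (Sum.inr (Sum.inl k)) * vC a T F (Sum.inr (Sum.inl k)) i else 0) =
      if μ i = 0 then s (Sum.inr (Sum.inl i)) else 0 := by
    rw [sum_eq_single i (fun k _ hk => by simp [vC, hk.symm]) (by simp)]
    simp only [inr_tight]
    by_cases h1 : μ i = 0 <;> simp [h1, vC]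
  have e3 : ∑ k, (if Sum.inr (Sum.inr k) ∈ Tt (vC a T F) (bC κ ι) μ then
      s (Sum.inr (Sum.inr k)) * vC a T F (Sum.inr (Sum.inr k)) i else 0) = 0 := by
    refine sum_eq_zero (fun k _ => ?_)
    by_cases hk : k ∈ F
    · simp [vC, hk]
    · have : i ≠ k := fun e => hk (e ▸ hi)
      simp [vC, hk, this]
  rw [Finset.sum_apply, ← univ_inter (Tt (vC a T F) (bC κ ι) μ), ← sum_ite_mem,
    Fintype.sum_sum_type, Fintype.sum_sum_type]
  simp only [Pi.smul_apply, smul_eq_mul]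
  rw [e1, e2, e3, add_zero]

end CertAux

open CertAux in
theorem cert (h : LPStmt) : CertStmt := by
  intro ι κ _ _ _ _ a T F ho
  classical
  have hm : ∀ S : Finset (κ ⊕ ι ⊕ ι), ∃ m : ι → ℚ,
      (∃ x, Feas (vC a T F) (bC κ ι) x ∧ Tt (vC a T F) (bC κ ι) x = S) →
      Feas (vC a T F) (bC κ ι) m ∧ Tt (vC a T F) (bC κ ι) m = S := fun S => by
    by_cases hS : ∃ x, Feas (vC a T F) (bC κ ι) x ∧ Tt (vC a T F) (bC κ ι) x = S
    · exact ⟨hS.choose, fun _ => hS.choose_spec⟩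
    · exact ⟨0, fun h => absurd h hS⟩
  choose m hm using hm
  obtain ⟨ε, hε, hs⟩ := H48.small (univ : Finset (Finset (κ ⊕ ι ⊕ ι) × Option ι))
    (fun t => t.2.elim (1 / 2) (fun i => if 0 < m t.1 i then m t.1 i else 1)) (fun _ => -(#T : ℚ))
    (fun t _ => by
      rcases t with ⟨S, _ | i⟩
      · norm_num
      · simp only [Option.elim_some]
        split_ifs with h1
        · exact h1
        · exact one_pos)
  obtain ⟨x, hx, s, hs0, hp⟩ := strict h (vC a T F) (bC κ ι)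
    ⟨0, by rintro (j | k | k) <;> simp [bC]⟩ (fun i => ε * ∑ j ∈ T, (a j i : ℚ) - 1)
    (cone_all ho _)
  obtain ⟨hμ, hT⟩ := hm _ ⟨x, hx, rfl⟩
  set S := Tt (vC a T F) (bC κ ι) x
  set μ := m S
  rw [← hT] at hp
  have ht : ∀ i ∈ F, ∑ j ∈ T, ((if μ ⬝ᵥ Aq a j = 1 then s (Sum.inl j) else 0) + ε) * a j i =
      1 + if μ i = 0 then s (Sum.inr (Sum.inl i)) else 0 := fun i hi => by
    have h1 := congrFun hp i
    rw [coord s hi, mul_sum] at h1
    simp only [add_mul, sum_add_distrib]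
    linarith
  have hν : ∑ j ∈ T, ((if μ ⬝ᵥ Aq a j = 1 then s (Sum.inl j) else 0) + ε) * (1 - μ ⬝ᵥ Aq a j) ≤
      ε * #T := by
    rw [mul_comm ε, ← nsmul_eq_mul]
    refine sum_le_card_nsmul _ _ _ (fun j hj => ?_)
    have h1 := dot_Aq_nonneg (a := a) (feas_nonneg hμ) j
    split_ifs with h2
    · rw [h2]
      simpa using hε.le
    · nlinarith
  refine ⟨fun j => (if μ ⬝ᵥ Aq a j = 1 then s (Sum.inl j) else 0) + ε, μ, fun j _ => ?_,
    fun i hi => ?_, feas_nonneg hμ, fun i hi => feas_off hμ hi, fun j hj => feas_le hμ hj,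
    fun i hi => ?_, ?_, fun i hi => ?_⟩
  · have := hs0 (Sum.inl j)
    split_ifs <;> linarith
  · rw [ht i hi]
    have := hs0 (Sum.inr (Sum.inl i))
    split_ifs <;> linarith
  · rw [ht i hi]
    have := hs0 (Sum.inr (Sum.inl i))
    have h2 := feas_nonneg hμ i
    split_ifs with h1
    · exact ⟨fun h3 => absurd h1 h3.ne', fun h3 => by linarith⟩
    · exact ⟨fun _ => add_zero _, fun _ => lt_of_le_of_ne h2 (Ne.symm h1)⟩
  · have := hs (S, none) (mem_univ _)
    simp only [Option.elim_none] at this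
    linarith
  · have := hs (S, some i) (mem_univ _)
    simp only [Option.elim_some] at this
    rw [if_pos hi] at this
    linarith

end Pool.Agent.MP_5d9b3c_ag.H48N
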