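import Pool.Agent.MP_5d9b3c_ag.H48N.BasicP

/-!
The integral over a valid block vanishes.
-/

namespace Pool.Agent.MP_5d9b3c_ag.H48N

open Finset Pool.Agent.MP_5d9b3c_ag.H22

namespace ColAux

lemma mean_eq_zero_of_tr {ι α : Type} [Fintype ι] [DecidableEq ι] {p : ℕ} [Fact p.Prime]
    {Φ : (ι → ℤ) → ℂ} (h : IsPer p Φ) (W : Finset α) (hW : W.Nonempty) (t : α → ι → ℤ)
    (h0 : ∀ x : ι → ℤ, ∑ w ∈ W, Φ (x + t w) = 0) : mean p Φ = 0 := by
  have h1 := mean_sum (p := p) W (Φ := fun w x => Φ (x + t w)) (fun w _ =>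
    h.comp (fun x => x + t w) (fun N x x' hx i => (hx i).add_right _))
  simp only [h0, mean_const] at h1
  rw [sum_congr rfl (fun w _ => mean_translate h (t w)), sum_const, nsmul_eq_mul] at h1
  have : (#W : ℂ) ≠ 0 := by exact_mod_cast hW.card_pos.ne'
  exact (mul_eq_zero.1 h1.symm).resolve_left this

variable {ι κ : Type} [Fintype ι] [LinearOrder ι] [Fintype κ] [DecidableEq κ]

/-- The translation vector. -/
def tr (B : Finset ι) (w : ι → ℕ) : Option ι → ℤ :=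
  fun o => o.elim 0 (fun i => if i ∈ B then (w i : ℤ) else 0)

/-- The point with the coordinates in `B` replaced by one. -/
def one (B : Finset ι) (x : Option ι → ℤ) : ι → ℤ := fun i => if i ∈ B then 1 else x (some i)

lemma prod_lin (B : Finset ι) (n : ι → ℕ) (hn : ∑ i ∈ B, n i ≤ 1) (y s : ι → ℤ) :
    ∏ i, (y i + if i ∈ B then s i else 0) ^ n i =
      ∏ i, y i ^ n i + (∑ i ∈ B, s i * n i) * ∏ i, (if i ∈ B then 1 else y i) ^ n i := by
  by_cases h : ∃ i ∈ B, n i ≠ 0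
  · obtain ⟨i, hi, h0⟩ := h
    have h1 : n i = 1 := by
      have := single_le_sum (f := n) (fun _ _ => Nat.zero_le _) hi
      omega
    have h2 : ∀ k ∈ B, k ≠ i → n k = 0 := by
      intro k hk hne
      have h3 : ∑ t ∈ {i, k}, n t ≤ ∑ t ∈ B, n t :=
        sum_le_sum_of_subset (insert_subset hi (singleton_subset_iff.2 hk))
      rw [sum_pair hne.symm] at h3
      omega
    have e1 : ∏ k ∈ univ.erase i, (y k + if k ∈ B then s k else 0) ^ n k =
        ∏ k ∈ univ.erase i, y k ^ n k := by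
      refine prod_congr rfl (fun k hk => ?_)
      split_ifs with hB
      · rw [h2 k hB (mem_erase.1 hk).1, pow_zero, pow_zero]
      · rw [add_zero]
    have e2 : ∏ k ∈ univ.erase i, (if k ∈ B then 1 else y k) ^ n k =
        ∏ k ∈ univ.erase i, y k ^ n k := by
      refine prod_congr rfl (fun k hk => ?_)
      split_ifs with hB
      · rw [h2 k hB (mem_erase.1 hk).1, pow_zero, pow_zero]
      · rfl
    rw [← mul_prod_erase _ _ (mem_univ i), ← mul_prod_erase _ _ (mem_univ i),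
      ← mul_prod_erase _ _ (mem_univ i), e1, e2,
      sum_eq_single i (fun k hk hne => by rw [h2 k hk hne, Nat.cast_zero, mul_zero])
        (fun h => absurd hi h), if_pos hi, if_pos hi, h1]
    simp only [pow_one, Nat.cast_one]
    ring
  · push Not at h
    rw [sum_eq_zero (fun i hi => by rw [h i hi, Nat.cast_zero, mul_zero]), zero_mul, add_zero]
    refine prod_congr rfl (fun k _ => ?_)
    split_ifs with hB
    · rw [h k hB, pow_zero, pow_zero]
    · rw [add_zero]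

omit [Fintype κ] [DecidableEq κ] in
lemma mon_tr (a : κ → ι →₀ ℕ) (c : κ → ℤ) (B : Finset ι) (j : κ) (hj : ∑ i ∈ B, a j i ≤ 1)
    (x : Option ι → ℤ) (w : ι → ℕ) :
    mon (Aof a) c j (x + tr B w) = mon (Aof a) c j x +
      ∑ i ∈ B, (w i : ℤ) * (x none * (a j i * (c j * ∏ i', one B x i' ^ a j i'))) := by
  have h := prod_lin B (fun i => a j i) hj (fun i => x (some i)) (fun i => (w i : ℤ))
  simp only [mon, Fintype.prod_option, Aof, Option.elim_none, Option.elim_some, pow_one,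
    Pi.add_apply, tr, add_zero, one]
  rw [h, sum_mul, mul_add, mul_add, mul_sum, mul_sum]
  congr 1
  exact sum_congr rfl (fun i _ => by ring)

lemma ind_tr (p : ℕ) (B : Finset ι) (x : Option ι → ℤ) (w : ι → ℕ) :
    ind p (univ \ B.map Function.Embedding.some) (x + tr B w) =
      ind p (univ \ B.map Function.Embedding.some) x := by
  refine prod_congr rfl (fun o ho => ?_)
  have : tr B w o = 0 := by
    rcases o with _ | i
    · rfl
    · have hi : i ∉ B := fun h => (mem_sdiff.1 ho).2 (mem_map.2 ⟨i, h, rfl⟩)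
      simp [tr, hi]
  rw [Pi.add_apply, this, add_zero]

omit [DecidableEq κ] in
lemma core {p : ℕ} [hp : Fact p.Prime] {a : κ → ι →₀ ℕ} {c : κ → ℤ} {T : Finset κ}
    {B : Finset ι} (hl : Lin a T B) {M : ℕ}
    (hM : ∀ (L m : ι → ℕ) (k : κ → ℕ),
      (∀ i ∈ B, ∀ j ∈ T, a j i ≠ 0 → ∑ i', L i' * a j i' = m i + k j) →
      (∀ i ∈ B, ∃ j ∈ T, a j i ≠ 0 ∧ k j = 0) → ∀ x : ι → ℤ, (∀ i, ¬ (p : ℤ) ∣ x i) →
      ∃ i ∈ B, ¬ (p : ℤ) ^ M ∣ ∑ j ∈ T, a j i * ((p : ℤ) ^ k j * (c j * ∏ i', x i' ^ a j i')))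
    (θ : ℕ) (L : ι → ℕ) (h1 : ∀ j ∉ T, zz a θ L j ≤ 0)
    (h2 : ∀ i ∈ B, ∃ j ∈ T, a j i ≠ 0 ∧ (M : ℤ) ≤ zz a θ L j) : EB p a c B (zz a θ L) = 0 := by
  have hex : ∀ i, ∃ m : ℕ, i ∈ B → (∀ j ∈ T, a j i ≠ 0 → m ≤ ∑ i', L i' * a j i') ∧
      ∃ j ∈ T, a j i ≠ 0 ∧ ∑ i', L i' * a j i' = m := by
    intro i
    by_cases hi : i ∈ B
    · obtain ⟨j0, hj0, h0, _⟩ := h2 i hi
      obtain ⟨j, hj, hmin⟩ := exists_min_image (T.filter (fun j => a j i ≠ 0))
        (fun j => ∑ i', L i' * a j i') ⟨j0, mem_filter.2 ⟨hj0, h0⟩⟩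
      exact ⟨_, fun _ => ⟨fun j' hj' h' => hmin j' (mem_filter.2 ⟨hj', h'⟩), j,
        (mem_filter.1 hj).1, (mem_filter.1 hj).2, rfl⟩⟩
    · exact ⟨0, fun h => absurd h hi⟩
  choose m hm using hex
  obtain ⟨k, hk⟩ : ∃ k : κ → ℕ, ∀ i ∈ B, ∀ j ∈ T, a j i ≠ 0 →
      ∑ i', L i' * a j i' = m i + k j := by
    refine ⟨fun j => ∑ i', L i' * a j i' - ∑ i ∈ B, a j i * m i, fun i hi j hj h0 => ?_⟩
    have e : ∑ i ∈ B, a j i * m i = m i := by
      rw [sum_eq_single i (fun i' hi' hne => by rw [hl.eq_zero hj hi hi' hne h0, zero_mul])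
        (fun h => absurd hi h), hl.eq_one hj hi h0, one_mul]
    have := (hm i hi).1 j hj h0
    simp only [e]
    omega
  have hk0 : ∀ i ∈ B, ∃ j ∈ T, a j i ≠ 0 ∧ k j = 0 := by
    intro i hi
    obtain ⟨j, hj, h0, e⟩ := (hm i hi).2
    have := hk i hi j hj h0
    exact ⟨j, hj, h0, by omega⟩
  have hz : ∀ i ∈ B, ∀ j ∈ T, a j i ≠ 0 → zz a θ L j = (θ - m i : ℤ) - k j := by
    intro i hi j hj h0
    have : ∑ i', (L i' : ℤ) * a j i' = m i + k j := by exact_mod_cast hk i hi j hj h0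
    rw [zz, this]
    ring
  have hθ : ∀ i ∈ B, (M : ℤ) ≤ θ - m i := by
    intro i hi
    obtain ⟨j, hj, h0, h3⟩ := h2 i hi
    have := hz i hi j hj h0
    omega
  have hint : ∀ x, integrand p (Aof a) c (fun _ => chi p) univ
      (univ \ B.map Function.Embedding.some) (zz a θ L) x =
      ind p (univ \ B.map Function.Embedding.some) x *
        ∏ j ∈ T, chi p (zz a θ L j) (mon (Aof a) c j x) := by
    intro x
    rw [integrand, prod_subset (subset_univ T) (fun j _ hj => ?_)]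
    have h5 : (zz a θ L j).toNat = 0 := by
      have := h1 j hj
      omega
    exact (chi_eq_one_iff _ _).2 (by simp [h5])
  refine mean_eq_zero_of_tr (isPer_integrand (fun _ => ker_chi) _ _ _)
    (Fintype.piFinset (fun _ : ι => range (p ^ θ)))
    ⟨0, by simpa using fun _ => pow_pos hp.out.pos _⟩ (tr B) (fun x => ?_)
  simp only [hint, ind_tr]
  rw [← mul_sum]
  by_cases hx : ∀ o ∈ univ \ B.map Function.Embedding.some, ¬ (p : ℤ) ∣ x o
  · have hx0 : ¬ (p : ℤ) ∣ x none := hx none (by simp)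
    have hx1 : ∀ i, ¬ (p : ℤ) ∣ one B x i := by
      intro i
      unfold one
      split_ifs with hi
      · exact (Nat.prime_iff_prime_int.1 hp.out).not_dvd_one
      · exact hx (some i) (by simpa using hi)
    obtain ⟨i0, hi0, hd⟩ := hM L m k hk hk0 (one B x) hx1
    obtain ⟨g, hg⟩ : ∃ g : ι → ℤ, ∀ i, g i =
        ∑ j ∈ T, a j i * ((p : ℤ) ^ k j * (c j * ∏ i', one B x i' ^ a j i')) := ⟨_, fun _ => rfl⟩
    have e1 : ∀ w : ι → ℕ, ∏ j ∈ T, chi p (zz a θ L j) (mon (Aof a) c j (x + tr B w)) =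
        (∏ j ∈ T, chi p (zz a θ L j) (mon (Aof a) c j x)) *
          ∏ i, if i ∈ B then chi p (θ - m i) (w i * (x none * g i)) else 1 := by
      intro w
      rw [prod_congr rfl (fun j hj => by rw [mon_tr a c B j (hl j hj), chi_add, chi_sum]),
        prod_mul_distrib, prod_comm, prod_ite_mem, univ_inter]
      congr 1
      refine prod_congr rfl (fun i hi => ?_)
      rw [hg, mul_sum, mul_sum, chi_sum]
      refine prod_congr rfl (fun j hj => ?_)
      by_cases h0 : a j i = 0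
      · simp [h0, chi_zero]
      · rw [hz i hi j hj h0, ← ker_chi.shift_pow]
        congr 1
        ring
    simp only [e1]
    rw [← mul_sum, ← prod_univ_sum (fun _ => range (p ^ θ))
      (fun i (w : ℕ) => if i ∈ B then chi p (θ - m i) (w * (x none * g i)) else 1),
      prod_eq_zero (mem_univ i0), mul_zero, mul_zero]
    simp only [if_pos hi0]
    rw [geom (by omega), DD_unit _ _ hx0, DD, if_neg, mul_zero]
    have := hθ i0 hi0
    exact fun h => hd (hg i0 ▸ (pow_dvd_pow _ (by omega)).trans h)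
  · push Not at hx
    obtain ⟨o, ho, h⟩ := hx
    rw [ind, prod_eq_zero ho (by simp [h]), zero_mul]

end ColAux

theorem col (h : UnsStmt) : ColStmt := by
  intro ι κ _ _ _ _ p _ a c
  have hex : ∀ t : Finset κ × Finset ι × Finset ι, ∃ M : ℕ,
      TND a (fun j => (c j : ℂ)) t.1 t.2.1 → t.2.2 ⊆ t.2.1 → Lin a t.1 t.2.2 → Occ a t.1 t.2.2 →
      ¬ Solv a (fun j => (c j : ℂ)) t.1 t.2.2 → ∀ (L m : ι → ℕ) (k : κ → ℕ),
      (∀ i ∈ t.2.2, ∀ j ∈ t.1, a j i ≠ 0 → ∑ i', L i' * a j i' = m i + k j) →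
      (∀ i ∈ t.2.2, ∃ j ∈ t.1, a j i ≠ 0 ∧ k j = 0) → ∀ x : ι → ℤ, (∀ i, ¬ (p : ℤ) ∣ x i) →
      ∃ i ∈ t.2.2, ¬ (p : ℤ) ^ M ∣
        ∑ j ∈ t.1, a j i * ((p : ℤ) ^ k j * (c j * ∏ i', x i' ^ a j i')) := by
    rintro ⟨T, F, B⟩
    by_cases hh : TND a (fun j => (c j : ℂ)) T F ∧ B ⊆ F ∧ Lin a T B ∧ Occ a T B ∧
        ¬ Solv a (fun j => (c j : ℂ)) T B
    · obtain ⟨M, hM⟩ := h ι κ p a c T F B hh.1 hh.2.1 hh.2.2.1 hh.2.2.2.1 hh.2.2.2.2
      exact ⟨M, fun _ _ _ _ _ => hM⟩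
    · exact ⟨0, fun h1 h2 h3 h4 h5 => absurd ⟨h1, h2, h3, h4, h5⟩ hh⟩
  choose M hM using hex
  refine ⟨∑ t, M t, fun T F B h1 h2 h3 h4 θ L h5 h6 => ?_⟩
  have hle : M (T, F, B) ≤ ∑ t, M t :=
    single_le_sum (f := M) (fun _ _ => Nat.zero_le _) (mem_univ _)
  have hocc : Occ a T B := fun i hi => by
    obtain ⟨j, hj, h0, _⟩ := h6 i hi
    exact ⟨j, hj, h0⟩
  refine ColAux.core h3 (hM (T, F, B) h1 h2 h3 hocc h4) θ L h5 (fun i hi => ?_)
  obtain ⟨j, hj, h0, h7⟩ := h6 i hi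
  exact ⟨j, hj, h0, le_trans (by exact_mod_cast hle) h7⟩

end Pool.Agent.MP_5d9b3c_ag.H48N
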