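import Pool.Agent.MP_5d9b3c_ag.H48N.BasicP

/-!
The columns of a grid.
-/

namespace Pool.Agent.MP_5d9b3c_ag.H48N

open Finset

namespace ColsAux

variable {ι κ : Type} [Fintype ι] [LinearOrder ι] [Fintype κ] [DecidableEq κ]
  {a : κ → ι →₀ ℕ} {c : κ → ℂ} {l : ℝ} {ν ρ : ℚ} {V : (ι → ℚ) → Finset ι}
  {σ : (ι → ℚ) → ι → ℚ}

/-- One side of a box. -/
def Iv (h : ℚ) (o : ι → ℚ) (J : ℕ) (k : ι) (m : Fin (J + 2)) (s : ℚ) : Prop :=
  0 ≤ s ∧ ((m : ℕ) = 0 ∨ gl h o k (m - 1) ≤ s) ∧ ((m : ℕ) = J + 1 ∨ s ≤ gl h o k m)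

/-- A witness for a column. -/
def Wit (a : κ → ι →₀ ℕ) (l : ℝ) (V : (ι → ℚ) → Finset ι) (δ h : ℚ) (o : ι → ℚ) (J : ℕ)
    (B : Finset ι) (idx : ι → Fin (J + 2)) (x : ι → ℚ) : Prop :=
  InP a l x ∧ V x ⊆ B ∧ (∀ k ∈ B, ∃ x', InP a l x' ∧ Near (#B * δ) x x' ∧ k ∈ V x') ∧
    ∀ k ∉ B, ∀ s, Iv h o J k (idx k) s → |s - x k| ≤ h

omit [Fintype ι] [LinearOrder ι] in
lemma near_mono {r r' : ℚ} {x y : ι → ℚ} (h : Near r x y) (hr : r ≤ r') : Near r' x y :=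
  fun k => (h k).trans hr

variable {δ h : ℚ} {o : ι → ℚ} {J : ℕ} {B : Finset ι} {idx : ι → Fin (J + 2)} {x x0 : ι → ℚ}

omit [DecidableEq κ] in
lemma Wit.near (hw : Wit a l V δ h o J B idx x) (hδ : 0 ≤ δ) (hρ : Fintype.card ι * δ ≤ ρ) :
    ∀ k ∈ B, ∃ x', InP a l x' ∧ Near ρ x x' ∧ k ∈ V x' := by
  intro k hk
  obtain ⟨x', h1, h2, h3⟩ := hw.2.2.1 k hk
  refine ⟨x', h1, near_mono h2 (le_trans ?_ hρ), h3⟩
  have : (#B : ℚ) ≤ Fintype.card ι := by exact_mod_cast card_le_univ B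
  exact mul_le_mul_of_nonneg_right this hδ

omit [DecidableEq κ] in
lemma Wit.lin (hS : Sel a c l ν ρ V σ) (hw : Wit a l V δ h o J B idx x) (hδ : 0 ≤ δ)
    (hρ : Fintype.card ι * δ ≤ ρ) : Lin a (Tw a (σ x)) B := by
  refine lin_of_pairs (fun j hj i hi => ?_) (fun j hj i hi k hk h1 h2 => ?_)
  · obtain ⟨x', h1, h2, h3⟩ := hw.near hδ hρ i hi
    have h4 := hS.lin x x' x' hw.1 h1 h1 h2 h2
    by_cases h0 : a j i = 0
    · omega
    · exact (h4.eq_one hj (mem_union_left _ h3) h0).le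
  · obtain ⟨x', h3, h4, h5⟩ := hw.near hδ hρ i hi
    obtain ⟨x'', h6, h7, h8⟩ := hw.near hδ hρ k hk
    have h9 := hS.lin x x' x'' hw.1 h3 h6 h4 h7
    by_contra hne
    exact h2 (h9.eq_zero hj (mem_union_left _ h5) (mem_union_right _ h8) (Ne.symm hne) h1)

omit [DecidableEq κ] in
lemma Wit.lower (hS : Sel a c l ν ρ V σ) (hw : Wit a l V δ h o J B idx x) (hδ : 0 ≤ δ)
    (hρ : Fintype.card ι * δ ≤ ρ) (hh : 0 ≤ h) {C : ℚ} (hC1 : 1 ≤ C)
    (hC : ∀ j, ∑ i, (a j i : ℚ) ≤ C) (h0 : InP a l x0) (hb : InBox h o idx x0) (k : ι) :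
    -(C * h) ≤ x0 k - x k := by
  have hoff : ∀ i ∉ B, |x0 i - x i| ≤ h := fun i hi => hw.2.2.2 i hi _ (hb i)
  have hCh : h ≤ C * h := le_mul_of_one_le_left hh hC1
  by_cases hk : k ∈ B
  swap
  · have := (abs_le.1 (hoff k hk)).1
    linarith
  rcases ((inG_iff.1 hw.1.1).2 k).eq_or_lt with hx | hx
  · have := (hb k).1
    linarith
  obtain ⟨j, hj, hjk⟩ := hw.1.occ k (mem_Fw.2 hx)
  have hj' : j ∈ Tw a (σ x) := inl_mem_tg.1 (hS.tight x hw.1 (Sum.inl j) (by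
    have h1 := mem_Tw.1 hj
    have h2 := hS.nupos
    simp only [vG, bG, Sum.elim_inl]
    linarith))
  have hl := hw.lin hS hδ hρ
  have h1 := hl.eq_one hj' hk hjk
  have h2 : ∑ i, (x0 i - x i) * (a j i : ℚ) = x0 ⬝ᵥ Aq a j - x ⬝ᵥ Aq a j := by
    simp only [dotProduct, Aq, sub_mul, sum_sub_distrib]
  have h3 : ∀ i, (x0 i - x i) * (a j i : ℚ) ≤
      (if i = k then x0 k - x k else 0) + h * (a j i : ℚ) := by
    intro i
    have h4 : (0 : ℚ) ≤ a j i := Nat.cast_nonneg _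
    by_cases hik : i = k
    · subst hik
      rw [if_pos rfl, h1]
      push_cast
      linarith
    · rw [if_neg hik, zero_add]
      by_cases hi : i ∈ B
      · rw [hl.eq_zero hj' hk hi hik hjk]
        simp
      · exact mul_le_mul_of_nonneg_right (abs_le.1 (hoff i hi)).2 h4
  have h4 := sum_le_sum (s := univ) (fun i _ => h3 i)
  rw [h2, sum_add_distrib, sum_ite_eq' univ k, if_pos (mem_univ k), ← mul_sum, mem_Tw.1 hj] at h4
  have h5 := (inG_iff.1 h0.1).1 j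
  have h6 := mul_le_mul_of_nonneg_left (hC j) hh
  linarith

omit [DecidableEq κ] in
lemma Wit.close (hS : Sel a c l ν ρ V σ) (hw : Wit a l V δ h o J B idx x) (hδ : 0 ≤ δ)
    (hρ : Fintype.card ι * δ ≤ ρ) (hh : 0 ≤ h) {C : ℚ} (hC1 : 1 ≤ C)
    (hC : ∀ j, ∑ i, (a j i : ℚ) ≤ C) (h0 : InP a l x0) (hb : InBox h o idx x0) :
    Near (Fintype.card ι * (C * h)) x0 x := by
  intro k
  have h1 := hw.lower hS hδ hρ hh hC1 hC h0 hb
  have hCh : 0 ≤ C * h := mul_nonneg (by linarith) hh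
  have h2 : ∑ i, x0 i = ∑ i, x i := by
    have := h0.sum.trans hw.1.sum.symm
    exact_mod_cast this
  have h3 : x0 k - x k + C * h ≤ ∑ i, (x0 i - x i + C * h) :=
    single_le_sum (f := fun i => x0 i - x i + C * h) (fun i _ => by linarith [h1 i]) (mem_univ k)
  rw [sum_add_distrib, sum_sub_distrib, h2, sum_const, card_univ, nsmul_eq_mul] at h3
  have h4 : (1 : ℚ) ≤ Fintype.card ι := by
    exact_mod_cast Fintype.card_pos_iff.2 ⟨k⟩
  have h5 := le_mul_of_one_le_left hCh h4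
  exact abs_le.2 ⟨by linarith [h1 k], by linarith⟩

omit [DecidableEq κ] in
lemma wit_self (hδ : 0 ≤ δ) (ho : ∀ k, 0 < o k ∧ o k < h) (hJ : l < J * h) (h0 : InP a l x0)
    (hb : InBox h o idx x0) : Wit a l V δ h o J (V x0) idx x0 := by
  refine ⟨h0, subset_rfl, fun k hk => ⟨x0, h0, fun i => ?_, hk⟩, fun k _ s hs => ?_⟩
  · rw [sub_self, abs_zero]
    positivity
  · have h1 : x0 k ≤ ∑ i, x0 i :=
      single_le_sum (f := x0) (fun i _ => (hb i).1) (mem_univ k)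
    have h2 : ∑ i, x0 i < J * h := by
      have := h0.sum.trans_lt hJ
      exact_mod_cast this
    obtain ⟨h3, h4, h5⟩ := hb k
    obtain ⟨h6, h7, h8⟩ := hs
    obtain ⟨h9, h10⟩ := ho k
    have hne : (idx k : ℕ) ≠ J + 1 := by
      intro he
      rw [he] at h4
      simp only [gl, Nat.add_sub_cancel] at h4
      rcases h4 with h4 | h4
      · omega
      · linarith
    replace h5 := h5.resolve_left hne
    replace h8 := h8.resolve_left hne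
    rcases Nat.eq_zero_or_eq_succ_pred (idx k : ℕ) with hm | hm
    · rw [hm] at h5 h8
      simp only [gl, Nat.cast_zero, zero_mul, add_zero] at h5 h8
      exact abs_le.2 ⟨by linarith, by linarith⟩
    · obtain ⟨m, hm⟩ : ∃ m, (idx k : ℕ) = m + 1 := ⟨_, hm⟩
      rw [hm] at h4 h5 h7 h8
      replace h4 := h4.resolve_left (by omega)
      replace h7 := h7.resolve_left (by omega)
      simp only [gl, Nat.add_sub_cancel] at h4 h5 h7 h8
      push_cast at h5 h8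
      exact abs_le.2 ⟨by linarith, by linarith⟩

omit [DecidableEq κ] in
lemma Wit.union {B' : Finset ι} {x' : ι → ℚ} (hw : Wit a l V δ h o J B idx x)
    (hw' : Wit a l V δ h o J B' idx x') (hδ : 0 ≤ δ) (hn : Near δ x x') :
    ∃ y, Wit a l V δ h o J (B ∪ B') idx y := by
  by_cases hs : B ⊆ B'
  · exact ⟨x', by rwa [union_eq_right.2 hs]⟩
  have h1 : (#B : ℚ) ≤ #(B ∪ B') := by exact_mod_cast card_le_card subset_union_left
  have h2 : (#B' : ℚ) + 1 ≤ #(B ∪ B') := by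
    have : #B' < #(B ∪ B') := card_lt_card ⟨subset_union_right, fun h3 =>
      hs (subset_union_left.trans h3)⟩
    exact_mod_cast this
  refine ⟨x, hw.1, hw.2.1.trans subset_union_left, fun k hk => ?_, fun k hk =>
    hw.2.2.2 k (fun h3 => hk (mem_union_left _ h3))⟩
  rcases mem_union.1 hk with hk | hk
  · obtain ⟨y, h3, h4, h5⟩ := hw.2.2.1 k hk
    exact ⟨y, h3, near_mono h4 (mul_le_mul_of_nonneg_right h1 hδ), h5⟩
  · obtain ⟨y, h3, h4, h5⟩ := hw'.2.2.1 k hk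
    refine ⟨y, h3, fun i => ?_, h5⟩
    have h6 := abs_sub_le (x i) (x' i) (y i)
    have h7 := mul_le_mul_of_nonneg_right h2 hδ
    linarith [hn i, h4 i]

omit [DecidableEq κ] in
lemma Wit.congr {idx' : ι → Fin (J + 2)} (hw : Wit a l V δ h o J B idx x)
    (he : ∀ k ∉ B, idx k = idx' k) : Wit a l V δ h o J B idx' x :=
  ⟨hw.1, hw.2.1, hw.2.2.1, fun k hk => he k hk ▸ hw.2.2.2 k hk⟩

end ColsAux

open ColsAux in
theorem cols : ColsStmt := by
  classical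
  intro ι κ _ _ _ _ a c l ν ρ V σ hS r hr
  obtain ⟨C, hC1, hC⟩ : ∃ C : ℚ, 1 ≤ C ∧ ∀ j, ∑ i, (a j i : ℚ) ≤ C := by
    have h0 : ∀ j, (0 : ℚ) ≤ ∑ i, (a j i : ℚ) := fun j => sum_nonneg fun _ _ => Nat.cast_nonneg _
    refine ⟨1 + ∑ j, ∑ i, (a j i : ℚ), ?_, fun j => ?_⟩
    · linarith [sum_nonneg (s := univ) fun j _ => h0 j]
    · linarith [single_le_sum (f := fun j => ∑ i, (a j i : ℚ)) (fun j _ => h0 j) (mem_univ j)]
  set n : ℚ := (Fintype.card ι : ℚ) with hn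
  have hn0 : 0 ≤ n := Nat.cast_nonneg _
  have hD : 0 < 2 * n * n * C + 1 := by positivity
  have hρ0 := hS.rhopos
  obtain ⟨h, hh, hhr, hhρ⟩ : ∃ h : ℚ, 0 < h ∧ h ≤ r ∧ h * (2 * n * n * C + 1) ≤ ρ :=
    ⟨min r (ρ / (2 * n * n * C + 1)), lt_min hr (by positivity), min_le_left _ _,
      (le_div_iff₀ hD).1 (min_le_right _ _)⟩
  refine ⟨h, hh, fun o J ho hJ => ?_⟩
  set δ : ℚ := 2 * (n * (C * h)) with hδ
  have hδ0 : 0 ≤ δ := by positivity
  have hρ : n * δ ≤ ρ := by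
    have : n * δ = h * (2 * n * n * C) := by rw [hδ]; ring
    nlinarith
  refine ⟨fun B => {idx | (∃ x, Wit a l V δ h o J B idx x) ∧
    ∀ B', B ⊂ B' → ¬ ∃ x, Wit a l V δ h o J B' idx x}, ?_, ?_, ?_⟩
  · rintro B idx idx' he ⟨⟨x, hx⟩, h2⟩
    refine ⟨⟨x, hx.congr he⟩, ?_⟩
    rintro B' hB ⟨y, hy⟩
    exact h2 B' hB ⟨y, hy.congr fun k hk => (he k fun h3 => hk (hB.subset h3)).symm⟩
  · rintro B idx ⟨⟨x, hx⟩, -⟩
    refine ⟨x, hx.1, fun k hk => ?_, hx.lin hS hδ0 hρ, fun h1 => hS.valid x hx.1 (h1.anti hx.2.1),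
      fun w hw k hk => (hx.2.2.2 k hk _ (hw k)).trans hhr⟩
    obtain ⟨x', h1, h2, h3⟩ := hx.near hδ0 hρ k hk
    exact hS.sub x x' hx.1 h1 h2 h3
  · rintro idx ⟨x0, h0, hb⟩
    obtain ⟨B, hB, hmax⟩ := exists_max_image
      (univ.filter fun B : Finset ι => ∃ x, Wit a l V δ h o J B idx x) card
      ⟨V x0, mem_filter.2 ⟨mem_univ _, x0, wit_self hδ0 ho hJ h0 hb⟩⟩
    have hU : ∀ B₁ B₂ : Finset ι, (∃ x, Wit a l V δ h o J B₁ idx x) →
        (∃ x, Wit a l V δ h o J B₂ idx x) → ∃ y, Wit a l V δ h o J (B₁ ∪ B₂) idx y := by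
      rintro B₁ B₂ ⟨x, hx⟩ ⟨y, hy⟩
      refine hx.union hy hδ0 fun k => ?_
      have h1 := hx.close hS hδ0 hρ hh.le hC1 hC h0 hb k
      have h2 := hy.close hS hδ0 hρ hh.le hC1 hC h0 hb k
      have h3 := abs_sub_le (x k) (x0 k) (y k)
      rw [abs_sub_comm] at h1
      rw [← hn] at h1 h2
      linarith
    have hB' := (mem_filter.1 hB).2
    refine ⟨B, ⟨hB', fun B' h1 h2 => ?_⟩, ?_⟩
    · exact absurd (hmax B' (mem_filter.2 ⟨mem_univ _, h2⟩)) (not_le.2 (card_lt_card h1))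
    · rintro B' ⟨h1, h2⟩
      have h3 := hU B' B h1 hB'
      have h4 : B ⊆ B' := by
        by_contra h5
        exact h2 _ ⟨subset_union_left, fun h6 => h5 (subset_union_right.trans h6)⟩ h3
      exact (eq_of_subset_of_card_le h4 (hmax B' (mem_filter.2 ⟨mem_univ _, h1⟩))).symm

end Pool.Agent.MP_5d9b3c_ag.H48N
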