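import Pool.Agent.MP_5d9b3c_ag.H48N.BasicP

/-!
The block of a certificate contains a free block.
-/

namespace Pool.Agent.MP_5d9b3c_ag.H48N

open Finset Pool.Agent.MP_5d9b3c_ag.H22

namespace FreeAux

variable {ι κ : Type} [Fintype ι] [LinearOrder ι] [Fintype κ] [DecidableEq κ]
  {a : κ → ι →₀ ℕ} {c : κ → ℂ} {T : Finset κ} {F J Z A : Finset ι}

/-- Minimal valid sets. -/
def MinV (a : κ → ι →₀ ℕ) (c : κ → ℂ) (T : Finset κ) (J : Finset ι) : Prop :=
  ¬ Solv a c T J ∧ ∀ J' ⊆ J, #J' < #J → Solv a c T J'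

omit [LinearOrder ι] [Fintype κ] [DecidableEq κ] in
lemma exists_minV (h : ¬ Solv a c T J) : ∃ J' ⊆ J, MinV a c T J' := by
  classical
  obtain ⟨J', h1, h2⟩ := exists_min_image (J.powerset.filter (fun J' => ¬ Solv a c T J')) card
    ⟨J, mem_filter.2 ⟨mem_powerset_self _, h⟩⟩
  obtain ⟨h3, h4⟩ := mem_filter.1 h1
  refine ⟨J', mem_powerset.1 h3, h4, fun J'' h5 h6 => ?_⟩
  by_contra h7
  have := h2 J'' (mem_filter.2 ⟨mem_powerset.2 (h5.trans (mem_powerset.1 h3)), h7⟩)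
  omega

omit [Fintype ι] [LinearOrder ι] [Fintype κ] [DecidableEq κ] in
lemma MA_mono {A' : Finset ι} (h : A' ⊆ A) : MA a T A' ⊆ MA a T A := fun j hj => by
  obtain ⟨h1, i, h2, h3⟩ := mem_MA.1 hj
  exact mem_MA.2 ⟨h1, i, h h2, h3⟩

lemma cor (hl : LiftStmt) (hh : HallStmt) (hT : TND a c T F) (hJ : J ⊆ F) (hL : Lin a T J)
    (hO : Occ a T J) (hm : MinV a c T J) (hA : A ⊆ J) (col : κ → Option ι)
    (n : Option ι → ι → ℚ) (hn0 : ∀ β, ∀ k ∉ F, n β k = 0)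
    (hn : ∀ β ∈ (MA a T A).image col, ∀ j ∈ MA a T J,
      n β ⬝ᵥ Aq a j = if j ∈ MA a T A ∧ col j = β then 1 else 0) :
    #((MA a T A).image col) ≤ #A := by
  obtain ⟨A', h1, hmax⟩ := exists_max_image
    (A.powerset.filter (fun A' => #((MA a T A').image col) ≤ #A')) card
    ⟨∅, mem_filter.2 ⟨empty_mem_powerset _, by simp [MA]⟩⟩
  obtain ⟨h2, hP⟩ := mem_filter.1 h1
  have hA' : A' ⊆ A := mem_powerset.1 h2
  by_contra hcon
  have hne : (A \ A').Nonempty := by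
    rw [sdiff_nonempty]
    intro h
    exact hcon (Subset.antisymm hA' h ▸ hP)
  set P := (MA a T A').image col with hPd
  have hbig : ∀ A1 ⊆ A \ A', A1.Nonempty → #A1 + 1 ≤ #((MA a T A1).image col \ P) := by
    intro A1 h3 h4
    have hd : Disjoint A' A1 := disjoint_left.2 fun i hi hi' => (mem_sdiff.1 (h3 hi')).2 hi
    have h5 : ¬ #((MA a T (A' ∪ A1)).image col) ≤ #(A' ∪ A1) := fun h => by
      have := hmax (A' ∪ A1) (mem_filter.2 ⟨mem_powerset.2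
        (union_subset hA' (h3.trans sdiff_subset)), h⟩)
      rw [card_union_of_disjoint hd] at this
      have := h4.card_pos
      omega
    have h6 : (MA a T (A' ∪ A1)).image col ⊆ P ∪ ((MA a T A1).image col \ P) := by
      intro β hβ
      obtain ⟨j, hj, rfl⟩ := mem_image.1 hβ
      obtain ⟨h7, i, h8, h9⟩ := mem_MA.1 hj
      rw [union_sdiff_self_eq_union, mem_union]
      rcases mem_union.1 h8 with h | h
      · exact Or.inl (mem_image_of_mem _ (mem_MA.2 ⟨h7, i, h, h9⟩))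
      · exact Or.inr (mem_image_of_mem _ (mem_MA.2 ⟨h7, i, h, h9⟩))
    have h7 := (card_le_card h6).trans (card_union_le _ _)
    rw [card_union_of_disjoint hd] at h5
    omega
  set d : ι → ℚ := ∑ β ∈ P, n β - fun k => if k ∈ A' then (1 : ℚ) else 0 with hdd
  have hd0 : ∀ k ∉ F, 0 ≤ d k := by
    intro k hk
    have : k ∉ A' := fun h => hk (hJ (hA (hA' h)))
    simp [hdd, this, hn0 _ k hk]
  have hdot : ∀ j ∈ MA a T J, d ⬝ᵥ Aq a j =
      (if j ∈ MA a T A ∧ col j ∈ P then 1 else 0) - if j ∈ MA a T A' then 1 else 0 := by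
    intro j hj
    rw [hdd, sub_dotProduct, (hL.mono subset_rfl (hA'.trans hA)).ind_dot (mem_MA.1 hj).1,
      sum_dotProduct, sum_congr rfl fun β hβ =>
        hn β (image_subset_image (MA_mono hA') hβ) j hj]
    congr 1
    by_cases h3 : j ∈ MA a T A <;> simp [h3, hPd]
  have hin : ∀ j ∈ MA a T A', j ∈ MA a T A ∧ col j ∈ P := fun j hj =>
    ⟨MA_mono hA' hj, mem_image_of_mem _ hj⟩
  have hd1 : ∀ j ∈ MA a T J, 0 ≤ d ⬝ᵥ Aq a j := by
    intro j hj
    rw [hdot j hj]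
    by_cases h3 : j ∈ MA a T A'
    · rw [if_pos (hin j h3), if_pos h3, sub_self]
    · rw [if_neg h3]; split_ifs <;> norm_num
  set T2 := (MA a T J).filter (fun j => d ⬝ᵥ Aq a j = 0) with hT2
  have hmem : ∀ j, j ∈ T2 ↔ j ∈ MA a T J ∧ (j ∈ MA a T A ∧ col j ∈ P → j ∈ MA a T A') := by
    intro j
    rw [hT2, mem_filter]
    refine and_congr_right fun hj => ?_
    rw [hdot j hj]
    by_cases h3 : j ∈ MA a T A'
    · simp [h3, hin j h3]
    · by_cases h4 : j ∈ MA a T A ∧ col j ∈ P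
      · simp [h3, h4]
      · rw [if_neg h3, if_neg h4]; simp [h4]
  have hsub : T2 ⊆ T := fun j hj => (mem_MA.1 ((hmem j).1 hj).1).1
  have hoff : ∀ j ∈ T, ∀ i ∈ J \ (A \ A'), a j i ≠ 0 → j ∈ T2 := by
    intro j hj i hi h0
    obtain ⟨h3, h4⟩ := mem_sdiff.1 hi
    refine (hmem j).2 ⟨mem_MA.2 ⟨hj, i, h3, h0⟩, fun h5 => ?_⟩
    obtain ⟨-, i', h6, h7⟩ := mem_MA.1 h5.1
    have : i' = i := by
      by_contra h8
      exact h7 (hL.eq_zero hj h3 (hA h6) h8 h0)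
    subst this
    refine mem_MA.2 ⟨hj, i', ?_, h0⟩
    by_contra h8
    exact h4 (mem_sdiff.2 ⟨h6, h8⟩)
  have hcol : ∀ A1 ⊆ A \ A', (MA a T A1).image col \ P ⊆ (MA a T2 A1).image col := by
    intro A1 h3 β hβ
    obtain ⟨h4, h5⟩ := mem_sdiff.1 hβ
    obtain ⟨j, hj, rfl⟩ := mem_image.1 h4
    obtain ⟨h6, i, h7, h8⟩ := mem_MA.1 hj
    exact mem_image_of_mem _ (mem_MA.2 ⟨(hmem j).2
      ⟨mem_MA.2 ⟨h6, i, hA (mem_sdiff.1 (h3 h7)).1, h8⟩, fun h => absurd h.2 h5⟩, i, h7, h8⟩)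
  have hO2 : Occ a T2 J := by
    intro i hi
    by_cases h3 : i ∈ A \ A'
    · have h4 := singleton_subset_iff.2 h3
      have h5 := (hbig {i} h4 (singleton_nonempty i)).trans (card_le_card (hcol {i} h4))
      obtain ⟨β, hβ⟩ := card_pos.1 (lt_of_lt_of_le (Nat.succ_pos _) h5)
      obtain ⟨j, hj, -⟩ := mem_image.1 hβ
      obtain ⟨h6, i', h7, h8⟩ := mem_MA.1 hj
      exact ⟨j, h6, mem_singleton.1 h7 ▸ h8⟩
    · obtain ⟨j, hj, h0⟩ := hO i hi
      exact ⟨j, hoff j hj i (mem_sdiff.2 ⟨hi, h3⟩) h0, h0⟩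
  have hS2 : Solv a c T2 J := by
    refine hh ι κ a c T2 F J (A \ A') col n (hT.faceM hJ hL hd0 hd1) hJ (hL.mono hsub subset_rfl)
      hO2 (sdiff_subset.trans hA) hn0 (fun β hβ j hj => ?_)
      (fun A1 h3 h4 => (hbig A1 h3 h4).trans (card_le_card (hcol A1 h3))) ?_
    · obtain ⟨j0, hj0, rfl⟩ := mem_image.1 hβ
      obtain ⟨h3, i0, h4, h5⟩ := mem_MA.1 hj0
      obtain ⟨h6, h7⟩ := mem_sdiff.1 h4
      have h8 : j0 ∈ MA a T A := mem_MA.2 ⟨hsub h3, i0, h6, h5⟩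
      have h9 : col j0 ∉ P := fun h => by
        obtain ⟨-, i', h10, h11⟩ := mem_MA.1 (((hmem j0).1 h3).2 ⟨h8, h⟩)
        exact h11 (hL.eq_zero (hsub h3) (hA h6) (hA (hA' h10)) (fun e => h7 (e ▸ h10)) h5)
      have hjT := (mem_MA.1 hj).1
      rw [hn _ (mem_image_of_mem _ h8) j ((hmem j).1 hjT).1]
      refine if_congr (and_congr_left fun e => ⟨fun h => ?_, fun h => ?_⟩) rfl rfl
      · obtain ⟨h10, i, h11, h12⟩ := mem_MA.1 h
        refine mem_MA.2 ⟨hjT, i, mem_sdiff.2 ⟨h11, fun h13 => h9 ?_⟩, h12⟩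
        rw [← e]
        exact mem_image_of_mem _ (mem_MA.2 ⟨h10, i, h13, h12⟩)
      · obtain ⟨h10, i, h11, h12⟩ := mem_MA.1 h
        exact mem_MA.2 ⟨hsub h10, i, (mem_sdiff.1 h11).1, h12⟩
    · have e : MA a T2 (J \ (A \ A')) = MA a T (J \ (A \ A')) := by
        ext j
        simp only [mem_MA]
        exact ⟨fun h => ⟨hsub h.1, h.2⟩, fun ⟨h3, i, h4, h5⟩ => ⟨hoff j h3 i h4 h5, i, h4, h5⟩⟩
      refine (solv_congr e).2 (hm.2 _ sdiff_subset ?_)
      exact card_lt_card (sdiff_ssubset (sdiff_subset.trans hA) hne)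
  refine hm.1 (hl ι κ a c T F J hT hJ hL d hd0 hd1
    (hO2.mono (filter_subset_filter _ (filter_subset _ _)) subset_rfl) ((solv_congr ?_).1 hS2))
  ext j
  simp only [mem_MA, hT2, mem_filter]
  tauto

/-- The variables of `J \ Z` that share a monomial with `Z \ J`. -/
def adj (a : κ → ι →₀ ℕ) (T : Finset κ) (J Z : Finset ι) : Finset ι :=
  (J \ Z).filter (fun i => ∃ j ∈ T, a j i ≠ 0 ∧ ∃ b ∈ Z \ J, a j b ≠ 0)

omit [Fintype ι] [Fintype κ] [DecidableEq κ] in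
lemma adj_sub : adj a T J Z ⊆ J := (filter_subset _ _).trans sdiff_subset

omit [Fintype ι] [Fintype κ] [DecidableEq κ] in
lemma mem_MA_adj (hZ : Lin a T Z) {j : κ} (hj : j ∈ MA a T J) (h : j ∈ MA a T (adj a T Z J)) :
    j ∈ MA a T (adj a T J Z) := by
  obtain ⟨h1, i, h2, h3⟩ := mem_MA.1 hj
  obtain ⟨-, b, h4, h5⟩ := mem_MA.1 h
  have h6 := (mem_filter.1 h4).1
  obtain ⟨h7, h8⟩ := mem_sdiff.1 h6
  refine mem_MA.2 ⟨h1, i, mem_filter.2 ⟨mem_sdiff.2 ⟨h2, fun h9 => h3 ?_⟩, j, h1, h3, b, h6, h5⟩, h3⟩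
  exact hZ.eq_zero h1 h7 h9 (fun e => h8 (e ▸ h2)) h5

lemma cnt (hl : LiftStmt) (hh : HallStmt) (hT : TND a c T F) (hJ : J ⊆ F) (hZ : Z ⊆ F)
    (hL : Lin a T J) (hLZ : Lin a T Z) (hO : Occ a T F) (hm : MinV a c T J) :
    #(adj a T Z J) ≤ #(adj a T J Z) ∧
      ((∃ j ∈ MA a T (adj a T J Z), j ∉ MA a T (adj a T Z J)) →
        #(adj a T Z J) + 1 ≤ #(adj a T J Z)) := by
  classical
  set A := adj a T J Z with hAd
  set B := adj a T Z J with hBd
  have hBZ : B ⊆ Z := adj_sub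
  have hAJ : A ⊆ J := adj_sub
  set col : κ → Option ι := fun j => if h : ∃ b ∈ B, a j b ≠ 0 then some h.choose else none
    with hcol
  have c1 : ∀ j ∈ T, ∀ b, col j = some b ↔ b ∈ B ∧ a j b ≠ 0 := by
    intro j hj b
    by_cases h : ∃ b ∈ B, a j b ≠ 0
    · simp only [hcol, dif_pos h, Option.some.injEq]
      refine ⟨fun e => e ▸ h.choose_spec, fun h1 => ?_⟩
      by_contra h2
      exact h.choose_spec.2 (hLZ.eq_zero hj (hBZ h1.1) (hBZ h.choose_spec.1) h2 h1.2)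
    · simp only [hcol, dif_neg h]
      exact ⟨fun e => by simp at e, fun h1 => (h ⟨b, h1⟩).elim⟩
  have c2 : ∀ j ∈ T, col j = none ↔ j ∉ MA a T B := by
    intro j hj
    by_cases h : ∃ b ∈ B, a j b ≠ 0
    · simp only [hcol, dif_pos h]
      exact ⟨fun e => by simp at e, fun h1 => (h1 (mem_MA.2 ⟨hj, h⟩)).elim⟩
    · simp only [hcol, dif_neg h, true_iff]
      exact fun h1 => h (mem_MA.1 h1).2
  have key := cor hl hh hT hJ hL (hO.mono subset_rfl hJ) hm hAJ col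
    (fun β => β.elim ((fun k => if k ∈ A then (1 : ℚ) else 0) - fun k => if k ∈ B then 1 else 0)
      fun b k => if k ∈ B.filter (· = b) then 1 else 0)
    (fun β k hk => by
      have h1 : k ∉ A := fun h => hk (hJ (hAJ h))
      have h2 : k ∉ B := fun h => hk (hZ (hBZ h))
      cases β <;> simp [h1, h2])
    (fun β _ j hj => by
      have hjT := (mem_MA.1 hj).1
      cases β with
      | none =>
        simp only [Option.elim]
        rw [sub_dotProduct, (hL.mono subset_rfl hAJ).ind_dot hjT,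
          (hLZ.mono subset_rfl hBZ).ind_dot hjT]
        simp only [c2 j hjT]
        by_cases h1 : j ∈ MA a T B
        · have h2 : j ∈ MA a T A := mem_MA_adj hLZ hj h1
          simp [h1, h2]
        · simp [h1]
      | some b =>
        simp only [Option.elim]
        rw [(hLZ.mono subset_rfl ((filter_subset _ _).trans hBZ)).ind_dot hjT]
        refine if_congr (Iff.trans ⟨fun h => ?_, fun h => ?_⟩
          (and_congr_right fun _ => (c1 j hjT b).symm)) rfl rfl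
        · obtain ⟨-, i, h1, h2⟩ := mem_MA.1 h
          obtain ⟨h3, rfl⟩ := mem_filter.1 h1
          exact ⟨mem_MA_adj hLZ hj (mem_MA.2 ⟨hjT, i, h3, h2⟩), h3, h2⟩
        · exact mem_MA.2 ⟨hjT, b, mem_filter.2 ⟨h.2.1, rfl⟩, h.2.2⟩)
  have s1 : B.image some ⊆ (MA a T A).image col := by
    intro β hβ
    obtain ⟨b, hb, rfl⟩ := mem_image.1 hβ
    obtain ⟨-, j, h1, h2, i, h3, h4⟩ := mem_filter.1 hb
    exact mem_image.2 ⟨j, mem_MA_adj hLZ (mem_MA.2 ⟨h1, i, (mem_sdiff.1 h3).1, h4⟩)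
      (mem_MA.2 ⟨h1, b, hb, h2⟩), (c1 j h1 b).2 ⟨hb, h2⟩⟩
  have s2 : #(B.image some) = #B := card_image_of_injective _ (Option.some_injective ι)
  refine ⟨s2 ▸ (card_le_card s1).trans key, fun ⟨j, h1, h2⟩ => ?_⟩
  have s3 : insert none (B.image some) ⊆ (MA a T A).image col :=
    insert_subset (mem_image.2 ⟨j, h1, (c2 j (mem_MA.1 h1).1).2 h2⟩) s1
  have := (card_le_card s3).trans key
  rwa [card_insert_of_notMem (by simp), s2] at this

omit [Fintype κ] in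
lemma sum_t (hL : Lin a T A) (τ : κ → ℚ) :
    ∑ i ∈ A, ∑ j ∈ T, τ j * a j i = ∑ j ∈ T, τ j * if j ∈ MA a T A then 1 else 0 := by
  rw [sum_comm]
  refine sum_congr rfl fun j hj => ?_
  rw [← hL.ind_dot hj, ← mul_sum]
  simp [dotProduct, Aq]

end FreeAux

open FreeAux in
theorem free (hl : LiftStmt) (hh : HallStmt) : FreeStmt := by
  intro ι κ _ _ _ _ a c T F τ μ hT hO hC hv
  set ν := ∑ j ∈ T, τ j * (1 - μ ⬝ᵥ Aq a j) with hν
  have hhalf : ν < 1 / 2 := hC.half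
  have hmu : ∀ i ∈ LinSet a T τ μ, 1 - ν ≤ μ i := fun i hi => mem_LinSet.1 hi
  have hLF : LinSet a T τ μ ⊆ F := fun i hi => by
    by_contra h
    have := hmu i hi
    rw [hC.off i h] at this
    linarith
  have hdot : ∀ j, ∀ S : Finset ι, ∑ i ∈ S, μ i * a j i ≤ μ ⬝ᵥ Aq a j := fun j S =>
    sum_le_sum_of_subset_of_nonneg (subset_univ S)
      fun i _ _ => mul_nonneg (hC.nonneg i) (Nat.cast_nonneg _)
  have hLL : Lin a T (LinSet a T τ μ) := by
    intro j hj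
    by_contra h
    have h1 : (2 : ℚ) ≤ ∑ i ∈ LinSet a T τ μ, (a j i : ℚ) := by
      have : 2 ≤ ∑ i ∈ LinSet a T τ μ, a j i := by omega
      exact_mod_cast this
    have h2 : ∑ i ∈ LinSet a T τ μ, (1 - ν) * (a j i : ℚ) ≤ ∑ i ∈ LinSet a T τ μ, μ i * a j i :=
      sum_le_sum fun i hi => mul_le_mul_of_nonneg_right (hmu i hi) (Nat.cast_nonneg _)
    rw [← mul_sum] at h2
    have h3 := (hdot j (LinSet a T τ μ)).trans (hC.le j hj)
    nlinarith
  obtain ⟨Z, hZL, hZ⟩ := exists_minV hv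
  have hZF := hZL.trans hLF
  have hLZ : Lin a T Z := hLL.mono subset_rfl hZL
  refine ⟨Z, hZF, hLZ, hZ.1, fun J0 hJ0 hL0 hv0 hs => ?_⟩
  obtain ⟨J, hJJ, hJ⟩ := exists_minV hv0
  have hJF := hJJ.trans hJ0
  have hLJ : Lin a T J := hL0.mono subset_rfl hJJ
  refine hJ.1 (hs.anti fun k hk => mem_sdiff.2 ⟨hJJ hk, fun hN => ?_⟩)
  obtain ⟨hkZ, j0, hj0, hk0, z, hz, hz0⟩ := mem_Nb.1 hN
  have hkz : k ≠ z := fun e => hkZ (e ▸ hz)
  have hzJ : z ∉ J := fun h => hk0 (hLJ.eq_zero hj0 h hk hkz hz0)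
  have hkA : k ∈ adj a T J Z :=
    mem_filter.2 ⟨mem_sdiff.2 ⟨hk, hkZ⟩, j0, hj0, hk0, z, mem_sdiff.2 ⟨hz, hzJ⟩, hz0⟩
  obtain ⟨p1, p2⟩ := cnt hl hh hT hJF hZF hLJ hLZ hO hJ
  obtain ⟨q1, q2⟩ := cnt hl hh hT hZF hJF hLZ hLJ hO hZ
  have hM : MA a T (adj a T J Z) = MA a T (adj a T Z J) := by
    refine Subset.antisymm (fun j hj => ?_) fun j hj => ?_
    · by_contra h
      have := p2 ⟨j, hj, h⟩
      omega
    · by_contra h
      have := q2 ⟨j, hj, h⟩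
      omega
  have e1 := sum_t (hLJ.mono subset_rfl (adj_sub (a := a) (T := T) (Z := Z))) τ
  have e2 := sum_t (hLZ.mono subset_rfl (adj_sub (a := a) (T := T) (Z := J))) τ
  have e3 : ∑ i ∈ adj a T Z J, ∑ j ∈ T, τ j * (a j i : ℚ) = ∑ _i ∈ adj a T J Z, (1 : ℚ) := by
    rw [sum_congr rfl fun i hi => (hC.comp i (hZF (adj_sub hi))).1 (by
      have := hmu i (hZL (adj_sub hi))
      linarith), sum_const, sum_const, le_antisymm p1 q1]
  rw [hM, ← e2, e3] at e1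
  have e4 := (sum_eq_sum_iff_of_le fun i hi => hC.one i (hJF (adj_sub hi))).1 e1.symm k hkA
  have g1 := hC.gap k ((hC.comp k (hJF hk)).2 e4.symm)
  have g2 := (hdot j0 {k, z}).trans (hC.le j0 hj0)
  rw [sum_pair hkz, hLJ.eq_one hj0 hk hk0, hLZ.eq_one hj0 hz hz0] at g2
  have g3 := hmu z (hZL hz)
  push_cast at g2
  linarith

end Pool.Agent.MP_5d9b3c_ag.H48N
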