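import Pool.Agent.MP_5d9b3c_ag.H48N.BasicP

/-! A system with enough colours is solvable. -/

namespace Pool.Agent.MP_5d9b3c_ag.H48N

open Finset

namespace HallAux

/-- More colours than equations: a nontrivial relation. -/
lemma exists_rel {ι κ γ : Type} [DecidableEq γ] (A : Finset ι) (M : Finset κ) (col : κ → γ)
    (g : ι → κ → ℂ) (h : #A + 1 ≤ #(M.image col)) :
    ∃ y : γ → ℂ, (∃ j ∈ M, y (col j) ≠ 0) ∧ ∀ i ∈ A, ∑ j ∈ M, g i j * y (col j) = 0 := by
  have : ¬LinearIndepOn ℂ (fun b (i : A) => ∑ j ∈ M with col j = b, g i j) (M.image col) := fun k => by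
    have := LinearIndependent.fintype_card_le_finrank k
    simp only [coe_sort_coe, Fintype.card_coe, Module.finrank_fintype_fun_eq_card] at this
    omega
  obtain ⟨y, h1, b, h2, h3⟩ := not_linearIndepOn_finset_iff.1 this
  obtain ⟨j, hj, rfl⟩ := mem_image.1 h2
  refine ⟨y, ⟨j, hj, h3⟩, fun i hi => ?_⟩
  rw [← sum_fiberwise_of_maps_to (fun j hj => mem_image_of_mem col hj)]
  refine Eq.trans (sum_congr rfl fun b _ => ?_)
    ((Finset.sum_apply _ _ _).symm.trans (congrFun h1 ⟨i, hi⟩))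
  rw [Pi.smul_apply, smul_eq_mul, mul_sum]
  exact sum_congr rfl fun j hj => by rw [(mem_filter.1 hj).2, mul_comm]

end HallAux

theorem hall (h : LiftStmt) : HallStmt := by
  intro ι κ _ _ _ _ a c T F J A col n
  induction A using Finset.strongInduction generalizing T with
  | H A ih =>
  intro hT hJ hl ho hA hn hc hH ⟨x, hx, hs⟩
  rcases A.eq_empty_or_nonempty with rfl | hne
  · exact ⟨x, hx, by simpa using hs⟩
  obtain ⟨y, ⟨j0, hj0, hy0⟩, hy⟩ := HallAux.exists_rel A (MA a T A) col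
    (fun i j => c j * a j i * ∏ k, x k ^ a j k) (hH A subset_rfl hne)
  classical
  set A0 := A.filter fun i => ∀ j ∈ T, a j i ≠ 0 → y (col j) = 0 with hA0
  have s0 : A0 ⊆ A := filter_subset _ _
  have uq : ∀ {j i} {B : Finset ι}, B ⊆ J → j ∈ T → i ∈ J → a j i ≠ 0 → (j ∈ MA a T B ↔ i ∈ B) :=
    fun {j i B} hB hj hi h0 => ⟨fun k => by
      obtain ⟨-, i', h1, h2⟩ := mem_MA.1 k
      by_contra h3
      exact h2 (hl.eq_zero hj hi (hB h1) (fun e => h3 (e ▸ h1)) h0), fun k => mem_MA.2 ⟨hj, i, k, h0⟩⟩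
  have m0 : ∀ j ∈ MA a T A0, j ∈ MA a T A ∧ y (col j) = 0 := fun j hj => by
    obtain ⟨h1, i, h2, h3⟩ := mem_MA.1 hj
    exact ⟨mem_MA.2 ⟨h1, i, s0 h2, h3⟩, (mem_filter.1 h2).2 j h1 h3⟩
  have sm : ∀ (P : Option ι → Prop) [DecidablePred P] (f : Option ι → ℂ), ∀ j ∈ MA a T J,
      ∑ b ∈ ((MA a T A).image col).filter P, ((n b ⬝ᵥ Aq a j : ℚ) : ℂ) * f b =
        if j ∈ MA a T A ∧ P (col j) then f (col j) else 0 := fun P _ f j hj => by
    rw [sum_congr rfl fun b hb => by rw [hc b (mem_filter.1 hb).1 j hj]]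
    by_cases k : j ∈ MA a T A
    · by_cases kp : P (col j) <;> simp [k, kp, apply_ite, ite_mul, mem_image_of_mem col k]
    · simp [k]
  set d : ι → ℚ := ∑ b ∈ ((MA a T A).image col).filter (y · = 0), n b -
    fun k => if k ∈ A0 then (1 : ℚ) else 0 with hd
  have d0 : ∀ k ∉ F, 0 ≤ d k := fun k hk => by
    have : k ∉ A0 := fun e => hk (hJ (hA (s0 e)))
    simp [hd, this, hn _ k hk]
  have d1 : ∀ j ∈ MA a T J, d ⬝ᵥ Aq a j =
      if (j ∈ MA a T A ∧ y (col j) = 0) ∧ j ∉ MA a T A0 then 1 else 0 := fun j hj => by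
    have h1 := sm (y · = 0) 1 j hj
    simp only [Pi.one_apply, mul_one] at h1
    have h2 : ∑ b ∈ ((MA a T A).image col).filter (y · = 0), n b ⬝ᵥ Aq a j =
        if j ∈ MA a T A ∧ y (col j) = 0 then 1 else 0 := by
      split_ifs at h1 ⊢ <;> exact_mod_cast h1
    rw [hd, sub_dotProduct, sum_dotProduct, h2,
      (hl.mono subset_rfl (s0.trans hA)).ind_dot (mem_MA.1 hj).1]
    by_cases k : j ∈ MA a T A0
    · simp [k, m0 j k]
    · simp [k]
  have d2 : ∀ j ∈ MA a T J, 0 ≤ d ⬝ᵥ Aq a j := fun j hj => by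
    rw [d1 j hj]
    split_ifs <;> norm_num
  set T' := (MA a T J).filter fun j => d ⬝ᵥ Aq a j = 0 with hT'
  have t1 : ∀ j, j ∈ T' ↔ j ∈ MA a T J ∧ (j ∈ MA a T A → y (col j) = 0 → j ∈ MA a T A0) :=
    fun j => mem_filter.trans (and_congr_right fun hj => by rw [d1 j hj]; simp)
  have t2 : T' ⊆ T := (filter_subset _ _).trans (filter_subset _ _)
  have t3 : ∀ B ⊆ A0, MA a T' B = MA a T B := fun B hB => by
    ext j
    refine mem_MA.trans (Iff.trans (and_congr_left fun ⟨i, h1, h2⟩ => ⟨@t2 j, fun k => ?_⟩)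
      mem_MA.symm)
    exact (t1 j).2 ⟨mem_MA.2 ⟨k, i, hA (s0 (hB h1)), h2⟩, fun _ _ => mem_MA.2 ⟨k, i, hB h1, h2⟩⟩
  have oc : Occ a T' J := fun i hi => by
    by_cases k : i ∈ A ∧ i ∉ A0
    · obtain ⟨j, h1, h2, h3⟩ : ∃ j ∈ T, a j i ≠ 0 ∧ y (col j) ≠ 0 := by
        simpa [hA0, k.1] using k.2
      exact ⟨j, (t1 j).2 ⟨mem_MA.2 ⟨h1, i, hi, h2⟩, fun _ e => absurd e h3⟩, h2⟩
    · obtain ⟨j, h1, h2⟩ := ho i hi
      refine ⟨j, (t1 j).2 ⟨mem_MA.2 ⟨h1, i, hi, h2⟩, fun e _ => mem_MA.2 ⟨h1, i, ?_, h2⟩⟩, h2⟩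
      exact by_contra fun k' => k ⟨(uq hA h1 hi h2).1 e, k'⟩
  have sub : T' ⊆ T.filter fun j => d ⬝ᵥ Aq a j = 0 := filter_subset_filter _ (filter_subset _ _)
  refine h ι κ a c T F J hT hJ hl d d0 d2 (oc.mono sub subset_rfl)
    ((solv_congr (T := T') ?_).1 (ih A0 (Finset.ssubset_iff_subset_ne.2 ⟨s0, fun e => ?_⟩) T'
      (hT.faceM hJ hl d0 d2) hJ (hl.mono t2 subset_rfl) oc (s0.trans hA) hn (fun β hβ j hj => ?_)
      (fun B h1 h2 => t3 B h1 ▸ hH B (h1.trans s0) h2) ?_))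
  · ext j
    simp only [hT', mem_MA, mem_filter]
    tauto
  · exact hy0 (m0 j0 (e ▸ hj0)).2
  · rw [t3 _ subset_rfl] at hβ ⊢
    obtain ⟨j', h1, rfl⟩ := mem_image.1 hβ
    obtain ⟨h2, h3⟩ := (t1 j).1 (mem_MA.1 hj).1
    rw [hc _ (mem_image_of_mem col (m0 j' h1).1) j h2]
    exact if_congr (and_congr_left fun e => ⟨fun k => h3 k (e ▸ (m0 j' h1).2),
      fun k => (m0 j k).1⟩) rfl rfl
  · refine ⟨fun k => x k * Complex.exp (∑ b ∈ ((MA a T A).image col).filter (y · ≠ 0),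
      (n b k : ℂ) * Complex.log (y b)), fun k => mul_ne_zero (hx k) (Complex.exp_ne_zero _),
      fun i hi => ?_⟩
    obtain ⟨hi, hi0⟩ := mem_sdiff.1 hi
    have e1 : ∑ j ∈ T, c j * a j i * (∏ k, x k ^ a j k) *
        (if j ∈ MA a T A then y (col j) else 1) = 0 := by
      by_cases k : i ∈ A
      · refine Eq.trans (sum_subset_zero_on_sdiff (s₁ := MA a T A) (filter_subset _ _)
          (fun j hj => ?_) fun j hj => by rw [if_pos hj]).symm (hy i k)
        have : a j i = 0 := by_contra fun e =>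
          (mem_sdiff.1 hj).2 (mem_MA.2 ⟨(mem_sdiff.1 hj).1, i, k, e⟩)
        simp [this]
      · refine (sum_congr rfl fun j hj => ?_).trans (hs i (mem_sdiff.2 ⟨hi, k⟩))
        by_cases e : a j i = 0
        · simp [e]
        · rw [if_neg (mt (uq hA hj hi e).1 k), mul_one]
    refine (sum_subset_zero_on_sdiff t2 (fun j hj => ?_) fun j hj => ?_).trans e1
    · obtain ⟨h1, h2⟩ := mem_sdiff.1 hj
      by_cases e : a j i = 0
      · simp [e]
      · rw [t1, not_and, not_forall] at h2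
        obtain ⟨h3, h4⟩ := h2 (mem_MA.2 ⟨h1, i, hi, e⟩)
        rw [if_pos h3, (Classical.not_imp.1 h4).1, mul_zero]
    · by_cases e : a j i = 0
      · simp [e]
      obtain ⟨h1, h2⟩ := (t1 j).1 hj
      have h3 := sm (y · ≠ 0) (fun b => Complex.log (y b)) j h1
      have h4 : ∑ k, (a j k : ℂ) * ∑ b ∈ ((MA a T A).image col).filter (y · ≠ 0),
          (n b k : ℂ) * Complex.log (y b) = _ := Eq.trans (by
        simp only [mul_sum, dotProduct, Aq, Rat.cast_sum, Rat.cast_mul, Rat.cast_natCast, sum_mul]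
        rw [sum_comm]
        exact sum_congr rfl fun _ _ => sum_congr rfl fun _ _ => by ring) h3
      simp only [mul_pow, prod_mul_distrib, ← Complex.exp_nat_mul, ← Complex.exp_sum, h4]
      rw [← mul_assoc]
      congr 1
      by_cases k : j ∈ MA a T A
      · have h5 : y (col j) ≠ 0 := fun e' => hi0 ((uq (s0.trans hA) (t2 hj) hi e).1 (h2 k e'))
        rw [if_pos ⟨k, h5⟩, if_pos k, Complex.exp_log h5]
      · rw [if_neg fun e' => k e'.1, if_neg k, Complex.exp_zero]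

end Pool.Agent.MP_5d9b3c_ag.H48N
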