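import Pool.Agent.MP_5d9b3c_ag.H48N.BasicP

/-!
A solution of a face system lifts, by the implicit function theorem.
-/

namespace Pool.Agent.MP_5d9b3c_ag.H48N

open Finset Pool.Agent.MP_5d9b3c_ag.H22

namespace LiftAux

open Filter Topology

/-- The linear form attached to a monomial. -/
noncomputable def lf {ι : Type} [Fintype ι] (A : ι → ℂ) : ((ι → ℂ) × ℂ) →L[ℂ] ℂ :=
  ∑ k, A k • ((ContinuousLinearMap.proj k : (ι → ℂ) →L[ℂ] ℂ).comp
    (ContinuousLinearMap.fst ℂ (ι → ℂ) ℂ))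

lemma lf_apply {ι : Type} [Fintype ι] (A : ι → ℂ) (p : (ι → ℂ) × ℂ) :
    lf A p = ∑ k, A k * p.1 k := by
  simp [lf]

lemma term_deriv {ι : Type} [Fintype ι] (A : ι → ℂ) (n : ℕ) (w : ℂ) :
    ∃ b : ℂ, HasStrictFDerivAt (fun p : (ι → ℂ) × ℂ => w * (p.2 ^ n * Complex.exp (lf A p)))
      ((w * 0 ^ n) • lf A + b • ContinuousLinearMap.snd ℂ (ι → ℂ) ℂ) 0 := by
  have h1 : HasStrictFDerivAt (fun p : (ι → ℂ) × ℂ => p.2 ^ n)
      (((n : ℂ) * 0 ^ (n - 1)) • ContinuousLinearMap.snd ℂ (ι → ℂ) ℂ) 0 :=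
    (hasStrictDerivAt_pow n (0 : ℂ)).comp_hasStrictFDerivAt (0 : (ι → ℂ) × ℂ)
      (ContinuousLinearMap.snd ℂ (ι → ℂ) ℂ).hasStrictFDerivAt
  have h2 : HasStrictFDerivAt (fun p : (ι → ℂ) × ℂ => Complex.exp (lf A p))
      (Complex.exp (lf A 0) • lf A) 0 := (lf A).hasStrictFDerivAt.cexp
  refine ⟨w * (n * 0 ^ (n - 1)), ?_⟩
  refine ((h1.mul h2).const_mul w).congr_fderiv (ContinuousLinearMap.ext (fun p => ?_))
  simp
  ring

/-- A nondegenerate zero of the limit system deforms. -/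
lemma exists_zero {ι γ κ : Type} [Fintype ι] [Fintype γ] (S : Finset κ) (w : γ → κ → ℂ)
    (A : κ → ι → ℂ) (n : κ → ℕ) (h0 : ∀ i, ∑ j ∈ S, w i j * 0 ^ n j = 0)
    (hs : ∀ y : γ → ℂ, ∃ v : ι → ℂ, ∀ i, ∑ j ∈ S, w i j * 0 ^ n j * ∑ k, A j k * v k = y i) :
    ∃ (u : ι → ℂ) (e : ℂ), e ≠ 0 ∧
      ∀ i, ∑ j ∈ S, w i j * (e ^ n j * Complex.exp (∑ k, A j k * u k)) = 0 := by
  choose b hb using fun i j => term_deriv (A j) (n j) (w i j)
  let Φ : (ι → ℂ) × ℂ → (γ → ℂ) × ℂ := fun p =>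
    (fun i => ∑ j ∈ S, w i j * (p.2 ^ n j * Complex.exp (lf (A j) p)), p.2)
  let L : ((ι → ℂ) × ℂ) →L[ℂ] (γ → ℂ) × ℂ :=
    (ContinuousLinearMap.pi (fun i => ∑ j ∈ S, ((w i j * 0 ^ n j) • lf (A j) +
      b i j • ContinuousLinearMap.snd ℂ (ι → ℂ) ℂ))).prod (ContinuousLinearMap.snd ℂ (ι → ℂ) ℂ)
  have hd : HasStrictFDerivAt Φ L 0 := by
    refine HasStrictFDerivAt.prodMk ?_ (ContinuousLinearMap.snd ℂ (ι → ℂ) ℂ).hasStrictFDerivAt
    rw [hasStrictFDerivAt_pi]
    intro i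
    exact HasStrictFDerivAt.fun_sum (fun j _ => hb i j)
  have hL : L.range = ⊤ := by
    rw [LinearMap.range_eq_top]
    rintro ⟨y, s⟩
    obtain ⟨v, hv⟩ := hs (fun i => y i - s * ∑ j ∈ S, b i j)
    refine ⟨(v, s), ?_⟩
    ext i
    · have := hv i
      simp only [L, ContinuousLinearMap.coe_coe, ContinuousLinearMap.prod_apply,
        ContinuousLinearMap.pi_apply, _root_.sum_apply, add_apply, smul_apply, lf_apply, smul_eq_mul,
        ContinuousLinearMap.coe_snd', sum_add_distrib]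
      rw [this, ← sum_mul]
      ring
    · simp [L]
  have hm := hd.map_nhds_eq_of_surj hL
  have hΦ : Φ 0 = 0 := by
    ext i
    · simpa [Φ] using h0 i
    · simp [Φ]
  have hr : Set.range Φ ∈ 𝓝 (0 : (γ → ℂ) × ℂ) := by
    rw [← hΦ, ← hm]
    exact range_mem_map
  have hc : Tendsto (fun e : ℂ => ((0 : γ → ℂ), e)) (𝓝 0) (𝓝 0) :=
    (continuous_const.prodMk continuous_id).tendsto' 0 0 rfl
  have he : ∀ᶠ e : ℂ in 𝓝[≠] 0, ((0 : γ → ℂ), e) ∈ Set.range Φ :=
    (hc.eventually hr).filter_mono nhdsWithin_le_nhds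
  obtain ⟨e, ⟨p, hp⟩, he0⟩ := (he.and self_mem_nhdsWithin).exists
  have h2 : p.2 = e := congrArg Prod.snd hp
  refine ⟨p.1, e, he0, fun i => ?_⟩
  have h1 := congrFun (congrArg Prod.fst hp) i
  simpa [Φ, lf_apply, h2] using h1

/-- Surjectivity from independence of the rows. -/
lemma surj_of_indep {ι γ : Type} [Fintype ι] [Fintype γ] (H : γ → ι → ℂ)
    (h : ∀ l : γ → ℂ, (∀ k, ∑ i, l i * H i k = 0) → l = 0) (y : γ → ℂ) :
    ∃ v : ι → ℂ, ∀ i, ∑ k, H i k * v k = y i := by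
  classical
  have hr : LinearMap.range (Matrix.mulVecLin (Matrix.of H)) = ⊤ := by
    by_contra hne
    obtain ⟨f, hf, hle⟩ := Submodule.exists_le_ker_of_lt_top _ (lt_top_iff_ne_top.2 hne)
    apply hf
    have h1 := h (fun i => f (fun j => if i = j then 1 else 0)) (fun k => by
      have h2 : f (Matrix.mulVecLin (Matrix.of H) (Pi.single k 1)) = 0 := hle ⟨_, rfl⟩
      rw [LinearMap.pi_apply_eq_sum_univ] at h2
      refine Eq.trans (sum_congr rfl (fun i _ => ?_)) h2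
      simp [mul_comm])
    refine LinearMap.ext (fun z => ?_)
    rw [LinearMap.pi_apply_eq_sum_univ]
    exact sum_eq_zero (fun i _ => by rw [congrFun h1 i]; simp)
  obtain ⟨v, hv⟩ := LinearMap.range_eq_top.1 hr y
  exact ⟨v, fun i => congrFun hv i⟩

variable {ι κ : Type} [Fintype ι] [LinearOrder ι] [DecidableEq κ]
  {a : κ → ι →₀ ℕ} {c : κ → ℂ} {T : Finset κ} {F J : Finset ι}

omit [DecidableEq κ] in
/-- Rescaling the variables of a linear set. -/
lemma prod_scale (hl : Lin a T J) (l : ι → ℂ) {j : κ}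
    (hj : j ∈ MA a T (J.filter (fun i => l i ≠ 0))) :
    ∏ k, (if k ∈ J.filter (fun i => l i ≠ 0) then l k else 1) ^ a j k = ∑ i ∈ J, l i * a j i := by
  obtain ⟨hT, i, hi, h0⟩ := mem_MA.1 hj
  have hiJ := (mem_filter.1 hi).1
  rw [prod_eq_single i (fun k _ hk => ?_) (fun h => absurd (mem_univ i) h),
    sum_eq_single i (fun k hk hne => ?_) (fun h => absurd hiJ h), if_pos hi, hl.eq_one hT hiJ h0]
  · simp
  · rw [hl.eq_zero hT hiJ hk hne h0]
    simp
  · split_ifs with h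
    · rw [hl.eq_zero hT hiJ (mem_filter.1 h).1 hk h0, pow_zero]
    · exact one_pow _

/-- The logarithmic gradients are independent. -/
lemma indep (h : TND a c T F) (hJ : J ⊆ F) (hl : Lin a T J) {d : ι → ℚ}
    (h1 : ∀ k ∉ F, 0 ≤ d k) (h2 : ∀ j ∈ MA a T J, 0 ≤ d ⬝ᵥ Aq a j)
    (ho : Occ a (T.filter (fun j => d ⬝ᵥ Aq a j = 0)) J) {x : ι → ℂ} (hx : ∀ i, x i ≠ 0)
    (hz : ∀ i ∈ J, ∑ j ∈ T.filter (fun j => d ⬝ᵥ Aq a j = 0), c j * a j i * ∏ k, x k ^ a j k = 0)
    (l : ι → ℂ) (hl0 : ∀ k, ∑ i ∈ J, l i * ∑ j ∈ T.filter (fun j => d ⬝ᵥ Aq a j = 0),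
      c j * a j i * (∏ k, x k ^ a j k) * a j k = 0) : ∀ i ∈ J, l i = 0 := by
  intro i0 hi0
  by_contra hne
  set J' := J.filter (fun i => l i ≠ 0) with hJ'
  have hs : J' ⊆ J := filter_subset _ _
  have hM : MA a T J' ⊆ MA a T J := fun j hj => by
    obtain ⟨h3, i, h4, h5⟩ := mem_MA.1 hj
    exact mem_MA.2 ⟨h3, i, hs h4, h5⟩
  have hnd := (h.faceM (hs.trans hJ) (hl.mono subset_rfl hs) h1
    (fun j hj => h2 j (hM hj))).nd (by
      obtain ⟨j, hj, h0⟩ := ho i0 hi0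
      obtain ⟨h3, h4⟩ := mem_filter.1 hj
      exact ⟨j, mem_filter.2 ⟨mem_MA.2 ⟨h3, i0, mem_filter.2 ⟨hi0, hne⟩, h0⟩, h4⟩⟩)
  obtain ⟨o, ho⟩ := hnd (fun o => o.elim 1 (fun k => x k * if k ∈ J' then l k else 1)) (by
    rintro (_ | k)
    · exact one_ne_zero
    · refine mul_ne_zero (hx k) ?_
      split_ifs with h3
      · exact (mem_filter.1 h3).2
      · exact one_ne_zero)
  apply ho
  have key : ∑ j ∈ (MA a T J').filter (fun j => d ⬝ᵥ Aq a j = 0), c j * Aof a j o *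
      ∏ o', (Option.elim o' 1 (fun k => x k * if k ∈ J' then l k else 1) : ℂ) ^ Aof a j o' =
      ∑ i ∈ J, l i * ∑ j ∈ T.filter (fun j => d ⬝ᵥ Aq a j = 0),
        c j * a j i * (∏ k, x k ^ a j k) * Aof a j o := by
    simp only [mul_sum]
    rw [sum_comm]
    have hsub : (MA a T J').filter (fun j => d ⬝ᵥ Aq a j = 0) ⊆
        T.filter (fun j => d ⬝ᵥ Aq a j = 0) :=
      filter_subset_filter _ (filter_subset _ _)
    rw [← sum_subset hsub (fun j hj hj' => ?_)]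
    · refine sum_congr rfl (fun j hj => ?_)
      have e := prod_scale hl l (mem_filter.1 hj).1
      rw [Fintype.prod_option]
      simp only [Aof, Option.elim_none, Option.elim_some, one_pow, one_mul, mul_pow,
        prod_mul_distrib]
      rw [← hJ'] at e
      rw [e, mul_sum, mul_sum]
      exact sum_congr rfl (fun i _ => by ring)
    · refine sum_eq_zero (fun i hi => ?_)
      obtain ⟨h3, h4⟩ := mem_filter.1 hj
      by_cases h5 : l i = 0
      · rw [h5, zero_mul]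
      · have : a j i = 0 := by
          by_contra h6
          exact hj' (mem_filter.2 ⟨mem_MA.2 ⟨h3, i, mem_filter.2 ⟨hi, h5⟩, h6⟩, h4⟩)
        simp [this]
  rw [key]
  rcases o with _ | k
  · refine sum_eq_zero (fun i hi => ?_)
    simp only [Aof, Option.elim_none, Nat.cast_one, mul_one]
    rw [hz i hi, mul_zero]
  · exact hl0 k

end LiftAux

open LiftAux in
/-- A solution of a face system lifts. -/
theorem lift : LiftStmt := by
  intro ι κ _ _ _ _ a c T F J h hJ hl d h1 h2 ho ⟨x, hx, hz⟩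
  obtain ⟨N, hN, z, hzN⟩ := clear_den (fun j => d ⬝ᵥ Aq a j)
  have hN' : (0 : ℚ) < N := by exact_mod_cast hN
  have hn : ∀ j ∈ MA a T J, ((z j).toNat : ℚ) = N * d ⬝ᵥ Aq a j := fun j hj => by
    have h3 : (0 : ℚ) ≤ z j := by rw [hzN]; exact mul_nonneg hN'.le (h2 j hj)
    have h4 : 0 ≤ z j := by exact_mod_cast h3
    rw [← hzN]
    exact_mod_cast Int.toNat_of_nonneg h4
  have hred : ∀ i ∈ J, ∀ g : κ → ℂ, ∑ j ∈ MA a T J, c j * a j i * g j * 0 ^ (z j).toNat =
      ∑ j ∈ T.filter (fun j => d ⬝ᵥ Aq a j = 0), c j * a j i * g j := fun i hi g => by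
    rw [sum_filter]
    have hs : MA a T J ⊆ T := filter_subset _ _
    rw [← sum_subset hs (fun j hj hj' => ?_)]
    · refine sum_congr rfl (fun j hj => ?_)
      have h3 := hn j hj
      split_ifs with h4
      · rw [h4, mul_zero] at h3
        have : (z j).toNat = 0 := by exact_mod_cast h3
        rw [this, pow_zero, mul_one]
      · have : (z j).toNat ≠ 0 := fun h5 => by
          rw [h5, Nat.cast_zero, eq_comm, mul_eq_zero] at h3
          exact h4 (h3.resolve_left hN'.ne')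
        rw [zero_pow this, mul_zero]
    · have : a j i = 0 := by
        by_contra h0
        exact hj' (mem_MA.2 ⟨hj, i, hi, h0⟩)
      simp [this]
  obtain ⟨u, e, he, hu⟩ := exists_zero (γ := J) (MA a T J)
    (fun i j => c j * a j i * ∏ k, x k ^ a j k) (fun j k => (a j k : ℂ)) (fun j => (z j).toNat)
    (fun i => by rw [hred i i.2]; exact hz i i.2) (fun y => by
      obtain ⟨v, hv⟩ := surj_of_indep (fun (i : J) k => ∑ j ∈ T.filter (fun j => d ⬝ᵥ Aq a j = 0),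
        c j * a j i * (∏ k, x k ^ a j k) * a j k) (fun l hl0 => by
        have h3 := indep h hJ hl h1 h2 ho hx hz (fun i => if hi : i ∈ J then l ⟨i, hi⟩ else 0)
          (fun k => by
            rw [← hl0 k, ← sum_coe_sort]
            exact sum_congr rfl (fun i _ => by simp))
        funext i
        simpa using h3 i i.2) y
      refine ⟨v, fun i => ?_⟩
      rw [← hv i]
      have h3 := hred i i.2 (fun j => (∏ k, x k ^ a j k) * ∑ k, (a j k : ℂ) * v k)
      simp only [sum_mul]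
      rw [sum_comm]
      refine Eq.trans (Eq.trans (sum_congr rfl (fun j _ => by ring)) h3) ?_
      refine sum_congr rfl (fun j _ => ?_)
      rw [mul_sum, mul_sum]
      exact sum_congr rfl (fun k _ => by ring))
  rw [← solv_MA]
  refine ⟨fun k => x k * Complex.exp (u k + ((N * d k : ℚ) : ℂ) * Complex.log e),
    fun k => mul_ne_zero (hx k) (Complex.exp_ne_zero _), fun i hi => ?_⟩
  rw [← hu ⟨i, hi⟩]
  refine sum_congr rfl (fun j hj => ?_)
  have h3 : (((z j).toNat : ℚ) : ℂ) = ((N * d ⬝ᵥ Aq a j : ℚ) : ℂ) := by rw [hn j hj]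
  have h4 : e ^ (z j).toNat = Complex.exp (((z j).toNat : ℕ) * Complex.log e) := by
    rw [Complex.exp_nat_mul, Complex.exp_log he]
  simp only [mul_pow, prod_mul_distrib, ← Complex.exp_nat_mul, ← Complex.exp_sum]
  rw [h4, ← Complex.exp_add, mul_assoc (c j * a j i)]
  congr 3
  push_cast [dotProduct, Aq] at h3 ⊢
  rw [h3, mul_sum, sum_mul, ← sum_add_distrib]
  exact sum_congr rfl (fun k _ => by ring)

end Pool.Agent.MP_5d9b3c_ag.H48N
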