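import Pool.Agent.MP_5d9b3c_ag.H48N.BasicP

/-!
Rationality of sums over polyhedra, with control of the poles.
-/

namespace Pool.Agent.MP_5d9b3c_ag.H48N

open Finset Pool.Agent.MP_5d9b3c_ag.H22

namespace RatAux

variable {ι A : Type} [Fintype ι] [Fintype A]

theorem summable_geo (r : ℝ) (h0 : 0 ≤ r) (h1 : r < 1) :
    Summable fun L : ι → ℕ => r ^ (∑ k, L k) := by
  classical
  refine summable_of_sum_le (c := ∏ _k : ι, (1 - r)⁻¹) (fun L => by positivity) fun s => ?_
  obtain ⟨N, hN⟩ : ∃ N : ℕ, ∀ L ∈ s, ∀ k, L k < N := by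
    refine ⟨s.sup (fun L => ∑ k, L k) + 1, fun L hL k => ?_⟩
    have h2 : L k ≤ ∑ k, L k := single_le_sum (fun _ _ => Nat.zero_le _) (mem_univ k)
    have h3 := le_sup (f := fun L : ι → ℕ => ∑ k, L k) hL
    omega
  have hs : s ⊆ Fintype.piFinset fun _ => range N := fun L hL => by
    simpa [Fintype.mem_piFinset] using hN L hL
  calc ∑ L ∈ s, r ^ (∑ k, L k) ≤ ∑ L ∈ Fintype.piFinset fun _ : ι => range N, r ^ (∑ k, L k) :=
        sum_le_sum_of_subset_of_nonneg hs fun _ _ _ => by positivity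
    _ = ∏ _k : ι, ∑ n ∈ range N, r ^ n := by
        rw [prod_univ_sum]
        exact sum_congr rfl fun L _ => (prod_pow_eq_pow_sum _ _ _).symm
    _ ≤ ∏ _k : ι, (1 - r)⁻¹ := by
        refine prod_le_prod (fun _ _ => by positivity) fun _ _ => ?_
        rw [← tsum_geometric_of_lt_one h0 h1]
        exact (summable_geometric_of_lt_one h0 h1).sum_le_tsum _ fun _ _ => by positivity

/-- The integer point. -/
def zq (θ : ℕ) (L : ι → ℕ) : Option ι → ℤ := fun o => o.elim θ fun k => L k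

open Classical in
/-- The term. -/
noncomputable def tm (p : ℕ) (Y : Set (Option ι → ℤ)) (θ : ℕ) (L : ι → ℕ) : ℂ :=
  if zq θ L ∈ Y then ((p : ℂ)⁻¹) ^ (∑ k, L k) else 0

/-- The sum over the slice. -/
noncomputable def sY (p : ℕ) (Y : Set (Option ι → ℤ)) (θ : ℕ) : ℂ := ∑' L : ι → ℕ, tm p Y θ L

theorem summable_tm {p : ℕ} (hp : 1 < p) (Y : Set (Option ι → ℤ)) (θ : ℕ) :
    Summable (tm p Y θ) := by
  have h1 : (1 : ℝ) < p := by exact_mod_cast hp
  refine Summable.of_norm_bounded
    (summable_geo (ι := ι) (p : ℝ)⁻¹ (by positivity) (inv_lt_one_of_one_lt₀ h1)) fun L => ?_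
  unfold tm
  split_ifs
  · simp
  · simp only [norm_zero]
    positivity

theorem sY_split {p : ℕ} (hp : 1 < p) {Y Y₁ Y₂ : Set (Option ι → ℤ)}
    (h : ∀ u, u ∈ Y ↔ u ∈ Y₁ ∨ u ∈ Y₂) (hd : ∀ u ∈ Y₁, u ∉ Y₂) (θ : ℕ) :
    sY p Y θ = sY p Y₁ θ + sY p Y₂ θ := by
  unfold sY
  rw [← (summable_tm hp Y₁ θ).tsum_add (summable_tm hp Y₂ θ)]
  refine tsum_congr fun L => ?_
  unfold tm
  by_cases h1 : zq θ L ∈ Y₁
  · rw [if_pos ((h _).2 (Or.inl h1)), if_pos h1, if_neg (hd _ h1), add_zero]
  · by_cases h2 : zq θ L ∈ Y₂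
    · rw [if_pos ((h _).2 (Or.inr h2)), if_neg h1, if_pos h2, zero_add]
    · rw [if_neg (fun h3 => ((h _).1 h3).elim h1 h2), if_neg h1, if_neg h2, zero_add]

theorem sY_shift (p : ℕ) {Y Y' : Set (Option ι → ℤ)} (N : ℕ) (e : ι → ℕ)
    (hY : ∀ u ∈ Y, ∀ o, 0 ≤ u o) (h : ∀ u, u ∈ Y' ↔ u - zq N e ∈ Y) (θ : ℕ) :
    sY p Y' θ = if N ≤ θ then ((p : ℂ)⁻¹) ^ (∑ k, e k) * sY p Y (θ - N) else 0 := by
  unfold sY
  split_ifs with hN
  · have hinj : Function.Injective fun L : ι → ℕ => L + e := add_left_injective e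
    rw [← hinj.tsum_eq, ← tsum_mul_left]
    · refine tsum_congr fun L => ?_
      have h1 : zq θ (L + e) - zq N e = zq (θ - N) L := by
        funext o
        cases o with
        | none => simp [zq, Nat.cast_sub hN]
        | some k => simp [zq]
      unfold tm
      rw [h, h1]
      split_ifs
      · simp only [Pi.add_apply, sum_add_distrib, pow_add]
        ring
      · simp
    · intro L hL
      have h1 : zq θ L ∈ Y' := by
        by_contra hc
        exact hL (if_neg hc)
      refine ⟨L - e, funext fun k => ?_⟩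
      have h2 := hY _ ((h _).1 h1) (some k)
      simp only [zq, Pi.sub_apply, Option.elim_some] at h2
      simp only [Pi.add_apply, Pi.sub_apply]
      omega
  · have : ∀ L, tm p Y' θ L = 0 := by
      intro L
      refine if_neg fun h1 => hN ?_
      have h2 := hY _ ((h _).1 h1) none
      simp only [zq, Pi.sub_apply, Option.elim_none] at h2
      omega
    simp [this]

theorem good_fin (p : ℕ) (l : ℝ) {Y : Set (Option ι → ℤ)} (h : Y.Finite) : Good p l (sY p Y) := by
  obtain ⟨M, hM⟩ := (h.image fun u => u none).bddAbove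
  refine Good.of_finite (M.toNat + 1) fun n hn => ?_
  have : ∀ L, tm p Y n L = 0 := by
    intro L
    refine if_neg fun h1 => ?_
    have h2 := hM ⟨_, h1, rfl⟩
    simp only [zq, Option.elim_none] at h2
    omega
  simp [sY, this]

/-- The integer points of a face. -/
def YE (μ : A → Option ι → ℤ) (E : Finset A) (b : A → ℤ) : Set (Option ι → ℤ) :=
  {u | ∀ j, b j ≤ μ j ⬝ᵥ u ∧ (j ∈ E → μ j ⬝ᵥ u = b j)}

variable [DecidableEq A]

theorem good_raise {p : ℕ} (hp : 1 < p) (l : ℝ) (μ : A → Option ι → ℤ) (E : Finset A)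
    (P : (A → ℤ) → Prop) (hP : ∀ b b', P b → (∀ j, b j ≤ b' j) → P b')
    (ih : ∀ j ∉ E, ∀ b, P b → Good p l (sY p (YE μ (insert j E) b))) (n : ℕ) :
    ∀ (c : A → ℕ) (b : A → ℤ), ∑ j, c j = n → (∀ j ∈ E, c j = 0) → P b →
      Good p l fun θ => sY p (YE μ E b) θ - sY p (YE μ E fun j => b j + c j) θ := by
  induction n with
  | zero =>
    intro c b hc _ _
    have h0 : ∀ j, c j = 0 := fun j => (sum_eq_zero_iff.1 hc) j (mem_univ j)
    simpa [h0] using Good.zero
  | succ n ihn =>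
    intro c b hc hE hb
    obtain ⟨j, -, hj⟩ : ∃ j ∈ univ, c j ≠ 0 := exists_ne_zero_of_sum_ne_zero (by omega)
    have hjE : j ∉ E := fun h => hj (hE j h)
    set b' : A → ℤ := Function.update b j (b j + 1) with hb'
    set c' : A → ℕ := Function.update c j (c j - 1) with hc'
    have h1 : ∑ i, c' i = n := by
      rw [hc', sum_update_of_mem (mem_univ j)]
      rw [← add_sum_erase _ _ (mem_univ j)] at hc
      rw [sdiff_singleton_eq_erase]
      omega
    have h2 : ∀ i, b i ≤ b' i := fun i => by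
      by_cases e : i = j
      · simp [hb', e]
      · simp [hb', e]
    have h3 : (fun i => b' i + c' i) = fun i => b i + c i := by
      funext i
      by_cases e : i = j
      · simp only [hb', hc', e, Function.update_self]
        omega
      · simp [hb', hc', e]
    have h4 := ihn c' b' h1 (fun i hi => by
      have e : i ≠ j := fun e => hjE (e ▸ hi)
      simp [hc', e, hE i hi]) (hP b b' hb h2)
    rw [h3] at h4
    have h5 : ∀ θ, sY p (YE μ E b) θ = sY p (YE μ (insert j E) b) θ + sY p (YE μ E b') θ := by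
      refine sY_split hp (fun u => ⟨fun hu => ?_, fun hu => ?_⟩) fun u hu hu' => ?_
      · by_cases e : μ j ⬝ᵥ u = b j
        · refine Or.inl fun i => ⟨(hu i).1, fun hi => ?_⟩
          rcases mem_insert.1 hi with rfl | hi
          · exact e
          · exact (hu i).2 hi
        · refine Or.inr fun i => ?_
          by_cases e' : i = j
          · subst e'
            have := (hu i).1
            refine ⟨?_, fun hi => absurd hi hjE⟩
            simp only [hb', Function.update_self]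
            omega
          · simpa [hb', e'] using hu i
      · rcases hu with hu | hu
        · exact fun i => ⟨(hu i).1, fun hi => (hu i).2 (mem_insert_of_mem hi)⟩
        · refine fun i => ⟨(h2 i).trans (hu i).1, fun hi => ?_⟩
          have e : i ≠ j := fun e => hjE (e ▸ hi)
          simpa [hb', e] using (hu i).2 hi
      · have e1 := (hu j).2 (mem_insert_self _ _)
        have e2 := (hu' j).1
        simp only [hb', Function.update_self] at e2
        omega
    have h6 := (ih j hjE b hb).add h4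
    refine h6.eventually 0 fun θ _ => ?_
    rw [h5]
    ring

omit [DecidableEq A] in
theorem ex_dir (μ : A → Option ι → ℤ) (E : Finset A) (b : A → ℤ) (h : (YE μ E b).Infinite) :
    ∃ e : Option ι → ℤ, e ≠ 0 ∧ ∀ j, 0 ≤ μ j ⬝ᵥ e ∧ (j ∈ E → μ j ⬝ᵥ e = 0) := by
  set f := h.natEmbedding
  obtain ⟨m, n, hmn, hle⟩ := wellQuasiOrdered_le
    (fun n : ℕ => fun j : A => (μ j ⬝ᵥ (f n).1 - b j).toNat)
  refine ⟨(f n).1 - (f m).1, fun e => ?_, fun j => ?_⟩
  · have := f.injective (Subtype.ext (sub_eq_zero.1 e))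
    omega
  · have h1 := (f m).2 j
    have h2 := (f n).2 j
    have h3 : (μ j ⬝ᵥ (f m).1 - b j).toNat ≤ (μ j ⬝ᵥ (f n).1 - b j).toNat := hle j
    rw [dotProduct_sub]
    refine ⟨by omega, fun hj => ?_⟩
    rw [h1.2 hj, h2.2 hj, sub_self]

theorem good_YE {p : ℕ} (hp : 1 < p) (l : ℝ) (μ : A → Option ι → ℤ) (co : Option ι → A)
    (hco : ∀ o u, μ (co o) ⬝ᵥ u = u o)
    (H : ∀ e : Option ι → ℤ, e ≠ 0 → (∀ j, 0 ≤ μ j ⬝ᵥ e) → ∃ d : Option ι → ℤ,
      (∀ j, μ j ⬝ᵥ e = 0 → μ j ⬝ᵥ d = 0) ∧ ((∑ k, d (some k) : ℤ) : ℝ) ≠ l * d none) (n : ℕ) :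
    ∀ E : Finset A, #Eᶜ = n → ∀ b : A → ℤ, (∀ o, 0 ≤ b (co o)) → Good p l (sY p (YE μ E b)) := by
  induction n using Nat.strong_induction_on with
  | _ n ih =>
  intro E hE b hb
  by_cases hfin : (YE μ E b).Finite
  · exact good_fin p l hfin
  obtain ⟨e₀, he₀, he⟩ := ex_dir μ E b hfin
  obtain ⟨e, he1, he2⟩ : ∃ e : Option ι → ℤ, (∀ j, 0 ≤ μ j ⬝ᵥ e ∧ (j ∈ E → μ j ⬝ᵥ e = 0)) ∧
      ((∑ k, e (some k) : ℤ) : ℝ) ≠ l * e none := by
    by_cases hc : ((∑ k, e₀ (some k) : ℤ) : ℝ) = l * e₀ none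
    · obtain ⟨d, hd1, hd2⟩ := H e₀ he₀ fun j => (he j).1
      set K : ℤ := ∑ j, |μ j ⬝ᵥ d| with hK
      refine ⟨K • e₀ + d, fun j => ?_, fun h => hd2 ?_⟩
      · rw [dotProduct_add, dotProduct_smul, smul_eq_mul]
        have h1 : |μ j ⬝ᵥ d| ≤ K :=
          single_le_sum (f := fun j => |μ j ⬝ᵥ d|) (fun _ _ => abs_nonneg _) (mem_univ j)
        refine ⟨?_, fun hj => by rw [hd1 j ((he j).2 hj), (he j).2 hj]; simp⟩
        by_cases h0 : μ j ⬝ᵥ e₀ = 0
        · rw [hd1 j h0, h0]
          simp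
        · have h2 : 1 ≤ μ j ⬝ᵥ e₀ := by
            have := (he j).1
            omega
          have h3 := neg_abs_le (μ j ⬝ᵥ d)
          have h4 := abs_nonneg (μ j ⬝ᵥ d)
          nlinarith
      · simp only [Pi.add_apply, Pi.smul_apply, smul_eq_mul, sum_add_distrib, ← mul_sum] at h
        push_cast at h hc ⊢
        linear_combination h - K * hc
    · exact ⟨e₀, he, hc⟩
  have hnn : ∀ o, 0 ≤ e o := fun o => by
    rw [← hco o e]
    exact (he1 _).1
  set N : ℕ := (e none).toNat with hN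
  set ex : ι → ℕ := fun k => (e (some k)).toNat with hex
  have hz : zq N ex = e := by
    funext o
    cases o with
    | none => simp [zq, hN, hnn]
    | some k => simp [zq, hex, hnn]
  have h1 := good_raise hp l μ E (fun b => ∀ o, 0 ≤ b (co o))
    (fun b b' h h' o => (h o).trans (h' _))
    (fun j hj b hb => ih _ (by
      rw [← hE]
      exact card_lt_card (compl_ssubset_compl.2 (ssubset_insert hj))) _ rfl b hb)
    _ (fun j => (μ j ⬝ᵥ e).toNat) b rfl (fun j hj => by rw [(he1 j).2 hj]; rfl) hb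
  refine Good.of_shift (((p : ℂ)⁻¹) ^ (∑ k, ex k)) N (fun T hT h => he2 ?_) ?_
  · have h2 := congrArg norm h
    have hp1 : (1 : ℝ) < p := by exact_mod_cast hp
    have hp0 : (0 : ℝ) < p := by linarith
    rw [norm_mul, norm_pow, norm_pow, norm_inv, hT, Complex.norm_natCast, norm_one, inv_pow,
      inv_mul_eq_one₀ (by positivity), ← Real.rpow_natCast, ← Real.rpow_natCast,
      ← Real.rpow_mul hp0.le] at h2
    have h3 := (Real.rpow_right_inj hp0 hp1.ne').1 h2
    rw [← hz]
    simp only [zq, Option.elim_some, Option.elim_none]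
    push_cast at h3 ⊢
    exact h3
  · refine h1.eventually 0 fun θ _ => ?_
    rw [sY_shift p (Y := YE μ E b) (Y' := YE μ E fun j => b j + ((μ j ⬝ᵥ e).toNat : ℤ)) N ex
      (fun u hu o => by
        rw [← hco o u]
        exact (hb o).trans (hu _).1)]
    intro u
    rw [hz]
    refine forall_congr' fun j => ?_
    have := (he1 j).1
    beta_reduce
    rw [dotProduct_sub, Int.toNat_of_nonneg this]
    constructor
    · rintro ⟨h2, h3⟩
      exact ⟨by omega, fun hj => by have := h3 hj; omega⟩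
    · rintro ⟨h2, h3⟩
      exact ⟨by omega, fun hj => by have := h3 hj; omega⟩

theorem cast_dot {O : Type} [Fintype O] (v u : O → ℤ) :
    ((v ⬝ᵥ u : ℤ) : ℚ) = (fun o => (v o : ℚ)) ⬝ᵥ fun o => (u o : ℚ) := by
  simp [dotProduct]

end RatAux

open RatAux in
theorem rat : RatStmt := by
  classical
  intro ι α _ _ _ p l lam β st hp H
  obtain ⟨M, hM, n, hn⟩ := clear_den (fun q : α × Option ι => lam q.1 q.2)
  have hM' : (0 : ℚ) < M := by exact_mod_cast hM
  set μ : α ⊕ Option ι → Option ι → ℤ :=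
    Sum.elim (fun j o => n (j, o)) (fun o => Pi.single o 1) with hμ
  have hco : ∀ o u, μ (Sum.inr o) ⬝ᵥ u = u o := fun o u => by simp [hμ]
  have hl : ∀ j (u : Option ι → ℤ),
      ((μ (Sum.inl j) ⬝ᵥ u : ℤ) : ℚ) = M * (lam j ⬝ᵥ fun o => (u o : ℚ)) := by
    intro j u
    rw [cast_dot]
    simp only [hμ, Sum.elim_inl, hn, dotProduct, mul_sum, mul_assoc]
  set b : α ⊕ Option ι → ℤ :=
    Sum.elim (fun j => if st j then ⌊M * β j⌋ + 1 else ⌈M * β j⌉) (fun _ => 0) with hb
  have key := good_YE hp l μ Sum.inr hco (fun e he hpos => by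
    obtain ⟨d, hd1, hd2, hd3⟩ := H (fun o => (e o : ℚ))
      (fun h => he (funext fun o => by simpa using congrFun h o))
      (fun o => by
        have := hpos (Sum.inr o)
        rw [hco] at this
        exact_mod_cast this)
      (fun j => by
        have h1 : (0 : ℚ) ≤ (μ (Sum.inl j) ⬝ᵥ e : ℤ) := by exact_mod_cast hpos (Sum.inl j)
        rw [hl] at h1
        exact (mul_nonneg_iff_of_pos_left hM').1 h1)
    obtain ⟨N, hN, d', hd'⟩ := clear_den d
    have hN' : (0 : ℝ) < N := by exact_mod_cast hN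
    refine ⟨d', fun j hj => ?_, fun h => hd3 ?_⟩
    · cases j with
      | inl j =>
        have h1 : ((μ (Sum.inl j) ⬝ᵥ e : ℤ) : ℚ) = 0 := by rw [hj, Int.cast_zero]
        rw [hl] at h1
        have h2 := hd2 j ((mul_eq_zero.1 h1).resolve_left hM'.ne')
        have h3 : (fun o => (d' o : ℚ)) = (N : ℚ) • d := funext fun o => hd' o
        have h4 := hl j d'
        rw [h3, dotProduct_smul, h2, smul_zero, mul_zero] at h4
        exact_mod_cast h4
      | inr o =>
        rw [hco] at hj ⊢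
        have h1 := hd' o
        rw [hd1 o (by simp [hj]), mul_zero] at h1
        exact_mod_cast h1
    · have h1 : ∀ o, (d' o : ℝ) = N * (d o : ℝ) := fun o => by exact_mod_cast hd' o
      push_cast at h ⊢
      simp only [h1, ← mul_sum] at h
      apply mul_left_cancel₀ hN'.ne'
      linear_combination h) _ ∅ rfl b (fun o => le_refl _)
  refine key.eventually 0 fun θ _ => tsum_congr fun L => ?_
  have hq : (fun o => ((zq θ L o : ℤ) : ℚ)) = qq θ fun k => L k := by
    funext o
    cases o <;> simp [zq, qq]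
  unfold tm
  refine if_congr ?_ rfl rfl
  simp only [YE, Set.mem_ofPred_eq, notMem_empty, false_imp_iff, and_true, Sum.forall]
  have h0 : ∀ o, b (Sum.inr o) ≤ μ (Sum.inr o) ⬝ᵥ zq θ L := fun o => by
    rw [hco]
    cases o <;> simp [hb, zq]
  rw [and_iff_left h0]
  refine forall_congr' fun j => ?_
  have h1 := hl j (zq θ L)
  rw [hq] at h1
  by_cases hs : st j
  · simp only [hb, Sum.elim_inl, hs, if_true, true_imp_iff, Int.add_one_le_iff, Int.floor_lt, h1]
    rw [mul_lt_mul_iff_right₀ hM']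
    exact ⟨fun h => h.2, fun h => ⟨h.le, h⟩⟩
  · simp only [hb, Sum.elim_inl, hs, if_false, false_imp_iff, and_true, Int.ceil_le, h1]
    rw [mul_le_mul_iff_right₀ hM']

end Pool.Agent.MP_5d9b3c_ag.H48N
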