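import Pool.Agent.MP_5d9b3c_ag.H48N.BasicK

/-!
From the leading terms to the operators.
-/

namespace Pool.Agent.MP_5d9b3c_ag.H48N

open Finset

namespace RedAux

variable {X ι : Type}

/-- The part of total degree below `n`. -/
def Lo (Y Y' : Set X) (N : X → ℕ) (m n : ℕ) : Finset ι → Set X :=
  fun J => Y' ∪ {v | v ∈ Y \ Y' ∧ N v + m * #J < n}

/-- The layer of total degree `n`. -/
def La (Y Y' : Set X) (N : X → ℕ) (m n : ℕ) : Finset ι → Set X :=
  fun J => {v | v ∈ Y \ Y' ∧ N v + m * #J = n}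

end RedAux

open RedAux in
theorem red : RedStmt := by
  intro X ι _ _ D F Y Y' deg m hD hY s1 s2 hm hN hF hE
  choose! N hN using hN
  have hm' : (0 : ℚ) < m := by exact_mod_cast hm
  have hF1 : ∀ i, ∀ u ∈ Y \ Y',
      F i (Finsupp.single u 1) ∈ Su {v | v ∈ Y \ Y' ∧ N v = N u + m} := fun i u hu =>
    Su_mono (fun v hv => ⟨hv.1, by
      have : (N v : ℚ) = N u + m := by rw [← hN v hv.1, ← hN u hu, hv.2]; ring
      exact_mod_cast this⟩) (hF i u hu).1
  have hF2 : ∀ i, ∀ u ∈ Y \ Y', D i (Finsupp.single u 1) - F i (Finsupp.single u 1) ∈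
      Su (Y' ∪ {v | v ∈ Y \ Y' ∧ N v < N u + m}) := fun i u hu =>
    Su_mono (Set.union_subset_union_right _ (fun v hv => ⟨hv.1, by
      have : (N v : ℚ) < N u + m := by
        rw [← hN v hv.1, ← hN u hu]
        have := mul_lt_mul_of_pos_left hv.2 hm'
        linarith
      exact_mod_cast this⟩)) (hF i u hu).2
  have hc : ∀ (J : Finset ι) i, i ∉ J → m * #(insert i J) = m * #J + m := fun J i hi => by
    rw [card_insert_of_notMem hi, mul_add, mul_one]
  have sLa : ∀ n, Stab F (La Y Y' N m n) := fun n J i hi u hu =>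
    Su_mono (fun v hv => ⟨hv.1, by have := hu.2; have := hv.2; have := hc J i hi; omega⟩)
      (hF1 i u hu.1)
  have sCo : ∀ n, Stab F (fun J => (Y \ Y') \ La Y Y' N m n J) := fun n J i hi u hu =>
    Su_mono (fun v hv => ⟨hv.1, fun h => hu.2 ⟨hu.1, by
      have := h.2; have := hv.2; have := hc J i hi; omega⟩⟩) (hF1 i u hu.1)
  have dLa : ∀ n (J : Finset ι), ∀ i ∉ J, ∀ u ∈ La Y Y' N m n (insert i J),
      D i (Finsupp.single u 1) - F i (Finsupp.single u 1) ∈ Su (Lo Y Y' N m n J) :=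
    fun n J i hi u hu => Su_mono (Set.union_subset_union_right _ (fun v hv => ⟨hv.1, by
      have := hu.2; have := hv.2; have := hc J i hi; omega⟩)) (hF2 i u hu.1)
  have sLo : ∀ n, Stab D (Lo Y Y' N m n) := fun n J i hi u hu => by
    rcases hu with hu | hu
    · exact Su_mono Set.subset_union_left (s2 J i hi u hu)
    · have h1 : F i (Finsupp.single u 1) ∈ Su (Lo Y Y' N m n J) :=
        Su_mono (fun v hv => Or.inr ⟨hv.1, by
          have := hu.2; have := hv.2; have := hc J i hi; omega⟩) (hF1 i u hu.1)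
      have h2 : D i (Finsupp.single u 1) - F i (Finsupp.single u 1) ∈ Su (Lo Y Y' N m n J) :=
        Su_mono (Set.union_subset_union_right _ (fun v hv => ⟨hv.1, by
          have := hu.2; have := hv.2; have := hc J i hi; omega⟩)) (hF2 i u hu.1)
      simpa using add_mem h1 h2
  have up : ∀ n (J : Finset ι), Lo Y Y' N m (n + 1) J ⊆ La Y Y' N m n J ∪ Lo Y Y' N m n J := by
    rintro n J u (hu | hu)
    · exact Or.inr (Or.inl hu)
    · rcases Nat.lt_succ_iff_lt_or_eq.1 hu.2 with h | h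
      · exact Or.inr (Or.inr ⟨hu.1, h⟩)
      · exact Or.inl ⟨hu.1, h⟩
  have dis : ∀ n (J : Finset ι), ∀ u ∈ La Y Y' N m n J, u ∉ Lo Y Y' N m n J := by
    rintro n J u hu (h | h)
    · exact hu.1.2 h
    · exact h.2.ne hu.2
  have eLa : ∀ n, Ex F 1 (La Y Y' N m n) (emp X ι) := fun n =>
    Ex.inter (W := fun _ => Y \ Y') (Z := fun J => (Y \ Y') \ La Y Y' N m n J)
      (fun e d1 i1 i2 => by
        obtain ⟨e1, d2, i3, -, i4⟩ := i1.split (Y := La Y Y' N m n)
          (Z := fun J => (Y \ Y') \ La Y Y' N m n J) d1 (fun J u hu => by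
            by_cases h : u ∈ La Y Y' N m n J
            · exact Or.inl h
            · exact Or.inr ⟨hu, h⟩)
        have i5 : In (fun J => (Y \ Y') \ La Y Y' N m n J) (kd F e1) := by
          simpa [kd_sub] using i2.sub (i4.kd (sCo n))
        obtain ⟨e2, d3, i6, i7⟩ := hE e1 d2 (i3.mono (fun J u hu => hu.1))
          (((i3.kd (sLa n)).inter i5).mono (fun J u hu => hu.2.2 hu.1))
        rw [in_emp, sub_eq_zero] at i7
        exact ⟨e2, d3, i6, by rwa [← i7]⟩)
      (sLa n) (sCo n) (fun J u hu => hu.2.2 hu.1) (fun J u hu => hu.elim)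
      (fun J u hu => by
        by_cases h : u ∈ La Y Y' N m n J
        · exact Or.inl h
        · exact Or.inr ⟨hu, h⟩) (fun J u hu => hu.1)
  have eLo : ∀ n, Ex D 1 (fun _ => Y) (Lo Y Y' N m n) := fun n =>
    Ex.chain hD (fun k => Lo Y Y' N m (n + k))
      (fun k => (eLa (n + k)).chg (sLo _) (sLa _) (up _)
        (fun J u hu => Or.inr ⟨hu.1, by have := hu.2; omega⟩) (dis _) (dLa _))
      (fun k J => Set.union_subset_union_right _ (fun v hv => ⟨hv.1, by have := hv.2; omega⟩))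
      (fun k J => Set.union_subset hY (fun v hv => hv.1.1))
      (fun J u hu => by
        by_cases h : u ∈ Y'
        · exact ⟨0, Or.inl h⟩
        · exact ⟨N u + m * #J + 1, Or.inr ⟨⟨hu, h⟩, by omega⟩⟩)
  refine ⟨?_, fun u0 hu0 e d1 i1 h1 => ?_⟩
  · have : Lo Y Y' N m 0 = fun _ : Finset ι => Y' := by
      funext J
      simp [Lo]
    rw [← this]
    exact eLo 0
  · have h2 : Finsupp.single u0 (1 : ℂ) ∈ Su (La Y Y' N m (N u0) (∅ : Finset ι)) :=
      single_mem_Su (show u0 ∈ La Y Y' N m (N u0) (∅ : Finset ι) from ⟨hu0, by simp⟩) 1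
    have h1' : ∀ n, kd D e ∅ - Finsupp.single u0 1 ∈ Su (Lo Y Y' N m n (∅ : Finset ι)) :=
      fun n => Su_mono Set.subset_union_left h1
    obtain ⟨e2, d2, -, i2⟩ := eLo (N u0 + 1) e d1 i1 (d1.kd.in_zero (by
      have h3 : Finsupp.single u0 (1 : ℂ) ∈ Su (Lo Y Y' N m (N u0 + 1) (∅ : Finset ι)) :=
        single_mem_Su (show u0 ∈ Lo Y Y' N m (N u0 + 1) (∅ : Finset ι) from
          Or.inr ⟨hu0, by simp⟩) 1
      simpa using add_mem (h1' _) h3))
    obtain ⟨e1, d3, i3, -, i4⟩ := i2.split (d1.sub d2.kd) (up _)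
    refine ⟨e1, d3, i3.mono (fun J u hu => hu.1), ?_⟩
    have h4 := i4.kd (sLo _) ∅
    rw [kd_sub, kd_sub_kd hD] at h4
    have h5 := i3.kd_sub (dLa _) ∅
    have h6 : kd F e1 ∅ - Finsupp.single u0 1 ∈ Su (Lo Y Y' N m (N u0) (∅ : Finset ι)) := by
      have := sub_mem (sub_mem (h1' _) h4) h5
      simpa using this
    have h7 := sub_mem (i3.kd (sLa _) ∅) h2
    exact sub_eq_zero.1 (Su_empty (Su_mono (fun u hu => dis _ _ u hu.1 hu.2) (Su_inter h7 h6)))

end Pool.Agent.MP_5d9b3c_ag.H48N
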