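import Pool.Agent.MP_5d9b3c_ag.H48N.BasicP

/-!
Stability of faces, points in the relative interior of a face, generic small vectors.
-/

namespace Pool.Agent.MP_5d9b3c_ag.H48N

open Finset Pool.Agent.MP_5d9b3c_ag.H22

namespace StabAux

/-- An infeasible system stays infeasible after a small relaxation. -/
lemma aff {ι γ : Type} [Fintype ι] [Fintype γ] (u : γ → ι → ℚ) (b : γ → ℚ) :
    ∃ η : ℚ, 0 < η ∧ ∀ x : ι → ℚ, (∀ j, b j - η ≤ x ⬝ᵥ u j) → ∃ w, Feas u b w := by
  rcases farkas_rat (M := (ι → ℚ) × ℚ) univ (fun j => (-u j, b j)) (0, 1) with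
    ⟨f, h1, h2⟩ | ⟨t, h1, h2⟩
  · obtain ⟨d, hd⟩ := exists_dot (f.comp (LinearMap.inl ℚ (ι → ℚ) ℚ))
    refine ⟨1, one_pos, fun _ _ => ⟨(f (0, 1))⁻¹ • d, fun j => ?_⟩⟩
    have e : ((-u j, b j) : (ι → ℚ) × ℚ) = -(u j, 0) + b j • (0, 1) := by simp
    have h3 := h2 j (mem_univ j)
    rw [e, map_add, map_neg, map_smul, smul_eq_mul] at h3
    have h4 : d ⬝ᵥ u j = f (u j, 0) := hd (u j)
    rw [smul_dotProduct, smul_eq_mul, h4, le_inv_mul_iff₀' h1]
    linarith
  · have hS : 0 ≤ ∑ j, t j := sum_nonneg fun j _ => h1 j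
    refine ⟨1 / (∑ j, t j + 1), by positivity, fun x hx => ?_⟩
    exfalso
    have a1 : (0 : ι → ℚ) = ∑ j, t j • -u j := by
      simpa [Prod.fst_sum] using congrArg Prod.fst h2
    have a2 : (1 : ℚ) = ∑ j, t j * b j := by
      simpa [Prod.snd_sum] using congrArg Prod.snd h2
    have a3 : ∑ j, t j * (x ⬝ᵥ u j) = 0 := by
      have := congrArg (fun y => x ⬝ᵥ y) a1
      simp only [dotProduct_zero, dotProduct_sum, dotProduct_smul, dotProduct_neg, smul_eq_mul,
        mul_neg, sum_neg_distrib] at this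
      linarith
    have a4 : ∑ j, t j * (b j - 1 / (∑ j, t j + 1)) ≤ ∑ j, t j * (x ⬝ᵥ u j) :=
      sum_le_sum fun j _ => mul_le_mul_of_nonneg_left (hx j) (h1 j)
    simp only [mul_sub, sum_sub_distrib, ← sum_mul] at a4
    rw [a3, ← a2, mul_one_div, sub_nonpos, le_div_iff₀ (by positivity)] at a4
    linarith

end StabAux

theorem stab : StabStmt := by
  intro ι α _ _ v β
  classical
  have key : ∀ S : Finset α, ∃ η : ℚ, 0 < η ∧ ∀ x : ι → ℚ, (∀ j, β j - η ≤ x ⬝ᵥ v j) →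
      (∀ j ∈ S, x ⬝ᵥ v j ≤ β j + η) → ∃ w, Feas v β w ∧ S ⊆ Tt v β w := fun S => by
    obtain ⟨η, h0, h⟩ := StabAux.aff (Sum.elim v fun j => if j ∈ S then -v j else 0)
      (Sum.elim β fun j => if j ∈ S then -β j else 0)
    refine ⟨η, h0, fun x h1 h2 => ?_⟩
    obtain ⟨w, hw⟩ := h x (by
      rintro (j | j)
      · exact h1 j
      · by_cases hj : j ∈ S
        · simp only [Sum.elim_inr, if_pos hj, dotProduct_neg]
          linarith [h2 j hj]
        · simp only [Sum.elim_inr, if_neg hj, dotProduct_zero]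
          linarith)
    refine ⟨w, fun j => hw (Sum.inl j), fun j hj => mem_Tt.2 (le_antisymm ?_ (hw (Sum.inl j)))⟩
    have := hw (Sum.inr j)
    simp only [Sum.elim_inr, if_pos hj, dotProduct_neg] at this
    linarith
  choose η h0 h using key
  obtain ⟨S₀, hS⟩ := Finite.exists_min η
  exact ⟨η S₀, h0 _, fun x S h1 h2 => h S x (fun j => by linarith [h1 j, hS S])
    fun j hj => by linarith [h2 j hj, hS S]⟩

theorem clos : ClosStmt := by
  intro ι α _ _ v β S hex
  classical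
  have hn : ∃ n, ∃ w, (Feas v β w ∧ S ⊆ Tt v β w) ∧ #(Tt v β w) = n :=
    let ⟨w, hw⟩ := hex
    ⟨_, w, hw, rfl⟩
  obtain ⟨w, ⟨h1, h2⟩, h3⟩ := Nat.find_spec hn
  refine ⟨w, h1, h2, fun w' h4 h5 => ?_⟩
  have e : ∀ j, ((1 / 2 : ℚ) • (w + w')) ⬝ᵥ v j = 1 / 2 * (w ⬝ᵥ v j + w' ⬝ᵥ v j) := fun j => by
    rw [smul_dotProduct, add_dotProduct, smul_eq_mul]
  have a1 : Tt v β ((1 / 2 : ℚ) • (w + w')) ⊆ Tt v β w ∩ Tt v β w' := fun j hj => by
    rw [mem_Tt, e] at hj
    rw [mem_inter, mem_Tt, mem_Tt]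
    constructor <;> linarith [h1 j, h4 j]
  have a2 := Nat.find_min' hn ⟨(1 / 2 : ℚ) • (w + w'), ⟨fun j => by
    rw [e]; linarith [h1 j, h4 j], fun j hj => by
    rw [mem_Tt, e, mem_Tt.1 (h2 hj), mem_Tt.1 (h5 hj)]; ring⟩, rfl⟩
  rw [← eq_of_subset_of_card_le (a1.trans inter_subset_left) (h3 ▸ a2)]
  exact a1.trans inter_subset_right

theorem gen : GenStmt := by
  intro ι α _ _ A f r h hh
  classical
  induction A using Finset.induction_on with
  | empty => exact ⟨0, by simp, by simp, by simp⟩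
  | insert k A hk ih =>
    obtain ⟨o, h1, h2, h3⟩ := ih
    obtain ⟨t, ht, hb⟩ := (Set.Ioo_infinite hh).exists_notMem_finite
      ((Set.finite_range fun j => (r j - ((f j ⬝ᵥ o : ℚ) : ℝ)) / (f j k : ℝ)).preimage
        (Rat.cast_injective (α := ℝ)).injOn)
    refine ⟨o + Pi.single k t, fun i hi => ?_, fun i hi => ?_, fun j hj => ?_⟩
    · rcases mem_insert.1 hi with rfl | hi
      · simpa [h2 i hk] using ht
      · have : i ≠ k := fun e => hk (e ▸ hi)
        simpa [this] using h1 i hi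
    · rw [mem_insert, not_or] at hi
      simp [hi.1, h2 i hi.2]
    · rw [dotProduct_add, dotProduct_single]
      by_cases h0 : f j k = 0
      · obtain ⟨i, hi, h4⟩ := hj
        rw [h0, zero_mul, add_zero]
        exact h3 j ⟨i, (mem_insert.1 hi).resolve_left fun e => h4 (e ▸ h0), h4⟩
      · intro e
        refine hb ⟨j, ?_⟩
        have : (f j k : ℝ) ≠ 0 := by exact_mod_cast h0
        push_cast at e
        rw [div_eq_iff this]
        linarith

end Pool.Agent.MP_5d9b3c_ag.H48N
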