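import Pool.Agent.MP_5d9b3c_ag.H48N.Spec

/-!
Summation over the orders of the coordinates.
-/

namespace Pool.Agent.MP_5d9b3c_ag.H48N

open Finset Pool.Agent.MP_5d9b3c_ag.H22 Filter Topology

namespace SumAux

variable {ι : Type} [Fintype ι] [DecidableEq ι]

lemma summable_geo {r : ℝ} (h0 : 0 ≤ r) (h1 : r < 1) :
    Summable (fun L : ι → ℕ => r ^ (∑ k, L k)) := by
  refine summable_of_sum_le (c := ∏ _k : ι, (1 - r)⁻¹) (fun L => pow_nonneg h0 _) (fun s => ?_)
  obtain ⟨N, hN⟩ : ∃ N : ℕ, s ⊆ Fintype.piFinset (fun _ : ι => range N) :=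
    ⟨s.sup (fun L => ∑ k, L k) + 1, fun L hL => Fintype.mem_piFinset.2 (fun k => mem_range.2
      (Nat.lt_succ_of_le ((single_le_sum (f := L) (fun _ _ => Nat.zero_le _) (mem_univ k)).trans
        (le_sup (f := fun L : ι → ℕ => ∑ k, L k) hL))))⟩
  refine (sum_le_sum_of_subset_of_nonneg hN (fun L _ _ => pow_nonneg h0 _)).trans ?_
  simp only [← prod_pow_eq_pow_sum]
  rw [← prod_univ_sum (fun _ : ι => range N) (fun _ j => r ^ j)]
  refine prod_le_prod (fun _ _ => sum_nonneg (fun _ _ => pow_nonneg h0 _)) (fun _ _ => ?_)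
  rw [← tsum_geometric_of_lt_one h0 h1]
  exact (summable_geometric_of_lt_one h0 h1).sum_le_tsum _ (fun _ _ => pow_nonneg h0 _)

/-- The points above `L0` that agree with it outside `B`. -/
def Q (B : Finset ι) (L0 : ι → ℕ) : Set (ι → ℕ) := {L | L0 ≤ L ∧ ∀ k ∉ B, L k = L0 k}

omit [Fintype ι] in
lemma Q_split {B : Finset ι} {i : ι} (hi : i ∉ B) (L0 : ι → ℕ) (f : (ι → ℕ) → ℂ) (L : ι → ℕ) :
    (Q (insert i B) L0).indicator f L =
      (Q B L0).indicator f L + (Q (insert i B) (L0 + Pi.single i 1)).indicator f L := by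
  have e : ∀ k, k ≠ i → (L0 + Pi.single i 1 : ι → ℕ) k = L0 k := fun k hk => by simp [hk]
  have e' : (L0 + Pi.single i 1 : ι → ℕ) i = L0 i + 1 := by simp
  have n : ∀ k, k ∉ insert i B → k ≠ i := fun k hk h => hk (h ▸ mem_insert_self _ _)
  by_cases h : L ∈ Q (insert i B) L0
  · rw [Set.indicator_of_mem h]
    by_cases h1 : L i = L0 i
    · have h2 : L ∈ Q B L0 := ⟨h.1, fun k hk => by
        by_cases h3 : k = i
        · rw [h3, h1]
        · exact h.2 k (fun h4 => (mem_insert.1 h4).elim h3 hk)⟩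
      have h3 : L ∉ Q (insert i B) (L0 + Pi.single i 1) := fun h4 => by
        have : (L0 + Pi.single i 1 : ι → ℕ) i ≤ L i := h4.1 i
        omega
      rw [Set.indicator_of_mem h2, Set.indicator_of_notMem h3, add_zero]
    · have h2 : L ∉ Q B L0 := fun h3 => h1 (h3.2 i hi)
      have h3 : L ∈ Q (insert i B) (L0 + Pi.single i 1) := ⟨fun k => by
        have : L0 k ≤ L k := h.1 k
        show (L0 + Pi.single i 1 : ι → ℕ) k ≤ L k
        by_cases h3 : k = i
        · subst h3
          omega
        · rw [e k h3]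
          exact this, fun k hk => by rw [e k (n k hk), h.2 k hk]⟩
      rw [Set.indicator_of_mem h3, Set.indicator_of_notMem h2, zero_add]
  · have h2 : L ∉ Q B L0 := fun h3 =>
      h ⟨h3.1, fun k hk => h3.2 k (fun h4 => hk (mem_insert_of_mem h4))⟩
    have h3 : L ∉ Q (insert i B) (L0 + Pi.single i 1) := fun h3 =>
      h ⟨le_self_add.trans h3.1, fun k hk => by rw [h3.2 k hk, e k (n k hk)]⟩
    rw [Set.indicator_of_notMem h, Set.indicator_of_notMem h2, Set.indicator_of_notMem h3, add_zero]

omit [Fintype ι] in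
/-- Telescoping in all directions of `B`. -/
lemma core (G : Finset ι → (ι → ℕ) → ℂ) (hs : ∀ B, Summable (G B))
    (hr : ∀ B i, i ∉ B → ∀ L, G B L = G (insert i B) L - G (insert i B) (L + Pi.single i 1))
    (B : Finset ι) (L0 : ι → ℕ) : ∑' L, (Q B L0).indicator (G ∅) L = G B L0 := by
  induction B using Finset.induction_on generalizing L0 with
  | empty =>
    rw [tsum_eq_single L0 (fun L hL => Set.indicator_of_notMem
      (fun h => hL (funext (fun k => h.2 k (notMem_empty k)))) _)]
    exact Set.indicator_of_mem (show L0 ∈ Q ∅ L0 from ⟨le_rfl, fun _ _ => rfl⟩) _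
  | insert i B hi ih =>
    set D : (ι → ℕ) → ℂ :=
      fun L1 => ∑' L, (Q (insert i B) L1).indicator (G ∅) L - G (insert i B) L1 with hD
    have h1 : ∀ L1, D L1 = D (L1 + Pi.single i 1) := fun L1 => by
      simp only [hD]
      rw [tsum_congr (Q_split hi L1 (G ∅)),
        ((hs ∅).indicator _).tsum_add ((hs ∅).indicator _), ih, hr B i hi]
      ring
    have h2 : ∀ n : ℕ, D (L0 + Pi.single i n) = D L0 := fun n => by
      induction n with
      | zero => simp
      | succ n ih => rw [Pi.single_add, ← add_assoc, ← h1, ih]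
    have h3 : Tendsto (fun n : ℕ => G (insert i B) (L0 + Pi.single i n)) atTop (𝓝 0) := by
      have := (hs (insert i B)).comp_injective (i := fun n : ℕ => L0 + Pi.single i n)
        (fun n m h => by simpa using congrFun h i)
      exact this.tendsto_atTop_zero
    have h4 : Tendsto (fun n : ℕ => ∑' L, (Q (insert i B) (L0 + Pi.single i n)).indicator (G ∅) L)
        atTop (𝓝 (∑' _L : ι → ℕ, (0 : ℂ))) := by
      refine tendsto_tsum_of_dominated_convergence (bound := fun L => ‖G ∅ L‖) (hs ∅).norm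
        (fun L => tendsto_const_nhds.congr' ?_)
        (Eventually.of_forall (fun n L => norm_indicator_le_norm_self _ _))
      filter_upwards [eventually_gt_atTop (L i)] with n hn
      refine (Set.indicator_of_notMem (fun h => ?_) _).symm
      have := h.1 i
      simp only [Pi.add_apply, Pi.single_eq_same] at this
      omega
    have h5 : Tendsto (fun n : ℕ => D (L0 + Pi.single i n)) atTop (𝓝 0) := by
      simpa using h4.sub h3
    simp only [h2, tendsto_const_nhds_iff] at h5
    exact sub_eq_zero.1 h5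

omit [Fintype ι] [DecidableEq ι] in
/-- Sums that vanish on every fibre. -/
lemma fib (f : (ι → ℕ) → ℂ) (hs : Summable f) (B : Finset ι) (Y : Set (ι → ℕ))
    (hY : ∀ L L', (∀ k ∉ B, L k = L' k) → L ∈ Y → L' ∈ Y)
    (h : ∀ L ∈ Y, ∃ L0 : ι → ℕ, (∀ k ∉ B, L0 k = L k) ∧ ∑' L', (Q B L0).indicator f L' = 0 ∧
      ∀ L', (∀ k ∉ B, L' k = L k) → ¬ L0 ≤ L' → f L' = 0) : HasSum (Y.indicator f) 0 := by
  have h1 := (hs.indicator Y).hasSum
  have h2 := h1.tsum_fiberwise (fun (L : ι → ℕ) (k : {k // k ∉ B}) => L k)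
  have h3 : ∀ u : {k // k ∉ B} → ℕ,
      ∑' L : (fun (L : ι → ℕ) (k : {k // k ∉ B}) => L k) ⁻¹' {u}, Y.indicator f L = 0 := by
    intro u
    by_cases h4 : ∃ L ∈ Y, (fun k : {k // k ∉ B} => L k) = u
    · obtain ⟨L, hL, rfl⟩ := h4
      obtain ⟨L0, h5, h6, h7⟩ := h L hL
      rw [_root_.tsum_subtype _ (Y.indicator f), ← h6]
      refine tsum_congr (fun L' => ?_)
      by_cases h8 : ∀ k ∉ B, L' k = L k
      · refine (Set.indicator_of_mem ?_ _).trans ?_
        · exact funext (fun k => h8 k k.2)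
        rw [Set.indicator_of_mem (hY L L' (fun k hk => (h8 k hk).symm) hL)]
        by_cases h9 : L0 ≤ L'
        · rw [Set.indicator_of_mem (show L' ∈ Q B L0 from
            ⟨h9, fun k hk => by rw [h8 k hk, h5 k hk]⟩)]
        · rw [h7 L' h8 h9, Set.indicator_of_notMem (fun h : L' ∈ Q B L0 => h9 h.1)]
      · refine (Set.indicator_of_notMem (fun h => h8 (fun k hk => ?_)) _).trans ?_
        · exact congrFun (Set.mem_singleton_iff.1 (Set.mem_preimage.1 h)) ⟨k, hk⟩
        · rw [Set.indicator_of_notMem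
            (fun h : L' ∈ Q B L0 => h8 (fun k hk => by rw [h.2 k hk, h5 k hk]))]
    · refine (tsum_congr (g := fun _ => (0 : ℂ)) ?_).trans tsum_zero
      rintro ⟨L, hL⟩
      exact Set.indicator_of_notMem (fun h => h4 ⟨L, h, hL⟩) _
  simp only [h3] at h2
  rwa [h2.unique hasSum_zero] at h1

end SumAux

open SumAux in
theorem sumRow : SumStmt := by
  intro ι κ _ _ _ _ p hp a c θ
  set G : Finset ι → (ι → ℕ) → ℂ :=
    fun B L => ((p : ℂ)⁻¹) ^ (∑ k, L k) * EB p a c B (zz a θ L) with hG
  have hs : ∀ B, Summable (G B) := fun B => by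
    obtain ⟨C, hC⟩ := EE_bdd (p := p) (A := Aof a) (c := c) (fun _ => ker_chi) univ
      (univ \ B.map Function.Embedding.some)
    have h1 : (1 : ℝ) < p := by exact_mod_cast hp.out.one_lt
    refine Summable.of_norm_bounded (g := fun L => ((p : ℝ)⁻¹) ^ (∑ k, L k) * C)
      ((summable_geo (by positivity) (inv_lt_one_of_one_lt₀ h1)).mul_right C) (fun L => ?_)
    simp only [hG, norm_mul, norm_pow, norm_inv, Complex.norm_natCast]
    exact mul_le_mul_of_nonneg_left (hC _) (by positivity)
  have hr : ∀ B i, i ∉ B → ∀ L,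
      G B L = G (insert i B) L - G (insert i B) (L + Pi.single i 1) := fun B i hi L => by
    have h1 := congrFun (EE_rec (p := p) (A := Aof a) (c := c) (fun _ => ker_chi) univ
      (B := univ \ (insert i B).map Function.Embedding.some) (i := some i) (by simp)) (zz a θ L)
    have e1 : insert (some i) (univ \ (insert i B).map Function.Embedding.some) =
        univ \ B.map Function.Embedding.some := by
      ext o
      rcases o with _ | k
      · simp
      · by_cases h : k = i
        · simp [h, hi]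
        · simp [h]
    have e2 : zz a θ (L + Pi.single i 1) = zz a θ L - yv (Aof a) (some i) := by
      ext j
      simp [zz, yv, Aof, add_mul, sum_add_distrib, Pi.single_apply]
      ring
    have e3 : ∑ k, (L + Pi.single i 1 : ι → ℕ) k = ∑ k, L k + 1 := by
      simp [sum_add_distrib]
    rw [act_uu, e1] at h1
    simp only [hG, EB]
    rw [← h1, e2, e3]
    ring
  refine ⟨?_, fun B Y hY h => fib (G ∅) (hs ∅) B Y hY (fun L hL => ?_)⟩
  · have h1 := core G hs hr univ 0
    have h2 : Q (univ : Finset ι) 0 = Set.univ :=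
      Set.eq_univ_of_forall (fun L => ⟨fun _ => Nat.zero_le _, fun k hk => absurd (mem_univ k) hk⟩)
    rw [h2, Set.indicator_univ] at h1
    have h3 := (hs ∅).hasSum
    rw [h1] at h3
    simpa [hG] using h3
  · obtain ⟨L0, h1, h2, h3⟩ := h L hL
    refine ⟨L0, h1, ?_, fun L' h4 h5 => ?_⟩
    · rw [core G hs hr]
      simp only [hG, h2, mul_zero]
    · simp only [hG, h3 L' h4 h5, mul_zero]

end Pool.Agent.MP_5d9b3c_ag.H48N
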