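import Pool.Agent.MP_5d9b3c_ag.H48N.LP
import Pool.Agent.MP_5d9b3c_ag.H48N.Stab
import Pool.Agent.MP_5d9b3c_ag.H48N.Cert
import Pool.Agent.MP_5d9b3c_ag.H48N.Lift
import Pool.Agent.MP_5d9b3c_ag.H48N.Hall
import Pool.Agent.MP_5d9b3c_ag.H48N.Free
import Pool.Agent.MP_5d9b3c_ag.H48N.Sel
import Pool.Agent.MP_5d9b3c_ag.H48N.Rat
import Pool.Agent.MP_5d9b3c_ag.H48N.Sum
import Pool.Agent.MP_5d9b3c_ag.H48N.Uns
import Pool.Agent.MP_5d9b3c_ag.H48N.Col
import Pool.Agent.MP_5d9b3c_ag.H48N.Cols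
import Pool.Agent.MP_5d9b3c_ag.H48N.Box
import Pool.Agent.MP_5d9b3c_ag.H48N.Grid
import Pool.Agent.MP_5d9b3c_ag.H48N.Glob
import Pool.Agent.MP_5d9b3c_ag.H48N.Null
import Pool.Agent.MP_5d9b3c_ag.H48N.CM
import Pool.Agent.MP_5d9b3c_ag.H48N.Shell
import Pool.Agent.MP_5d9b3c_ag.H48N.Link
import Pool.Agent.MP_5d9b3c_ag.H48N.Red
import Pool.Agent.MP_5d9b3c_ag.H48N.One
import Pool.Agent.MP_5d9b3c_ag.H48N.Layer
import Pool.Agent.MP_5d9b3c_ag.H48N.Proj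
import Pool.Agent.MP_5d9b3c_ag.H48N.Kill
import Pool.Agent.MP_5d9b3c_ag.H48N.SV
import Pool.Agent.MP_5d9b3c_ag.H48N.Gamma
import Pool.Agent.MP_5d9b3c_ag.H48N.Fan
import Pool.Agent.MP_5d9b3c_ag.H48N.Dside

/-!
Assembly.
-/

namespace Pool.Agent.MP_5d9b3c_ag.H48N

theorem shell_all : ShellStmt := shell (cm ns (facet lp) gen) gen

theorem dside_all : DStmt :=
  dside (fan lp stab gamma) (layer (one red shell_all)) (link shell_all) proj kill sv

theorem grid_all : GridStmt :=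
  grid (sel stab clos lift) cols (geo gen) (box rat) sumRow (col (uns lift))

theorem glob_all : GlobStmt := glob dside_all (cert lp) (free lift (hall lift)) grid_all

end Pool.Agent.MP_5d9b3c_ag.H48N
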