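import Pool.Agent.MP_5d9b3c_ag.H48N.BasicP

/-!
Linear programs attain their optimum at a vertex; cones are cut out by their facets.
-/

namespace Pool.Agent.MP_5d9b3c_ag.H48N

open Finset Pool.Agent.MP_5d9b3c_ag.H22

namespace LPAux

variable {ι α : Type} [Fintype ι] [Fintype α] {v : α → ι → ℚ} {β : α → ℚ} {p : ι → ℚ}

lemma ex_dir (hp : Cone v univ p) {x : ι → ℚ} (h : ¬ Rigid v β x) :
    ∃ d : ι → ℚ, (∀ j ∈ Tt v β x, d ⬝ᵥ v j = 0) ∧ d ⬝ᵥ p ≤ 0 ∧ ∃ j, d ⬝ᵥ v j < 0 := by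
  simp only [Rigid, not_forall] at h
  obtain ⟨d, hd, j0, h0⟩ := h
  have hd' : ∀ j ∈ Tt v β x, (-d) ⬝ᵥ v j = 0 := fun j hj => by
    rw [neg_dotProduct, hd j hj, neg_zero]
  have key : ∀ e : ι → ℚ, e ⬝ᵥ p < 0 → ∃ j, e ⬝ᵥ v j < 0 := fun e he => by
    by_contra hn
    exact absurd (hp.dot_nonneg fun j _ => not_lt.1 fun h => hn ⟨j, h⟩) (not_le.2 he)
  rcases lt_trichotomy (d ⬝ᵥ p) 0 with h1 | h1 | h1
  · exact ⟨d, hd, h1.le, key d h1⟩
  · rcases lt_or_gt_of_ne h0 with h2 | h2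
    · exact ⟨d, hd, h1.le, j0, h2⟩
    · exact ⟨-d, hd', by rw [neg_dotProduct, h1, neg_zero], j0, by rw [neg_dotProduct]; linarith⟩
  · have h2 : (-d) ⬝ᵥ p < 0 := by rw [neg_dotProduct]; linarith
    exact ⟨-d, hd', h2.le, key _ h2⟩

lemma to_rigid (hp : Cone v univ p) (x : ι → ℚ) (hx : Feas v β x) :
    ∃ x', Feas v β x' ∧ Rigid v β x' ∧ x' ⬝ᵥ p ≤ x ⬝ᵥ p := by
  induction hn : Fintype.card α - #(Tt v β x) using Nat.strong_induction_on generalizing x with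
  | _ n ih =>
  by_cases hr : Rigid v β x
  · exact ⟨x, hx, hr, le_rfl⟩
  obtain ⟨d, h1, h2, j0, h3⟩ := ex_dir hp hr
  obtain ⟨θ, t0, t1, j, -, t2, t3⟩ := H48.push univ (fun j => x ⬝ᵥ v j - β j) (fun j => d ⬝ᵥ v j)
    (fun j _ => sub_nonneg.2 (hx j)) ⟨j0, mem_univ _, h3⟩
  have he : ∀ y, (x + θ • d) ⬝ᵥ y = x ⬝ᵥ y + θ * (d ⬝ᵥ y) := fun y => by
    rw [add_dotProduct, smul_dotProduct, smul_eq_mul]
  have hf : Feas v β (x + θ • d) := fun k => by
    have := t1 k (mem_univ _)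
    rw [he]
    linarith
  have hs : Tt v β x ⊂ Tt v β (x + θ • d) := by
    refine (ssubset_iff_of_subset fun k hk => mem_Tt.2 ?_).2 ⟨j, mem_Tt.2 ?_, fun e => ?_⟩
    · rw [he, h1 k hk, mem_Tt.1 hk, mul_zero, add_zero]
    · rw [he]
      linarith
    · exact t2.ne (h1 j e)
  have c1 := card_lt_card hs
  have c2 := card_le_univ (Tt v β (x + θ • d))
  obtain ⟨x', a, b, c⟩ := ih _ (by omega) (x + θ • d) hf rfl
  refine ⟨x', a, b, c.trans ?_⟩
  have := mul_nonpos_of_nonneg_of_nonpos t0 h2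
  rw [he]
  linarith

lemma ex_min (hp : Cone v univ p) (h : ∃ x, Feas v β x) :
    ∃ x, Feas v β x ∧ Rigid v β x ∧ ∀ y, Feas v β y → x ⬝ᵥ p ≤ y ⬝ᵥ p := by
  classical
  have hrep : ∀ S : Finset α, ∃ x, (∃ y, Feas v β y ∧ Rigid v β y ∧ Tt v β y = S) →
      Feas v β x ∧ Rigid v β x ∧ Tt v β x = S := fun S => by
    by_cases e : ∃ y, Feas v β y ∧ Rigid v β y ∧ Tt v β y = S
    · exact ⟨e.choose, fun _ => e.choose_spec⟩
    · exact ⟨0, fun e' => absurd e' e⟩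
  choose rep hrep using hrep
  obtain ⟨x0, h0⟩ := h
  obtain ⟨x1, a1, b1, -⟩ := to_rigid hp x0 h0
  obtain ⟨S, hS, hm⟩ := exists_min_image
    (univ.filter fun S : Finset α => ∃ y, Feas v β y ∧ Rigid v β y ∧ Tt v β y = S)
    (fun S => rep S ⬝ᵥ p) ⟨Tt v β x1, mem_filter.2 ⟨mem_univ _, x1, a1, b1, rfl⟩⟩
  obtain ⟨a, b, -⟩ := hrep S (mem_filter.1 hS).2
  refine ⟨rep S, a, b, fun y hy => ?_⟩
  obtain ⟨y', a', b', c'⟩ := to_rigid hp y hy
  obtain ⟨-, -, e⟩ := hrep (Tt v β y') ⟨y', a', b', rfl⟩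
  have h1 := hm (Tt v β y') (mem_filter.2 ⟨mem_univ _, y', a', b', rfl⟩)
  have h2 := hp.dot_zero (n := rep (Tt v β y') - y') fun j _ => b' _ (fun k hk => by
    rw [sub_dotProduct, mem_Tt.1 hk, mem_Tt.1 (e.symm ▸ hk), sub_self]) j
  rw [sub_dotProduct] at h2
  linarith

/-- Normalised extreme functionals of the dual cone. -/
def Rg (v : α → ι → ℚ) (T : Finset α) (g : ι → ℚ) : Prop :=
  (∀ j ∈ T, 0 ≤ g ⬝ᵥ v j) ∧ g ⬝ᵥ ∑ j ∈ T, v j = 1 ∧
    ∀ d : ι → ℚ, (∀ j ∈ T, g ⬝ᵥ v j = 0 → d ⬝ᵥ v j = 0) → d ⬝ᵥ ∑ j ∈ T, v j = 0 →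
      ∀ j ∈ T, d ⬝ᵥ v j = 0

omit [Fintype α] in
lemma Rg.rank {T : Finset α} {g : ι → ℚ} (h : Rg v T g) :
    rk v T ≤ rk v (T.filter (fun j => g ⬝ᵥ v j = 0)) + 1 := by
  set S := T.filter (fun j => g ⬝ᵥ v j = 0) with hS
  have h1 : Submodule.span ℚ (v '' (T : Set α)) ≤
      Submodule.span ℚ (v '' (S : Set α)) ⊔ Submodule.span ℚ {∑ j ∈ T, v j} := by
    rw [Submodule.span_le]
    rintro _ ⟨j, hj, rfl⟩
    rcases span_dot (fun o : Option α => o.elim (∑ j ∈ T, v j) v) (insertNone S) (v j) with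
      ⟨d, d1, d2⟩ | ⟨s, hs⟩
    · exact absurd (h.2.2 d (fun k hk e => d2 (some k) (some_mem_insertNone.2
        (mem_filter.2 ⟨hk, e⟩))) (d2 none none_mem_insertNone) j hj) d1
    · rw [hs, sum_insertNone, add_comm]
      exact Submodule.add_mem_sup (Submodule.sum_mem _ fun k hk => Submodule.smul_mem _ _
        (Submodule.subset_span ⟨k, hk, rfl⟩))
        (Submodule.smul_mem _ _ (Submodule.subset_span rfl))
  have h2 := Submodule.finrank_mono h1
  have h3 := Submodule.finrank_add_le_finrank_add_finrank (Submodule.span ℚ (v '' (S : Set α)))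
    (Submodule.span ℚ {∑ j ∈ T, v j})
  have h4 : Module.finrank ℚ (Submodule.span ℚ ({∑ j ∈ T, v j} : Set (ι → ℚ))) ≤ 1 := by
    simpa using finrank_span_le_card (R := ℚ) ({∑ j ∈ T, v j} : Set (ι → ℚ))
  unfold rk
  omega

lemma ex_rg (h : LPStmt) {T : Finset α} {x : ι → ℚ}
    (hx : x ∈ Submodule.span ℚ (v '' (T : Set α))) (hn : ¬ Cone v T x) :
    ∃ g, Rg v T g ∧ g ⬝ᵥ x < 0 := by
  classical
  obtain ⟨g0, g1, g2⟩ := (farkas_dot v T x).resolve_right hn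
  set s := ∑ j ∈ T, v j with hs
  have s0 : 0 < g0 ⬝ᵥ s := by
    rw [hs, dotProduct_sum]
    refine (sum_nonneg g2).lt_of_ne fun e => g1.ne ?_
    exact dot_zero_of_span hx ((sum_eq_zero_iff_of_nonneg g2).1 e.symm)
  let w : α ⊕ Bool → ι → ℚ := Sum.elim (fun j => if j ∈ T then v j else 0)
    fun b => if b then s else -s
  let b : α ⊕ Bool → ℚ := Sum.elim (fun _ => 0) fun b => if b then 1 else -1
  have wl : ∀ j ∈ T, w (Sum.inl j) = v j := fun j hj => if_pos hj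
  have hf : Feas w b ((g0 ⬝ᵥ s)⁻¹ • g0) := by
    rintro (j | c)
    · by_cases hj : j ∈ T
      · rw [wl j hj, smul_dotProduct]
        exact mul_nonneg (inv_nonneg.2 s0.le) (g2 j hj)
      · simp [w, b, hj]
    · cases c <;> simp [w, b, s0.ne']
  have hc : Cone w univ x := by
    have c1 : ∀ j ∈ T, Cone w univ (v j) := fun j hj => wl j hj ▸ Cone.single (mem_univ _)
    have c2 : ∀ j ∈ T, Cone w univ (-v j) := fun j hj => by
      have e : -v j = ∑ k ∈ T.erase j, (1 : ℚ) • w (Sum.inl k) + w (Sum.inr false) := by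
        rw [sum_congr rfl fun k hk => by rw [one_smul, wl k (mem_of_mem_erase hk)]]
        have := add_sum_erase T v hj
        simp only [w, Sum.elim_inr, Bool.false_eq_true, if_false]
        rw [hs, ← this]
        abel
      rw [e]
      refine Cone.add ?_ (Cone.single (mem_univ _))
      have := Cone.of_sum (v := w) (T := (T.erase j).map Function.Embedding.inl)
        (s := fun _ => 1) fun _ _ => zero_le_one
      rw [sum_map] at this
      exact this.mono (subset_univ _)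
    have key : Cone w univ x ∧ Cone w univ (-x) := by
      clear hn g1 hf
      induction hx using Submodule.span_induction with
      | mem y hy =>
        obtain ⟨j, hj, rfl⟩ := hy
        exact ⟨c1 j hj, c2 j hj⟩
      | zero => exact ⟨Cone.zero, by rw [neg_zero]; exact Cone.zero⟩
      | add y z _ _ h1 h2 => exact ⟨h1.1.add h2.1, by rw [neg_add]; exact h1.2.add h2.2⟩
      | smul r y _ h1 =>
        rcases le_total 0 r with e | e
        · exact ⟨h1.1.smul e, by rw [← smul_neg]; exact h1.2.smul e⟩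
        · exact ⟨by simpa using h1.2.smul (neg_nonneg.2 e),
            by rw [← neg_smul]; exact h1.1.smul (neg_nonneg.2 e)⟩
    exact key.1
  obtain ⟨g, a1, a2, a3⟩ := h ι (α ⊕ Bool) w b ⟨_, hf⟩ x hc
  have gs : g ⬝ᵥ s = 1 := by
    have e1 := a1 (Sum.inr true)
    have e2 := a1 (Sum.inr false)
    simp only [w, b, Sum.elim_inr, if_true, Bool.false_eq_true, if_false, dotProduct_neg] at e1 e2
    linarith
  refine ⟨g, ⟨fun j hj => wl j hj ▸ a1 (Sum.inl j), gs, fun d d1 d2 j hj => ?_⟩,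
    (a3.le_of_feas hf).trans_lt ?_⟩
  · rw [← wl j hj]
    refine a2 d ?_ _
    rintro (k | c) hk
    · by_cases hkT : k ∈ T
      · rw [wl k hkT]
        exact d1 k hkT (wl k hkT ▸ mem_Tt.1 hk)
      · simp [w, hkT]
    · rw [← hs] at d2
      cases c <;> simp [w, d2]
  · rw [smul_dotProduct]
    exact mul_neg_of_pos_of_neg (inv_pos.2 s0) g1

end LPAux

open LPAux in
theorem lp : LPStmt := by
  intro ι α _ _ v β h p hp
  classical
  obtain ⟨x, a, b, c⟩ := ex_min hp h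
  refine ⟨x, a, b, (farkas_dot v (Tt v β x) p).resolve_left ?_⟩
  rintro ⟨d, d1, d2⟩
  obtain ⟨ε, e0, e1⟩ := H48.small (univ \ Tt v β x) (fun j => x ⬝ᵥ v j - β j) (fun j => d ⬝ᵥ v j)
    fun j hj => sub_pos.2 ((a j).lt_of_ne fun e => (mem_sdiff.1 hj).2 (mem_Tt.2 e.symm))
  have he : ∀ y, (x + ε • d) ⬝ᵥ y = x ⬝ᵥ y + ε * (d ⬝ᵥ y) := fun y => by
    rw [add_dotProduct, smul_dotProduct, smul_eq_mul]
  have h1 := c (x + ε • d) fun j => by
    rw [he]
    by_cases hj : j ∈ Tt v β x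
    · have := mul_nonneg e0.le (d2 j hj)
      linarith [a j]
    · linarith [e1 j (mem_sdiff.2 ⟨mem_univ _, hj⟩)]
  have h2 := mul_neg_of_pos_of_neg e0 d1
  rw [he] at h1
  linarith

open LPAux in
theorem facet (h : LPStmt) : FacetStmt := by
  intro ι α _ _ v T
  classical
  have hrep : ∀ S : Finset α, ∃ g, (∃ y, Rg v T y ∧ T.filter (fun j => y ⬝ᵥ v j = 0) = S) →
      Rg v T g ∧ T.filter (fun j => g ⬝ᵥ v j = 0) = S := fun S => by
    by_cases e : ∃ y, Rg v T y ∧ T.filter (fun j => y ⬝ᵥ v j = 0) = S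
    · exact ⟨e.choose, fun _ => e.choose_spec⟩
    · exact ⟨0, fun e' => absurd e' e⟩
  choose rep hrep using hrep
  refine ⟨(univ.filter fun S : Finset α =>
    ∃ y, Rg v T y ∧ T.filter (fun j => y ⬝ᵥ v j = 0) = S).image rep, fun g hg => ?_,
    fun x hx hG => ?_⟩
  · obtain ⟨S, hS, rfl⟩ := mem_image.1 hg
    have := (hrep S (mem_filter.1 hS).2).1
    exact ⟨this.1, this.rank⟩
  · by_contra hn
    obtain ⟨g, g1, g2⟩ := ex_rg h hx hn
    obtain ⟨r1, r2⟩ := hrep _ ⟨g, g1, rfl⟩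
    have h1 := hG _ (mem_image_of_mem rep (mem_filter.2 ⟨mem_univ _, g, g1, rfl⟩))
    have h2 := dot_zero_of_span (n := rep (T.filter fun j => g ⬝ᵥ v j = 0) - g) hx
      (g1.2.2 _ (fun j hj e => by
        have h3 : j ∈ T.filter (fun j => g ⬝ᵥ v j = 0) := mem_filter.2 ⟨hj, e⟩
        rw [← r2] at h3
        rw [sub_dotProduct, e, (mem_filter.1 h3).2, sub_self])
        (by rw [sub_dotProduct, r1.2.1, g1.2.1, sub_self]))
    rw [sub_dotProduct] at h2
    linarith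

end Pool.Agent.MP_5d9b3c_ag.H48N
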