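import Pool.Agent.MP_5d9b3c_ag.H48.Basic

/-!
Nondegenerate polynomials in any number of variables: definitions and the statements of the steps.
-/

namespace Pool.Agent.MP_5d9b3c_ag.H48N

open Finset Pool.Agent.MP_5d9b3c_ag.H22

/-! ### Polyhedra -/

section Poly

variable {ι α : Type} [Fintype ι] [Fintype α]

/-- The point satisfies all constraints. -/
def Feas (v : α → ι → ℚ) (β : α → ℚ) (x : ι → ℚ) : Prop := ∀ j, β j ≤ x ⬝ᵥ v j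

/-- The tight constraints. -/
def Tt (v : α → ι → ℚ) (β : α → ℚ) (x : ι → ℚ) : Finset α :=
  univ.filter (fun j => x ⬝ᵥ v j = β j)

/-- The tight constraints span all constraints. -/
def Rigid (v : α → ι → ℚ) (β : α → ℚ) (x : ι → ℚ) : Prop :=
  ∀ d : ι → ℚ, (∀ j ∈ Tt v β x, d ⬝ᵥ v j = 0) → ∀ j, d ⬝ᵥ v j = 0

/-- The cone over the vectors in `T`. -/
def Cone (v : α → ι → ℚ) (T : Finset α) (x : ι → ℚ) : Prop :=
  ∃ s : α → ℚ, (∀ j, 0 ≤ s j) ∧ x = ∑ j ∈ T, s j • v j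

/-- The rank of the vectors in `T`. -/
noncomputable def rk (v : α → ι → ℚ) (T : Finset α) : ℕ :=
  Module.finrank ℚ (Submodule.span ℚ (v '' (T : Set α)))

end Poly

/-- Linear programs attain their optimum at a vertex, with a dual certificate. -/
def LPStmt : Prop :=
  ∀ (ι α : Type) [Fintype ι] [Fintype α] (v : α → ι → ℚ) (β : α → ℚ), (∃ x, Feas v β x) →
    ∀ p : ι → ℚ, Cone v univ p → ∃ x, Feas v β x ∧ Rigid v β x ∧ Cone v (Tt v β x) p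

/-- A finitely generated cone is cut out by its facets. -/
def FacetStmt : Prop :=
  ∀ (ι α : Type) [Fintype ι] [Fintype α] (v : α → ι → ℚ) (T : Finset α),
    ∃ G : Finset (ι → ℚ), (∀ g ∈ G, (∀ j ∈ T, 0 ≤ g ⬝ᵥ v j) ∧
        rk v T ≤ rk v (T.filter (fun j => g ⬝ᵥ v j = 0)) + 1) ∧
      ∀ x ∈ Submodule.span ℚ (v '' (T : Set α)), (∀ g ∈ G, 0 ≤ g ⬝ᵥ x) → Cone v T x

/-- Almost feasible and almost tight implies feasible and tight nearby. -/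
def StabStmt : Prop :=
  ∀ (ι α : Type) [Fintype ι] [Fintype α] (v : α → ι → ℚ) (β : α → ℚ), ∃ η : ℚ, 0 < η ∧
    ∀ (x : ι → ℚ) (S : Finset α), (∀ j, β j - η ≤ x ⬝ᵥ v j) → (∀ j ∈ S, x ⬝ᵥ v j ≤ β j + η) →
      ∃ w, Feas v β w ∧ S ⊆ Tt v β w

/-- A point in the relative interior of a face. -/
def ClosStmt : Prop :=
  ∀ (ι α : Type) [Fintype ι] [Fintype α] (v : α → ι → ℚ) (β : α → ℚ) (S : Finset α),
    (∃ w, Feas v β w ∧ S ⊆ Tt v β w) → ∃ w, Feas v β w ∧ S ⊆ Tt v β w ∧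
      ∀ w', Feas v β w' → S ⊆ Tt v β w' → Tt v β w ⊆ Tt v β w'

/-- A small positive vector that avoids finitely many hyperplanes. -/
def GenStmt : Prop :=
  ∀ (ι α : Type) [Fintype ι] [Finite α] (A : Finset ι) (f : α → ι → ℚ) (r : α → ℝ) (h : ℚ),
    0 < h → ∃ o : ι → ℚ, (∀ k ∈ A, 0 < o k ∧ o k < h) ∧ (∀ k ∉ A, o k = 0) ∧
      ∀ j, (∃ k ∈ A, f j k ≠ 0) → ((f j ⬝ᵥ o : ℚ) : ℝ) ≠ r j

/-! ### Blocks -/

section Blocks

variable {ι κ : Type} [Fintype ι] [LinearOrder ι] [Fintype κ] [DecidableEq κ]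

/-- The exponent as a rational vector. -/
def Aq (a : κ → ι →₀ ℕ) (j : κ) : ι → ℚ := fun i => (a j i : ℚ)

/-- The constraints of the dual polyhedron: vectors. -/
def vG (a : κ → ι →₀ ℕ) : κ ⊕ ι → ι → ℚ := Sum.elim (Aq a) (fun k => Pi.single k 1)

/-- The constraints of the dual polyhedron: bounds. -/
def bG (κ ι : Type) : κ ⊕ ι → ℚ := Sum.elim (fun _ => 1) (fun _ => 0)

/-- The dual polyhedron: `w ≥ 0` and `w · a ≥ 1`. -/
def InG (a : κ → ι →₀ ℕ) (w : ι → ℚ) : Prop := Feas (vG a) (bG κ ι) w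

/-- The tight constraints in the dual polyhedron. -/
def tg (a : κ → ι →₀ ℕ) (w : ι → ℚ) : Finset (κ ⊕ ι) := Tt (vG a) (bG κ ι) w

/-- The monomials of weight one. -/
def Tw (a : κ → ι →₀ ℕ) (w : ι → ℚ) : Finset κ := univ.filter (fun j => w ⬝ᵥ Aq a j = 1)

/-- The coordinates of positive weight. -/
def Fw (w : ι → ℚ) : Finset ι := univ.filter (fun k => 0 < w k)

/-- The smallest face through `x` lies at level `l`. -/
def InP (a : κ → ι →₀ ℕ) (l : ℝ) (x : ι → ℚ) : Prop :=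
  InG a x ∧ ∀ w, InG a w → tg a x ⊆ tg a w → ((∑ k, w k : ℚ) : ℝ) = l

/-- The monomials of `T` are jointly of degree at most one in the variables of `J`. -/
def Lin (a : κ → ι →₀ ℕ) (T : Finset κ) (J : Finset ι) : Prop := ∀ j ∈ T, ∑ i ∈ J, a j i ≤ 1

/-- Every variable of `J` occurs in `T`. -/
def Occ (a : κ → ι →₀ ℕ) (T : Finset κ) (J : Finset ι) : Prop := ∀ i ∈ J, ∃ j ∈ T, a j i ≠ 0

/-- The logarithmic derivatives in the directions of `J` have a common zero in the torus. -/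
def Solv (a : κ → ι →₀ ℕ) (c : κ → ℂ) (T : Finset κ) (J : Finset ι) : Prop :=
  ∃ x : ι → ℂ, (∀ i, x i ≠ 0) ∧ ∀ i ∈ J, ∑ j ∈ T, c j * a j i * ∏ k, x k ^ a j k = 0

/-- Nondegeneracy of the faces of `T` cut out by weights that are nonnegative outside `F`. -/
def TND (a : κ → ι →₀ ℕ) (c : κ → ℂ) (T : Finset κ) (F : Finset ι) : Prop :=
  ∀ (d : ι → ℚ) (m : ℚ), (∀ k ∉ F, 0 ≤ d k) → (∀ j ∈ T, m ≤ d ⬝ᵥ Aq a j) →
    (T.filter (fun j => d ⬝ᵥ Aq a j = m)).Nonempty →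
    ND (Aof a) c (T.filter (fun j => d ⬝ᵥ Aq a j = m))

/-- Nondegeneracy along all faces of the faces of positive level. -/
def NDP (a : κ → ι →₀ ℕ) (c : κ → ℂ) : Prop := ∀ w, InG a w → TND a c (Tw a w) univ

/-- The neighbours of `Z`. -/
def Nb (a : κ → ι →₀ ℕ) (T : Finset κ) (Z : Finset ι) : Finset ι :=
  univ.filter (fun k => k ∉ Z ∧ ∃ j ∈ T, a j k ≠ 0 ∧ ∃ z ∈ Z, a j z ≠ 0)

/-- The monomials of `T` that contain a variable of `A`. -/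
def MA (a : κ → ι →₀ ℕ) (T : Finset κ) (A : Finset ι) : Finset κ :=
  T.filter (fun j => ∃ i ∈ A, a j i ≠ 0)

/-- The certificate of the linear program of a face. -/
structure Cert (a : κ → ι →₀ ℕ) (T : Finset κ) (F : Finset ι) (τ : κ → ℚ) (μ : ι → ℚ) :
    Prop where
  pos : ∀ j ∈ T, 0 < τ j
  one : ∀ i ∈ F, 1 ≤ ∑ j ∈ T, τ j * a j i
  nonneg : ∀ i, 0 ≤ μ i
  off : ∀ i ∉ F, μ i = 0
  le : ∀ j ∈ T, μ ⬝ᵥ Aq a j ≤ 1
  comp : ∀ i ∈ F, 0 < μ i ↔ ∑ j ∈ T, τ j * a j i = 1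
  half : ∑ j ∈ T, τ j * (1 - μ ⬝ᵥ Aq a j) < 1 / 2
  gap : ∀ i, 0 < μ i → ∑ j ∈ T, τ j * (1 - μ ⬝ᵥ Aq a j) < μ i

/-- The block of a certificate. -/
def LinSet (a : κ → ι →₀ ℕ) (T : Finset κ) (τ : κ → ℚ) (μ : ι → ℚ) : Finset ι :=
  univ.filter (fun i => 1 - ∑ j ∈ T, τ j * (1 - μ ⬝ᵥ Aq a j) ≤ μ i)

/-- `Z` is a free valid block. -/
def Free (a : κ → ι →₀ ℕ) (c : κ → ℂ) (T : Finset κ) (F Z : Finset ι) : Prop :=
  Z ⊆ F ∧ Lin a T Z ∧ ¬ Solv a c T Z ∧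
    ∀ J ⊆ F, Lin a T J → ¬ Solv a c T J → ¬ Solv a c T (J \ Nb a T Z)

/-- Every face at level `l` has a free valid block. -/
def Blk (a : κ → ι →₀ ℕ) (c : κ → ℂ) (l : ℝ) : Prop :=
  ∀ w, InP a l w → ∃ Z, Free a c (Tw a w) (Fw w) Z

/-- Two points are close. -/
def Near (ρ : ℚ) (x x' : ι → ℚ) : Prop := ∀ k, |x k - x' k| ≤ ρ

/-- A selection of valid blocks such that the blocks of nearby points are jointly linear. -/
structure Sel (a : κ → ι →₀ ℕ) (c : κ → ℂ) (l : ℝ) (ν ρ : ℚ) (V : (ι → ℚ) → Finset ι)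
    (σ : (ι → ℚ) → ι → ℚ) : Prop where
  nupos : 0 < ν
  rhopos : 0 < ρ
  inP : ∀ x, InP a l x → InP a l (σ x)
  tight : ∀ x, InP a l x → ∀ j, x ⬝ᵥ vG a j ≤ bG κ ι j + ν → j ∈ tg a (σ x)
  valid : ∀ x, InP a l x → ¬ Solv a c (Tw a (σ x)) (V x)
  sub : ∀ x x', InP a l x → InP a l x' → Near ρ x x' → V x' ⊆ Fw (σ x)
  lin : ∀ x x' x'', InP a l x → InP a l x' → InP a l x'' → Near ρ x x' → Near ρ x x'' →
    Lin a (Tw a (σ x)) (V x' ∪ V x'')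

/-- The functional equation. -/
def BEq (a : κ → ι →₀ ℕ) (c : κ → ℂ) (b : Polynomial ℂ) : Prop :=
  ∃ (d : ℕ) (P : ℕ → Module.End ℂ (MvPolynomial ι ℂ)), (∀ t, P t ∈ WW ι) ∧
    ∀ m : ℕ, ∑ t ∈ range d, (m : ℂ) ^ t •
      P t ((∑ j, MvPolynomial.monomial (a j) (c j)) ^ (m + 1)) =
      b.eval (m : ℂ) • (∑ j, MvPolynomial.monomial (a j) (c j)) ^ m

end Blocks

/-- The certificate exists. -/
def CertStmt : Prop :=
  ∀ (ι κ : Type) [Fintype ι] [LinearOrder ι] [Fintype κ] [DecidableEq κ] (a : κ → ι →₀ ℕ)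
    (T : Finset κ) (F : Finset ι), Occ a T F → ∃ τ μ, Cert a T F τ μ

/-- A solution of a face system lifts. -/
def LiftStmt : Prop :=
  ∀ (ι κ : Type) [Fintype ι] [LinearOrder ι] [Fintype κ] [DecidableEq κ] (a : κ → ι →₀ ℕ)
    (c : κ → ℂ) (T : Finset κ) (F J : Finset ι), TND a c T F → J ⊆ F → Lin a T J →
    ∀ d : ι → ℚ, (∀ k ∉ F, 0 ≤ d k) → (∀ j ∈ MA a T J, 0 ≤ d ⬝ᵥ Aq a j) →
    Occ a (T.filter (fun j => d ⬝ᵥ Aq a j = 0)) J →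
    Solv a c (T.filter (fun j => d ⬝ᵥ Aq a j = 0)) J → Solv a c T J

/-- A system with enough colours is solvable. -/
def HallStmt : Prop :=
  ∀ (ι κ : Type) [Fintype ι] [LinearOrder ι] [Fintype κ] [DecidableEq κ] (a : κ → ι →₀ ℕ)
    (c : κ → ℂ) (T : Finset κ) (F J A : Finset ι) (col : κ → Option ι) (n : Option ι → ι → ℚ),
    TND a c T F → J ⊆ F → Lin a T J → Occ a T J → A ⊆ J → (∀ β, ∀ k ∉ F, n β k = 0) →
    (∀ β ∈ (MA a T A).image col, ∀ j ∈ MA a T J,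
      n β ⬝ᵥ Aq a j = if j ∈ MA a T A ∧ col j = β then 1 else 0) →
    (∀ A' ⊆ A, A'.Nonempty → #A' + 1 ≤ #((MA a T A').image col)) →
    Solv a c T (J \ A) → Solv a c T J

/-- The block of a certificate contains a free block. -/
def FreeStmt : Prop :=
  ∀ (ι κ : Type) [Fintype ι] [LinearOrder ι] [Fintype κ] [DecidableEq κ] (a : κ → ι →₀ ℕ)
    (c : κ → ℂ) (T : Finset κ) (F : Finset ι) (τ : κ → ℚ) (μ : ι → ℚ),
    TND a c T F → Occ a T F → Cert a T F τ μ → ¬ Solv a c T (LinSet a T τ μ) →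
    ∃ Z, Free a c T F Z

/-- The selection exists. -/
def SelStmt : Prop :=
  ∀ (ι κ : Type) [Fintype ι] [LinearOrder ι] [Fintype κ] [DecidableEq κ] (a : κ → ι →₀ ℕ)
    (c : κ → ℂ) (l : ℝ), NDP a c → Blk a c l → ∃ ν ρ V σ, Sel a c l ν ρ V σ

/-! ### The `p`-adic side -/

/-- The generating series has no pole on the circle of radius `p ^ l`. -/
def Good (p : ℕ) (l : ℝ) (s : ℕ → ℂ) : Prop :=
  ∃ D C : Polynomial ℂ, (D : PowerSeries ℂ) * PowerSeries.mk s = (C : PowerSeries ℂ) ∧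
    ∀ T : ℂ, ‖T‖ = (p : ℝ) ^ l → D.eval T ≠ 0

section Padic

variable {ι κ : Type} [Fintype ι] [LinearOrder ι] [Fintype κ] [DecidableEq κ]

/-- The vector with degree `l` and exponent `x`. -/
def qq (l : ℚ) (x : ι → ℚ) : Option ι → ℚ := fun o => o.elim l x

/-- The orders of the monomials. -/
def zz (a : κ → ι →₀ ℕ) (θ : ℕ) (L : ι → ℕ) : Lat κ := fun j => θ - ∑ i, (L i : ℤ) * a j i

/-- The integral over all `x_i`, `i ∈ B`, and over units in the other coordinates. -/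
noncomputable def EB (p : ℕ) [Fact p.Prime] (a : κ → ι →₀ ℕ) (c : κ → ℤ) (B : Finset ι)
    (z : Lat κ) : ℂ :=
  EE p (Aof a) c (fun _ => chi p) univ (univ \ B.map Function.Embedding.some) z

/-- The grid lines. -/
def gl (h : ℚ) (o : ι → ℚ) (k : ι) (j : ℕ) : ℚ := o k + j * h

/-- The closed box. -/
def InBox (h : ℚ) (o : ι → ℚ) {J : ℕ} (idx : ι → Fin (J + 2)) (x : ι → ℚ) : Prop :=
  ∀ k, 0 ≤ x k ∧ ((idx k : ℕ) = 0 ∨ gl h o k (idx k - 1) ≤ x k) ∧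
    ((idx k : ℕ) = J + 1 ∨ x k ≤ gl h o k (idx k))

/-- The half open cone over the box. -/
def InCell (h : ℚ) (o : ι → ℚ) {J : ℕ} (idx : ι → Fin (J + 2)) (θ : ℕ) (L : ι → ℕ) : Prop :=
  ∀ k, ((idx k : ℕ) = 0 ∨ gl h o k (idx k - 1) * θ ≤ L k) ∧
    ((idx k : ℕ) = J + 1 ∨ (L k : ℚ) < gl h o k (idx k) * θ)

/-- A family of columns that partitions the boxes meeting the level `l` faces. -/
structure Cols (a : κ → ι →₀ ℕ) (c : κ → ℂ) (l : ℝ) (σ : (ι → ℚ) → ι → ℚ) (r h : ℚ)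
    (o : ι → ℚ) (J : ℕ) (U : Finset ι → Set (ι → Fin (J + 2))) : Prop where
  inv : ∀ B idx idx', (∀ k ∉ B, idx k = idx' k) → idx ∈ U B → idx' ∈ U B
  wit : ∀ B, ∀ idx ∈ U B, ∃ x, InP a l x ∧ B ⊆ Fw (σ x) ∧ Lin a (Tw a (σ x)) B ∧
    ¬ Solv a c (Tw a (σ x)) B ∧ ∀ w, InBox h o idx w → ∀ k ∉ B, |w k - x k| ≤ r
  uniq : ∀ idx, (∃ x, InP a l x ∧ InBox h o idx x) → ∃! B, idx ∈ U B

/-- The grid is generic: a point of level `l` outside the level `l` faces can be moved inside its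
face and its grid planes so that the level changes. -/
def GenGrid (a : κ → ι →₀ ℕ) (l : ℝ) (h : ℚ) (o : ι → ℚ) (J : ℕ) : Prop :=
  ∀ x, InG a x → ((∑ k, x k : ℚ) : ℝ) = l → ¬ InP a l x → ∃ d : ι → ℚ,
    (∀ j ∈ tg a x, d ⬝ᵥ vG a j = 0) ∧ (∀ k, ∀ j ≤ J, x k = gl h o k j → d k = 0) ∧ ∑ k, d k ≠ 0

end Padic

open Classical in
/-- Rationality of sums over polyhedra, with control of the poles. -/
def RatStmt : Prop :=
  ∀ (ι α : Type) [Fintype ι] [LinearOrder ι] [Fintype α] (p : ℕ) (l : ℝ)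
    (lam : α → Option ι → ℚ) (β : α → ℚ) (st : α → Prop), 1 < p →
    (∀ e : Option ι → ℚ, e ≠ 0 → (∀ o, 0 ≤ e o) → (∀ j, 0 ≤ lam j ⬝ᵥ e) →
      ∃ d : Option ι → ℚ, (∀ o, e o = 0 → d o = 0) ∧ (∀ j, lam j ⬝ᵥ e = 0 → lam j ⬝ᵥ d = 0) ∧
        ((∑ k, d (some k) : ℚ) : ℝ) ≠ l * d none) →
    Good p l (fun θ => ∑' L : ι → ℕ,
      if ∀ j, β j ≤ lam j ⬝ᵥ qq θ (fun k => L k) ∧ (st j → β j < lam j ⬝ᵥ qq θ (fun k => L k))
      then ((p : ℂ)⁻¹) ^ (∑ k, L k) else 0)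

/-- Decomposition by valuations, and summation along columns. -/
def SumStmt : Prop :=
  ∀ (ι κ : Type) [Fintype ι] [LinearOrder ι] [Fintype κ] [DecidableEq κ] (p : ℕ) [Fact p.Prime]
    (a : κ → ι →₀ ℕ) (c : κ → ℤ) (θ : ℕ),
    HasSum (fun L : ι → ℕ => ((p : ℂ)⁻¹) ^ (∑ k, L k) * EB p a c ∅ (zz a θ L))
      (EB p a c univ (zz a θ 0)) ∧
    ∀ (B : Finset ι) (Y : Set (ι → ℕ)), (∀ L L', (∀ k ∉ B, L k = L' k) → L ∈ Y → L' ∈ Y) →
      (∀ L ∈ Y, ∃ L0 : ι → ℕ, (∀ k ∉ B, L0 k = L k) ∧ EB p a c B (zz a θ L0) = 0 ∧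
        ∀ L', (∀ k ∉ B, L' k = L k) → ¬ L0 ≤ L' → EB p a c ∅ (zz a θ L') = 0) →
      HasSum (Y.indicator
        (fun L : ι → ℕ => ((p : ℂ)⁻¹) ^ (∑ k, L k) * EB p a c ∅ (zz a θ L))) 0

/-- The uniform Nullstellensatz for a valid block. -/
def UnsStmt : Prop :=
  ∀ (ι κ : Type) [Fintype ι] [LinearOrder ι] [Fintype κ] [DecidableEq κ] (p : ℕ) [Fact p.Prime]
    (a : κ → ι →₀ ℕ) (c : κ → ℤ) (T : Finset κ) (F B : Finset ι),
    TND a (fun j => (c j : ℂ)) T F → B ⊆ F → Lin a T B → Occ a T B →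
    ¬ Solv a (fun j => (c j : ℂ)) T B → ∃ M : ℕ, ∀ (L m : ι → ℕ) (k : κ → ℕ),
      (∀ i ∈ B, ∀ j ∈ T, a j i ≠ 0 → ∑ i', L i' * a j i' = m i + k j) →
      (∀ i ∈ B, ∃ j ∈ T, a j i ≠ 0 ∧ k j = 0) → ∀ x : ι → ℤ, (∀ i, ¬ (p : ℤ) ∣ x i) →
      ∃ i ∈ B, ¬ (p : ℤ) ^ M ∣ ∑ j ∈ T, a j i * ((p : ℤ) ^ k j * (c j * ∏ i', x i' ^ a j i'))

/-- The integral over a valid block vanishes. -/
def ColStmt : Prop :=
  ∀ (ι κ : Type) [Fintype ι] [LinearOrder ι] [Fintype κ] [DecidableEq κ] (p : ℕ) [Fact p.Prime]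
    (a : κ → ι →₀ ℕ) (c : κ → ℤ), ∃ M : ℕ, ∀ (T : Finset κ) (F B : Finset ι),
    TND a (fun j => (c j : ℂ)) T F → B ⊆ F → Lin a T B → ¬ Solv a (fun j => (c j : ℂ)) T B →
    ∀ (θ : ℕ) (L : ι → ℕ), (∀ j ∉ T, zz a θ L j ≤ 0) →
      (∀ i ∈ B, ∃ j ∈ T, a j i ≠ 0 ∧ (M : ℤ) ≤ zz a θ L j) → EB p a c B (zz a θ L) = 0

/-- The columns exist. -/
def ColsStmt : Prop :=
  ∀ (ι κ : Type) [Fintype ι] [LinearOrder ι] [Fintype κ] [DecidableEq κ] (a : κ → ι →₀ ℕ)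
    (c : κ → ℂ) (l : ℝ) (ν ρ : ℚ) (V : (ι → ℚ) → Finset ι) (σ : (ι → ℚ) → ι → ℚ),
    Sel a c l ν ρ V σ → ∀ r : ℚ, 0 < r → ∃ h : ℚ, 0 < h ∧ ∀ (o : ι → ℚ) (J : ℕ),
      (∀ k, 0 < o k ∧ o k < h) → l < J * h → ∃ U, Cols a c l σ r h o J U

/-- Generic grids exist. -/
def GeoStmt : Prop :=
  ∀ (ι κ : Type) [Fintype ι] [LinearOrder ι] [Fintype κ] [DecidableEq κ] (a : κ → ι →₀ ℕ)
    (l : ℝ) (h : ℚ) (J : ℕ), 0 < h → ∃ o : ι → ℚ, (∀ k, 0 < o k ∧ o k < h) ∧ GenGrid a l h o J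

open Classical in
/-- The part of the sum in a box that avoids the level `l` faces. -/
def BoxStmt : Prop :=
  ∀ (ι κ : Type) [Fintype ι] [LinearOrder ι] [Fintype κ] [DecidableEq κ] (p : ℕ) [Fact p.Prime]
    (a : κ → ι →₀ ℕ) (c : κ → ℤ) (l : ℝ) (h : ℚ) (o : ι → ℚ) (J : ℕ) (M : ℕ),
    (∀ θ L j, (M : ℤ) < zz a θ L j → EB p a c ∅ (zz a θ L) = 0) → GenGrid a l h o J →
    ∀ idx : ι → Fin (J + 2), (¬ ∃ x, InP a l x ∧ InBox h o idx x) →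
    Good p l (fun θ => ∑' L : ι → ℕ, if InCell h o idx θ L then
      ((p : ℂ)⁻¹) ^ (∑ k, L k) * EB p a c ∅ (zz a θ L) else 0)

/-- The `p`-adic side. -/
def GridStmt : Prop :=
  ∀ (ι κ : Type) [Fintype ι] [LinearOrder ι] [Fintype κ] [DecidableEq κ] (p : ℕ) [Fact p.Prime]
    (a : κ → ι →₀ ℕ) (c : κ → ℤ) (l : ℝ), NDP a (fun j => (c j : ℂ)) →
    (∃ M : ℕ, ∀ θ L j, (M : ℤ) < zz a θ L j → EB p a c ∅ (zz a θ L) = 0) →
    Blk a (fun j => (c j : ℂ)) l → Good p l (fun θ => EB p a c univ (zz a θ 0))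

/-! ### Koszul complexes -/

section Kos

variable {X ι : Type} [Fintype ι] [LinearOrder ι]

/-- Chains. -/
abbrev Ch (X ι : Type) : Type := Finset ι → X →₀ ℂ

/-- Operators. -/
abbrev Op (X : Type) : Type := Module.End ℂ (X →₀ ℂ)

/-- Functions supported in a set. -/
noncomputable abbrev Su (Y : Set X) : Submodule ℂ (X →₀ ℂ) := Finsupp.supported ℂ ℂ Y

/-- The sign. -/
def sgn (i : ι) (J : Finset ι) : ℂ := (-1) ^ #(J.filter (fun k => k < i))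

/-- The Koszul differential. -/
noncomputable def kd (D : ι → Op X) (e : Ch X ι) : Ch X ι :=
  fun J => ∑ i ∈ Jᶜ, sgn i J • D i (e (insert i J))

/-- The chain is supported in the family of sets. -/
def In (Y : Finset ι → Set X) (e : Ch X ι) : Prop := ∀ J, e J ∈ Su (Y J)

/-- The chain has degree `k`. -/
def Deg (k : ℕ) (e : Ch X ι) : Prop := ∀ J, #J ≠ k → e J = 0

/-- Vanishing of the relative homology in degree `k`. -/
def Ex (D : ι → Op X) (k : ℕ) (Y Y' : Finset ι → Set X) : Prop :=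
  ∀ e, Deg k e → In Y e → In Y' (kd D e) →
    ∃ e', Deg (k + 1) e' ∧ In Y e' ∧ In Y' (e - kd D e')

/-- The operators commute. -/
def Comm (D : ι → Op X) : Prop := ∀ i k, Commute (D i) (D k)

/-- The family of sets is a subcomplex. -/
def Stab (D : ι → Op X) (Y : Finset ι → Set X) : Prop :=
  ∀ J, ∀ i ∉ J, ∀ u ∈ Y (insert i J), D i (Finsupp.single u 1) ∈ Su (Y J)

/-- The family that uses only the indices in `A`. -/
def res (A : Finset ι) (Y : Set X) : Finset ι → Set X := fun J => {u | J ⊆ A ∧ u ∈ Y}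

/-- The empty family. -/
def emp (X ι : Type) : Finset ι → Set X := fun _ => ∅

end Kos

/-! ### Operators on the lattice -/

/-- Lattice points. -/
abbrev Pt (ι : Type) : Type := Option ι → ℤ

/-- Rational vectors. -/
abbrev Vq (ι : Type) : Type := Option ι → ℚ

section Ops

variable {ι κ : Type} [Fintype ι] [LinearOrder ι] [Fintype κ] [DecidableEq κ]

/-- The shifted lattice point. -/
def hat (q : Vq ι) (u : Pt ι) : Vq ι := fun o => (u o : ℚ) + q o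

/-- The vector as a rational vector. -/
def Bq (B : κ → Pt ι) (b : κ) : Vq ι := fun o => (B b o : ℚ)

/-- The exponent part of the vector. -/
def bx (B : κ → Pt ι) (b : κ) : ι → ℚ := fun k => (B b (some k) : ℚ)

/-- The level of the vector. -/
def lev (B : κ → Pt ι) (b : κ) : ℚ := (B b none : ℚ)

/-- The perturbed level. -/
def val (B : κ → Pt ι) (η : ℚ) (b : κ) : ℚ := lev B b - η * (1 - lev B b)

/-- The functional `w · x - level`. -/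
def hw (w : ι → ℚ) : Vq ι := qq (-1) w

/-- The position relative to the apex. -/
def pp (q y : Vq ι) (u : Pt ι) : ι → ℚ := fun k => hat q u (some k) - y (some k)

/-- A diagonal operator plus shifts. -/
noncomputable def op (B : κ → Pt ι) (s : Pt ι → ℂ) (ρ : Pt ι → κ → ℂ) : Op (Pt ι) :=
  Finsupp.linearCombination ℂ (fun u =>
    s u • Finsupp.single u 1 + ∑ b, ρ u b • Finsupp.single (u + B b) 1)

/-- The twisted operator in the direction `n`. -/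
noncomputable def Dn (B : κ → Pt ι) (c : κ → ℂ) (q n : Vq ι) : Op (Pt ι) :=
  op B (fun u => ((n ⬝ᵥ hat q u : ℚ) : ℂ)) (fun _ b => c b * ((n ⬝ᵥ Bq B b : ℚ) : ℂ))

/-- The twisted operators in the coordinate directions. -/
noncomputable def Dx (B : κ → Pt ι) (c : κ → ℂ) (q : Vq ι) (i : ι) : Op (Pt ι) :=
  Dn B c q (Pi.single (some i) 1)

/-- The twisted operator in the direction of the level. -/
noncomputable def D0 (B : κ → Pt ι) (c : κ → ℂ) (q : Vq ι) : Op (Pt ι) :=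
  Dn B c q (Pi.single none 1)

/-- Multiplication by the logarithmic derivatives of the part on `T`. -/
noncomputable def FT (B : κ → Pt ι) (c : κ → ℂ) (T : Finset κ) (i : ι) : Op (Pt ι) :=
  op B 0 (fun _ b => if b ∈ T then c b * (B b (some i) : ℂ) else 0)

/-- The lattice points of the shifted cone. -/
def CY (B : κ → Pt ι) (q : Vq ι) (T : Finset κ) (y : Vq ι) : Set (Pt ι) :=
  {u | Cone (Bq B) T (hat q u - y)}

/-- No common zero in the torus. -/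
def NDx (B : κ → Pt ι) (c : κ → ℂ) (A : Finset ι) (T : Finset κ) : Prop :=
  ∀ x : Option ι → ℂ, (∀ o, x o ≠ 0) →
    ∃ i ∈ A, ∑ b ∈ T, c b * (B b (some i) : ℂ) * ∏ o, x o ^ B b o ≠ 0

/-- Nondegeneracy along all faces. -/
def FaceND (B : κ → Pt ι) (c : κ → ℂ) (A : Finset ι) (T : Finset κ) : Prop :=
  ∀ n : Vq ι, (∀ b ∈ T, 0 ≤ n ⬝ᵥ Bq B b) → (T.filter (fun b => n ⬝ᵥ Bq B b = 0)).Nonempty →
    NDx B c A (T.filter (fun b => n ⬝ᵥ Bq B b = 0))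

/-- The data of a fan. -/
structure IsFan (B : κ → Pt ι) (c : κ → ℂ) (K : Finset ι) (η : ℚ) (W : Finset (ι → ℚ))
    (wc : (ι → ℚ) → ι → ℚ) : Prop where
  pos : 0 < η
  nonneg : ∀ b, ∀ k ∉ K, 0 ≤ B b (some k)
  feas : ∀ ψ ∈ W, Feas (bx B) (val B η) ψ
  cover : ∀ p : ι → ℚ, (∀ k ∉ K, 0 ≤ p k) → ∃ ψ ∈ W, Cone (bx B) (Tt (bx B) (val B η) ψ) p
  cfeas : ∀ ψ ∈ W, Feas (bx B) (lev B) (wc ψ)
  csub : ∀ ψ ∈ W, Tt (bx B) (val B η) ψ ⊆ Tt (bx B) (lev B) (wc ψ)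
  nd : ∀ ψ, Feas (bx B) (val B η) ψ → (Tt (bx B) (val B η) ψ).Nonempty →
    NDx B c univ (Tt (bx B) (val B η) ψ)

/-- The point and the vector lie in a common cone of the fan. -/
def Sim (B : κ → Pt ι) (η : ℚ) (W : Finset (ι → ℚ)) (p : ι → ℚ) (b : κ) : Prop :=
  ∃ ψ ∈ W, (∀ ψ' ∈ W, ψ ⬝ᵥ p ≤ ψ' ⬝ᵥ p) ∧ ψ ⬝ᵥ bx B b = val B η b

open Classical in
/-- The operators of the face ring. -/
noncomputable def Ftr (B : κ → Pt ι) (c : κ → ℂ) (η : ℚ) (W : Finset (ι → ℚ)) (q y : Vq ι)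
    (i : ι) : Op (Pt ι) :=
  op B 0 (fun u b => if Sim B η W (pp q y u) b then c b * (B b (some i) : ℂ) else 0)

/-- Strictly inside all walls. -/
def Ypos (W : Finset (ι → ℚ)) (wc : (ι → ℚ) → ι → ℚ) (q y : Vq ι) : Set (Pt ι) :=
  {u | ∀ ψ ∈ W, 0 < hw (wc ψ) ⬝ᵥ (hat q u - y)}

/-- Inside all walls. -/
def Ynn (K : Finset ι) (W : Finset (ι → ℚ)) (wc : (ι → ℚ) → ι → ℚ) (q y : Vq ι) : Set (Pt ι) :=
  {u | (∀ k ∉ K, 0 ≤ pp q y u k) ∧ ∀ ψ ∈ W, 0 ≤ hw (wc ψ) ⬝ᵥ (hat q u - y)}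

/-- The boundary layer. -/
def GG (K : Finset ι) (W : Finset (ι → ℚ)) (wc : (ι → ℚ) → ι → ℚ) (q y : Vq ι) : Set (Pt ι) :=
  Ynn K W wc q y \ Ypos W wc q y

/-- The forms without poles along the coordinates in `S`. -/
def NonLog (K : Finset ι) (W : Finset (ι → ℚ)) (wc : (ι → ℚ) → ι → ℚ) (q y : Vq ι)
    (S : Finset ι) : Finset ι → Set (Pt ι) :=
  fun J => {u | u ∈ GG K W wc q y ∧ ∀ k ∈ S \ J, 0 < pp q y u k}

/-- The relations. -/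
noncomputable def N0 (B : κ → Pt ι) (c : κ → ℂ) (q : Vq ι) (Y : Set (Pt ι)) :
    Submodule ℂ (Pt ι →₀ ℂ) :=
  (⨆ i, LinearMap.range (Dx B c q i)) ⊔ Su Y

/-- The exponents of the twisted polynomial. -/
def BB (a : κ → ι →₀ ℕ) (K : Finset ι) : κ ⊕ ι ⊕ K → Pt ι :=
  Sum.elim (fun j o => (Aof a j o : ℤ))
    (Sum.elim (fun k => Pi.single (some k) 1) (fun k => Pi.single (some k.1) (-1)))

end Ops

/-- The Nullstellensatz, as a contracting homotopy. -/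
def NSStmt : Prop :=
  ∀ (ι κ : Type) [Fintype ι] [LinearOrder ι] [Fintype κ] [DecidableEq κ] (B : κ → Pt ι)
    (c : κ → ℂ) (A : Finset ι) (T : Finset κ), FaceND B c A T → ∀ v ∈ T,
    ∃ G : ι → Op (Pt ι), (∀ i ∉ A, G i = 0) ∧ (∀ i k, Commute (G i) (FT B c T k)) ∧
      ∑ i, FT B c T i * G i = 1 ∧
      ∀ Y : Set (Pt ι), (∀ u ∈ Y, ∀ b ∈ T, u + B b ∈ Y) → (∀ u ∈ Y, u - B v ∈ Y) →
        ∀ i, ∀ e ∈ Su Y, G i e ∈ Su Y

/-- Shifted cones are Cohen-Macaulay. -/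
def CMStmt : Prop :=
  ∀ (ι κ : Type) [Fintype ι] [LinearOrder ι] [Fintype κ] [DecidableEq κ] (B : κ → Pt ι)
    (c : κ → ℂ) (A : Finset ι) (T : Finset κ), FaceND B c A T → ∀ (q y : Vq ι) (k : ℕ),
    #A < k + rk (Bq B) T → Ex (FT B c T) k (res A (CY B q T y)) (emp _ _)

/-- The face ring of a coordinate face is Cohen-Macaulay. -/
def ShellStmt : Prop :=
  ∀ (ι κ : Type) [Fintype ι] [LinearOrder ι] [Fintype κ] [DecidableEq κ] (B : κ → Pt ι)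
    (c : κ → ℂ) (K : Finset ι) (η : ℚ) (W : Finset (ι → ℚ)) (wc : (ι → ℚ) → ι → ℚ),
    IsFan B c K η W wc → ∀ (q y : Vq ι) (A : Finset ι), K ⊆ A → ∀ k : ℕ, 1 ≤ k →
    Ex (Ftr B c η W q y) k (res A (GG K W wc q y))
      (res A {u | u ∈ GG K W wc q y ∧ ∃ i ∉ A, 0 < pp q y u i})

/-- From forms with logarithmic poles to forms without poles. -/
def LinkStmt : Prop :=
  ∀ (ι κ : Type) [Fintype ι] [LinearOrder ι] [Fintype κ] [DecidableEq κ] (B : κ → Pt ι)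
    (c : κ → ℂ) (K : Finset ι) (η : ℚ) (W : Finset (ι → ℚ)) (wc : (ι → ℚ) → ι → ℚ),
    IsFan B c K η W wc → ∀ (q y : Vq ι) (S : Finset ι), Disjoint S K →
    Ex (Ftr B c η W q y) 1 (fun _ => GG K W wc q y) (NonLog K W wc q y S)

/-- From the leading terms to the operators. -/
def RedStmt : Prop :=
  ∀ (X ι : Type) [Fintype ι] [LinearOrder ι] (D F : ι → Op X) (Y Y' : Set X) (deg : X → ℚ)
    (m : ℕ), Comm D → Y' ⊆ Y → Stab D (fun _ => Y) → Stab D (fun _ => Y') → 0 < m →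
    (∀ u ∈ Y \ Y', ∃ z : ℕ, m * deg u = z) →
    (∀ i, ∀ u ∈ Y \ Y', F i (Finsupp.single u 1) ∈ Su {v | v ∈ Y \ Y' ∧ deg v = deg u + 1} ∧
      D i (Finsupp.single u 1) - F i (Finsupp.single u 1) ∈
        Su (Y' ∪ {v | v ∈ Y \ Y' ∧ deg v < deg u + 1})) →
    Ex F 1 (fun _ => Y \ Y') (emp _ _) →
    Ex D 1 (fun _ => Y) (fun _ => Y') ∧
    ∀ u0 ∈ Y \ Y', ∀ e, Deg 1 e → In (fun _ => Y) e →
      kd D e ∅ - Finsupp.single u0 1 ∈ Su Y' →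
      ∃ e', Deg 1 e' ∧ In (fun _ => Y \ Y') e' ∧ kd F e' ∅ = Finsupp.single u0 1

/-- One layer: the twisted complex is exact, and a relation has a leading term. -/
def OneStmt : Prop :=
  ∀ (ι κ : Type) [Fintype ι] [LinearOrder ι] [Fintype κ] [DecidableEq κ] (B : κ → Pt ι)
    (c : κ → ℂ) (K : Finset ι) (η : ℚ) (W : Finset (ι → ℚ)) (wc : (ι → ℚ) → ι → ℚ),
    IsFan B c K η W wc → ∀ q y : Vq ι,
    Ex (Dx B c q) 1 (fun _ => Ynn K W wc q y) (fun _ => Ynn K W wc q y ∩ Ypos W wc q y) ∧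
    ∀ u0 ∈ GG K W wc q y, ∀ e, Deg 1 e → In (fun _ => Ynn K W wc q y) e →
      kd (Dx B c q) e ∅ - Finsupp.single u0 1 ∈ Su (Ynn K W wc q y ∩ Ypos W wc q y) →
      ∃ e', Deg 1 e' ∧ In (fun _ => GG K W wc q y) e' ∧
        kd (Ftr B c η W q y) e' ∅ = Finsupp.single u0 1

/-- A relation in the whole lattice gives a relation in the face ring. -/
def LayerStmt : Prop :=
  ∀ (ι κ : Type) [Fintype ι] [LinearOrder ι] [Fintype κ] [DecidableEq κ] (B : κ → Pt ι)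
    (c : κ → ℂ) (K : Finset ι) (η : ℚ) (W : Finset (ι → ℚ)) (wc : (ι → ℚ) → ι → ℚ),
    IsFan B c K η W wc → ∀ q y : Vq ι, (∀ k ∉ K, y (some k) ≤ 0) → ∀ u0 ∈ GG K W wc q y,
    Finsupp.single u0 1 ∈ N0 B c q (Ypos W wc q y) →
    ∃ e, Deg 1 e ∧ In (fun _ => GG K W wc q y) e ∧
      kd (Ftr B c η W q y) e ∅ = Finsupp.single u0 1

/-- Projection to the closed cone of a face. -/
def ProjStmt : Prop :=
  ∀ (ι κ : Type) [Fintype ι] [LinearOrder ι] [Fintype κ] [DecidableEq κ] (B : κ → Pt ι)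
    (c : κ → ℂ) (K : Finset ι) (η : ℚ) (W : Finset (ι → ℚ)) (wc : (ι → ℚ) → ι → ℚ),
    IsFan B c K η W wc → ∀ (w : ι → ℚ) (T : Finset κ) (τ : κ → ℚ) (μ : ι → ℚ) (ν : ℚ)
    (S : Finset ι) (q y : Vq ι), Feas (bx B) (val B η) w → T = Tt (bx B) (val B η) w →
    (∀ b ∈ T, B b none = 1) → (∀ b ∈ T, 0 ≤ τ b) → y = q - ∑ b ∈ T, τ b • Bq B b → Disjoint S K →
    (∀ k, 0 ≤ μ k) → (∀ k ∉ S, μ k = 0) → (∀ k ∈ S, ∑ b ∈ T, τ b * bx B b k = 1) →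
    (∀ b ∈ T, μ ⬝ᵥ bx B b ≤ 1) → ν = ∑ b ∈ T, τ b * (1 - μ ⬝ᵥ bx B b) → ν < 1 →
    ∀ e, Deg 1 e → In (NonLog K W wc q y S) e →
    kd (Ftr B c η W q y) e ∅ = Finsupp.single 0 1 →
    ∀ x : Option ι → ℂ, (∀ o, x o ≠ 0) →
      ∃ i, 1 - ν ≤ μ i ∧ ∑ b ∈ T, c b * (B b (some i) : ℂ) * ∏ o, x o ^ B b o ≠ 0

/-- Classes killed by a polynomial in the level operator. -/
def KillStmt : Prop :=
  ∀ (ι κ : Type) [Fintype ι] [LinearOrder ι] [Fintype κ] [DecidableEq κ] (B : κ → Pt ι)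
    (c : κ → ℂ) (W : Finset (ι → ℚ)) (wc : (ι → ℚ) → ι → ℚ) (q y : Vq ι)
    (S : Submonoid (Polynomial ℂ)) (Z : Set (Pt ι)),
    (∀ ψ ∈ W, Feas (bx B) (lev B) (wc ψ)) → (∀ u ∈ Z, ∀ b, u + B b ∈ Z) →
    (∀ u ∈ Z, ∀ ψ ∈ W, (∀ ψ' ∈ W, hw (wc ψ) ⬝ᵥ (hat q u - y) ≤ hw (wc ψ') ⬝ᵥ (hat q u - y)) →
      hw (wc ψ) ⬝ᵥ (hat q u - y) ≤ 0 →
      Polynomial.X + Polynomial.C ((hw (wc ψ) ⬝ᵥ hat q u : ℚ) : ℂ) ∈ S) →
    ∀ u ∈ Z, ∃ π ∈ S,
      Polynomial.aeval (D0 B c q) π (Finsupp.single u 1) ∈ N0 B c q (Ypos W wc q y)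

/-- The consequence of the functional equation. -/
def SVStmt : Prop :=
  ∀ (ι κ : Type) [Fintype ι] [LinearOrder ι] [Fintype κ] [DecidableEq κ] (a : κ → ι →₀ ℕ)
    (c : κ → ℂ) (b : Polynomial ℂ), BEq a c ((Polynomial.X + 1) * b) →
    ∀ (K : Finset ι) (γ : ι ⊕ K → ℂ) (l : ℚ) (N : Submodule ℂ (Pt ι →₀ ℂ)),
    (∀ i e, Dx (BB a K) (Sum.elim c γ) (qq l (fun _ => 1)) i e ∈ N) →
    (∀ e ∈ N, D0 (BB a K) (Sum.elim c γ) (qq l (fun _ => 1)) e ∈ N) →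
    (∀ u : Pt ι, u none = -1 → (∀ k ∉ K, 0 ≤ u (some k)) → Finsupp.single u 1 ∈ N) →
    Polynomial.aeval (D0 (BB a K) (Sum.elim c γ) (qq l (fun _ => 1)) - (l : ℂ) • 1) b
      (Finsupp.single 0 1) ∈ N

/-- Generic coefficients for the twist. -/
def GammaStmt : Prop :=
  ∀ (α κ : Type) [Fintype α] [Fintype κ] (c : κ → ℂ), ∃ γ : α → ℂ,
    ∀ (ι : Type) [Fintype ι] (a : κ → ι →₀ ℕ) (e : α → ι → ℤ) (S : Finset κ)
      (S' : Finset α) (x : ι → ℂ) (τ : ℂ), S'.Nonempty → (∀ i, x i ≠ 0) →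
      ∑ j ∈ S, c j * ∏ k, x k ^ a j k = 0 → ∑ j ∈ S', γ j * ∏ k, x k ^ e j k = 0 →
      ∃ i, τ * ∑ j ∈ S, c j * a j i * ∏ k, x k ^ a j k +
        ∑ j ∈ S', γ j * e j i * ∏ k, x k ^ e j k ≠ 0

/-- The fan exists. -/
def FanStmt : Prop :=
  ∀ (ι κ : Type) [Fintype ι] [LinearOrder ι] [Fintype κ] [DecidableEq κ] (a : κ → ι →₀ ℕ)
    (c : κ → ℂ) (K : Finset ι), NDP a c → (∃ w, InG a w ∧ ∀ k ∈ K, w k = 0) →
    ∃ (γ : ι ⊕ K → ℂ) (η : ℚ) (W : Finset (ι → ℚ)) (wc : (ι → ℚ) → ι → ℚ),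
      IsFan (BB a K) (Sum.elim c γ) K η W wc

/-- If `-l` is not a root, the block of the certificate is valid. -/
def DStmt : Prop :=
  ∀ (ι κ : Type) [Fintype ι] [LinearOrder ι] [Fintype κ] [DecidableEq κ] (a : κ → ι →₀ ℕ)
    (c : κ → ℂ) (b : Polynomial ℂ) (l : ℝ), NDP a c →
    BEq a c ((Polynomial.X + 1) * b) → b.eval (-(l : ℂ)) ≠ 0 → ∀ w, InP a l w →
    ∀ τ μ, Cert a (Tw a w) (Fw w) τ μ → ¬ Solv a c (Tw a w) (LinSet a (Tw a w) τ μ)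

/-- The point counts. -/
def GlobStmt : Prop :=
  ∀ (ι κ : Type) [Fintype ι] [LinearOrder ι] [Fintype κ] [DecidableEq κ] (a : κ → ι →₀ ℕ)
    (c : κ → ℤ) (b : Polynomial ℂ) (p : ℕ) (g : MvPolynomial ι ℂ), p.Prime →
    Function.Injective a → (∀ j, c j ≠ 0) → g = ∑ j, MvPolynomial.monomial (a j) (c j : ℂ) →
    (∀ w : ι → ℕ, Nond (fac (fun i => w i) g)) →
    (∀ w : ι → ℕ, (∀ n ∈ g.support, 0 < wgt (fun i => w i) n) → (∃ i, w i = 0) →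
      ∀ w' : ι → ℤ, Nond (fac w' (fac (fun i => w i) g))) →
    g.totalDegree ≠ 0 → BEq a (fun j => (c j : ℂ)) b → ∀ l : ℝ, b.eval (-(l : ℂ)) ≠ 0 →
    Good p l (fun m => (Nat.card {x : ι → ZMod (p ^ m) //
      MvPolynomial.aeval x (∑ j, MvPolynomial.monomial (a j) (c j)) = 0} : ℂ) *
        (((p : ℂ) ^ Fintype.card ι)⁻¹) ^ m)

end Pool.Agent.MP_5d9b3c_ag.H48N
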